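import Pool.Agent.H9.CV.Fin
import Pool.Agent.H45.AFH.Fin2

set_option autoImplicit false

/-!
Project CV (MP_ef6a16_nt, helper9), module Alm: curves through Fermat points, almost all primes.
-/

namespace H9CV

open NumberField Height

theorem Alm_growth {s M : ℝ} (hs : 0 < s) (m : ℕ) : ∃ x0 : ℕ, ∀ p : ℕ, x0 ≤ p →
    M ≤ (p : ℝ) ^ s / Real.log p ^ m := by
  have h := (isLittleO_log_rpow_rpow_atTop (m : ℝ) hs).bound
    (c := 1 / (|M| + 1)) (by positivity)
  have h2 := h.and (Filter.eventually_ge_atTop (3 : ℝ))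
  have h3 := (tendsto_natCast_atTop_atTop (R := ℝ)).eventually h2
  obtain ⟨x0, hx0⟩ := Filter.eventually_atTop.mp h3
  refine ⟨x0, fun p hp => ?_⟩
  obtain ⟨h4, h5⟩ := hx0 p hp
  have hl : 0 < Real.log (p : ℝ) := Real.log_pos (by linarith)
  have hlm : 0 < Real.log (p : ℝ) ^ m := pow_pos hl m
  rw [Real.rpow_natCast, Real.norm_of_nonneg hlm.le, Real.norm_of_nonneg (by positivity)] at h4
  rw [le_div_iff₀ hlm]
  have hM : M ≤ |M| + 1 := (le_abs_self M).trans (by linarith)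
  have hM' : 0 < |M| + 1 := by positivity
  calc M * Real.log (p : ℝ) ^ m ≤ (|M| + 1) * Real.log (p : ℝ) ^ m := by gcongr
    _ ≤ (|M| + 1) * (1 / (|M| + 1) * (p : ℝ) ^ s) := by gcongr
    _ = (p : ℝ) ^ s := by field_simp

/-- number fields of unit rank at least two, almost all primes -/
theorem curve_almost_all {K : Type*} [Field K] [NumberField K]
    (hω : ¬ ∃ ω : K, IsPrimitiveRoot ω 3) (h3 : 2 ≤ Units.rank K) (D : ℕ) :
    ∃ C δ : ℝ, 0 < δ ∧ ∀ X : ℝ, 3 ≤ X →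
      (({p : ℕ | p.Prime ∧ (p : ℝ) ≤ X ∧ ∃ F : MvPolynomial (Fin 3) K, F.IsHomogeneous D ∧ F ≠ 0 ∧
        mulHeight (fun m : F.support => F.coeff m) ≤
          Real.exp (δ * ((p : ℝ) ^ (1 / ((Units.rank K : ℝ) - 1)) / Real.log p ^ (Units.rank K + 3))) ∧
        ∃ x : Fin 3 → K, (∀ i, x i ≠ 0) ∧ x 0 ^ p + x 1 ^ p + x 2 ^ p = 0 ∧
          MvPolynomial.eval x F = 0} : Set ℕ).ncard : ℝ) ≤ C * (X / Real.log X ^ 2) := by
  have hrk : Units.rank K = Fintype.card (InfinitePlace K) - 1 := rfl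
  have hr : 3 ≤ Fintype.card (InfinitePlace K) := by lia
  have e2 : Fintype.card (InfinitePlace K) = Units.rank K + 1 := by lia
  obtain ⟨C₁, hC₁, hH⟩ := Pool.Agent.H45.AFH.headline hω hr
  obtain ⟨C, N, hC, h⟩ := curve_main (Module.finrank ℚ K) D
  set d := Module.finrank ℚ K with hd
  set ρ := Units.rank K with hρ
  have hρ2 : (2 : ℝ) ≤ ρ := by exact_mod_cast h3
  have hs : 0 < 1 / ((ρ : ℝ) - 1) := by
    have : 0 < (ρ : ℝ) - 1 := by linarith
    positivity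
  obtain ⟨x0, hx0⟩ := Alm_growth (M := 2 * Real.log C) hs (ρ + 3)
  have hδ : (0 : ℝ) < 1 / (2 * (N + 1)) := by positivity
  refine ⟨2 * ((x0 + N : ℕ) : ℝ) + C₁, 1 / (2 * (N + 1)), hδ, fun X hX => ?_⟩
  set S : Set ℕ := {p : ℕ | p.Prime ∧ (p : ℝ) ≤ X ∧ ∃ F : MvPolynomial (Fin 3) K,
    F.IsHomogeneous D ∧ F ≠ 0 ∧ mulHeight (fun m : F.support => F.coeff m) ≤
      Real.exp (1 / (2 * ((N : ℝ) + 1)) * ((p : ℝ) ^ (1 / ((ρ : ℝ) - 1)) / Real.log p ^ (ρ + 3))) ∧
    ∃ x : Fin 3 → K, (∀ i, x i ≠ 0) ∧ x 0 ^ p + x 1 ^ p + x 2 ^ p = 0 ∧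
      MvPolynomial.eval x F = 0} with hS
  set T : Set ℕ := Pool.Agent.H45.AFH.HS K (Fintype.card (InfinitePlace K)) X with hT
  have hTfin : T.Finite := by
    refine (Set.finite_Iic ⌊X⌋₊).subset fun p hp => ?_
    exact Nat.le_floor hp.2.1
  have hsub : S ⊆ (Finset.range (x0 + N) : Set ℕ) ∪ T := by
    intro p hp
    obtain ⟨hpp, hpX, F, hF, hF0, hFH, x, hx, hxp, hFx⟩ := hp
    by_cases hlt : p < x0 + N
    · left
      simpa using hlt
    right
    have h1 := (h K rfl F hF hF0 p hpp x hx hxp hFx).1 (by omega)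
    set Y : ℝ := (p : ℝ) ^ (1 / ((ρ : ℝ) - 1)) / Real.log p ^ (ρ + 3) with hY
    have h2 : 2 * Real.log C ≤ Y := hx0 p (by omega)
    have hY0 : 0 ≤ Y := le_trans (by have := Real.log_nonneg hC; linarith) h2
    have hxe : ![x 0, x 1, x 2] = x := by
      ext i
      fin_cases i <;> rfl
    refine ⟨hpp, hpX, x 0, x 1, x 2, hx 0, hx 1, hx 2, hxp, ?_⟩
    rw [hxe]
    have e3 : ((Fintype.card (InfinitePlace K) : ℕ) : ℝ) - 2 = (ρ : ℝ) - 1 := by
      rw [e2]
      push_cast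
      ring
    have e4 : Fintype.card (InfinitePlace K) + 2 = ρ + 3 := by omega
    rw [e3, e4, ← hY]
    have hCpos : 0 < C := by linarith
    have h4 : mulHeight x ≤ Real.exp (Real.log C + N * (1 / (2 * ((N : ℝ) + 1)) * Y)) := by
      rw [Real.exp_add, Real.exp_log hCpos, Real.exp_nat_mul]
      refine h1.trans ?_
      gcongr
    have h5 : Real.log C + N * (1 / (2 * ((N : ℝ) + 1)) * Y) ≤ Y := by
      have h6 : (N : ℝ) * (1 / (2 * ((N : ℝ) + 1)) * Y) ≤ Y / 2 := by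
        have h7 : (N : ℝ) * (1 / (2 * ((N : ℝ) + 1)) * Y) = (N / (N + 1)) * (Y / 2) := by
          field_simp
        rw [h7]
        have h8 : (N : ℝ) / (N + 1) ≤ 1 := by
          rw [div_le_one (by positivity)]
          linarith
        have h9 : 0 ≤ Y / 2 := by linarith
        nlinarith
      linarith
    have h6 : Real.log (mulHeight x) ≤ Real.log C + N * (1 / (2 * ((N : ℝ) + 1)) * Y) :=
      (Real.log_le_iff_le_exp (mulHeight_pos x)).mpr h4
    exact h6.trans h5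
  have hcard : (S.ncard : ℝ) ≤ ((x0 + N : ℕ) : ℝ) + T.ncard := by
    have h1 : S.ncard ≤ ((Finset.range (x0 + N) : Set ℕ) ∪ T).ncard :=
      Set.ncard_le_ncard hsub ((Finset.finite_toSet _).union hTfin)
    have h2 := Set.ncard_union_le (Finset.range (x0 + N) : Set ℕ) T
    rw [Set.ncard_coe_finset, Finset.card_range] at h2
    exact_mod_cast h1.trans h2
  have hX0 : 0 < X := by linarith
  have hlX : 0 < Real.log X := Real.log_pos (by linarith)
  have hq : Real.log X ^ 2 ≤ 2 * X := by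
    have := Real.quadratic_le_exp_of_nonneg hlX.le
    rw [Real.exp_log hX0] at this
    nlinarith
  have hone : (1 : ℝ) ≤ 2 * (X / Real.log X ^ 2) := by
    rw [← mul_div_assoc, le_div_iff₀ (by positivity)]
    linarith
  have hx00 : (0 : ℝ) ≤ ((x0 + N : ℕ) : ℝ) := Nat.cast_nonneg _
  have hTb := hH X hX
  rw [← hT] at hTb
  calc (S.ncard : ℝ) ≤ ((x0 + N : ℕ) : ℝ) * 1 + T.ncard := by rw [mul_one]; exact hcard
    _ ≤ ((x0 + N : ℕ) : ℝ) * (2 * (X / Real.log X ^ 2)) + C₁ * (X / Real.log X ^ 2) := by gcongr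
    _ = (2 * ((x0 + N : ℕ) : ℝ) + C₁) * (X / Real.log X ^ 2) := by ring

end H9CV
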