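import Pool.Agent.H9.CV.TDeg

set_option autoImplicit false

/-!
Project CV (MP_ef6a16_nt, helper9), module Clear: an integral multiple with small coefficients (constants independent of `K`).

`clear`: let `t ≠ 0` be some coefficient of `f`. For all `i, j ≤ D` the quotient `α_ij = f_ij / t` has
`mulHeight₁ α_ij = mulHeight ![f_ij, t] ≤ H := mulHeight (cv D f)` (`mulHeight₁_div_eq_mulHeight`, `mulHeight_comp_le`); by
`NumberField.exists_nat_le_mulHeight₁` (Mathlib, file `NumberTheory/Height/NumberField`) there is `0 < n_ij ≤ H` with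
`n_ij α_ij` integral. `n = ∏ n_ij ≤ H ^ ((D + 1) ^ 2)`; `f' = n / t * f` has coefficients `n α_ij ∈ 𝓞 K` of house
`≤ n * house α_ij ≤ H ^ ((D + 1) ^ 2) * H`: `house x ≤ mulHeight₁ x` since every `|σ x|` is the value of an infinite place and
`mulHeight₁ x` is a product of factors `≥ 1` one of which is `max (v x) 1 ^ mult` (`NumberField.mulHeight₁_eq`).
`szO f' ≤ (D + 1) ^ 2 H ^ ((D + 1) ^ 2 + 1)`.
-/

namespace H9CV

open Polynomial NumberField Height
open scoped Polynomial.Bivariate

private theorem Clear_emb {K : Type*} [Field K] [NumberField K] (x : K) (φ : K →+* ℂ) :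
    ‖φ x‖ ≤ mulHeight₁ x := by
  classical
  rw [NumberField.mulHeight₁_eq]
  have h0 : ‖φ x‖ = (InfinitePlace.mk φ) x := rfl
  have h1 : (InfinitePlace.mk φ) x ≤ max ((InfinitePlace.mk φ) x) 1 ^ (InfinitePlace.mk φ).mult := by
    refine le_trans (le_max_left _ (1 : ℝ)) ?_
    exact le_self_pow₀ (le_max_right _ _) (InfinitePlace.mk φ).mult_ne_zero
  have h2 : max ((InfinitePlace.mk φ) x) 1 ^ (InfinitePlace.mk φ).mult ≤
      ∏ v : InfinitePlace K, max (v x) 1 ^ v.mult := by
    rw [← Finset.mul_prod_erase Finset.univ (fun v : InfinitePlace K => max (v x) 1 ^ v.mult)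
      (Finset.mem_univ (InfinitePlace.mk φ))]
    refine le_mul_of_one_le_right (by positivity) ?_
    have h5 := Finset.prod_le_prod (s := Finset.univ.erase (InfinitePlace.mk φ))
      (f := fun _ : InfinitePlace K => (1 : ℝ)) (g := fun v : InfinitePlace K => max (v x) 1 ^ v.mult)
      (fun _ _ => zero_le_one) (fun v _ => one_le_pow₀ (le_max_right _ _))
    simpa using h5
  have h3 : (1 : ℝ) ≤ ∏ᶠ v : FinitePlace K, max (v x) 1 :=
    one_le_finprod fun _ => le_max_right _ _
  have h4 : (0 : ℝ) ≤ ∏ v : InfinitePlace K, max (v x) 1 ^ v.mult :=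
    Finset.prod_nonneg fun v _ => by positivity
  rw [h0]
  exact (h1.trans h2).trans (le_mul_of_one_le_right h4 h3)

theorem house_le_mulHeight₁ {K : Type*} [Field K] [NumberField K] (x : K) :
    house x ≤ mulHeight₁ x := by
  unfold house
  refine (pi_norm_le_iff_of_nonneg (zero_le_one.trans (one_le_mulHeight₁ x))).2 fun φ => ?_
  exact Clear_emb x φ

theorem clear {K : Type*} [Field K] [NumberField K] {D : ℕ} {f : K[X][Y]} (hf : f ≠ 0)
    (hTD : TD f D) : ∃ (f' : (𝓞 K)[X][Y]) (t : K), t ≠ 0 ∧ toK f' = t • f ∧ TD f' D ∧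
      szO f' ≤ ((D : ℝ) + 1) ^ 2 * mulHeight (cv D f) ^ ((D + 1) ^ 2 + 1) := by
  classical
  obtain ⟨i0, j0, hne⟩ : ∃ i j, (f.coeff i).coeff j ≠ 0 := by
    by_contra hcon
    push Not at hcon
    refine hf (Polynomial.ext fun i => ?_)
    refine Polynomial.ext fun j => ?_
    rw [hcon i j]
    simp
  have hij0 := hTD i0 j0 hne
  set H : ℝ := mulHeight (cv D f) with hH
  have hH1 : 1 ≤ H := one_le_mulHeight _
  set c0 : K := (f.coeff i0).coeff j0 with hc0
  let p0 : Fin (D + 1) × Fin (D + 1) := (⟨i0, by omega⟩, ⟨j0, by omega⟩)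
  have hp0 : cv D f p0 = c0 := rfl
  have hα : ∀ p, mulHeight₁ (cv D f p / c0) ≤ H := by
    intro p
    rw [mulHeight₁_div_eq_mulHeight]
    have h1 : ![cv D f p, c0] = cv D f ∘ ![p, p0] := by
      ext k
      fin_cases k <;> simp [hp0]
    rw [h1]
    exact mulHeight_comp_le _ _
  choose n hn0 hnle hnint using fun p => NumberField.exists_nat_le_mulHeight₁ (cv D f p / c0)
  set N : ℕ := ∏ p, n p with hN
  have hN0 : N ≠ 0 := Finset.prod_ne_zero_iff.2 fun p _ => hn0 p
  have hcard : (Finset.univ : Finset (Fin (D + 1) × Fin (D + 1))).card = (D + 1) ^ 2 := by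
    simp [sq]
  have hNle : (N : ℝ) ≤ H ^ ((D + 1) ^ 2) := by
    rw [hN, Nat.cast_prod, ← hcard, ← Finset.prod_const]
    refine Finset.prod_le_prod (fun p _ => Nat.cast_nonneg _) fun p _ => (hnle p).trans (hα p)
  have hint : ∀ p, IsIntegral ℤ ((N : K) * (cv D f p / c0)) := by
    intro p
    have h1 : N = (∏ q ∈ Finset.univ.erase p, n q) * n p :=
      (Finset.prod_erase_mul _ _ (Finset.mem_univ p)).symm
    rw [h1, Nat.cast_mul, mul_assoc]
    refine IsIntegral.mul ?_ (hnint p)
    generalize (∏ q ∈ Finset.univ.erase p, n q) = m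
    have h2 := isIntegral_algebraMap (R := ℤ) (A := K) (x := (m : ℤ))
    simpa using h2
  have hgc : ∀ i j, (((((N : K) / c0) • f : K[X][Y]).coeff i).coeff j) =
      (N : K) * ((f.coeff i).coeff j / c0) := by
    intro i j
    rw [coeff_smul, coeff_smul, smul_eq_mul]
    ring
  have hcoef : ∀ i j, (f.coeff i).coeff j ≠ 0 → ∃ p, cv D f p = (f.coeff i).coeff j := by
    intro i j h
    have := hTD i j h
    exact ⟨(⟨i, by omega⟩, ⟨j, by omega⟩), rfl⟩
  have hlift : (((N : K) / c0) • f : K[X][Y]) ∈ lifts (mapRingHom (algebraMap (𝓞 K) K)) := by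
    rw [lifts_iff_coeff_lifts]
    intro i
    have h1 : ((((N : K) / c0) • f : K[X][Y]).coeff i) ∈ lifts (algebraMap (𝓞 K) K) := by
      rw [lifts_iff_coeff_lifts]
      intro j
      rw [hgc i j]
      by_cases h : (f.coeff i).coeff j = 0
      · exact ⟨0, by simp [h]⟩
      · obtain ⟨p, hp⟩ := hcoef i j h
        have h2 := hint p
        rw [hp] at h2
        exact (IsIntegralClosure.isIntegral_iff (A := 𝓞 K)).1 h2
    exact (mem_lifts _).1 h1
  obtain ⟨f', hf'⟩ := (mem_lifts _).1 hlift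
  have hto : toK f' = ((N : K) / c0) • f := hf'
  have hcf' : ∀ i j, (((f'.coeff i).coeff j : 𝓞 K) : K) = (N : K) * ((f.coeff i).coeff j / c0) := by
    intro i j
    rw [← hgc i j, ← hf', coeff_map]
    simp
  have hz : ∀ i j, (f'.coeff i).coeff j ≠ 0 → (f.coeff i).coeff j ≠ 0 := by
    intro i j h h0
    apply h
    have h1 := hcf' i j
    rw [h0, zero_div, mul_zero] at h1
    exact_mod_cast h1
  have hhouse : ∀ i j, house (((f'.coeff i).coeff j : 𝓞 K) : K) ≤ H ^ ((D + 1) ^ 2 + 1) := by
    intro i j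
    by_cases h : (f.coeff i).coeff j = 0
    · rw [hcf' i j, h, zero_div, mul_zero]
      have h0 : house (0 : K) = 0 := by
        unfold house
        simp
      rw [h0]
      positivity
    · obtain ⟨p, hp⟩ := hcoef i j h
      rw [hcf' i j, house_nat_mul, pow_succ]
      refine mul_le_mul hNle ?_ (house_nonneg _) (by positivity)
      rw [← hp]
      exact (house_le_mulHeight₁ _).trans (hα p)
  have hTD' : TD f' D := fun i j h => hTD i j (hz i j h)
  refine ⟨f', (N : K) / c0, div_ne_zero (by exact_mod_cast hN0) hne, hto, hTD', ?_⟩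
  set B : ℝ := H ^ ((D + 1) ^ 2 + 1) with hB
  have hB0 : 0 ≤ B := by positivity
  have hin : ∀ i, (((f'.coeff i).sum fun _ c => house (c : K)) : ℝ) ≤ ((D : ℝ) + 1) * B := by
    intro i
    unfold Polynomial.sum
    refine (Finset.sum_le_sum fun j _ => hhouse i j).trans ?_
    rw [Finset.sum_const, nsmul_eq_mul]
    refine mul_le_mul_of_nonneg_right ?_ hB0
    have h1 : (f'.coeff i).support ⊆ Finset.range (D + 1) := by
      intro j hj
      have := hTD' i j (mem_support_iff.1 hj)
      exact Finset.mem_range.2 (by omega)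
    have h2 := Finset.card_le_card h1
    rw [Finset.card_range] at h2
    exact_mod_cast h2
  unfold szO
  rw [Polynomial.sum]
  refine (Finset.sum_le_sum fun i _ => hin i).trans ?_
  rw [Finset.sum_const, nsmul_eq_mul]
  have h1 : f'.support ⊆ Finset.range (D + 1) := by
    intro i hi
    have h2 : f'.coeff i ≠ 0 := mem_support_iff.1 hi
    obtain ⟨j, hj⟩ : ∃ j, (f'.coeff i).coeff j ≠ 0 := by
      by_contra hcon
      push Not at hcon
      exact h2 (Polynomial.ext fun j => by rw [hcon j]; simp)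
    have := hTD' i j hj
    exact Finset.mem_range.2 (by omega)
  have h2 := Finset.card_le_card h1
  rw [Finset.card_range] at h2
  have h3 : ((f'.support.card : ℕ) : ℝ) ≤ (D : ℝ) + 1 := by exact_mod_cast h2
  calc ((f'.support.card : ℕ) : ℝ) * (((D : ℝ) + 1) * B)
      ≤ ((D : ℝ) + 1) * (((D : ℝ) + 1) * B) := mul_le_mul_of_nonneg_right h3 (by positivity)
    _ = ((D : ℝ) + 1) ^ 2 * B := by ring

end H9CV
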