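import Pool.Agent.H9.CV.DelSz

set_option autoImplicit false

/-!
Project CV (MP_ef6a16_nt, helper9), module Gel: factors of small integral polynomials are small.

* `gel_cpx`: compactness. `V = Fin (D + 1) × Fin (D + 1) → ℂ` (sup norm), multiplication of polynomials
  `V × V → (Fin (2 D + 1) × Fin (2 D + 1) → ℂ)` is continuous, and nonzero on the compact set of pairs of norm `1` (`ℂ[X][Y]` is a
  domain); so `‖g h‖ ≥ κ ‖g‖ ‖h‖` with `κ > 0` depending only on `D` (sum of the norms of all coefficients or sup norm,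
  comparable). If `TD (g * h) D` the coefficients of `g * h` outside `Fin (D + 1) × Fin (D + 1)` vanish.
* `gelfond`: `g, h ∈ ℤ[x][y]` nonzero, by `TD_of_mul` both have total degree `≤ D`; `h` has a coefficient of absolute value
  `≥ 1`. Apply `gel_cpx` to the images in `ℂ[X][Y]`: `sup |g_ij| ≤ sup |g_ij| sup |h_ij| ≤ c sup |(g h)_ij| ≤ c sz (g h)` and
  `sz g ≤ (D + 1) ^ 2 sup |g_ij|` (`sz_eq_box`).
-/

namespace H9CV

open Polynomial
open scoped Polynomial.Bivariate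

private theorem Gel_coeff_mul {D : ℕ} {g h : ℂ[X][Y]} (hg : TD g D) (hh : TD h D) (a b : ℕ) :
    ((g * h).coeff a).coeff b = ∑ i : Fin (D + 1) × Fin (D + 1), ∑ j : Fin (D + 1) × Fin (D + 1),
      if (i.1 : ℕ) + j.1 = a ∧ (i.2 : ℕ) + j.2 = b then
        (g.coeff i.1).coeff i.2 * (h.coeff j.1).coeff j.2 else 0 := by
  have rep : ∀ f : ℂ[X][Y], TD f D → f = ∑ i : Fin (D + 1) × Fin (D + 1),
      monomial (i.1 : ℕ) (monomial (i.2 : ℕ) ((f.coeff i.1).coeff i.2)) := by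
    intro f hf
    ext a b : 2
    rw [finsetSum_coeff, finsetSum_coeff]
    simp only [coeff_monomial, apply_ite (fun p : ℂ[X] => p.coeff b), coeff_zero]
    by_cases hab : a < D + 1 ∧ b < D + 1
    · rw [Finset.sum_eq_single (⟨a, hab.1⟩, ⟨b, hab.2⟩)]
      · simp
      · intro i _ hi
        by_cases h1 : (i.1 : ℕ) = a
        · by_cases h2 : (i.2 : ℕ) = b
          · exact absurd (Prod.ext (Fin.ext h1) (Fin.ext h2)) hi
          · simp [h2]
        · simp [h1]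
      · intro h
        exact absurd (Finset.mem_univ _) h
    · have h0 : (f.coeff a).coeff b = 0 := by
        by_contra hne
        have := hf a b hne
        omega
      rw [h0]
      symm
      apply Finset.sum_eq_zero
      intro i _
      by_cases h1 : (i.1 : ℕ) = a
      · by_cases h2 : (i.2 : ℕ) = b
        · exfalso
          have l1 := i.1.isLt
          have l2 := i.2.isLt
          omega
        · simp [h2]
      · simp [h1]
  conv_lhs => rw [rep g hg, rep h hh]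
  rw [Finset.sum_mul_sum, finsetSum_coeff, finsetSum_coeff]
  refine Finset.sum_congr rfl fun i _ => ?_
  rw [finsetSum_coeff, finsetSum_coeff]
  refine Finset.sum_congr rfl fun j _ => ?_
  rw [monomial_mul_monomial, monomial_mul_monomial, coeff_monomial]
  by_cases h1 : (i.1 : ℕ) + j.1 = a
  · rw [if_pos h1, coeff_monomial]
    by_cases h2 : (i.2 : ℕ) + j.2 = b
    · rw [if_pos h2, if_pos ⟨h1, h2⟩]
    · rw [if_neg h2, if_neg (fun h => h2 h.2)]
  · rw [if_neg h1, if_neg (fun h => h1 h.1), coeff_zero]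

/-- The polynomial with given coefficients. -/
private noncomputable def Gel_P (D : ℕ) (v : Fin (D + 1) × Fin (D + 1) → ℂ) : ℂ[X][Y] :=
  ∑ i : Fin (D + 1) × Fin (D + 1), monomial (i.1 : ℕ) (monomial (i.2 : ℕ) (v i))

private theorem Gel_P_coeff (D : ℕ) (v : Fin (D + 1) × Fin (D + 1) → ℂ)
    (i : Fin (D + 1) × Fin (D + 1)) : ((Gel_P D v).coeff i.1).coeff i.2 = v i := by
  unfold Gel_P
  rw [finsetSum_coeff, finsetSum_coeff]
  simp only [coeff_monomial, apply_ite (fun p : ℂ[X] => p.coeff (i.2 : ℕ)), coeff_zero]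
  rw [Finset.sum_eq_single i]
  · simp
  · intro j _ hj
    by_cases h1 : (j.1 : ℕ) = i.1
    · by_cases h2 : (j.2 : ℕ) = i.2
      · exact absurd (Prod.ext (Fin.ext h1) (Fin.ext h2)) hj
      · simp [h2]
    · simp [h1]
  · intro h
    exact absurd (Finset.mem_univ _) h

private theorem Gel_P_ne {D : ℕ} {v : Fin (D + 1) × Fin (D + 1) → ℂ} (hv : v ≠ 0) :
    Gel_P D v ≠ 0 := by
  intro h
  apply hv
  funext i
  rw [← Gel_P_coeff D v i, h]
  simp

/-- The coefficients of the product. -/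
private noncomputable def Gel_F (D : ℕ) (x : (Fin (D + 1) × Fin (D + 1) → ℂ) × (Fin (D + 1) × Fin (D + 1) → ℂ)) :
    Fin (2 * D + 1) × Fin (2 * D + 1) → ℂ := fun c =>
  ∑ i : Fin (D + 1) × Fin (D + 1), ∑ j : Fin (D + 1) × Fin (D + 1),
    if (i.1 : ℕ) + j.1 = c.1 ∧ (i.2 : ℕ) + j.2 = c.2 then x.1 i * x.2 j else 0

private theorem Gel_F_cont (D : ℕ) : Continuous (Gel_F D) := by
  unfold Gel_F
  refine continuous_pi fun c => continuous_finsetSum _ fun i _ => continuous_finsetSum _ fun j _ => ?_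
  by_cases h : (i.1 : ℕ) + j.1 = c.1 ∧ (i.2 : ℕ) + j.2 = c.2
  · simp only [h, and_self, if_true]
    exact ((continuous_apply i).comp continuous_fst).mul ((continuous_apply j).comp continuous_snd)
  · simp only [h, if_false]
    exact continuous_const

private theorem Gel_F_smul (D : ℕ) (s t : ℂ) (v w : Fin (D + 1) × Fin (D + 1) → ℂ) :
    Gel_F D (s • v, t • w) = (s * t) • Gel_F D (v, w) := by
  funext c
  simp only [Gel_F, Pi.smul_apply, smul_eq_mul, Finset.mul_sum]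
  refine Finset.sum_congr rfl fun i _ => Finset.sum_congr rfl fun j _ => ?_
  split_ifs
  · ring
  · ring

/-- General coefficients of the product of `Gel_P`. -/
private theorem Gel_mul_coeff (D : ℕ) (v w : Fin (D + 1) × Fin (D + 1) → ℂ) (a b : ℕ) :
    ((Gel_P D v * Gel_P D w).coeff a).coeff b =
      ∑ i : Fin (D + 1) × Fin (D + 1), ∑ j : Fin (D + 1) × Fin (D + 1),
      if (i.1 : ℕ) + j.1 = a ∧ (i.2 : ℕ) + j.2 = b then v i * w j else 0 := by
  unfold Gel_P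
  rw [Finset.sum_mul_sum, finsetSum_coeff, finsetSum_coeff]
  refine Finset.sum_congr rfl fun i _ => ?_
  rw [finsetSum_coeff, finsetSum_coeff]
  refine Finset.sum_congr rfl fun j _ => ?_
  rw [monomial_mul_monomial, monomial_mul_monomial, coeff_monomial]
  by_cases h1 : (i.1 : ℕ) + j.1 = a
  · rw [if_pos h1, coeff_monomial]
    by_cases h2 : (i.2 : ℕ) + j.2 = b
    · rw [if_pos h2, if_pos ⟨h1, h2⟩]
    · rw [if_neg h2, if_neg (fun h => h2 h.2)]
  · rw [if_neg h1, if_neg (fun h => h1 h.1), coeff_zero]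

private theorem Gel_F_ne {D : ℕ} {v w : Fin (D + 1) × Fin (D + 1) → ℂ} (hv : v ≠ 0) (hw : w ≠ 0) :
    Gel_F D (v, w) ≠ 0 := by
  have hne := mul_ne_zero (Gel_P_ne hv) (Gel_P_ne hw)
  intro h0
  apply hne
  ext a b : 2
  rw [Gel_mul_coeff, coeff_zero, coeff_zero]
  by_cases hab : a < 2 * D + 1 ∧ b < 2 * D + 1
  · exact congrFun h0 (⟨a, hab.1⟩, ⟨b, hab.2⟩)
  · apply Finset.sum_eq_zero
    intro i _
    apply Finset.sum_eq_zero
    intro j _
    rw [if_neg]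
    rintro ⟨h1, h2⟩
    have l1 := i.1.isLt
    have l2 := i.2.isLt
    have l3 := j.1.isLt
    have l4 := j.2.isLt
    omega

private theorem Gel_kappa (D : ℕ) : ∃ κ : ℝ, 0 < κ ∧ ∀ v w : Fin (D + 1) × Fin (D + 1) → ℂ,
    κ * (‖v‖ * ‖w‖) ≤ ‖Gel_F D (v, w)‖ := by
  set S : Set ((Fin (D + 1) × Fin (D + 1) → ℂ) × (Fin (D + 1) × Fin (D + 1) → ℂ)) :=
    Metric.sphere 0 1 ×ˢ Metric.sphere 0 1 with hS
  have hSc : IsCompact S := (isCompact_sphere 0 1).prod (isCompact_sphere 0 1)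
  have hone : ‖(fun _ => 1 : Fin (D + 1) × Fin (D + 1) → ℂ)‖ = 1 := by
    rw [pi_norm_const]
    simp
  have hSn : S.Nonempty := ⟨(fun _ => 1, fun _ => 1), by
    rw [hS]
    constructor
    · change (fun _ => 1 : Fin (D + 1) × Fin (D + 1) → ℂ) ∈ Metric.sphere 0 1
      rw [mem_sphere_zero_iff_norm]
      exact hone
    · change (fun _ => 1 : Fin (D + 1) × Fin (D + 1) → ℂ) ∈ Metric.sphere 0 1
      rw [mem_sphere_zero_iff_norm]
      exact hone⟩
  obtain ⟨x, hx, hmin⟩ := hSc.exists_isMinOn hSn (Gel_F_cont D).norm.continuousOn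
  have hx1 : ‖x.1‖ = 1 := mem_sphere_zero_iff_norm.mp hx.1
  have hx2 : ‖x.2‖ = 1 := mem_sphere_zero_iff_norm.mp hx.2
  have hx1' : x.1 ≠ 0 := by
    intro h
    rw [h, norm_zero] at hx1
    exact zero_ne_one hx1
  have hx2' : x.2 ≠ 0 := by
    intro h
    rw [h, norm_zero] at hx2
    exact zero_ne_one hx2
  refine ⟨‖Gel_F D x‖, norm_pos_iff.mpr (Gel_F_ne hx1' hx2'), ?_⟩
  intro v w
  by_cases hv : v = 0
  · rw [hv, norm_zero, zero_mul, mul_zero]
    exact norm_nonneg _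
  by_cases hw : w = 0
  · rw [hw, norm_zero, mul_zero, mul_zero]
    exact norm_nonneg _
  have hv' : 0 < ‖v‖ := norm_pos_iff.mpr hv
  have hw' : 0 < ‖w‖ := norm_pos_iff.mpr hw
  have h1 : (((‖v‖⁻¹ : ℝ) : ℂ) • v, ((‖w‖⁻¹ : ℝ) : ℂ) • w) ∈ S := by
    rw [hS]
    constructor
    · change ((‖v‖⁻¹ : ℝ) : ℂ) • v ∈ Metric.sphere 0 1
      rw [mem_sphere_zero_iff_norm, norm_smul, Complex.norm_real, Real.norm_eq_abs,
        abs_of_pos (inv_pos.mpr hv'), inv_mul_cancel₀ hv'.ne']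
    · change ((‖w‖⁻¹ : ℝ) : ℂ) • w ∈ Metric.sphere 0 1
      rw [mem_sphere_zero_iff_norm, norm_smul, Complex.norm_real, Real.norm_eq_abs,
        abs_of_pos (inv_pos.mpr hw'), inv_mul_cancel₀ hw'.ne']
  have h2 : ‖Gel_F D x‖ ≤ ‖Gel_F D (((‖v‖⁻¹ : ℝ) : ℂ) • v, ((‖w‖⁻¹ : ℝ) : ℂ) • w)‖ := hmin h1
  rw [Gel_F_smul, norm_smul, norm_mul, Complex.norm_real, Complex.norm_real, Real.norm_eq_abs,
    Real.norm_eq_abs, abs_of_pos (inv_pos.mpr hv'), abs_of_pos (inv_pos.mpr hw')] at h2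
  have h3 := mul_le_mul_of_nonneg_right h2 (mul_pos hv' hw').le
  have h4 : ‖v‖⁻¹ * ‖w‖⁻¹ * ‖Gel_F D (v, w)‖ * (‖v‖ * ‖w‖) = ‖Gel_F D (v, w)‖ := by
    field_simp
  rw [h4] at h3
  exact h3

private theorem Gel_sup {ι : Type} [Fintype ι] [Nonempty ι] (v : ι → ℂ) : ⨆ i, ‖v i‖ = ‖v‖ := by
  apply le_antisymm
  · exact ciSup_le fun i => norm_le_pi_norm v i
  · have hb : BddAbove (Set.range fun i => ‖v i‖) := Set.finite_range _ |>.bddAbove
    rw [pi_norm_le_iff_of_nonneg]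
    · intro i
      exact le_ciSup hb i
    · obtain ⟨i⟩ := (inferInstance : Nonempty ι)
      exact (norm_nonneg (v i)).trans (le_ciSup hb i)

theorem gel_cpx (D : ℕ) : ∃ c : ℝ, 1 ≤ c ∧ ∀ g h : ℂ[X][Y], TD g D → TD h D → TD (g * h) D →
    (⨆ i : Fin (D + 1) × Fin (D + 1), ‖(g.coeff i.1).coeff i.2‖) *
      (⨆ i : Fin (D + 1) × Fin (D + 1), ‖(h.coeff i.1).coeff i.2‖) ≤
      c * ⨆ i : Fin (D + 1) × Fin (D + 1), ‖((g * h).coeff i.1).coeff i.2‖ := by
  obtain ⟨κ, hκ, hF⟩ := Gel_kappa D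
  refine ⟨max 1 κ⁻¹, le_max_left _ _, ?_⟩
  intro g h hg hh hgh
  set v : Fin (D + 1) × Fin (D + 1) → ℂ := fun i => (g.coeff i.1).coeff i.2 with hv
  set w : Fin (D + 1) × Fin (D + 1) → ℂ := fun i => (h.coeff i.1).coeff i.2 with hw
  set u : Fin (D + 1) × Fin (D + 1) → ℂ := fun i => ((g * h).coeff i.1).coeff i.2 with hu
  have e1 : ⨆ i : Fin (D + 1) × Fin (D + 1), ‖(g.coeff i.1).coeff i.2‖ = ‖v‖ := Gel_sup v
  have e2 : ⨆ i : Fin (D + 1) × Fin (D + 1), ‖(h.coeff i.1).coeff i.2‖ = ‖w‖ := Gel_sup w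
  have e3 : ⨆ i : Fin (D + 1) × Fin (D + 1), ‖((g * h).coeff i.1).coeff i.2‖ = ‖u‖ := Gel_sup u
  rw [e1, e2, e3]
  have h1 : ‖Gel_F D (v, w)‖ ≤ ‖u‖ := by
    rw [pi_norm_le_iff_of_nonneg (norm_nonneg u)]
    intro c
    have h2 : Gel_F D (v, w) c = ((g * h).coeff c.1).coeff c.2 := by
      rw [Gel_coeff_mul hg hh]
      rfl
    rw [h2]
    by_cases h3 : ((g * h).coeff c.1).coeff c.2 = 0
    · rw [h3, norm_zero]
      exact norm_nonneg _
    · have h4 := hgh _ _ h3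
      have h5 : u (⟨c.1, by omega⟩, ⟨c.2, by omega⟩) = ((g * h).coeff c.1).coeff c.2 := rfl
      rw [← h5]
      exact norm_le_pi_norm u _
  have h2 := hF v w
  have h3 : ‖v‖ * ‖w‖ ≤ κ⁻¹ * ‖u‖ := by
    rw [inv_mul_eq_div, le_div_iff₀ hκ, mul_comm]
    exact h2.trans h1
  exact h3.trans (mul_le_mul_of_nonneg_right (le_max_right _ _) (norm_nonneg _))

theorem gelfond (D : ℕ) : ∃ c : ℝ, 1 ≤ c ∧
    ∀ g h : ℤ[X][Y], g ≠ 0 → h ≠ 0 → TD (g * h) D → sz g ≤ c * sz (g * h) := by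
  obtain ⟨c, hc1, hc⟩ := gel_cpx D
  refine ⟨((D : ℝ) + 1) * ((D : ℝ) + 1) * c, ?_, ?_⟩
  · have : (0 : ℝ) ≤ D := Nat.cast_nonneg D
    have h1 : (1 : ℝ) ≤ ((D : ℝ) + 1) * ((D : ℝ) + 1) := by nlinarith
    nlinarith
  intro g h hg hh hgh
  obtain ⟨hgD, hhD⟩ := TD_of_mul hg hh hgh
  have hb := hc (up ℂ g) (up ℂ h) (up_TD hgD) (up_TD hhD) (by
    rw [← map_mul]
    exact up_TD hgh)
  rw [← map_mul] at hb
  simp only [up_coeff] at hb
  have hn : ∀ z : ℤ, ‖((z : ℤ) : ℂ)‖ = |(z : ℝ)| := fun z => Complex.norm_intCast z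
  simp only [hn] at hb
  set sg := ⨆ i : Fin (D + 1) × Fin (D + 1), |(((g.coeff i.1).coeff i.2 : ℤ) : ℝ)| with hsg
  set sh := ⨆ i : Fin (D + 1) × Fin (D + 1), |(((h.coeff i.1).coeff i.2 : ℤ) : ℝ)| with hsh
  set sgh := ⨆ i : Fin (D + 1) × Fin (D + 1), |((((g * h).coeff i.1).coeff i.2 : ℤ) : ℝ)| with hsgh
  have bg : BddAbove (Set.range fun i : Fin (D + 1) × Fin (D + 1) =>
      |(((g.coeff i.1).coeff i.2 : ℤ) : ℝ)|) := (Set.finite_range _).bddAbove
  have bh : BddAbove (Set.range fun i : Fin (D + 1) × Fin (D + 1) =>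
      |(((h.coeff i.1).coeff i.2 : ℤ) : ℝ)|) := (Set.finite_range _).bddAbove
  have h1 : 1 ≤ sh := by
    obtain ⟨D', _, i, j, hij, hD'⟩ := exists_TD hh
    have h2 := hhD i j hij
    have h3 : |(((h.coeff i).coeff j : ℤ) : ℝ)| ≤ sh :=
      le_ciSup bh ((⟨i, by omega⟩, ⟨j, by omega⟩) : Fin (D + 1) × Fin (D + 1))
    refine le_trans ?_ h3
    have h4 : 1 ≤ |(h.coeff i).coeff j| := Int.one_le_abs hij
    exact_mod_cast h4
  have h0 : 0 ≤ sg := (abs_nonneg _).trans (le_ciSup bg ((0, 0) : Fin (D + 1) × Fin (D + 1)))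
  have h2 : sgh ≤ sz (g * h) := ciSup_le fun i => abs_coeff_le (g * h) i.1 i.2
  have h3 : sg ≤ c * sz (g * h) := by
    calc sg = sg * 1 := (mul_one _).symm
      _ ≤ sg * sh := mul_le_mul_of_nonneg_left h1 h0
      _ ≤ c * sgh := hb
      _ ≤ c * sz (g * h) := mul_le_mul_of_nonneg_left h2 (by linarith)
  have h4 : sz g ≤ ((D : ℝ) + 1) * (((D : ℝ) + 1) * sg) := by
    rw [sz_eq_box hgD]
    have h5 : ∀ i ∈ Finset.range (D + 1), ∑ j ∈ Finset.range (D + 1),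
        |(((g.coeff i).coeff j : ℤ) : ℝ)| ≤ ((D : ℝ) + 1) * sg := by
      intro i hi
      have h6 : ∀ j ∈ Finset.range (D + 1), |(((g.coeff i).coeff j : ℤ) : ℝ)| ≤ sg := by
        intro j hj
        exact le_ciSup bg ((⟨i, Finset.mem_range.mp hi⟩, ⟨j, Finset.mem_range.mp hj⟩) :
          Fin (D + 1) × Fin (D + 1))
      refine (Finset.sum_le_card_nsmul _ _ _ h6).trans ?_
      rw [Finset.card_range, nsmul_eq_mul]
      push_cast
      exact le_refl _
    refine (Finset.sum_le_card_nsmul _ _ _ h5).trans ?_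
    rw [Finset.card_range, nsmul_eq_mul]
    push_cast
    exact le_refl _
  calc sz g ≤ ((D : ℝ) + 1) * (((D : ℝ) + 1) * sg) := h4
    _ = ((D : ℝ) + 1) * ((D : ℝ) + 1) * sg := by ring
    _ ≤ ((D : ℝ) + 1) * ((D : ℝ) + 1) * (c * sz (g * h)) :=
        mul_le_mul_of_nonneg_left h3 (by positivity)
    _ = ((D : ℝ) + 1) * ((D : ℝ) + 1) * c * sz (g * h) := by ring

end H9CV
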