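import Pool.Agent.H9.CV.NorthU
import Pool.Agent.H93.PolyBound

set_option autoImplicit false

/-!
Project CV (MP_ef6a16_nt, helper9), module LowB: lower bound for the height of Fermat points, uniform in `K`.

For `p > B` (`sum_zero_uniform`) `a + b + c ≠ 0`. Choose a finite place `v₀` of `K` with `v₀ p < 1` (exists since the product of `v p` over
the finite places is `p ^ (-d) < 1`: `Pool.Agent.H93.finprod_natCast`). By `Pool.Agent.H93.sum_lt_lmax`,
`v₀ ((a + b + c) / t) < 1` where `t` is one of `a, b, c` of maximal `v₀`, so by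
`Pool.Agent.H93.finitePlace_le_inv_absNorm` and `Pool.Agent.H93.le_absNorm_of_lt_one` it is `≤ 1 / p`. Apply
`Pool.Agent.H93.one_le_of_local_bounds` with `s = a + b + c`, `C = 3`, `β v = 1 / p` for `v = v₀` and `1` otherwise
(see the proofs of `sum_le_lmax_mul` and `pow_le_mulHeight_of_sum_ne_zero` in `Pool.Agent.H93.PolyBound`): `1 ≤ 3 ^ d H / p`.
-/

namespace H9CV

open Height

open Pool.Agent.H93 NumberField in
theorem LowB_aux {K : Type*} [Field K] [NumberField K] {p : ℕ} (hp : p.Prime)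
    {a b c : K} (ha : a ≠ 0) (h : a ^ p + b ^ p + c ^ p = 0) (hsum : a + b + c ≠ 0) :
    (p : ℝ) ≤ 3 ^ Module.finrank ℚ K * mulHeight ![a, b, c] := by
  classical
  have hp0 : (0 : ℝ) < p := by exact_mod_cast hp.pos
  have hp1 : (1 : ℝ) < p := by exact_mod_cast hp.one_lt
  -- a place above `p`
  obtain ⟨v, hv⟩ : ∃ v : FinitePlace K, v (p : K) < 1 := by
    by_contra hcon
    push Not at hcon
    have h1 : ∀ v : FinitePlace K, v (p : K) = 1 := fun v =>
      le_antisymm (finitePlace_natCast_le_one v p) (hcon v)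
    have h2 := finprod_natCast (K := K) hp.ne_zero
    rw [finprod_congr h1, finprod_one] at h2
    have h3 : (1 : ℝ) < (p : ℝ) ^ Module.finrank ℚ K :=
      one_lt_pow₀ hp1 (Module.finrank_pos (R := ℚ) (M := K)).ne'
    have h4 : ((p : ℝ) ^ Module.finrank ℚ K)⁻¹ < 1 := inv_lt_one_of_one_lt₀ h3
    linarith
  have hm := lmax_pos v b c ha
  have hv2 : v (a + b + c) ≤ lmax v a b c * (p : ℝ)⁻¹ := by
    obtain ⟨t, ht, ht0⟩ : ∃ t : K, v t = lmax v a b c ∧ t ≠ 0 := by
      have key : ∀ t : K, v t = lmax v a b c → t ≠ 0 := by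
        intro t ht
        rw [← FinitePlace.pos_iff (w := v), ht]
        exact hm
      rcases max_choice (v a) (max (v b) (v c)) with h1 | h1
      · exact ⟨a, h1.symm, key a h1.symm⟩
      · rcases max_choice (v b) (v c) with h2 | h2
        · have h3 : v b = lmax v a b c := by rw [lmax, h1, h2]
          exact ⟨b, h3, key b h3⟩
        · have h3 : v c = lmax v a b c := by rw [lmax, h1, h2]
          exact ⟨c, h3, key c h3⟩
    have h1 := sum_lt_lmax v hp hv ha h
    have h2 : v ((a + b + c) / t) < 1 := by rwa [map_div₀, ht, div_lt_one hm]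
    have h3 := finitePlace_le_inv_absNorm v h2
    have h4 : (p : ℝ) ≤ ((Ideal.absNorm v.maximalIdeal.asIdeal : ℕ) : ℝ) := by
      exact_mod_cast le_absNorm_of_lt_one v hp hv
    have h5 : v ((a + b + c) / t) ≤ (p : ℝ)⁻¹ := h3.trans (inv_anti₀ hp0 h4)
    rw [map_div₀, ht, div_le_iff₀ hm] at h5
    linarith
  set β : FinitePlace K → ℝ := Function.update (1 : FinitePlace K → ℝ) v (p : ℝ)⁻¹ with hβ
  have hfin2 : β.HasFiniteMulSupport := by
    refine (Set.finite_singleton v).subset fun w hw ↦ ?_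
    by_contra hne
    apply hw
    rw [hβ, Function.update_of_ne hne]
    rfl
  have hprod : ∏ᶠ w, β w = (p : ℝ)⁻¹ := by
    rw [finprod_eq_single _ v (fun w hw ↦ by rw [hβ, Function.update_of_ne hw]; rfl)]
    rw [hβ, Function.update_self]
  have hfin : ∀ w : FinitePlace K, w (a + b + c) ≤ (⨆ i, w (![a, b, c] i)) * β w := by
    intro w
    rw [iSup_eq_lmax]
    by_cases hw : w = v
    · subst hw
      rw [hβ, Function.update_self]
      exact hv2
    · rw [hβ, Function.update_of_ne hw, Pi.one_apply, mul_one]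
      exact (fp_add_le _ _ _).trans (max_le ((fp_add_le _ a b).trans
        (max_le (le_lmax₁ _ a b c) (le_lmax₂ _ a b c))) (le_lmax₃ _ a b c))
  have h1 := one_le_of_local_bounds (vec3_ne_zero b c ha) hsum (by norm_num : (0 : ℝ) ≤ 3) β hfin2
    (fun w ↦ inf_add3_le w a b c) hfin
  rw [hprod, ← div_eq_mul_inv, le_div_iff₀ hp0, one_mul] at h1
  exact h1

theorem lower_bound.{u} (d : ℕ) : ∃ B : ℕ, ∀ (K : Type u) [Field K] [NumberField K],
    Module.finrank ℚ K = d → (¬ ∃ ω : K, IsPrimitiveRoot ω 3) → ∀ p : ℕ, p.Prime → B < p →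
    ∀ a b c : K, a ≠ 0 → b ≠ 0 → c ≠ 0 → a ^ p + b ^ p + c ^ p = 0 →
      (p : ℝ) ≤ 3 ^ d * mulHeight ![a, b, c] := by
  obtain ⟨B, hB⟩ := sum_zero_uniform.{u} d
  refine ⟨B, fun K _ _ hd hω p hp hBp a b c ha hb hc h => ?_⟩
  have hsum : a + b + c ≠ 0 := fun h0 => hB K hd hω p hp hBp a b c ha hb hc h0 h
  rw [← hd]
  exact LowB_aux hp ha h hsum

end H9CV
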