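import Pool.Agent.H9.CV.DelSz

set_option autoImplicit false

/-!
Project CV (MP_ef6a16_nt, helper9), module Nrm: the norm of a polynomial over `𝓞 K` is an integral polynomial.

`f ∈ (𝓞 K)[x][y]`, `d = [K : ℚ]`; `P = ∏_σ f^σ` over the `d` embeddings `σ` of `K` into an algebraic closure of `ℚ`
(`f^σ = f` mapped coefficientwise). The coefficients of `P` are fixed by the Galois group, which permutes the embeddings, and they
are integral over `ℤ`, hence they are integers, i.e. `P = N` mapped to the algebraic closure with `N ∈ ℤ[x][y]`.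
Consequences: `N ≠ 0` (product of nonzero polynomials); `TD N (d D)` (`TD_mul`); `sz N ≤ ∏ (ℓ¹ norm of f^σ) ≤
(szO f) ^ d` (submultiplicativity of the `ℓ¹` norm over `ℂ`; `|σ c| ≤ house c`). If `f(a, b) = 0` with
`a, b ∈ K` choose an embedding `σ₀`: `σ₀(N(a, b)) = ∏_σ f^σ(σ₀ a, σ₀ b) = 0` because of the factor `σ = σ₀`.
-/

namespace H9CV

open Polynomial NumberField
open scoped Polynomial.Bivariate

section Gen

variable {R : Type*} [CommRing R]

/-- the sum of the sizes of the coefficients -/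
private noncomputable def Nrm_N (N : R → ℝ) (f : R[X]) : ℝ := f.sum fun _ a => N a

private theorem Nrm_N_eq {N : R → ℝ} (h0 : N 0 = 0) {f : R[X]} {S : Finset ℕ} (h : f.support ⊆ S) :
    Nrm_N N f = ∑ i ∈ S, N (f.coeff i) := by
  unfold Nrm_N Polynomial.sum
  refine Finset.sum_subset h fun i _ hi => ?_
  simp only [notMem_support_iff.mp hi, h0]

private theorem Nrm_N_nonneg {N : R → ℝ} (hn : ∀ a, 0 ≤ N a) (f : R[X]) : 0 ≤ Nrm_N N f := by
  unfold Nrm_N Polynomial.sum
  exact Finset.sum_nonneg fun i _ => hn _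

private theorem Nrm_N_zero (N : R → ℝ) : Nrm_N N (0 : R[X]) = 0 := by
  unfold Nrm_N
  exact sum_zero_index _

private theorem Nrm_N_add {N : R → ℝ} (h0 : N 0 = 0) (ha : ∀ a b, N (a + b) ≤ N a + N b) (f g : R[X]) :
    Nrm_N N (f + g) ≤ Nrm_N N f + Nrm_N N g := by
  classical
  rw [Nrm_N_eq h0 (S := f.support ∪ g.support) support_add,
    Nrm_N_eq h0 (S := f.support ∪ g.support) (f := f) Finset.subset_union_left,
    Nrm_N_eq h0 (S := f.support ∪ g.support) (f := g) Finset.subset_union_right,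
    ← Finset.sum_add_distrib]
  refine Finset.sum_le_sum fun i _ => ?_
  rw [coeff_add]
  exact ha _ _

private theorem Nrm_N_sum {N : R → ℝ} (h0 : N 0 = 0) (ha : ∀ a b, N (a + b) ≤ N a + N b)
    {ι : Type*} (s : Finset ι) (f : ι → R[X]) :
    Nrm_N N (∑ i ∈ s, f i) ≤ ∑ i ∈ s, Nrm_N N (f i) := by
  classical
  induction s using Finset.induction_on with
  | empty => rw [Finset.sum_empty, Finset.sum_empty, Nrm_N_zero]
  | insert a s has ih =>
    rw [Finset.sum_insert has, Finset.sum_insert has]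
    exact (Nrm_N_add h0 ha _ _).trans (add_le_add le_rfl ih)

private theorem Nrm_N_monomial {N : R → ℝ} (h0 : N 0 = 0) (n : ℕ) (a : R) :
    Nrm_N N (monomial n a) = N a := by
  unfold Nrm_N
  exact sum_monomial_index a _ h0

private theorem Nrm_N_mul {N : R → ℝ} (h0 : N 0 = 0) (ha : ∀ a b, N (a + b) ≤ N a + N b)
    (hm : ∀ a b, N (a * b) ≤ N a * N b) (f g : R[X]) :
    Nrm_N N (f * g) ≤ Nrm_N N f * Nrm_N N g := by
  rw [mul_eq_sum_sum]
  refine (Nrm_N_sum h0 ha _ _).trans ?_
  have h1 : Nrm_N N f * Nrm_N N g = ∑ i ∈ f.support, N (f.coeff i) * Nrm_N N g := by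
    rw [← Finset.sum_mul]
    rfl
  rw [h1]
  refine Finset.sum_le_sum fun i _ => ?_
  unfold Polynomial.sum
  refine (Nrm_N_sum h0 ha _ _).trans ?_
  have h2 : N (f.coeff i) * Nrm_N N g = ∑ j ∈ g.support, N (f.coeff i) * N (g.coeff j) := by
    rw [← Finset.mul_sum]
    rfl
  rw [h2]
  refine Finset.sum_le_sum fun j _ => ?_
  rw [Nrm_N_monomial h0]
  exact hm _ _

end Gen

/-- the sum of the absolute values of the coefficients -/
private noncomputable def Nrm_L1 : ℂ[X] → ℝ := Nrm_N fun c : ℂ => ‖c‖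

private noncomputable def Nrm_L : ℂ[X][Y] → ℝ := Nrm_N Nrm_L1

private theorem Nrm_L1_zero : Nrm_L1 0 = 0 := Nrm_N_zero _

private theorem Nrm_L1_add (a b : ℂ[X]) : Nrm_L1 (a + b) ≤ Nrm_L1 a + Nrm_L1 b :=
  Nrm_N_add norm_zero norm_add_le a b

private theorem Nrm_L1_mul (a b : ℂ[X]) : Nrm_L1 (a * b) ≤ Nrm_L1 a * Nrm_L1 b :=
  Nrm_N_mul norm_zero norm_add_le (fun x y => (norm_mul x y).le) a b

private theorem Nrm_L_nonneg (f : ℂ[X][Y]) : 0 ≤ Nrm_L f :=
  Nrm_N_nonneg (fun a => Nrm_N_nonneg (fun c => norm_nonneg c) a) f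

private theorem Nrm_L_mul (a b : ℂ[X][Y]) : Nrm_L (a * b) ≤ Nrm_L a * Nrm_L b :=
  Nrm_N_mul Nrm_L1_zero Nrm_L1_add Nrm_L1_mul a b

private theorem Nrm_L_one : Nrm_L 1 = 1 := by
  unfold Nrm_L
  rw [← monomial_zero_one, Nrm_N_monomial Nrm_L1_zero]
  unfold Nrm_L1
  rw [← monomial_zero_one, Nrm_N_monomial norm_zero]
  simp

private theorem Nrm_L_prod {ι : Type*} (s : Finset ι) (f : ι → ℂ[X][Y]) {B : ℝ}
    (hB : ∀ i ∈ s, Nrm_L (f i) ≤ B) : Nrm_L (∏ i ∈ s, f i) ≤ B ^ s.card := by
  classical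
  induction s using Finset.induction_on with
  | empty => simp [Nrm_L_one]
  | insert a s has ih =>
    rw [Finset.prod_insert has, Finset.card_insert_of_notMem has, pow_succ']
    have h1 := hB a (Finset.mem_insert_self _ _)
    have h2 := ih fun i hi => hB i (Finset.mem_insert_of_mem hi)
    exact (Nrm_L_mul _ _).trans (mul_le_mul h1 h2 (Nrm_L_nonneg _) ((Nrm_L_nonneg _).trans h1))

/-- coefficientwise comparison -/
private theorem Nrm_L_map_le {S : Type*} [CommRing S] (φ : S →+* ℂ) (f : S[X][Y]) (N : S → ℝ)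
    (hN : ∀ c, ‖φ c‖ ≤ N c) :
    Nrm_L (f.map (mapRingHom φ)) ≤ f.sum fun _ a => a.sum fun _ c => N c := by
  unfold Nrm_L
  rw [Nrm_N_eq Nrm_L1_zero (support_map_subset _ f)]
  unfold Polynomial.sum
  refine Finset.sum_le_sum fun i _ => ?_
  rw [coeff_map, coe_mapRingHom]
  unfold Nrm_L1
  rw [Nrm_N_eq norm_zero (support_map_subset _ _)]
  refine Finset.sum_le_sum fun j _ => ?_
  rw [coeff_map]
  exact hN _

private theorem Nrm_L_map_int (f : ℤ[X][Y]) :
    Nrm_L (f.map (mapRingHom (Int.castRingHom ℂ))) = sz f := by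
  unfold Nrm_L sz
  rw [Nrm_N_eq Nrm_L1_zero (support_map_subset _ f)]
  unfold Polynomial.sum
  refine Finset.sum_congr rfl fun i _ => ?_
  rw [coeff_map, coe_mapRingHom]
  unfold Nrm_L1
  rw [Nrm_N_eq norm_zero (support_map_subset _ _)]
  refine Finset.sum_congr rfl fun j _ => ?_
  rw [coeff_map]
  simp

private theorem Nrm_TD_prod {S : Type*} [CommRing S] {ι : Type*} (s : Finset ι) {f : ι → S[X][Y]} {n : ℕ}
    (hf : ∀ i ∈ s, TD (f i) n) : TD (∏ i ∈ s, f i) (s.card * n) := by
  classical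
  induction s using Finset.induction_on with
  | empty =>
    rw [Finset.prod_empty]
    exact TD_mono TD_one (Nat.zero_le _)
  | insert a s has ih =>
    rw [Finset.prod_insert has, Finset.card_insert_of_notMem has]
    have h1 := hf a (Finset.mem_insert_self _ _)
    have h2 := ih fun i hi => hf i (Finset.mem_insert_of_mem hi)
    have h3 := TD_mul h1 h2
    have h4 : n + s.card * n = (s.card + 1) * n := by ring
    rwa [h4] at h3

/-- a polynomial over an algebraic closure with integral coefficients fixed by the Galois group -/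
private theorem Nrm_descend {E : Type*} [Field E] [Algebra ℚ E] [IsGalois ℚ E] {P : E[X][Y]}
    (hint : ∀ i j, IsIntegral ℤ ((P.coeff i).coeff j))
    (hfix : ∀ τ : Gal(E/ℚ), P.map (mapRingHom (τ : E →+* E)) = P) :
    ∃ N : ℤ[X][Y], N.map (mapRingHom (Int.castRingHom E)) = P := by
  have hlift : ∀ i j, (P.coeff i).coeff j ∈ Set.range (Int.castRingHom E) := by
    intro i j
    have h1 : (P.coeff i).coeff j ∈ Set.range (algebraMap ℚ E) := by
      rw [InfiniteGalois.mem_range_algebraMap_iff_fixed]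
      intro τ
      have h2 := congrArg (fun g : E[X][Y] => (g.coeff i).coeff j) (hfix τ)
      simpa [coeff_map] using h2
    obtain ⟨r, hr⟩ := h1
    have h3 : IsIntegral ℤ r := by
      have h4 := hint i j
      rw [← hr] at h4
      exact (isIntegral_algebraMap_iff (algebraMap ℚ E).injective).1 h4
    obtain ⟨z, hz⟩ := IsIntegrallyClosed.isIntegral_iff.1 h3
    refine ⟨z, ?_⟩
    rw [← hr, ← hz]
    simp
  have h5 : P ∈ lifts (mapRingHom (Int.castRingHom E)) := by
    rw [lifts_iff_coeff_lifts]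
    intro i
    have h6 : P.coeff i ∈ lifts (Int.castRingHom E) := by
      rw [lifts_iff_coeff_lifts]
      exact hlift i
    rw [mem_lifts] at h6
    obtain ⟨q, hq⟩ := h6
    exact ⟨q, by rw [coe_mapRingHom]; exact hq⟩
  rw [mem_lifts] at h5
  exact h5

private theorem Nrm_aux (E : Type) [Field E] [Algebra ℚ E] [IsAlgClosure ℚ E] {K : Type*} [Field K]
    [NumberField K] {f : (𝓞 K)[X][Y]} (hf : f ≠ 0) {D : ℕ}
    (hTD : TD f D) : ∃ N : ℤ[X][Y], N ≠ 0 ∧ TD N (Module.finrank ℚ K * D) ∧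
      sz N ≤ szO f ^ Module.finrank ℚ K ∧
      ∀ a b : K, evA a b (toK f) = 0 → evZ a b N = 0 := by
  classical
  have : IsGalois ℚ E := IsAlgClosure.isGalois ℚ E
  have : IsAlgClosed E := IsAlgClosure.isAlgClosed ℚ
  have : Algebra.IsAlgebraic ℚ E := IsAlgClosure.isAlgebraic
  have : CharZero E := algebraRat.charZero E
  let o : (K →ₐ[ℚ] E) → (𝓞 K →+* E) := fun σ => (σ : K →+* E).comp (algebraMap (𝓞 K) K)
  let F : (K →ₐ[ℚ] E) → E[X][Y] := fun σ => f.map (mapRingHom (o σ))
  let P : E[X][Y] := ∏ σ : K →ₐ[ℚ] E, F σ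
  have hcard : (Finset.univ : Finset (K →ₐ[ℚ] E)).card = Module.finrank ℚ K := by
    rw [Finset.card_univ]
    exact AlgHom.card ℚ K E
  have hoinj : ∀ σ, Function.Injective (o σ) := fun σ =>
    (σ : K →+* E).injective.comp (FaithfulSMul.algebraMap_injective (𝓞 K) K)
  have hFne : ∀ σ, F σ ≠ 0 := by
    intro σ h
    apply hf
    apply map_injective (mapRingHom (o σ)) _
    · rw [Polynomial.map_zero]
      exact h
    · rw [coe_mapRingHom]
      exact map_injective _ (hoinj σ)
  have hPne : P ≠ 0 := Finset.prod_ne_zero_iff.2 fun σ _ => hFne σ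
  -- integrality
  have hint : ∀ i j, IsIntegral ℤ ((P.coeff i).coeff j) := by
    let S := integralClosure ℤ E
    have h1 : P ∈ lifts (mapRingHom (algebraMap S E)) := by
      refine Subsemiring.prod_mem _ fun σ _ => ?_
      rw [lifts_iff_coeff_lifts]
      intro i
      have h2 : (F σ).coeff i ∈ lifts (algebraMap S E) := by
        rw [lifts_iff_coeff_lifts]
        intro j
        have h3 : IsIntegral ℤ (((F σ).coeff i).coeff j) := by
          show IsIntegral ℤ (((f.map (mapRingHom (o σ))).coeff i).coeff j)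
          rw [coeff_map, coe_mapRingHom, coeff_map]
          exact map_isIntegral_int (o σ) (RingOfIntegers.isIntegral _)
        exact ⟨⟨_, h3⟩, rfl⟩
      rw [mem_lifts] at h2
      obtain ⟨q, hq⟩ := h2
      exact ⟨q, by rw [coe_mapRingHom]; exact hq⟩
    rw [mem_lifts] at h1
    obtain ⟨q, hq⟩ := h1
    intro i j
    rw [← hq, coeff_map, coe_mapRingHom, coeff_map]
    exact ((q.coeff i).coeff j).2
  -- invariance
  have hfix : ∀ τ : Gal(E/ℚ), P.map (mapRingHom (τ : E →+* E)) = P := by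
    intro τ
    show (∏ σ : K →ₐ[ℚ] E, F σ).map (mapRingHom (τ : E →+* E)) = ∏ σ : K →ₐ[ℚ] E, F σ
    rw [Polynomial.map_prod]
    let e : (K →ₐ[ℚ] E) ≃ (K →ₐ[ℚ] E) :=
      { toFun := fun σ => (τ : E →ₐ[ℚ] E).comp σ
        invFun := fun σ => (τ.symm : E →ₐ[ℚ] E).comp σ
        left_inv := fun σ => by ext x; simp
        right_inv := fun σ => by ext x; simp }
    rw [← Equiv.prod_comp e F]
    refine Finset.prod_congr rfl fun σ _ => ?_
    show (f.map (mapRingHom (o σ))).map (mapRingHom (τ : E →+* E)) = f.map (mapRingHom (o (e σ)))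
    rw [Polynomial.map_map, mapRingHom_comp]
    rfl
  obtain ⟨N, hN⟩ := Nrm_descend hint hfix
  have hNcoeff : ∀ i j, (P.coeff i).coeff j = (((N.coeff i).coeff j : ℤ) : E) := by
    intro i j
    rw [← hN, coeff_map, coe_mapRingHom, coeff_map]
    rfl
  refine ⟨N, ?_, ?_, ?_, ?_⟩
  · rintro rfl
    exact hPne (by rw [← hN, Polynomial.map_zero])
  · have h1 : TD P (Module.finrank ℚ K * D) := by
      rw [← hcard]
      exact Nrm_TD_prod _ fun σ _ => TD_map (o σ) hTD
    intro i j hij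
    refine h1 i j ?_
    rw [hNcoeff]
    exact_mod_cast hij
  · let ι : E →ₐ[ℚ] ℂ := IsAlgClosed.lift
    have h1 : N.map (mapRingHom (Int.castRingHom ℂ)) =
        ∏ σ : K →ₐ[ℚ] E, (F σ).map (mapRingHom (ι : E →+* ℂ)) := by
      rw [← Polynomial.map_prod]
      show _ = P.map (mapRingHom (ι : E →+* ℂ))
      rw [← hN, Polynomial.map_map, mapRingHom_comp]
      congr 2
      exact RingHom.ext_int _ _
    rw [← Nrm_L_map_int, h1, ← hcard]
    refine Nrm_L_prod _ _ fun σ _ => ?_
    show Nrm_L ((f.map (mapRingHom (o σ))).map (mapRingHom (ι : E →+* ℂ))) ≤ _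
    rw [Polynomial.map_map, mapRingHom_comp]
    refine Nrm_L_map_le _ f (fun c => house (c : K)) fun c => ?_
    rw [house_eq_sup']
    have h2 := Finset.le_sup' (fun φ : K →+* ℂ => ‖φ (c : K)‖₊)
      (Finset.mem_univ ((ι : E →+* ℂ).comp (σ : K →+* E)))
    exact_mod_cast h2
  · intro a b hab
    let σ : K →ₐ[ℚ] E := IsAlgClosed.lift
    apply (σ : K →+* E).injective
    rw [map_zero]
    have h1 : (σ : K →+* E) (evZ a b N) = evalEval (σ a) (σ b) P := by
      have h2 : evZ a b N = evalEval a b (N.map (mapRingHom (Int.castRingHom K))) := by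
        unfold evZ evA up
        rw [coe_mapRingHom, coe_aevalAeval_eq_evalEval]
      have h6 : (σ : K →+* E).comp (Int.castRingHom K) = Int.castRingHom E := RingHom.ext_int _ _
      rw [h2, ← map_mapRingHom_evalEval, Polynomial.map_map, mapRingHom_comp, ← hN, h6]
      rfl
    rw [h1]
    show evalEval (σ a) (σ b) (∏ σ' : K →ₐ[ℚ] E, F σ') = 0
    rw [evalEval_prod]
    refine Finset.prod_eq_zero (Finset.mem_univ σ) ?_
    have h3 : F σ = (toK f).map (mapRingHom (σ : K →+* E)) := by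
      unfold toK
      rw [coe_mapRingHom, Polynomial.map_map, mapRingHom_comp]
    have h4 : evalEval a b (toK f) = 0 := by
      rw [← hab]
      unfold evA
      rw [coe_aevalAeval_eq_evalEval]
    rw [h3]
    have h5 := map_mapRingHom_evalEval (σ : K →+* E) (toK f) a b
    rw [h4, map_zero] at h5
    exact h5

theorem nrm {K : Type*} [Field K] [NumberField K] {f : (𝓞 K)[X][Y]} (hf : f ≠ 0) {D : ℕ}
    (hTD : TD f D) : ∃ N : ℤ[X][Y], N ≠ 0 ∧ TD N (Module.finrank ℚ K * D) ∧
      sz N ≤ szO f ^ Module.finrank ℚ K ∧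
      ∀ a b : K, evA a b (toK f) = 0 → evZ a b N = 0 :=
  @Nrm_aux (AlgebraicClosure ℚ) _ (AlgebraicClosure.instAlgebra ℚ) inferInstance K _ _ f hf D hTD

end H9CV
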