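import Pool.Agent.H9.CV.DelSz

set_option autoImplicit false

/-!
Project CV (MP_ef6a16_nt, helper9), module Scale: reduction to a monic integral polynomial.

`f ∈ ℤ[x][y]`, irreducible over `ℚ`, total degree `≤ D`, with nonzero coefficients at `1`, `x ^ D`, `y ^ D`; `n` = the coefficient
of `y ^ D`. By `TD f D` the coefficient `f.coeff D` is the constant `C n` and `f.coeff i = 0` for `i > D`. Define
`G = y ^ D + ∑_{i < D} n ^ (D - 1 - i) f_i(x) y ^ i`. Over `ℚ`: `up ℚ G` is `n ^ (D - 1) * (up ℚ f)(x, y / n)`, that is the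
`scaleRoots` by `C n` of the monic polynomial `n⁻¹ • up ℚ f` (coefficients multiplied by `n ^ (D - i)`). Hence
* `up ℚ G` is irreducible: the substitution `y ↦ y / n`, `x ↦ x` is an automorphism of `ℚ[x][y]`
  (`Polynomial.algEquivCMulXAddC`, or a `RingEquiv` built from `eval₂`/`comp` with `C (C n⁻¹) * Y`), `n ^ (D - 1)` is a unit.
* `evZ a (n b) G = n ^ (D - 1) * evZ a b f = 0`.
* monic, `natDegree = D`, `TD G D`; corner coefficients: at `y ^ 0` the polynomial `n ^ (D - 1) f_0(x)` has nonzero coefficients at `x ^ 0`,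
  `x ^ D` (for `D = 1`: `G = y + f_0(x)`).
* `sz G ≤ 1 + |n| ^ (D - 1) sz f ≤ 2 A ^ D` (`|n| ≤ sz f ≤ A`).
-/

namespace H9CV

open Polynomial
open scoped Polynomial.Bivariate

private noncomputable def Scale_G (D : ℕ) (n : ℤ) (f : ℤ[X][Y]) : ℤ[X][Y] :=
  X ^ D + ∑ i ∈ Finset.range D, C (C (n ^ (D - 1 - i)) * f.coeff i) * X ^ i

private theorem Scale_sum_coeff (D : ℕ) (n : ℤ) (f : ℤ[X][Y]) (m : ℕ) :
    (∑ i ∈ Finset.range D, C (C (n ^ (D - 1 - i)) * f.coeff i) * X ^ i : ℤ[X][Y]).coeff m =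
      if m < D then C (n ^ (D - 1 - m)) * f.coeff m else 0 := by
  rw [finsetSum_coeff]
  simp only [coeff_C_mul_X_pow]
  rw [Finset.sum_ite_eq]
  simp only [Finset.mem_range]

private theorem Scale_G_coeff (D : ℕ) (n : ℤ) (f : ℤ[X][Y]) (m : ℕ) :
    (Scale_G D n f).coeff m =
      if m = D then 1 else if m < D then C (n ^ (D - 1 - m)) * f.coeff m else 0 := by
  unfold Scale_G
  rw [coeff_add, Scale_sum_coeff, coeff_X_pow]
  by_cases h : m = D
  · subst h
    simp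
  · simp [h]

private theorem Scale_deg (D : ℕ) (n : ℤ) (f : ℤ[X][Y]) :
    (∑ i ∈ Finset.range D, C (C (n ^ (D - 1 - i)) * f.coeff i) * X ^ i : ℤ[X][Y]).degree < D := by
  rw [degree_lt_iff_coeff_zero]
  intro m hm
  rw [Scale_sum_coeff, if_neg (not_lt.mpr hm)]

private theorem Scale_monic (D : ℕ) (n : ℤ) (f : ℤ[X][Y]) : (Scale_G D n f).Monic :=
  monic_X_pow_add (Scale_deg D n f)

private theorem Scale_natDegree (D : ℕ) (n : ℤ) (f : ℤ[X][Y]) : (Scale_G D n f).natDegree = D := by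
  have h := Scale_deg D n f
  unfold Scale_G
  rw [add_comm]
  refine natDegree_eq_of_degree_eq_some ?_
  rw [degree_add_eq_right_of_degree_lt (by rwa [degree_X_pow]), degree_X_pow]

private theorem Scale_comp {D : ℕ} (hD : 1 ≤ D) (n : ℤ) (f : ℤ[X][Y]) (hfD : f.coeff D = C n)
    (hf : ∀ i, D < i → f.coeff i = 0) :
    (Scale_G D n f).comp (C (C n) * X) = C (C (n ^ (D - 1))) * f := by
  ext1 i
  rw [comp_C_mul_X_coeff, coeff_C_mul, Scale_G_coeff]
  split_ifs with h1 h2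
  · subst h1
    rw [hfD, one_mul, ← C_pow, ← C_mul, ← pow_succ, Nat.sub_add_cancel hD]
  · rw [← C_pow, mul_comm, ← mul_assoc, ← C_mul, ← pow_add]
    congr 3
    omega
  · rw [hf i (by omega), zero_mul, mul_zero]

private theorem Scale_up_comp (K : Type*) [Field K] {D : ℕ} (hD : 1 ≤ D) (n : ℤ) (f : ℤ[X][Y])
    (hfD : f.coeff D = C n) (hf : ∀ i, D < i → f.coeff i = 0) :
    (up K (Scale_G D n f)).comp (C (C (n : K)) * X) = C (C ((n : K) ^ (D - 1))) * up K f := by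
  have h := congrArg (up K) (Scale_comp hD n f hfD hf)
  rw [map_mul] at h
  have h1 : up K (C (C (n ^ (D - 1)))) = C (C ((n : K) ^ (D - 1))) := by
    simp [up]
  have h2 : up K ((Scale_G D n f).comp (C (C n) * X)) =
      (up K (Scale_G D n f)).comp (C (C (n : K)) * X) := by
    unfold up
    simp only [coe_mapRingHom]
    rw [Polynomial.map_comp]
    simp
  rw [h1, h2] at h
  exact h

private theorem Scale_irr {D : ℕ} (hD : 1 ≤ D) {n : ℤ} (hn : n ≠ 0) {f : ℤ[X][Y]}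
    (hfD : f.coeff D = C n) (hf : ∀ i, D < i → f.coeff i = 0) (hirr : Irreducible (up ℚ f)) :
    Irreducible (up ℚ (Scale_G D n f)) := by
  have hnQ : (n : ℚ) ≠ 0 := by exact_mod_cast hn
  letI : Invertible (C (n : ℚ) : ℚ[X]) :=
    ⟨C ((n : ℚ)⁻¹), by rw [← C_mul, inv_mul_cancel₀ hnQ, C_1], by
      rw [← C_mul, mul_inv_cancel₀ hnQ, C_1]⟩
  have h := Scale_up_comp ℚ hD n f hfD hf
  have h1 : algEquivCMulXAddC (C (n : ℚ) : ℚ[X]) 0 (up ℚ (Scale_G D n f)) =
      (up ℚ (Scale_G D n f)).comp (C (C (n : ℚ)) * X) := by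
    rw [algEquivCMulXAddC_apply, C_0, add_zero]
    rfl
  rw [← MulEquiv.irreducible_iff (algEquivCMulXAddC (C (n : ℚ) : ℚ[X]) 0), h1, h]
  have hu : IsUnit (C (C ((n : ℚ) ^ (D - 1))) : ℚ[X][Y]) :=
    isUnit_C.mpr (isUnit_C.mpr (IsUnit.mk0 _ (pow_ne_zero _ hnQ)))
  rw [irreducible_isUnit_mul hu]
  exact hirr

private theorem Scale_eval (K : Type*) [Field K] {D : ℕ} (hD : 1 ≤ D) (n : ℤ) (f : ℤ[X][Y])
    (hfD : f.coeff D = C n) (hf : ∀ i, D < i → f.coeff i = 0) (a b : K) :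
    evZ a ((n : K) * b) (Scale_G D n f) = (n : K) ^ (D - 1) * evZ a b f := by
  have h := Scale_up_comp K hD n f hfD hf
  have h1 := congrArg (fun q => eval a (eval (C b) q)) h
  simp only [eval_comp, eval_mul, eval_C, eval_X] at h1
  unfold evZ evA
  rw [coe_aevalAeval_eq_evalEval, coe_aevalAeval_eq_evalEval]
  unfold evalEval
  rw [C_mul]
  exact h1

private theorem Scale_TD {D : ℕ} (n : ℤ) {f : ℤ[X][Y]} (hTD : TD f D) :
    TD (Scale_G D n f) D := by
  intro i j h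
  rw [Scale_G_coeff] at h
  split_ifs at h with h1 h2
  · rw [coeff_one] at h
    split_ifs at h with h3
    · omega
    · exact absurd rfl h
  · rw [coeff_C_mul] at h
    exact hTD i j (right_ne_zero_of_mul h)
  · rw [coeff_zero] at h
    exact absurd rfl h

private theorem Scale_sz {D : ℕ} (hD : 1 ≤ D) {n : ℤ} {f : ℤ[X][Y]} (hTD : TD f D) {A : ℝ}
    (hA : 1 ≤ A) (hfA : sz f ≤ A) (hn : |(n : ℝ)| ≤ A) : sz (Scale_G D n f) ≤ 2 * A ^ D := by
  rw [sz_eq_box (Scale_TD n hTD), Finset.sum_range_succ]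
  have h1 : ∑ j ∈ Finset.range (D + 1), |((((Scale_G D n f).coeff D).coeff j : ℤ) : ℝ)| ≤ 1 := by
    have h2 : ∀ j ∈ Finset.range (D + 1), |((((Scale_G D n f).coeff D).coeff j : ℤ) : ℝ)| =
        if j = 0 then (1 : ℝ) else 0 := by
      intro j _
      rw [Scale_G_coeff, if_pos rfl, coeff_one]
      split_ifs <;> simp
    rw [Finset.sum_congr rfl h2, Finset.sum_ite_eq']
    split_ifs <;> norm_num
  have h3 : ∑ i ∈ Finset.range D, ∑ j ∈ Finset.range (D + 1),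
      |((((Scale_G D n f).coeff i).coeff j : ℤ) : ℝ)| ≤ A ^ (D - 1) *
      ∑ i ∈ Finset.range D, ∑ j ∈ Finset.range (D + 1), |(((f.coeff i).coeff j : ℤ) : ℝ)| := by
    rw [Finset.mul_sum]
    refine Finset.sum_le_sum fun i hi => ?_
    rw [Finset.mul_sum]
    refine Finset.sum_le_sum fun j _ => ?_
    have hi' := Finset.mem_range.mp hi
    rw [Scale_G_coeff, if_neg (by omega), if_pos hi', coeff_C_mul]
    push_cast
    rw [abs_mul, abs_pow]
    refine mul_le_mul_of_nonneg_right ?_ (abs_nonneg _)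
    calc |(n : ℝ)| ^ (D - 1 - i) ≤ A ^ (D - 1 - i) := pow_le_pow_left₀ (abs_nonneg _) hn _
      _ ≤ A ^ (D - 1) := pow_le_pow_right₀ hA (by omega)
  have h4 : ∑ i ∈ Finset.range D, ∑ j ∈ Finset.range (D + 1), |(((f.coeff i).coeff j : ℤ) : ℝ)| ≤
      sz f := by
    rw [sz_eq_box hTD, Finset.sum_range_succ]
    have : 0 ≤ ∑ j ∈ Finset.range (D + 1), |(((f.coeff D).coeff j : ℤ) : ℝ)| :=
      Finset.sum_nonneg fun _ _ => abs_nonneg _
    linarith
  have h5 : A ^ (D - 1) * (∑ i ∈ Finset.range D, ∑ j ∈ Finset.range (D + 1),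
      |(((f.coeff i).coeff j : ℤ) : ℝ)|) ≤ A ^ (D - 1) * A :=
    mul_le_mul_of_nonneg_left (h4.trans hfA) (by positivity)
  have h6 : A ^ (D - 1) * A = A ^ D := by
    rw [← pow_succ, Nat.sub_add_cancel hD]
  have h7 : 1 ≤ A ^ D := one_le_pow₀ hA
  linarith

theorem scale {D : ℕ} (hD : 1 ≤ D) {f : ℤ[X][Y]} (hirr : Irreducible (up ℚ f)) (hTD : TD f D)
    (h1 : (f.coeff D).coeff 0 ≠ 0) (h2 : (f.coeff 0).coeff D ≠ 0) (h3 : (f.coeff 0).coeff 0 ≠ 0)
    {A : ℝ} (hA : 1 ≤ A) (hfA : sz f ≤ A) :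
    ∃ (G : ℤ[X][Y]) (n : ℤ), n ≠ 0 ∧ |(n : ℝ)| ≤ A ∧
      G.Monic ∧ G.natDegree = D ∧ TD G D ∧ Irreducible (up ℚ G) ∧
      (G.coeff 0).coeff 0 ≠ 0 ∧ (G.coeff 0).coeff D ≠ 0 ∧ sz G ≤ 2 * A ^ D ∧
      ∀ (K : Type*) [Field K] [CharZero K] (a b : K), evZ a b f = 0 → evZ a (n * b) G = 0 := by
  obtain ⟨n, hn⟩ : ∃ n, n = (f.coeff D).coeff 0 := ⟨_, rfl⟩
  have hn0 : n ≠ 0 := by rw [hn]; exact h1
  have hnA : |(n : ℝ)| ≤ A := by
    rw [hn]
    exact (abs_coeff_le f D 0).trans hfA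
  have hfD : f.coeff D = C n := by
    ext j
    rw [coeff_C]
    split_ifs with h
    · rw [h, hn]
    · by_contra h4
      have := hTD D j h4
      omega
  have hf : ∀ i, D < i → f.coeff i = 0 := by
    intro i hi
    ext j
    rw [coeff_zero]
    by_contra h4
    have := hTD i j h4
    omega
  refine ⟨Scale_G D n f, n, hn0, hnA, Scale_monic D n f, Scale_natDegree D n f, Scale_TD n hTD,
    Scale_irr hD hn0 hfD hf hirr, ?_, ?_, Scale_sz hD hTD hA hfA hnA, ?_⟩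
  · rw [Scale_G_coeff, if_neg (by omega), if_pos (by omega), coeff_C_mul]
    exact mul_ne_zero (pow_ne_zero _ hn0) h3
  · rw [Scale_G_coeff, if_neg (by omega), if_pos (by omega), coeff_C_mul]
    exact mul_ne_zero (pow_ne_zero _ hn0) h2
  · intro K _ _ a b hab
    rw [Scale_eval K hD n f hfD hf a b, hab, mul_zero]

end H9CV
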