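import Pool.Agent.H9.CV.TDeg

set_option autoImplicit false

/-!
Project CV (MP_ef6a16_nt, helper9), module Deh: dehomogenisation `F(x, y, z) ↦ F(x, y, 1)`.

Variables of `MvPolynomial (Fin 3) R`: `X 0 = x` (inner variable `C X`), `X 1 = y` (outer variable `Y`), `X 2 = z ↦ 1`.
* `deh_coeff`: for `F` homogeneous of degree `D` every exponent `m` in the support has `m 0 + m 1 + m 2 = D`, so the monomial
  `x ^ j y ^ i` of `deh F` comes only from `m = (j, i, D - i - j)`. (Write `F` as the sum of its monomials, `deh (monomial m c) =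
  C (C c) * (C X) ^ m 0 * Y ^ m 1`, i.e. `monomial (m 1) (monomial (m 0) c)`.)
* `exists_hom`: `F = ∑ monomial (j, i, D - i - j) f_ij` over `i, j ≤ D`, `i + j ≤ D`.
* `deh_eval`: both sides are ring homomorphisms in `F`, equal on constants and variables.
* `dvd_of_deh`: `deh U = f * s`; if `s = 0` then `U = 0` by `deh_inj`. Otherwise `TD_quot` gives `D ≤ n` and `TD s (n - D)`; let `S` be
  homogeneous of degree `n - D` with `deh S = s`; `F * S` and `U` are homogeneous of degree `n` with the same `deh`.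
-/

namespace H9CV

open Polynomial
open scoped Polynomial.Bivariate

/-- dehomogenisation: `x ↦ C X`, `y ↦ Y`, `z ↦ 1` -/
noncomputable def deh (R : Type*) [CommRing R] : MvPolynomial (Fin 3) R →+* R[X][Y] :=
  MvPolynomial.eval₂Hom ((C : R[X] →+* R[X][Y]).comp (C : R →+* R[X])) ![C X, Y, 1]

/-- the exponent vector `(j, i, D - i - j)` -/
noncomputable def ex (D i j : ℕ) : Fin 3 →₀ ℕ :=
  Finsupp.single 0 j + Finsupp.single 1 i + Finsupp.single 2 (D - i - j)

variable {R : Type*} [CommRing R]

private theorem Deh_ex0 (D i j : ℕ) : ex D i j 0 = j := by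
  simp [ex]

private theorem Deh_ex1 (D i j : ℕ) : ex D i j 1 = i := by
  simp [ex]

private theorem Deh_ex2 (D i j : ℕ) : ex D i j 2 = D - i - j := by
  simp [ex]

private theorem Deh_deg (D i j : ℕ) (h : i + j ≤ D) : (ex D i j).degree = D := by
  rw [Finsupp.degree_eq_sum, Fin.sum_univ_three, Deh_ex0, Deh_ex1, Deh_ex2]
  omega

private theorem Deh_eq (D : ℕ) (m : Fin 3 →₀ ℕ) (h : m.degree = D) : m = ex D (m 1) (m 0) := by
  rw [Finsupp.degree_eq_sum, Fin.sum_univ_three] at h
  ext i
  fin_cases i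
  · exact (Deh_ex0 D (m 1) (m 0)).symm
  · exact (Deh_ex1 D (m 1) (m 0)).symm
  · change m 2 = ex D (m 1) (m 0) 2
    rw [Deh_ex2]
    omega

private theorem Deh_term (c : R) (a b i j : ℕ) :
    (((C (C c) : R[X][Y]) * ((C X) ^ a * Y ^ b * 1)).coeff i).coeff j =
      if b = i ∧ a = j then c else 0 := by
  have h : (C (C c) : R[X][Y]) * ((C X) ^ a * Y ^ b * 1) = monomial b (monomial a c) := by
    rw [mul_one, ← mul_assoc, ← C_pow, ← C_mul, C_mul_X_pow_eq_monomial,
      C_mul_X_pow_eq_monomial]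
  rw [h, coeff_monomial]
  by_cases hb : b = i
  · rw [if_pos hb, coeff_monomial]
    by_cases ha : a = j
    · rw [if_pos ha, if_pos ⟨hb, ha⟩]
    · rw [if_neg ha, if_neg fun h => ha h.2]
  · rw [if_neg hb, if_neg fun h => hb h.1, coeff_zero]

private theorem Deh_sum (F : MvPolynomial (Fin 3) R) (i j : ℕ) :
    ((deh R F).coeff i).coeff j =
      ∑ m ∈ F.support, if m 1 = i ∧ m 0 = j then F.coeff m else 0 := by
  have h : deh R F = ∑ m ∈ F.support,
      (C (C (F.coeff m)) : R[X][Y]) * ((C X) ^ m 0 * Y ^ m 1 * 1) := by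
    unfold deh
    rw [MvPolynomial.coe_eval₂Hom, MvPolynomial.eval₂_eq']
    refine Finset.sum_congr rfl fun m _ => ?_
    rw [Fin.prod_univ_three]
    have e : (![C X, Y, 1] : Fin 3 → R[X][Y]) 2 ^ m 2 = 1 := one_pow _
    rw [e]
    rfl
  rw [h, finsetSum_coeff, finsetSum_coeff]
  exact Finset.sum_congr rfl fun m _ => Deh_term _ _ _ _ _

theorem deh_coeff {F : MvPolynomial (Fin 3) R} {D : ℕ} (hF : F.IsHomogeneous D) (i j : ℕ) :
    ((deh R F).coeff i).coeff j = if i + j ≤ D then F.coeff (ex D i j) else 0 := by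
  rw [Deh_sum]
  have hdeg : ∀ m ∈ F.support, m.degree = D := by
    intro m hm
    by_contra hne
    exact (MvPolynomial.mem_support_iff.1 hm) (hF.coeff_eq_zero hne)
  by_cases h : i + j ≤ D
  · rw [if_pos h, Finset.sum_eq_single (ex D i j)]
    · rw [if_pos ⟨Deh_ex1 D i j, Deh_ex0 D i j⟩]
    · intro m hm hne
      rw [if_neg]
      rintro ⟨h1, h2⟩
      apply hne
      rw [Deh_eq D m (hdeg m hm), h1, h2]
    · intro hn
      rw [MvPolynomial.notMem_support_iff.1 hn]
      simp
  · rw [if_neg h]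
    refine Finset.sum_eq_zero fun m hm => ?_
    rw [if_neg]
    rintro ⟨h1, h2⟩
    have h3 := hdeg m hm
    rw [Finsupp.degree_eq_sum, Fin.sum_univ_three] at h3
    omega

theorem deh_TD {F : MvPolynomial (Fin 3) R} {D : ℕ} (hF : F.IsHomogeneous D) :
    TD (deh R F) D := by
  intro i j h
  rw [deh_coeff hF] at h
  by_contra hn
  exact h (if_neg hn)

theorem deh_inj {F G : MvPolynomial (Fin 3) R} {D : ℕ} (hF : F.IsHomogeneous D)
    (hG : G.IsHomogeneous D) (h : deh R F = deh R G) : F = G := by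
  ext m
  by_cases hm : m.degree = D
  · have h1 := deh_coeff hF (m 1) (m 0)
    have h2 := deh_coeff hG (m 1) (m 0)
    have h3 : m 1 + m 0 ≤ D := by
      rw [Finsupp.degree_eq_sum, Fin.sum_univ_three] at hm
      omega
    rw [if_pos h3, ← Deh_eq D m hm] at h1 h2
    rw [← h1, ← h2, h]
  · rw [hF.coeff_eq_zero hm, hG.coeff_eq_zero hm]

theorem exists_hom {f : R[X][Y]} {D : ℕ} (hf : TD f D) :
    ∃ F : MvPolynomial (Fin 3) R, F.IsHomogeneous D ∧ deh R F = f := by
  classical
  let F : MvPolynomial (Fin 3) R := ∑ i ∈ Finset.range (D + 1), ∑ j ∈ Finset.range (D + 1 - i),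
    MvPolynomial.monomial (ex D i j) ((f.coeff i).coeff j)
  have hF : F.IsHomogeneous D := by
    refine MvPolynomial.IsHomogeneous.sum _ _ _ fun i hi => ?_
    refine MvPolynomial.IsHomogeneous.sum _ _ _ fun j hj => ?_
    refine MvPolynomial.isHomogeneous_monomial _ (Deh_deg D i j ?_)
    rw [Finset.mem_range] at hi hj
    omega
  refine ⟨F, hF, ?_⟩
  ext i j
  rw [deh_coeff hF]
  by_cases h : i + j ≤ D
  · rw [if_pos h]
    simp only [F, MvPolynomial.coeff_sum, MvPolynomial.coeff_monomial]
    rw [Finset.sum_eq_single i]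
    · rw [Finset.sum_eq_single j]
      · rw [if_pos rfl]
      · intro j' _ hne
        rw [if_neg]
        intro he
        have := congrArg (fun m => m 0) he
        simp only [Deh_ex0] at this
        exact hne this
      · intro hn
        exact absurd (Finset.mem_range.2 (by omega)) hn
    · intro i' _ hne
      refine Finset.sum_eq_zero fun j' _ => ?_
      rw [if_neg]
      intro he
      have := congrArg (fun m => m 1) he
      simp only [Deh_ex1] at this
      exact hne this
    · intro hn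
      exact absurd (Finset.mem_range.2 (by omega)) hn
  · rw [if_neg h]
    by_contra hn
    exact h (hf i j (Ne.symm hn))

theorem deh_map {S : Type*} [CommRing S] (φ : R →+* S) (F : MvPolynomial (Fin 3) R) :
    deh S (MvPolynomial.map φ F) = (deh R F).map (mapRingHom φ) := by
  have h : (deh S).comp (MvPolynomial.map φ) = (mapRingHom (mapRingHom φ)).comp (deh R) := by
    refine MvPolynomial.ringHom_ext (fun c => ?_) (fun i => ?_)
    · simp [deh]
    · fin_cases i <;> simp [deh]
  have h2 := congrArg (fun ψ : MvPolynomial (Fin 3) R →+* S[X][Y] => ψ F) h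
  exact h2

theorem deh_eval {K : Type*} [Field K] (F : MvPolynomial (Fin 3) K) (a b : K) :
    evA a b (deh K F) = MvPolynomial.eval ![a, b, 1] F := by
  have h : ((evA a b : K[X][Y] →ₐ[K] K) : K[X][Y] →+* K).comp (deh K) =
      MvPolynomial.eval ![a, b, 1] := by
    refine MvPolynomial.ringHom_ext (fun c => ?_) (fun i => ?_)
    · simp [deh, evA]
    · fin_cases i <;> simp [deh, evA]
  have h2 := congrArg (fun ψ : MvPolynomial (Fin 3) K →+* K => ψ F) h
  exact h2

theorem dvd_of_deh [IsDomain R] {F U : MvPolynomial (Fin 3) R} {D n : ℕ} (hF : F.IsHomogeneous D)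
    (hU : U.IsHomogeneous n) (hex : ∃ i j, ((deh R F).coeff i).coeff j ≠ 0 ∧ i + j = D)
    (h : deh R F ∣ deh R U) : F ∣ U := by
  obtain ⟨s, hs⟩ := h
  by_cases hs0 : s = 0
  · rw [hs0, mul_zero] at hs
    have h1 : U = 0 := deh_inj hU (MvPolynomial.isHomogeneous_zero _ _ n) (by rw [hs, map_zero])
    rw [h1]
    exact dvd_zero F
  · have hT : TD (deh R F * s) n := by
      rw [← hs]
      exact deh_TD hU
    obtain ⟨hDn, hTs⟩ := TD_quot hex (deh_TD hF) hs0 hT
    obtain ⟨S, hS, hSs⟩ := exists_hom hTs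
    have hFS : (F * S).IsHomogeneous n := by
      have := hF.mul hS
      rwa [Nat.add_sub_cancel' hDn] at this
    have h1 : U = F * S := deh_inj hU hFS (by rw [map_mul, hSs, hs])
    exact ⟨S, h1⟩

end H9CV
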