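import Pool.Agent.H9.CV.DelSz
import Pool.Agent.H93.PadeHeight
import Pool.Agent.H93.Global

set_option autoImplicit false

/-!
Project CV (MP_ef6a16_nt, helper9), module Loc: local estimates of values of integral polynomials at points of `K ^ 2`, and the
resulting height inequalities.

* `evZ_inf`: `evZ a b f = ∑ f_ij a ^ j b ^ i` (`up_coeff`, `sz_eq_box` style), `v (f_ij) = |f_ij|`,
  `v a ^ j v b ^ i ≤ M ^ (i + j) ≤ M ^ n` with `M = ⨆ j, v (![a, b, 1] j) ≥ 1` (`Pool.Agent.H93.iSup_eq_max3`).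
* `evZ_fin`: the same with the ultrametric inequality and `v (f_ij) ≤ 1` (`Pool.Agent.H93.finitePlace_intCast_le_one`).
* `height_step`: `y = (a ^ p, b ^ p, 1)` is orthogonal to `ρ = (r_i(P))` and to `φ`, `cross ρ φ ≠ 0`, so
  `y = c • cross ρ φ` (`Pool.Agent.H93.exists_smul_cross`), `mulHeight ![a, b, 1] ^ p = mulHeight y =
  mulHeight (cross ρ φ)` (`Height.mulHeight_pow`, `Height.mulHeight_smul_eq_mulHeight`). With
  `Pool.Agent.H93.mulHeight_le_of_local` for `w = cross ρ φ`, `ξ = 1`, `x = ![a, b, 1]`, `k = n`, `C = 2 S Aφ`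
  one gets `H ^ p ≤ (2 S Aφ) ^ d * H ^ n`, and `H > 0`.
* `mulHeight_le_coords`: `max (|a|, |b|, 1) ≤ max (|a|, 1) max (|b|, 1)` at every place; e.g. `![a, b, 1]` is a part of
  the vector of products of `![a, 1]` and `![b, 1]`: `Height.mulHeight_fun_mul_eq` and `mulHeight_comp_le`.
* `root_height`: `n` = leading coefficient of `ρ`, `m = natDegree ρ ≥ 1`. At an infinite place: `v (n a) ≤ L`: if `v a ≤ 1` clear;
  otherwise divide `n a ^ m = - ∑_{j<m} ρ_j a ^ j` by `a ^ (m - 1)`. At a finite place `v (n a) ≤ 1` in the same way, and `v n ≤ 1`. So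
  `mulHeight₁ a = mulHeight ![n a, n] ≤ L ^ d` (`mulHeight₁_div_eq_mulHeight`, `NumberField.mulHeight_eq`, `sum of mult = d`; or
  `mulHeight_le_of_local` with `![n a, n, n]` and `ξ = 1`, `k = 0`).
-/

namespace H9CV

open Polynomial NumberField Height
open scoped Polynomial.Bivariate

variable {K : Type*} [Field K] [NumberField K]

private theorem Loc_ev {f : ℤ[X][Y]} {n : ℕ} (h : TD f n) (a b : K) :
    evZ a b f = ∑ i ∈ Finset.range (n + 1), ∑ j ∈ Finset.range (n + 1),
      (((f.coeff i).coeff j : ℤ) : K) * (a ^ j * b ^ i) := by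
  have hT : TD (up K f) n := up_TD h
  unfold evZ evA
  rw [coe_aevalAeval_eq_evalEval]
  unfold evalEval
  rw [eval_eq_sum_range' (Nat.lt_succ_of_le (TD_natDegree hT)), eval_finsetSum]
  refine Finset.sum_congr rfl fun i _ => ?_
  rw [eval_mul, eval_pow, eval_C,
    eval_eq_sum_range' (n := n + 1) (Nat.lt_succ_of_le ((TD_coeff hT i).trans (Nat.sub_le _ _))),
    Finset.sum_mul]
  refine Finset.sum_congr rfl fun j _ => ?_
  rw [up_coeff]
  ring

private theorem Loc_inf_int (v : InfinitePlace K) (m : ℤ) : v (m : K) = |(m : ℝ)| := by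
  have h1 := InfinitePlace.norm_embedding_eq v (m : K)
  rw [map_intCast] at h1
  rw [← h1, Complex.norm_intCast]

private theorem Loc_inf_sum (v : InfinitePlace K) {ι : Type*} (s : Finset ι) (g : ι → K) :
    v (∑ i ∈ s, g i) ≤ ∑ i ∈ s, v (g i) := v.1.sum_le s g

private theorem Loc_fin_sum (v : FinitePlace K) {ι : Type*} (s : Finset ι) (g : ι → K) {M : ℝ}
    (hM : 0 ≤ M) (h : ∀ i ∈ s, v (g i) ≤ M) : v (∑ i ∈ s, g i) ≤ M := by
  classical
  induction s using Finset.induction_on with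
  | empty =>
    rw [Finset.sum_empty, map_zero]
    exact hM
  | insert i s hi ih =>
    rw [Finset.sum_insert hi]
    refine (Pool.Agent.H93.fp_add_le v _ _).trans (max_le (h i (Finset.mem_insert_self i s)) ?_)
    exact ih fun j hj => h j (Finset.mem_insert_of_mem hj)

private theorem Loc_mon {A B M : ℝ} (hA : 0 ≤ A) (hB : 0 ≤ B) (hAM : A ≤ M) (hBM : B ≤ M)
    (hM : 1 ≤ M) {i j n : ℕ} (hij : i + j ≤ n) : A ^ j * B ^ i ≤ M ^ n := by
  have hM0 : 0 ≤ M := by linarith
  calc A ^ j * B ^ i ≤ M ^ j * M ^ i :=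
        mul_le_mul (pow_le_pow_left₀ hA hAM j) (pow_le_pow_left₀ hB hBM i) (by positivity)
          (by positivity)
    _ = M ^ (i + j) := by rw [← pow_add, add_comm]
    _ ≤ M ^ n := pow_le_pow_right₀ hM hij

theorem evZ_inf (v : InfinitePlace K) {f : ℤ[X][Y]} {n : ℕ} (h : TD f n) (a b : K) :
    v (evZ a b f) ≤ sz f * (⨆ j, v (![a, b, 1] j)) ^ n := by
  rw [Pool.Agent.H93.iSup_eq_max3, map_one]
  set M : ℝ := max (v a) (max (v b) 1) with hM
  have h1 : 1 ≤ M := (le_max_right _ _).trans (le_max_right _ _)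
  have ha : v a ≤ M := le_max_left _ _
  have hb : v b ≤ M := (le_max_left _ _).trans (le_max_right _ _)
  rw [Loc_ev h, sz_eq_box h, Finset.sum_mul]
  refine (Loc_inf_sum v _ _).trans (Finset.sum_le_sum fun i _ => ?_)
  rw [Finset.sum_mul]
  refine (Loc_inf_sum v _ _).trans (Finset.sum_le_sum fun j _ => ?_)
  rw [map_mul, map_mul, map_pow, map_pow, Loc_inf_int]
  by_cases h0 : (f.coeff i).coeff j = 0
  · rw [h0]
    simp
  · exact mul_le_mul_of_nonneg_left
      (Loc_mon (apply_nonneg v a) (apply_nonneg v b) ha hb h1 (h i j h0)) (abs_nonneg _)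

theorem evZ_fin (v : FinitePlace K) {f : ℤ[X][Y]} {n : ℕ} (h : TD f n) (a b : K) :
    v (evZ a b f) ≤ (⨆ j, v (![a, b, 1] j)) ^ n := by
  rw [Pool.Agent.H93.iSup_eq_max3, map_one]
  set M : ℝ := max (v a) (max (v b) 1) with hM
  have h1 : 1 ≤ M := (le_max_right _ _).trans (le_max_right _ _)
  have ha : v a ≤ M := le_max_left _ _
  have hb : v b ≤ M := (le_max_left _ _).trans (le_max_right _ _)
  have hM0 : 0 ≤ M ^ n := by positivity
  rw [Loc_ev h]
  refine Loc_fin_sum v _ _ hM0 fun i _ => ?_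
  refine Loc_fin_sum v _ _ hM0 fun j _ => ?_
  rw [map_mul, map_mul, map_pow, map_pow]
  by_cases h0 : (f.coeff i).coeff j = 0
  · rw [h0]
    simpa using hM0
  · calc v (((f.coeff i).coeff j : ℤ) : K) * (v a ^ j * v b ^ i) ≤ 1 * M ^ n :=
        mul_le_mul (Pool.Agent.H93.finitePlace_intCast_le_one v _)
          (Loc_mon (apply_nonneg v a) (apply_nonneg v b) ha hb h1 (h i j h0))
          (mul_nonneg (pow_nonneg (apply_nonneg v a) _) (pow_nonneg (apply_nonneg v b) _))
          zero_le_one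
      _ = M ^ n := one_mul _

private theorem Loc_sub_inf (v : InfinitePlace K) (x y : K) : v (x - y) ≤ v x + v y := by
  rw [sub_eq_add_neg]
  refine (Pool.Agent.H93.ip_add_le v _ _).trans (le_of_eq ?_)
  congr 1
  exact v.1.map_neg _

private theorem Loc_sub_fin (v : FinitePlace K) (x y : K) : v (x - y) ≤ max (v x) (v y) := by
  rw [sub_eq_add_neg]
  refine (Pool.Agent.H93.fp_add_le v _ _).trans ?_
  rw [Pool.Agent.H93.fp_neg]

private theorem Loc_one_sup (f : K → ℝ) (hf : f 1 = 1) : (⨆ j, f ((1 : Fin 3 → K) j)) = 1 := by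
  simp only [Pi.one_apply, hf]
  exact ciSup_const

theorem height_step {a b : K} (ha : a ≠ 0) {p n : ℕ} (hnp : n ≤ p) {φ : Fin 3 → ℤ}
    {r : Fin 3 → ℤ[X][Y]} (hr : ∀ i, TD (r i) n) {S Aφ : ℝ} (hS : ∀ i, sz (r i) ≤ S)
    (hφ : ∀ i, |(φ i : ℝ)| ≤ Aφ)
    (h1 : (φ 0 : K) * a ^ p + (φ 1 : K) * b ^ p + (φ 2 : K) = 0)
    (h2 : evZ a b (r 0) * a ^ p + evZ a b (r 1) * b ^ p + evZ a b (r 2) = 0)
    (hcr : Pool.Agent.H93.cross (fun i => evZ a b (r i)) (fun i => (φ i : K)) ≠ 0) :
    mulHeight ![a, b, 1] ^ (p - n) ≤ (2 * S * Aφ) ^ Module.finrank ℚ K := by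
  have hS0 : 0 ≤ S := (sz_nonneg (r 0)).trans (hS 0)
  have hA0 : 0 ≤ Aφ := (abs_nonneg _).trans (hφ 0)
  set x : Fin 3 → K := ![a, b, 1] with hx
  have hx0 : x ≠ 0 := fun h0 => ha (by simpa [hx] using congrFun h0 0)
  set y : Fin 3 → K := x ^ p with hy
  have y0 : y 0 = a ^ p := rfl
  have y1 : y 1 = b ^ p := rfl
  have y2 : y 2 = 1 := by
    have : y 2 = 1 ^ p := rfl
    rw [this, one_pow]
  have hy0 : y ≠ 0 := by
    intro h0
    have := congrFun h0 2
    rw [y2] at this
    exact one_ne_zero this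
  obtain ⟨c, hc, hyc⟩ := Pool.Agent.H93.exists_smul_cross (y := y) hy0
    (a := fun i => evZ a b (r i)) (b := fun i => (φ i : K))
    (by rw [y0, y1, y2, mul_one]; exact h2) (by rw [y0, y1, y2, mul_one]; exact h1) hcr
  set w := Pool.Agent.H93.cross (fun i => evZ a b (r i)) (fun i => (φ i : K)) with hw
  have hH : mulHeight x ^ p = mulHeight w := by
    rw [← mulHeight_pow, ← hy, hyc, mulHeight_smul_eq_mulHeight _ hc]
  have hsup0 : ∀ v : InfinitePlace K, 0 ≤ (⨆ j, v (x j)) ^ n := fun v =>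
    pow_nonneg (Real.iSup_nonneg fun i => apply_nonneg v _) n
  have hsup1 : ∀ v : FinitePlace K, 0 ≤ (⨆ j, v (x j)) ^ n := fun v =>
    pow_nonneg (Real.iSup_nonneg fun i => apply_nonneg v _) n
  have hinf : ∀ (v : InfinitePlace K) (i j k l : Fin 3),
      v (evZ a b (r i) * (φ j : K) - evZ a b (r k) * (φ l : K)) ≤
        2 * S * Aφ * ((⨆ j, v ((1 : Fin 3 → K) j)) * (⨆ j, v (x j)) ^ n) := by
    intro v i j k l
    have e : ∀ i j : Fin 3, v (evZ a b (r i) * (φ j : K)) ≤ S * (⨆ j, v (x j)) ^ n * Aφ := by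
      intro i j
      rw [map_mul, Loc_inf_int]
      refine mul_le_mul ((evZ_inf v (hr i) a b).trans ?_) (hφ j) (abs_nonneg _)
        (mul_nonneg hS0 (hsup0 v))
      exact mul_le_mul_of_nonneg_right (hS i) (hsup0 v)
    rw [Loc_one_sup (fun z => v z) (map_one v), one_mul]
    refine (Loc_sub_inf v _ _).trans ((add_le_add (e i j) (e k l)).trans (le_of_eq ?_))
    ring
  have hfin : ∀ (v : FinitePlace K) (i j k l : Fin 3),
      v (evZ a b (r i) * (φ j : K) - evZ a b (r k) * (φ l : K)) ≤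
        (⨆ j, v ((1 : Fin 3 → K) j)) * (⨆ j, v (x j)) ^ n := by
    intro v i j k l
    have e : ∀ i j : Fin 3, v (evZ a b (r i) * (φ j : K)) ≤ (⨆ j, v (x j)) ^ n := by
      intro i j
      rw [map_mul]
      refine (mul_le_mul (evZ_fin v (hr i) a b)
        (Pool.Agent.H93.finitePlace_intCast_le_one v (φ j)) (apply_nonneg v _)
        (hsup1 v)).trans (le_of_eq (mul_one _))
    rw [Loc_one_sup (fun z => v z) (map_one v), one_mul]
    exact (Loc_sub_fin v _ _).trans (max_le (e i j) (e k l))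
  have hmain := Pool.Agent.H93.mulHeight_le_of_local (w := w) (ξ := 1) (x := x) hcr one_ne_zero
    hx0 (C := 2 * S * Aφ) (by positivity) n
    (fun v i => by
      fin_cases i
      · exact hinf v _ _ _ _
      · exact hinf v _ _ _ _
      · exact hinf v _ _ _ _)
    (fun v i => by
      fin_cases i
      · exact hfin v _ _ _ _
      · exact hfin v _ _ _ _
      · exact hfin v _ _ _ _)
  rw [← hH, mulHeight_one, one_mul] at hmain
  have hHpos : 0 < mulHeight x := mulHeight_pos x
  have hsplit : mulHeight x ^ p = mulHeight x ^ (p - n) * mulHeight x ^ n := by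
    rw [← pow_add]
    congr 1
    omega
  rw [hsplit] at hmain
  exact le_of_mul_le_mul_right hmain (pow_pos hHpos n)

theorem mulHeight_le_coords (a b : K) :
    mulHeight ![a, b, 1] ≤ mulHeight₁ a * mulHeight₁ b := by
  have hne : ∀ z : K, (![z, 1] : Fin 2 → K) ≠ 0 := fun z h => one_ne_zero (congrFun h 1)
  rw [mulHeight₁_eq_mulHeight, mulHeight₁_eq_mulHeight, ← mulHeight_fun_mul_eq (hne a) (hne b)]
  have e : (![a, b, 1] : Fin 3 → K) =
      (fun ij : Fin 2 × Fin 2 => (![a, 1] : Fin 2 → K) ij.1 * (![b, 1] : Fin 2 → K) ij.2) ∘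
        (![(0, 1), (1, 0), (1, 1)] : Fin 3 → Fin 2 × Fin 2) := by
    ext i
    fin_cases i <;> simp
  rw [e]
  exact mulHeight_comp_le _ _

/-- a root of an integral polynomial with `ℓ¹` norm at most `L` -/
theorem root_height {ρ : ℤ[X]} (hρ : ρ ≠ 0) {L : ℝ}
    (hL : ∑ i ∈ ρ.support, |((ρ.coeff i : ℤ) : ℝ)| ≤ L)
    {a : K} (ha : (ρ.map (Int.castRingHom K)).eval a = 0) :
    mulHeight₁ a ≤ L ^ Module.finrank ℚ K := by
  obtain ⟨m, hm⟩ : ∃ m, m = ρ.natDegree := ⟨_, rfl⟩
  obtain ⟨c, hc⟩ : ∃ c : ℤ, c = ρ.coeff m := ⟨_, rfl⟩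
  have hc0 : c ≠ 0 := by
    rw [hc, hm]
    exact leadingCoeff_ne_zero.2 hρ
  have hcK : (c : K) ≠ 0 := Int.cast_ne_zero.2 hc0
  have hsum : ∑ i ∈ Finset.range m, ((ρ.coeff i : ℤ) : K) * a ^ i + (c : K) * a ^ m = 0 := by
    have h1 : (ρ.map (Int.castRingHom K)).natDegree < m + 1 :=
      Nat.lt_succ_of_le (by rw [hm]; exact natDegree_map_le)
    rw [eval_eq_sum_range' h1, Finset.sum_range_succ] at ha
    simpa [hc] using ha
  -- the total of the coefficients
  have htot : ∑ i ∈ Finset.range m, |((ρ.coeff i : ℤ) : ℝ)| + |(c : ℝ)| ≤ L := by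
    refine le_trans (le_of_eq ?_) hL
    rw [hc, ← Finset.sum_range_succ (fun i => |((ρ.coeff i : ℤ) : ℝ)|)]
    symm
    apply Finset.sum_subset
    · intro i hi
      rw [Finset.mem_range, Nat.lt_succ_iff, hm]
      exact le_natDegree_of_mem_supp i hi
    · intro i _ hi
      rw [notMem_support_iff.1 hi]
      simp
  have htot0 : 0 ≤ ∑ i ∈ Finset.range m, |((ρ.coeff i : ℤ) : ℝ)| :=
    Finset.sum_nonneg fun i _ => abs_nonneg _
  have hcL : |(c : ℝ)| ≤ L := by linarith
  have hsL : ∑ i ∈ Finset.range m, |((ρ.coeff i : ℤ) : ℝ)| ≤ L := by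
    have := abs_nonneg (c : ℝ)
    linarith
  have hL0 : 0 ≤ L := (abs_nonneg _).trans hcL
  have hm1 : 1 ≤ m := by
    by_contra h
    have h0 : m = 0 := by omega
    rw [h0, Finset.range_zero, Finset.sum_empty, zero_add, pow_zero, mul_one] at hsum
    exact hcK hsum
  have heq : (c : K) * a * a ^ (m - 1) = - ∑ i ∈ Finset.range m, ((ρ.coeff i : ℤ) : K) * a ^ i := by
    have h1 : (c : K) * a * a ^ (m - 1) = (c : K) * a ^ m := by
      rw [mul_assoc, ← pow_succ', Nat.sub_add_cancel hm1]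
    rw [h1]
    linear_combination hsum
  have hinf : ∀ v : InfinitePlace K, v ((c : K) * a) ≤ L := by
    intro v
    rcases le_or_gt (v a) 1 with h1 | h1
    · rw [map_mul, Loc_inf_int]
      exact (mul_le_of_le_one_right (abs_nonneg _) h1).trans hcL
    · have hpos : 0 < v a ^ (m - 1) := pow_pos (by linarith) _
      have h2 : v ((c : K) * a) * v a ^ (m - 1) ≤ L * v a ^ (m - 1) := by
        rw [← map_pow, ← map_mul, heq]
        have h3 : v (-∑ i ∈ Finset.range m, ((ρ.coeff i : ℤ) : K) * a ^ i) =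
            v (∑ i ∈ Finset.range m, ((ρ.coeff i : ℤ) : K) * a ^ i) := v.1.map_neg _
        rw [h3]
        refine (Loc_inf_sum v _ _).trans ?_
        refine le_trans ?_ (mul_le_mul_of_nonneg_right hsL (by rw [map_pow]; exact hpos.le))
        rw [Finset.sum_mul]
        refine Finset.sum_le_sum fun i hi => ?_
        rw [map_mul, Loc_inf_int, map_pow, map_pow]
        apply mul_le_mul_of_nonneg_left _ (abs_nonneg _)
        apply pow_le_pow_right₀ h1.le
        have := Finset.mem_range.1 hi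
        omega
      exact le_of_mul_le_mul_right h2 hpos
  have hfin : ∀ v : FinitePlace K, v ((c : K) * a) ≤ 1 := by
    intro v
    have hc1 := Pool.Agent.H93.finitePlace_intCast_le_one v c
    rcases le_or_gt (v a) 1 with h1 | h1
    · rw [map_mul]
      exact mul_le_one₀ hc1 (apply_nonneg v a) h1
    · have hpos : 0 < v a ^ (m - 1) := pow_pos (by linarith) _
      have h2 : v ((c : K) * a) * v a ^ (m - 1) ≤ 1 * v a ^ (m - 1) := by
        rw [← map_pow, ← map_mul, heq, Pool.Agent.H93.fp_neg, one_mul]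
        apply Loc_fin_sum v _ _ (apply_nonneg v _)
        intro i hi
        rw [map_mul, map_pow, map_pow]
        have h3 : v a ^ i ≤ v a ^ (m - 1) := by
          apply pow_le_pow_right₀ h1.le
          have := Finset.mem_range.1 hi
          omega
        calc v ((ρ.coeff i : ℤ) : K) * v a ^ i ≤ 1 * v a ^ (m - 1) :=
              mul_le_mul (Pool.Agent.H93.finitePlace_intCast_le_one v _) h3
                (pow_nonneg (apply_nonneg v a) _) zero_le_one
          _ = v a ^ (m - 1) := one_mul _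
      exact le_of_mul_le_mul_right h2 hpos
  -- the heights
  have e1 : mulHeight₁ a ≤ mulHeight ![a, 1, 1] := by
    rw [mulHeight₁_eq_mulHeight]
    have e : (![a, 1] : Fin 2 → K) = (![a, 1, 1] : Fin 3 → K) ∘ (![0, 1] : Fin 2 → Fin 3) := by
      ext i
      fin_cases i <;> simp
    rw [e]
    exact mulHeight_comp_le _ _
  have e2 : mulHeight ![a, 1, 1] = mulHeight ![(c : K) * a, (c : K), (c : K)] := by
    rw [← mulHeight_smul_eq_mulHeight ![a, 1, 1] hcK]
    congr 1
    ext i
    fin_cases i <;> simp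
  have hw0 : (![(c : K) * a, (c : K), (c : K)] : Fin 3 → K) ≠ 0 := by
    intro h0
    exact hcK (congrFun h0 1)
  have hmain := Pool.Agent.H93.mulHeight_le_of_local
    (w := ![(c : K) * a, (c : K), (c : K)]) (ξ := 1) (x := 1) hw0 one_ne_zero
    one_ne_zero (C := L) hL0 0
    (fun v i => by
      rw [Loc_one_sup (fun z => v z) (map_one v), one_pow, mul_one, mul_one]
      fin_cases i
      · exact hinf v
      · exact (Loc_inf_int v c).le.trans hcL
      · exact (Loc_inf_int v c).le.trans hcL)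
    (fun v i => by
      rw [Loc_one_sup (fun z => v z) (map_one v), one_pow, mul_one]
      fin_cases i
      · exact hfin v
      · exact Pool.Agent.H93.finitePlace_intCast_le_one v c
      · exact Pool.Agent.H93.finitePlace_intCast_le_one v c)
  rw [pow_zero, mulHeight_one, mul_one, mul_one] at hmain
  exact e1.trans (e2.le.trans hmain)

end H9CV
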