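import Pool.Agent.H9.CV.ElimR
import Pool.Agent.H9.CV.Loc

set_option autoImplicit false

/-!
Project CV (MP_ef6a16_nt, helper9), module Elim: common zeros of two coprime integral polynomials have bounded height.

* `elim_one`: bound for the first coordinate `a`.
  Case `natDegree f = 0`: `f = C f₀`, `f₀(a) = 0`, `f₀ ≠ 0`: `root_height` (module Loc) with `L = A` (`sz_C`).
  Case `natDegree f ≠ 0`: `elim_res`, `ρ(a) = 0`, `root_height` with `L = (D + e)! A ^ (D + e)`.
* `elim`: apply `elim_one` to `(f, g)` and to `(swap f, swap g)` (`Bivariate.swap` is a ring automorphism, so irreducibility and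
  divisibility are preserved; `evZ b a (swap f) = evZ a b f`: `up_swap`, `Bivariate.aevalAeval_swap`; `TD_swap`, `sz_swap`), then
  `mulHeight_le_coords`.
-/

namespace H9CV

open Polynomial NumberField Height
open scoped Polynomial.Bivariate

private theorem Elim_evZ_C {K : Type*} [Field K] (a b : K) (q : ℤ[X]) :
    evZ a b (C q) = (q.map (Int.castRingHom K)).eval a := by
  unfold evZ evA up
  rw [coe_mapRingHom, map_C, coe_mapRingHom]
  rw [aevalAeval_C]
  simp [aeval_def, eval_map]

private theorem Elim_evZ_mul {K : Type*} [Field K] (a b : K) (f g : ℤ[X][Y]) :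
    evZ a b (f * g) = evZ a b f * evZ a b g := by
  unfold evZ
  rw [map_mul, map_mul]

private theorem Elim_evZ_add {K : Type*} [Field K] (a b : K) (f g : ℤ[X][Y]) :
    evZ a b (f + g) = evZ a b f + evZ a b g := by
  unfold evZ
  rw [map_add, map_add]

private theorem Elim_evZ_swap {K : Type*} [Field K] (a b : K) (f : ℤ[X][Y]) :
    evZ b a (Bivariate.swap f) = evZ a b f := by
  unfold evZ evA
  rw [up_swap, Bivariate.aevalAeval_swap]

theorem elim_one {D e : ℕ} {f g : ℤ[X][Y]} (hf : TD f D) (hg : TD g e)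
    (hirr : Irreducible (up ℚ f)) (hfg : ¬ up ℚ f ∣ up ℚ g) {A : ℝ}
    (hA : 1 ≤ A) (hfA : sz f ≤ A) (hgA : sz g ≤ A) {K : Type*} [Field K] [NumberField K]
    {a b : K} (h1 : evZ a b f = 0) (h2 : evZ a b g = 0) :
    mulHeight₁ a ≤ ((D + e + 1).factorial * A ^ (D + e + 1)) ^ Module.finrank ℚ K := by
  have hpos : 0 ≤ mulHeight₁ a := mulHeight₁_nonneg a
  by_cases hdeg : f.natDegree = 0
  · obtain ⟨q, rfl⟩ : ∃ q : ℤ[X], f = C q := ⟨f.coeff 0, eq_C_of_natDegree_eq_zero hdeg⟩
    have hq : q ≠ 0 := by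
      rintro rfl
      exact hirr.ne_zero (by simp)
    rw [Elim_evZ_C] at h1
    rw [sz_C] at hfA
    refine (root_height hq hfA h1).trans ?_
    have h3 : A ≤ (D + e + 1).factorial * A ^ (D + e + 1) := by
      have h4 : (1 : ℝ) ≤ (D + e + 1).factorial := by
        exact_mod_cast Nat.one_le_iff_ne_zero.2 (Nat.factorial_ne_zero _)
      have h5 : A ≤ A ^ (D + e + 1) := by
        calc A = A ^ 1 := (pow_one A).symm
          _ ≤ A ^ (D + e + 1) := pow_le_pow_right₀ hA (by omega)
      calc A ≤ 1 * A ^ (D + e + 1) := by rw [one_mul]; exact h5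
        _ ≤ _ := by gcongr
    gcongr
  · obtain ⟨ρ, u, w, hρ, hid, hsz⟩ := elim_res hf hg hirr hdeg hfg hA hfA hgA
    have h0 : (ρ.map (Int.castRingHom K)).eval a = 0 := by
      rw [← Elim_evZ_C a b, ← hid, Elim_evZ_add, Elim_evZ_mul, Elim_evZ_mul, h1, h2]
      ring
    rw [sz_C] at hsz
    refine (root_height hρ hsz h0).trans ?_
    have h6 : ((D + e).factorial : ℝ) ≤ (D + e + 1).factorial := by
      exact_mod_cast Nat.factorial_le (by omega)
    have h7 : A ^ (D + e) ≤ A ^ (D + e + 1) := pow_le_pow_right₀ hA (by omega)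
    gcongr

theorem elim {D e : ℕ} {f g : ℤ[X][Y]} (hf : TD f D) (hg : TD g e)
    (hirr : Irreducible (up ℚ f)) (hfg : ¬ up ℚ f ∣ up ℚ g) {A : ℝ}
    (hA : 1 ≤ A) (hfA : sz f ≤ A) (hgA : sz g ≤ A) {K : Type*} [Field K] [NumberField K]
    {a b : K} (h1 : evZ a b f = 0) (h2 : evZ a b g = 0) :
    mulHeight ![a, b, 1] ≤
      ((D + e + 1).factorial * A ^ (D + e + 1)) ^ (2 * Module.finrank ℚ K) := by
  have ha := elim_one hf hg hirr hfg hA hfA hgA h1 h2
  have hb := elim_one (f := Bivariate.swap f) (g := Bivariate.swap g) (TD_swap hf) (TD_swap hg)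
    (by
      rw [up_swap]
      exact (MulEquiv.irreducible_iff (Bivariate.swap (R := ℚ))).2 hirr)
    (by
      rw [up_swap, up_swap]
      intro h
      exact hfg ((map_dvd_iff (Bivariate.swap (R := ℚ))).1 h))
    hA (by rw [sz_swap]; exact hfA) (by rw [sz_swap]; exact hgA) (a := b) (b := a)
    (by rw [Elim_evZ_swap]; exact h1) (by rw [Elim_evZ_swap]; exact h2)
  refine (mulHeight_le_coords a b).trans ?_
  rw [two_mul, pow_add]
  exact mul_le_mul ha hb (mulHeight₁_nonneg b) ((mulHeight₁_nonneg a).trans ha)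

end H9CV
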