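import Pool.Agent.H9.CV.Loc
import Pool.Agent.H93.Lines

set_option autoImplicit false

/-!
Project CV (MP_ef6a16_nt, helper9), module VertH: the height of a Fermat point on a curve through a vertex.

`x ∈ K ^ 3` with nonzero coordinates, `x_0 ^ p + x_1 ^ p + x_2 ^ p = 0`; `U, V` forms of degree `N - 1` with integer coefficients
`≤ A` in absolute value, not both zero at `x`, with `x_1 ^ N U(x) = x_0 ^ N V(x)`.
Then `(x_0 ^ N : x_1 ^ N) = (U(x) : V(x))`, so (`mulHeight_pow`, `mulHeight_smul_eq_mulHeight`)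
`H(x_0 : x_1) ^ N = H(U(x) : V(x)) ≤ (N ^ 3 A) ^ d * H(x) ^ (N - 1)`: at an infinite place `v (U(x)) ≤ (number of monomials) * A *
(⨆ v (x_j)) ^ (N - 1)`, at a finite place `v (U(x)) ≤ (⨆ v (x_j)) ^ (N - 1)` (`MvPolynomial.eval₂_eq`,
`Pool.Agent.H93.finitePlace_intCast_le_one`; the support is contained in the set of
`m` with `m i ≤ N - 1`, at most `N ^ 3` elements) and `Pool.Agent.H93.mulHeight_le_of_local` (use the vector `![U(x), V(x), V(x)]` and
`ξ = 1` to stay with `Fin 3`, as in `Pool.Agent.H93.mulHeight_le_two_coord`), and `H(x) ≤ 2 ^ d H(x_0 : x_1)`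
(`Pool.Agent.H93.mulHeight_le_two_coord`). So `H(x) ^ N ≤ 2 ^ (d N) (N ^ 3 A) ^ d H(x) ^ (N - 1)`.
-/

namespace H9CV

open NumberField MvPolynomial Height

private theorem VertH_deg {n : ℕ} {U : MvPolynomial (Fin 3) ℤ} (hU : U.IsHomogeneous n)
    {m : Fin 3 →₀ ℕ} (hm : m ∈ U.support) : ∑ i, m i = n := by
  rw [mem_support_iff] at hm
  by_contra hne
  refine hm (hU.coeff_eq_zero ?_)
  rw [Finsupp.degree_eq_sum]
  exact hne

private theorem VertH_card {n : ℕ} {U : MvPolynomial (Fin 3) ℤ} (hU : U.IsHomogeneous n) :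
    U.support.card ≤ (n + 1) ^ 3 := by
  have h : U.support.card ≤
      (Finset.range (n + 1) ×ˢ Finset.range (n + 1) ×ˢ Finset.range (n + 1)).card := by
    refine Finset.card_le_card_of_injOn (fun m => (m 0, m 1, m 2)) ?_ ?_
    · intro m hm
      have h1 := VertH_deg hU hm
      rw [Fin.sum_univ_three] at h1
      simp only [Finset.coe_product, Finset.coe_range, Set.mem_prod, Set.mem_Iio]
      omega
    · intro m _ m' _ h
      simp only [Prod.mk.injEq] at h
      ext i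
      fin_cases i
      · exact h.1
      · exact h.2.1
      · exact h.2.2
  refine h.trans (le_of_eq ?_)
  rw [Finset.card_product, Finset.card_product, Finset.card_range]
  ring

private theorem VertH_mon {K : Type*} [Field K] (v : AbsoluteValue K ℝ) (x : Fin 3 → K) {n : ℕ}
    {m : Fin 3 →₀ ℕ} (hm : ∑ i, m i = n) : v (∏ i, x i ^ m i) ≤ (⨆ j, v (x j)) ^ n := by
  have h0 : ∀ j, v (x j) ≤ ⨆ j, v (x j) := fun j => Finite.le_ciSup (fun j => v (x j)) j
  rw [map_prod, ← hm, ← Finset.prod_pow_eq_pow_sum]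
  refine Finset.prod_le_prod (fun i _ => apply_nonneg v _) (fun i _ => ?_)
  rw [map_pow]
  exact pow_le_pow_left₀ (apply_nonneg v _) (h0 i) _

private theorem VertH_inf {K : Type*} [Field K] [NumberField K] (v : InfinitePlace K)
    (x : Fin 3 → K) {n : ℕ} {U : MvPolynomial (Fin 3) ℤ} (hU : U.IsHomogeneous n)
    {A : ℝ} (hA : 1 ≤ A) (hUA : ∀ m, |((U.coeff m : ℤ) : ℝ)| ≤ A) :
    v (eval₂ (Int.castRingHom K) x U) ≤ ((n : ℝ) + 1) ^ 3 * A * (⨆ j, v (x j)) ^ n := by
  rw [eval₂_eq']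
  have hS : 0 ≤ ⨆ j, v (x j) := Real.iSup_nonneg fun i => apply_nonneg v _
  have h1 : v (∑ d ∈ U.support, (Int.castRingHom K) (coeff d U) * ∏ i, x i ^ d i) ≤
      ∑ d ∈ U.support, v ((Int.castRingHom K) (coeff d U) * ∏ i, x i ^ d i) :=
    v.1.sum_le _ _
  refine h1.trans ?_
  have h2 : ∀ d ∈ U.support, v ((Int.castRingHom K) (coeff d U) * ∏ i, x i ^ d i) ≤
      A * (⨆ j, v (x j)) ^ n := by
    intro d hd
    rw [map_mul]
    refine mul_le_mul ?_ (VertH_mon v.1 x (VertH_deg hU hd)) (apply_nonneg v _) (by linarith)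
    rw [eq_intCast, InfinitePlace.map_intCast, Int.norm_eq_abs]
    exact hUA d
  refine (Finset.sum_le_sum h2).trans ?_
  rw [Finset.sum_const, nsmul_eq_mul]
  have h3 : (U.support.card : ℝ) ≤ ((n : ℝ) + 1) ^ 3 := by exact_mod_cast VertH_card hU
  calc (U.support.card : ℝ) * (A * (⨆ j, v (x j)) ^ n)
      ≤ ((n : ℝ) + 1) ^ 3 * (A * (⨆ j, v (x j)) ^ n) :=
        mul_le_mul_of_nonneg_right h3 (mul_nonneg (by linarith) (pow_nonneg hS _))
    _ = _ := by ring

private theorem VertH_fsum {K : Type*} [Field K] [NumberField K] (v : FinitePlace K)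
    {ι : Type*} (s : Finset ι) (f : ι → K) {M : ℝ} (hM : 0 ≤ M) (h : ∀ i ∈ s, v (f i) ≤ M) :
    v (∑ i ∈ s, f i) ≤ M := by
  classical
  induction s using Finset.induction_on with
  | empty => simpa using hM
  | @insert a s ha ih =>
    rw [Finset.sum_insert ha]
    refine (Pool.Agent.H93.fp_add_le v _ _).trans (max_le (h a (Finset.mem_insert_self a s)) ?_)
    exact ih fun i hi => h i (Finset.mem_insert_of_mem hi)

private theorem VertH_fin {K : Type*} [Field K] [NumberField K] (v : FinitePlace K)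
    (x : Fin 3 → K) {n : ℕ} {U : MvPolynomial (Fin 3) ℤ} (hU : U.IsHomogeneous n) :
    v (eval₂ (Int.castRingHom K) x U) ≤ (⨆ j, v (x j)) ^ n := by
  rw [eval₂_eq']
  have hS : 0 ≤ ⨆ j, v (x j) := Real.iSup_nonneg fun i => apply_nonneg v _
  refine VertH_fsum v _ _ (pow_nonneg hS _) fun d hd => ?_
  rw [map_mul, eq_intCast]
  have h1 := Pool.Agent.H93.finitePlace_intCast_le_one v (coeff d U)
  have h2 : v (∏ i, x i ^ d i) ≤ (⨆ j, v (x j)) ^ n := VertH_mon v.1 x (VertH_deg hU hd)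
  calc v ((coeff d U : ℤ) : K) * v (∏ i, x i ^ d i) ≤ 1 * (⨆ j, v (x j)) ^ n :=
        mul_le_mul h1 h2 (apply_nonneg v _) (by norm_num)
    _ = _ := one_mul _

theorem vert_height {K : Type*} [Field K] [NumberField K] {N : ℕ} (hN : 1 ≤ N) {p : ℕ} (hp : p ≠ 0)
    {x : Fin 3 → K} (hx : ∀ i, x i ≠ 0) (hxp : x 0 ^ p + x 1 ^ p + x 2 ^ p = 0)
    {U V : MvPolynomial (Fin 3) ℤ} (hU : U.IsHomogeneous (N - 1)) (hV : V.IsHomogeneous (N - 1))
    {A : ℝ} (hA : 1 ≤ A) (hUA : ∀ m, |((U.coeff m : ℤ) : ℝ)| ≤ A)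
    (hVA : ∀ m, |((V.coeff m : ℤ) : ℝ)| ≤ A)
    (h : x 1 ^ N * eval₂ (Int.castRingHom K) x U = x 0 ^ N * eval₂ (Int.castRingHom K) x V)
    (h0 : eval₂ (Int.castRingHom K) x U ≠ 0 ∨ eval₂ (Int.castRingHom K) x V ≠ 0) :
    mulHeight x ≤ (2 ^ N * ((N : ℝ) ^ 3 * A)) ^ Module.finrank ℚ K := by
  obtain ⟨n, rfl⟩ : ∃ n, N = n + 1 := ⟨N - 1, by omega⟩
  rw [Nat.add_sub_cancel] at hU hV
  set u := eval₂ (Int.castRingHom K) x U with hu
  set w := eval₂ (Int.castRingHom K) x V with hw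
  have hx0 := hx 0
  have hx1 := hx 1
  have hu0 : u ≠ 0 := by
    intro hu0
    rcases h0 with h0 | h0
    · exact h0 hu0
    · rw [hu0, mul_zero] at h
      exact h0 ((mul_eq_zero.1 h.symm).resolve_left (pow_ne_zero _ hx0))
  have hxe : x = ![x 0, x 1, x 2] := by
    ext i
    fin_cases i <;> rfl
  have hxne : x ≠ 0 := fun h' => hx 0 (by rw [h']; rfl)
  set d := Module.finrank ℚ K with hd
  -- the proportional vectors
  have hprop : (u / x 0 ^ (n + 1)) • ((![x 0, x 1, x 1] : Fin 3 → K) ^ (n + 1)) = ![u, w, w] := by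
    have e1 : u / x 0 ^ (n + 1) * x 0 ^ (n + 1) = u := by
      field_simp
    have e2 : u / x 0 ^ (n + 1) * x 1 ^ (n + 1) = w := by
      rw [div_mul_eq_mul_div, div_eq_iff (pow_ne_zero _ hx0), mul_comm u, h, mul_comm]
    ext i
    fin_cases i
    · exact e1
    · exact e2
    · exact e2
  have hH1 : mulHeight ![u, w, w] = mulHeight ![x 0, x 1, x 1] ^ (n + 1) := by
    rw [← hprop, mulHeight_smul_eq_mulHeight _ (div_ne_zero hu0 (pow_ne_zero _ hx0)),
      mulHeight_pow]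
  have huw : (![u, w, w] : Fin 3 → K) ≠ 0 := Pool.Agent.H93.vec3_ne_zero w w hu0
  have hone : (1 : Fin 3 → K) ≠ 0 := one_ne_zero
  have hH2 := Pool.Agent.H93.mulHeight_le_of_local (w := ![u, w, w]) (ξ := 1) (x := x) huw hone
    hxne (C := ((n : ℝ) + 1) ^ 3 * A) (by positivity) n
    (fun v i ↦ by
      have e1 : (⨆ j, v ((1 : Fin 3 → K) j)) = 1 := by simp
      rw [e1, one_mul]
      have k1 := VertH_inf v x hU hA hUA
      have k2 := VertH_inf v x hV hA hVA
      fin_cases i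
      · exact k1
      · exact k2
      · exact k2)
    (fun v i ↦ by
      have e1 : (⨆ j, v ((1 : Fin 3 → K) j)) = 1 := by simp
      rw [e1, one_mul]
      have k1 := VertH_fin v x hU
      have k2 := VertH_fin v x hV
      fin_cases i
      · exact k1
      · exact k2
      · exact k2)
  rw [mulHeight_one, one_mul, hH1] at hH2
  have hH3 : mulHeight x ≤ 2 ^ d * mulHeight ![x 0, x 1] := by
    have h1 := Pool.Agent.H93.mulHeight_le_two_coord hp hx0 hxp
    rw [← hxe] at h1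
    exact h1
  have hH4 : mulHeight ![x 0, x 1] ≤ mulHeight ![x 0, x 1, x 1] := by
    have h1 := mulHeight_comp_le (K := K) (![0, 1] : Fin 2 → Fin 3) ![x 0, x 1, x 1]
    refine le_trans (le_of_eq ?_) h1
    congr 1
    ext i
    fin_cases i <;> rfl
  have hpos : 0 < mulHeight x := mulHeight_pos x
  have h5 : mulHeight x ≤ 2 ^ d * mulHeight ![x 0, x 1, x 1] :=
    hH3.trans (mul_le_mul_of_nonneg_left hH4 (by positivity))
  have h6 : mulHeight x ^ (n + 1) ≤ (2 ^ d) ^ (n + 1) *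
      ((((n : ℝ) + 1) ^ 3 * A) ^ d * mulHeight x ^ n) := by
    refine (pow_le_pow_left₀ hpos.le h5 (n + 1)).trans ?_
    rw [mul_pow]
    exact mul_le_mul_of_nonneg_left hH2 (by positivity)
  have h7 : mulHeight x * mulHeight x ^ n ≤
      ((2 ^ (n + 1) * (((n + 1 : ℕ) : ℝ) ^ 3 * A)) ^ d) * mulHeight x ^ n := by
    refine le_trans (le_of_eq ?_) (h6.trans (le_of_eq ?_))
    · rw [pow_succ, mul_comm]
    · push_cast
      rw [mul_pow (2 ^ (n + 1) : ℝ), ← pow_mul, ← pow_mul, mul_comm d (n + 1)]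
      ring
  exact le_of_mul_le_mul_right h7 (pow_pos hpos n)

end H9CV
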