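import Mathlib

set_option autoImplicit false

/-!
Project CV (MP_ef6a16_nt, helper9), module VertN. If `U = F U'` and `V = F V'` then `F (y ^ N U' - x ^ N V') = F Q`, so
`Q = y ^ N U' - x ^ N V'`; every monomial of the right side has an exponent `≥ N`, no monomial of `Q` has, so `Q = 0`.
-/

namespace H9CV

open MvPolynomial

private theorem VertN_coeff {R : Type*} [CommRing R] {N : ℕ} (j : Fin 3)
    (P : MvPolynomial (Fin 3) R) {m : Fin 3 →₀ ℕ} (hm : m j < N) : coeff m (X j ^ N * P) = 0 := by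
  classical
  rw [X_pow_eq_monomial, coeff_monomial_mul', if_neg]
  intro h
  have h1 := h j
  rw [Finsupp.single_eq_same] at h1
  omega

/-- `U` and `V` are not both divisible by `F`: otherwise `Q = y ^ N U' - x ^ N V'`, but no monomial of `Q` has an exponent
`≥ N`, while every monomial of the right side has. -/
theorem vert_not_dvd {R : Type*} [CommRing R] [IsDomain R] {N : ℕ} {F Q U V : MvPolynomial (Fin 3) R}
    (hF : F ≠ 0) (hQ : Q ≠ 0) (hs : ∀ m ∈ Q.support, m 0 < N ∧ m 1 < N)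
    (h : X 1 ^ N * U - X 0 ^ N * V = F * Q) : ¬ F ∣ U ∨ ¬ F ∣ V := by
  by_contra hcon
  push Not at hcon
  obtain ⟨⟨U', rfl⟩, ⟨V', rfl⟩⟩ := hcon
  have h1 : F * (X 1 ^ N * U' - X 0 ^ N * V') = F * Q := by
    rw [← h]
    ring
  have h2 : X 1 ^ N * U' - X 0 ^ N * V' = Q := mul_left_cancel₀ hF h1
  obtain ⟨m, hm⟩ := MvPolynomial.ne_zero_iff.mp hQ
  have hms := hs m (MvPolynomial.mem_support_iff.mpr hm)
  apply hm
  rw [← h2, coeff_sub, VertN_coeff 1 U' hms.2, VertN_coeff 0 V' hms.1, sub_zero]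

end H9CV
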