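import Pool.Agent.H9.CV.VertS
import Pool.Agent.H9.CV.VertN
import Pool.Agent.H9.CV.VertH
import Pool.Agent.H9.CV.Deh
import Pool.Agent.H9.CV.Elim

set_option autoImplicit false

/-!
Project CV (MP_ef6a16_nt, helper9), module Vert: Fermat points on curves through a vertex of the coordinate triangle have bounded height.

`f ∈ ℤ[x][y]` irreducible over `ℚ`, of exact total degree `D`, one of its coefficients at `1`, `y ^ D`, `x ^ D` vanishes, `sz f ≤ A`.
1. `D ≥ 1` (`up ℚ f` is not a unit). `F` homogeneous of degree `D` over `ℤ` with `deh F = f` (`exists_hom`); its coefficients are `≤ A`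
   (`deh_coeff`, `abs_coeff_le`; every exponent in the support has the form `ex D i j`).
2. Choose the permutation `σ` of `Fin 3` (identity, `swap 1 2`, `swap 0 2`) such that `F' = rename σ F` has no `z ^ D`
   (the coefficient of `f` at `1` is that of `z ^ D`; at `y ^ D`: exchange `1, 2`; at `x ^ D`: exchange `0, 2`). `vert_siegel` gives `Q, U, V`
   for `F'`, bound `B = (D ^ 4 A) ^ (D ^ 4 + 1)`. The point: `x = ![a, b, 1]`, `x' = x ∘ σ` (`eval₂ _ x' (rename σ F) = eval₂ _ (x' ∘ σ) F`, `σ` is an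
   involution), so `F'(x') = 0` (`deh_eval`), hence `x'_1 ^ N U(x') = x'_0 ^ N V(x')`, `N = D ^ 2`. The coordinates of `x'` are nonzero
   with `∑ x'_i ^ p = 0`.
3. If `U(x') ≠ 0` or `V(x') ≠ 0`: `vert_height` (with `A` replaced by `B`), and `mulHeight x' = mulHeight x` (`mulHeight_comp_equiv`).
4. Otherwise: `vert_not_dvd` over `ℚ` (for the images of `F', Q, U, V` under `map (Int.castRingHom ℚ)`): one of them, `W`, has
   `¬ map F' ∣ map W`. `W' = rename σ W` (involution) is homogeneous of degree `D ^ 2 - 1`, `¬ map F ∣ map W'` (`rename σ` is a ring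
   automorphism), `W'(x) = 0`. Put `w = deh W'`: `TD w (D ^ 2 - 1)`, `evZ a b w = 0` (`deh_eval`, `deh_map`), `sz w ≤ (D ^ 2) ^ 2 B`
   (`sz_eq_box`, `deh_coeff`). `¬ up ℚ f ∣ up ℚ w`: otherwise `dvd_of_deh` over `ℚ` gives `map F ∣ map W'` (`deh_map`). `elim` with `f` and `w`
   and the bound `D ^ 4 B ≥ A`.
-/

namespace H9CV

open Polynomial NumberField Height
open scoped Polynomial.Bivariate

private theorem Vert_up_deh (K : Type*) [Field K] (W : MvPolynomial (Fin 3) ℤ) :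
    up K (deh ℤ W) = deh K (MvPolynomial.map (Int.castRingHom K) W) := by
  rw [deh_map]
  rfl

private theorem Vert_ev {K : Type*} [Field K] (W : MvPolynomial (Fin 3) ℤ) (a b : K) :
    evZ a b (deh ℤ W) = MvPolynomial.eval₂ (Int.castRingHom K) ![a, b, 1] W := by
  unfold evZ
  rw [Vert_up_deh, deh_eval, MvPolynomial.eval₂_eq_eval_map]

/-- exponent vectors of degree `D` -/
private theorem Vert_ex {D : ℕ} {m : Fin 3 →₀ ℕ} (hm : m.degree = D) :
    m = ex D (m 1) (m 0) ∧ m 1 + m 0 ≤ D := by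
  have hs : m 0 + m 1 + m 2 = D := by
    rw [← hm, Finsupp.degree_eq_sum, Fin.sum_univ_three]
  refine ⟨?_, by omega⟩
  ext i
  fin_cases i
  · simp [ex]
  · simp [ex]
  · simp [ex]
    omega

private theorem Vert_coeff_le {F : MvPolynomial (Fin 3) ℤ} {D : ℕ} (hF : F.IsHomogeneous D)
    {A : ℝ} (hA : sz (deh ℤ F) ≤ A) (m : Fin 3 →₀ ℕ) : |((F.coeff m : ℤ) : ℝ)| ≤ A := by
  have h0 : 0 ≤ A := (sz_nonneg _).trans hA
  by_cases hm : F.coeff m = 0
  · rw [hm]
    simpa using h0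
  · have hd : m.degree = D := by
      have h5 := hF hm
      rw [Pi.one_def, ← Finsupp.degree_eq_weight_one] at h5
      exact h5
    obtain ⟨h1, h2⟩ := Vert_ex hd
    have h3 := deh_coeff hF (m 1) (m 0)
    rw [if_pos h2, ← h1] at h3
    rw [← h3]
    exact (abs_coeff_le _ _ _).trans hA

private theorem Vert_coeff_rename {σ : Equiv.Perm (Fin 3)} (hσ : ∀ i, σ (σ i) = i)
    (F : MvPolynomial (Fin 3) ℤ) (m : Fin 3 →₀ ℕ) :
    (MvPolynomial.rename σ F).coeff m = F.coeff (m.mapDomain σ) := by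
  have h1 : m = (m.mapDomain σ).mapDomain σ := by
    rw [← Finsupp.mapDomain_comp]
    have : (⇑σ ∘ ⇑σ) = id := by
      funext i
      exact hσ i
    rw [this, Finsupp.mapDomain_id]
  conv_lhs => rw [h1]
  exact MvPolynomial.coeff_rename_mapDomain σ σ.injective F _

private theorem Vert_rename_rename {R : Type*} [CommRing R] {σ : Equiv.Perm (Fin 3)}
    (hσ : ∀ i, σ (σ i) = i) (F : MvPolynomial (Fin 3) R) :
    MvPolynomial.rename σ (MvPolynomial.rename σ F) = F := by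
  rw [MvPolynomial.rename_rename]
  have : (⇑σ ∘ ⇑σ) = id := by
    funext i
    exact hσ i
  rw [this, MvPolynomial.rename_id]
  rfl

private theorem Vert_sz {W : MvPolynomial (Fin 3) ℤ} {n : ℕ} (hW : W.IsHomogeneous n) {B : ℝ}
    (hB0 : 0 ≤ B) (hB : ∀ m, |((W.coeff m : ℤ) : ℝ)| ≤ B) :
    sz (deh ℤ W) ≤ ((n : ℝ) + 1) ^ 2 * B := by
  rw [sz_eq_box (deh_TD hW)]
  have h1 : ∀ i ∈ Finset.range (n + 1), ∑ j ∈ Finset.range (n + 1),
      |((((deh ℤ W).coeff i).coeff j : ℤ) : ℝ)| ≤ ((n : ℝ) + 1) * B := by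
    intro i _
    have h2 : ∀ j ∈ Finset.range (n + 1), |((((deh ℤ W).coeff i).coeff j : ℤ) : ℝ)| ≤ B := by
      intro j _
      rw [deh_coeff hW]
      split_ifs
      · exact hB _
      · simpa using hB0
    have h3 := Finset.sum_le_card_nsmul _ _ _ h2
    rw [Finset.card_range, nsmul_eq_mul] at h3
    push_cast at h3
    exact h3
  have h4 := Finset.sum_le_card_nsmul _ _ _ h1
  rw [Finset.card_range, nsmul_eq_mul] at h4
  push_cast at h4
  calc _ ≤ _ := h4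
    _ = _ := by ring

/-- the arithmetic of the constants -/
private theorem Vert_const (D : ℕ) : ∃ (c : ℝ) (N : ℕ), 1 ≤ c ∧ ∀ A : ℝ, 1 ≤ A →
    (2 ^ (D ^ 2) * (((D ^ 2 : ℕ) : ℝ) ^ 3 * (((D : ℝ) ^ 4 * A) ^ (D ^ 4 + 1))) ≤ (c * A) ^ N) ∧
    (((D + (D ^ 2 - 1) + 1).factorial * ((D : ℝ) ^ 4 * (((D : ℝ) ^ 4 * A) ^ (D ^ 4 + 1))) ^
      (D + (D ^ 2 - 1) + 1)) ^ 2 ≤ (c * A) ^ N) := by
  set k : ℕ := D + (D ^ 2 - 1) + 1 with hk
  set c : ℝ := ((D : ℝ) ^ 4 + 1) * (2 ^ (D ^ 2) * (((D ^ 2 : ℕ) : ℝ) ^ 3 + 1)) * (k.factorial : ℝ)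
    with hc
  have c1 : (1 : ℝ) ≤ (D : ℝ) ^ 4 + 1 := by
    have : (0 : ℝ) ≤ (D : ℝ) ^ 4 := by positivity
    linarith
  have c2 : (1 : ℝ) ≤ 2 ^ (D ^ 2) * (((D ^ 2 : ℕ) : ℝ) ^ 3 + 1) := by
    have h1 : (1 : ℝ) ≤ 2 ^ (D ^ 2) := one_le_pow₀ (by norm_num)
    have h2 : (1 : ℝ) ≤ ((D ^ 2 : ℕ) : ℝ) ^ 3 + 1 := by
      have : (0 : ℝ) ≤ ((D ^ 2 : ℕ) : ℝ) ^ 3 := by positivity
      linarith
    calc (1 : ℝ) = 1 * 1 := by ring
      _ ≤ _ := mul_le_mul h1 h2 (by norm_num) (by positivity)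
  have c3 : (1 : ℝ) ≤ (k.factorial : ℝ) := by exact_mod_cast Nat.succ_le_of_lt k.factorial_pos
  have hcc : 1 ≤ c := by
    calc (1 : ℝ) = 1 * 1 * 1 := by ring
      _ ≤ _ := mul_le_mul (mul_le_mul c1 c2 (by norm_num) (by positivity)) c3 (by norm_num)
        (by positivity)
  refine ⟨c, 2 * (1 + (D ^ 4 + 2) * k) + (D ^ 4 + 2), hcc, fun A hA => ?_⟩
  have hx : 1 ≤ c * A := by
    calc (1 : ℝ) = 1 * 1 := by ring
      _ ≤ _ := mul_le_mul hcc hA (by norm_num) (by positivity)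
  have hA0 : 0 ≤ A := by linarith
  have e1 : (D : ℝ) ^ 4 * A ≤ c * A := by
    refine mul_le_mul_of_nonneg_right ?_ hA0
    calc (D : ℝ) ^ 4 ≤ ((D : ℝ) ^ 4 + 1) * 1 * 1 := by linarith
      _ ≤ _ := mul_le_mul (mul_le_mul le_rfl c2 (by norm_num) (by positivity)) c3 (by norm_num)
        (by positivity)
  have e2 : 2 ^ (D ^ 2) * (((D ^ 2 : ℕ) : ℝ) ^ 3) ≤ c * A := by
    calc 2 ^ (D ^ 2) * (((D ^ 2 : ℕ) : ℝ) ^ 3)
        ≤ 1 * (2 ^ (D ^ 2) * (((D ^ 2 : ℕ) : ℝ) ^ 3 + 1)) * 1 * 1 := by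
          have : (0 : ℝ) ≤ 2 ^ (D ^ 2) := by positivity
          nlinarith
      _ ≤ c * A := mul_le_mul (mul_le_mul (mul_le_mul c1 le_rfl (by positivity) (by positivity)) c3
          (by norm_num) (by positivity)) hA (by norm_num) (by positivity)
  have e3 : (k.factorial : ℝ) ≤ c * A := by
    calc (k.factorial : ℝ) = 1 * 1 * (k.factorial : ℝ) * 1 := by ring
      _ ≤ c * A := mul_le_mul (mul_le_mul (mul_le_mul c1 c2 (by norm_num) (by positivity)) le_rfl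
          (by positivity) (by positivity)) hA (by norm_num) (by positivity)
  have e4 : (D : ℝ) ^ 4 ≤ c * A := by
    calc (D : ℝ) ^ 4 = (D : ℝ) ^ 4 * 1 := by ring
      _ ≤ (D : ℝ) ^ 4 * A := mul_le_mul_of_nonneg_left hA (by positivity)
      _ ≤ _ := e1
  have eB : ((D : ℝ) ^ 4 * A) ^ (D ^ 4 + 1) ≤ (c * A) ^ (D ^ 4 + 1) :=
    pow_le_pow_left₀ (by positivity) e1 _
  constructor
  · calc 2 ^ (D ^ 2) * (((D ^ 2 : ℕ) : ℝ) ^ 3 * (((D : ℝ) ^ 4 * A) ^ (D ^ 4 + 1)))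
        = (2 ^ (D ^ 2) * (((D ^ 2 : ℕ) : ℝ) ^ 3)) * (((D : ℝ) ^ 4 * A) ^ (D ^ 4 + 1)) := by ring
      _ ≤ (c * A) * (c * A) ^ (D ^ 4 + 1) := mul_le_mul e2 eB (by positivity) (by positivity)
      _ = (c * A) ^ (D ^ 4 + 2) := by ring
      _ ≤ _ := pow_le_pow_right₀ hx (by omega)
  · have e5 : (D : ℝ) ^ 4 * (((D : ℝ) ^ 4 * A) ^ (D ^ 4 + 1)) ≤ (c * A) ^ (D ^ 4 + 2) := by
      calc _ ≤ (c * A) * (c * A) ^ (D ^ 4 + 1) := mul_le_mul e4 eB (by positivity) (by positivity)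
        _ = _ := by ring
    calc ((k.factorial : ℝ) * ((D : ℝ) ^ 4 * (((D : ℝ) ^ 4 * A) ^ (D ^ 4 + 1))) ^ k) ^ 2
        ≤ ((c * A) * ((c * A) ^ (D ^ 4 + 2)) ^ k) ^ 2 := by
          refine pow_le_pow_left₀ (by positivity) ?_ 2
          exact mul_le_mul e3 (pow_le_pow_left₀ (by positivity) e5 k) (by positivity)
            (by positivity)
      _ = (c * A) ^ (2 * (1 + (D ^ 4 + 2) * k)) := by
          rw [← pow_mul, ← pow_succ', ← pow_mul]
          congr 1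
          ring
      _ ≤ _ := pow_le_pow_right₀ hx (by omega)

/-- the main argument, after the choice of the permutation -/
private theorem Vert_main {D : ℕ} (hD : 1 ≤ D) {f : ℤ[X][Y]} (hirr : Irreducible (up ℚ f))
    (hTD : TD f D) (hex : ∃ i j, (f.coeff i).coeff j ≠ 0 ∧ i + j = D)
    {F : MvPolynomial (Fin 3) ℤ} (hF : F.IsHomogeneous D) (hFf : deh ℤ F = f)
    {σ : Equiv.Perm (Fin 3)} (hσ : ∀ i, σ (σ i) = i)
    (h0 : F.coeff (Finsupp.single (σ 2) D) = 0) {A : ℝ} (hA : 1 ≤ A) (hfA : sz f ≤ A)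
    {K : Type*} [Field K] [NumberField K] {p : ℕ} {a b : K} (hp : p ≠ 0)
    (ha : a ≠ 0) (hb : b ≠ 0) (hab : a ^ p + b ^ p + 1 = 0) (hP : evZ a b f = 0) :
    mulHeight ![a, b, 1] ≤ (2 ^ (D ^ 2) * (((D ^ 2 : ℕ) : ℝ) ^ 3 *
        (((D : ℝ) ^ 4 * A) ^ (D ^ 4 + 1)))) ^ Module.finrank ℚ K ∨
    mulHeight ![a, b, 1] ≤ (((D + (D ^ 2 - 1) + 1).factorial *
      ((D : ℝ) ^ 4 * (((D : ℝ) ^ 4 * A) ^ (D ^ 4 + 1))) ^ (D + (D ^ 2 - 1) + 1)) ^ 2) ^
      Module.finrank ℚ K := by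
  have hD1 : (1 : ℝ) ≤ (D : ℝ) := by exact_mod_cast hD
  have hD4 : (1 : ℝ) ≤ (D : ℝ) ^ 4 := one_le_pow₀ hD1
  have hDA : 1 ≤ (D : ℝ) ^ 4 * A := by
    calc (1 : ℝ) = 1 * 1 := by ring
      _ ≤ _ := mul_le_mul hD4 hA (by norm_num) (by positivity)
  set B : ℝ := ((D : ℝ) ^ 4 * A) ^ (D ^ 4 + 1) with hB
  have hB1 : 1 ≤ B := one_le_pow₀ hDA
  have hAB : A ≤ (D : ℝ) ^ 4 * B := by
    calc A = 1 * A := by ring
      _ ≤ (D : ℝ) ^ 4 * A := mul_le_mul_of_nonneg_right hD4 (by linarith)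
      _ ≤ B := le_self_pow₀ hDA (by omega)
      _ = 1 * B := by ring
      _ ≤ _ := mul_le_mul_of_nonneg_right hD4 (by linarith)
  have hDD : 1 ≤ D ^ 2 := Nat.one_le_pow _ _ hD
  subst hFf
  -- coefficients of `F'`
  have hFA := Vert_coeff_le hF hfA
  have hF'A : ∀ m, |(((MvPolynomial.rename σ F).coeff m : ℤ) : ℝ)| ≤ A := by
    intro m
    rw [Vert_coeff_rename hσ]
    exact hFA _
  have hF' : (MvPolynomial.rename σ F).IsHomogeneous D := hF.rename_isHomogeneous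
  have hF'0 : (MvPolynomial.rename σ F).coeff (Finsupp.single 2 D) = 0 := by
    rw [Vert_coeff_rename hσ, Finsupp.mapDomain_single]
    exact h0
  obtain ⟨Q, U, V, hQ0, hQs, hU, hV, hrel, hUB, hVB⟩ := vert_siegel hD hF' hF'0 hA hF'A
  -- the point
  set φ : ℤ →+* K := Int.castRingHom K with hφ
  set x : Fin 3 → K := ![a, b, 1] with hx
  have hxn : ∀ i, x i ≠ 0 := by
    intro i
    fin_cases i
    · exact ha
    · exact hb
    · exact one_ne_zero
  have hxσ : x ∘ σ ∘ σ = x := by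
    funext i
    show x (σ (σ i)) = x i
    rw [hσ]
  have hren : ∀ W : MvPolynomial (Fin 3) ℤ,
      MvPolynomial.eval₂ φ (x ∘ σ) (MvPolynomial.rename σ W) = MvPolynomial.eval₂ φ x W := by
    intro W
    rw [MvPolynomial.eval₂_rename, Function.comp_assoc, hxσ]
  have hF0 : MvPolynomial.eval₂ φ (x ∘ σ) (MvPolynomial.rename σ F) = 0 := by
    rw [hren]
    rw [← hP, Vert_ev]
  have hsum : (x ∘ σ) 0 ^ p + (x ∘ σ) 1 ^ p + (x ∘ σ) 2 ^ p = 0 := by
    have h1 : ∑ i, x (σ i) ^ p = ∑ i, x i ^ p := Equiv.sum_comp σ (fun i => x i ^ p)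
    rw [Fin.sum_univ_three, Fin.sum_univ_three] at h1
    show x (σ 0) ^ p + x (σ 1) ^ p + x (σ 2) ^ p = 0
    rw [h1, ← hab]
    simp [hx]
  have hrel' : (x ∘ σ) 1 ^ (D ^ 2) * MvPolynomial.eval₂ φ (x ∘ σ) U =
      (x ∘ σ) 0 ^ (D ^ 2) * MvPolynomial.eval₂ φ (x ∘ σ) V := by
    have h1 := congrArg (MvPolynomial.eval₂Hom φ (x ∘ σ)) hrel
    simp only [map_sub, map_mul, map_pow, MvPolynomial.coe_eval₂Hom, MvPolynomial.eval₂_X] at h1
    rw [hF0, zero_mul, sub_eq_zero] at h1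
    exact h1
  by_cases hUV : MvPolynomial.eval₂ φ (x ∘ σ) U ≠ 0 ∨ MvPolynomial.eval₂ φ (x ∘ σ) V ≠ 0
  · left
    have h1 := vert_height hDD hp (fun i => hxn (σ i)) hsum hU hV hB1 hUB hVB hrel' hUV
    have h2 : mulHeight (x ∘ σ) = mulHeight x := mulHeight_comp_equiv σ x
    rw [← h2]
    exact h1
  · right
    push Not at hUV
    obtain ⟨hU0, hV0⟩ := hUV
    set ι : ℤ →+* ℚ := Int.castRingHom ℚ with hι
    have hinj : Function.Injective ι := Int.cast_injective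
    have hFne : F ≠ 0 := by
      rintro rfl
      obtain ⟨i, j, h1, -⟩ := hex
      apply h1
      simp
    have hmF : MvPolynomial.map ι (MvPolynomial.rename σ F) ≠ 0 := by
      intro h1
      apply hFne
      have h2 : MvPolynomial.rename σ F = 0 := by
        apply MvPolynomial.map_injective ι hinj
        rw [h1, map_zero]
      have h3 := congrArg (MvPolynomial.rename σ) h2
      rwa [Vert_rename_rename hσ, map_zero] at h3
    have hmQ : MvPolynomial.map ι Q ≠ 0 := by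
      intro h1
      apply hQ0
      apply MvPolynomial.map_injective ι hinj
      rw [h1, map_zero]
    have hms : ∀ m ∈ (MvPolynomial.map ι Q).support, m 0 < D ^ 2 ∧ m 1 < D ^ 2 := by
      intro m hm
      exact hQs m (MvPolynomial.support_map_subset _ _ hm)
    have hmrel : MvPolynomial.X 1 ^ (D ^ 2) * MvPolynomial.map ι U -
        MvPolynomial.X 0 ^ (D ^ 2) * MvPolynomial.map ι V =
        MvPolynomial.map ι (MvPolynomial.rename σ F) * MvPolynomial.map ι Q := by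
      have h1 := congrArg (MvPolynomial.map ι) hrel
      simpa only [map_sub, map_mul, map_pow, MvPolynomial.map_X] using h1
    have hnd := vert_not_dvd hmF hmQ hms hmrel
    obtain ⟨W, hW, hWB, hW0, hWd⟩ : ∃ W : MvPolynomial (Fin 3) ℤ, W.IsHomogeneous (D ^ 2 - 1) ∧
        (∀ m, |((W.coeff m : ℤ) : ℝ)| ≤ B) ∧ MvPolynomial.eval₂ φ (x ∘ σ) W = 0 ∧
        ¬ MvPolynomial.map ι (MvPolynomial.rename σ F) ∣ MvPolynomial.map ι W := by
      rcases hnd with h1 | h1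
      · exact ⟨U, hU, hUB, hU0, h1⟩
      · exact ⟨V, hV, hVB, hV0, h1⟩
    have hW' : (MvPolynomial.rename σ W).IsHomogeneous (D ^ 2 - 1) := hW.rename_isHomogeneous
    have hW'B : ∀ m, |(((MvPolynomial.rename σ W).coeff m : ℤ) : ℝ)| ≤ B := by
      intro m
      rw [Vert_coeff_rename hσ]
      exact hWB _
    have hw0 : evZ a b (deh ℤ (MvPolynomial.rename σ W)) = 0 := by
      rw [Vert_ev, MvPolynomial.eval₂_rename]
      exact hW0
    have hszw : sz (deh ℤ (MvPolynomial.rename σ W)) ≤ (D : ℝ) ^ 4 * B := by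
      have h1 := Vert_sz hW' (by linarith) hW'B
      have h2 : ((D ^ 2 - 1 : ℕ) : ℝ) + 1 = (D : ℝ) ^ 2 := by
        rw [Nat.cast_sub hDD]
        push_cast
        ring
      rw [h2] at h1
      calc _ ≤ _ := h1
        _ = _ := by ring
    have hnd' : ¬ up ℚ (deh ℤ F) ∣ up ℚ (deh ℤ (MvPolynomial.rename σ W)) := by
      intro h1
      rw [Vert_up_deh, Vert_up_deh] at h1
      have h2 : MvPolynomial.map (Int.castRingHom ℚ) F ∣
          MvPolynomial.map (Int.castRingHom ℚ) (MvPolynomial.rename σ W) := by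
        refine dvd_of_deh (hF.map _) (hW'.map _) ?_ h1
        obtain ⟨i, j, h3, h4⟩ := hex
        refine ⟨i, j, ?_, h4⟩
        rw [deh_map, coeff_map, coe_mapRingHom, coeff_map]
        intro h5
        apply h3
        exact hinj (by rw [map_zero]; exact h5)
      apply hWd
      obtain ⟨S, hS⟩ := h2
      refine ⟨MvPolynomial.rename σ S, ?_⟩
      have h3 := congrArg (MvPolynomial.rename σ) hS
      rw [map_mul] at h3
      rw [← MvPolynomial.map_rename, ← MvPolynomial.map_rename] at h3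
      rw [Vert_rename_rename hσ] at h3
      exact h3
    have hel := elim hTD (deh_TD hW') hirr hnd' (A := (D : ℝ) ^ 4 * B) (by linarith)
      (hfA.trans hAB) hszw hP hw0
    rw [pow_mul] at hel
    exact hel

theorem vertex (D : ℕ) : ∃ (c : ℝ) (N : ℕ), 1 ≤ c ∧ ∀ f : ℤ[X][Y], Irreducible (up ℚ f) → TD f D →
    (∃ i j, (f.coeff i).coeff j ≠ 0 ∧ i + j = D) →
    ((f.coeff 0).coeff 0 = 0 ∨ (f.coeff D).coeff 0 = 0 ∨ (f.coeff 0).coeff D = 0) →
    ∀ A : ℝ, 1 ≤ A → sz f ≤ A → ∀ (K : Type*) [Field K] [NumberField K] (p : ℕ) (a b : K), p ≠ 0 →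
      a ≠ 0 → b ≠ 0 → a ^ p + b ^ p + 1 = 0 → evZ a b f = 0 →
      mulHeight ![a, b, 1] ≤ ((c * A) ^ N) ^ Module.finrank ℚ K := by
  obtain ⟨c, N, hc, hcN⟩ := Vert_const D
  refine ⟨c, N, hc, ?_⟩
  intro f hirr hTD hex hvert A hA hfA K _ _ p a b hp ha hb hab hP
  have hD : 1 ≤ D := by
    rcases Nat.eq_zero_or_pos D with h | h
    · exfalso
      subst h
      obtain ⟨i, j, h1, h2⟩ := hex
      have hi : i = 0 := by omega
      have hj : j = 0 := by omega
      subst hi hj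
      rcases hvert with h3 | h3 | h3 <;> exact h1 h3
    · exact h
  obtain ⟨F, hF, hFf⟩ := exists_hom hTD
  have key : ∀ i j, i + j ≤ D → (f.coeff i).coeff j = F.coeff (ex D i j) := by
    intro i j hij
    have := deh_coeff hF i j
    rw [if_pos hij, hFf] at this
    exact this
  obtain ⟨σ, hσ, h0⟩ : ∃ σ : Equiv.Perm (Fin 3), (∀ i, σ (σ i) = i) ∧
      F.coeff (Finsupp.single (σ 2) D) = 0 := by
    rcases hvert with h | h | h
    · refine ⟨1, fun i => rfl, ?_⟩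
      rw [key 0 0 (by omega)] at h
      have : ex D 0 0 = Finsupp.single 2 D := by simp [ex]
      rw [this] at h
      exact h
    · refine ⟨Equiv.swap 1 2, fun i => Equiv.swap_apply_self _ _ _, ?_⟩
      rw [key D 0 (by omega)] at h
      have : ex D D 0 = Finsupp.single 1 D := by simp [ex]
      rw [this] at h
      rw [Equiv.swap_apply_right]
      exact h
    · refine ⟨Equiv.swap 0 2, fun i => Equiv.swap_apply_self _ _ _, ?_⟩
      rw [key 0 D (by omega)] at h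
      have : ex D 0 D = Finsupp.single 0 D := by simp [ex]
      rw [this] at h
      rw [Equiv.swap_apply_right]
      exact h
  obtain ⟨c1, c2⟩ := hcN A hA
  rcases Vert_main hD hirr hTD hex hF hFf hσ h0 hA hfA hp ha hb hab hP with h | h
  · refine h.trans (pow_le_pow_left₀ (by positivity) c1 _)
  · refine h.trans (pow_le_pow_left₀ (by positivity) c2 _)

end H9CV
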