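import Pool.Agent.H9.CV.Core
import Pool.Agent.H9.CV.Vert
import Pool.Agent.H9.CV.Scale
import Pool.Agent.H9.CV.Gel
import Pool.Agent.H9.CV.Clear
import Pool.Agent.H9.CV.Nrm
import Pool.Agent.H9.CV.LowB

set_option autoImplicit false

/-!
Project CV (MP_ef6a16_nt, helper9), module Asm (done by helper9): assembly.
-/

namespace H9CV

open Polynomial NumberField Height
open scoped Polynomial.Bivariate

/-! ### Polynomially bounded functions of `A ≥ 1` -/

/-- `g` is bounded by a power of a multiple of the argument -/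
def PB (g : ℝ → ℝ) : Prop :=
  ∃ (c : ℝ) (N : ℕ), 1 ≤ c ∧ ∀ A : ℝ, 1 ≤ A → 0 ≤ g A ∧ g A ≤ (c * A) ^ N

theorem PB_const {x : ℝ} (hx : 0 ≤ x) : PB (fun _ => x) := by
  refine ⟨max 1 x, 1, le_max_left _ _, fun A hA => ⟨hx, ?_⟩⟩
  have h1 : x ≤ max 1 x := le_max_right _ _
  have h2 : 1 ≤ max 1 x := le_max_left _ _
  rw [pow_one]
  nlinarith

theorem PB_id : PB (fun A => A) :=
  ⟨1, 1, le_rfl, fun A hA => ⟨by linarith, by simp⟩⟩

theorem PB_mul {g h : ℝ → ℝ} (hg : PB g) (hh : PB h) : PB (fun A => g A * h A) := by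
  obtain ⟨c, N, hc, H⟩ := hg
  obtain ⟨c', N', hc', H'⟩ := hh
  refine ⟨c * c', N + N', one_le_mul_of_one_le_of_one_le hc hc', fun A hA => ?_⟩
  obtain ⟨h1, h2⟩ := H A hA
  obtain ⟨h3, h4⟩ := H' A hA
  refine ⟨mul_nonneg h1 h3, ?_⟩
  rw [pow_add]
  have hA0 : 0 ≤ A := by linarith
  have e1 : (c * A) ^ N ≤ (c * c' * A) ^ N := by
    refine pow_le_pow_left₀ (by positivity) ?_ N
    have : c * A * 1 ≤ c * A * c' := mul_le_mul_of_nonneg_left hc' (by positivity)
    linarith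
  have e2 : (c' * A) ^ N' ≤ (c * c' * A) ^ N' := by
    refine pow_le_pow_left₀ (by positivity) ?_ N'
    have : c' * A * 1 ≤ c' * A * c := mul_le_mul_of_nonneg_left hc (by positivity)
    linarith
  exact mul_le_mul (h2.trans e1) (h4.trans e2) h3 (by positivity)

theorem PB_pow {g : ℝ → ℝ} (hg : PB g) (n : ℕ) : PB (fun A => g A ^ n) := by
  obtain ⟨c, N, hc, H⟩ := hg
  refine ⟨c, N * n, hc, fun A hA => ⟨pow_nonneg (H A hA).1 n, ?_⟩⟩
  rw [pow_mul]
  exact pow_le_pow_left₀ (H A hA).1 (H A hA).2 n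

theorem PB_add {g h : ℝ → ℝ} (hg : PB g) (hh : PB h) : PB (fun A => g A + h A) := by
  obtain ⟨c, N, hc, H⟩ := hg
  obtain ⟨c', N', hc', H'⟩ := hh
  refine ⟨2 * c * c', N + N' + 1, ?_, fun A hA => ?_⟩
  · nlinarith [one_le_mul_of_one_le_of_one_le hc hc']
  obtain ⟨h1, h2⟩ := H A hA
  obtain ⟨h3, h4⟩ := H' A hA
  refine ⟨add_nonneg h1 h3, ?_⟩
  have hA0 : 0 ≤ A := by linarith
  have hcc : 1 ≤ c * c' := one_le_mul_of_one_le_of_one_le hc hc'
  have hX : 1 ≤ c * c' * A := one_le_mul_of_one_le_of_one_le hcc hA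
  have e1 : (c * A) ^ N ≤ (c * c' * A) ^ (N + N') := by
    calc (c * A) ^ N ≤ (c * c' * A) ^ N := by
          refine pow_le_pow_left₀ (by positivity) ?_ N
          have : c * A * 1 ≤ c * A * c' := mul_le_mul_of_nonneg_left hc' (by positivity)
          linarith
      _ ≤ _ := pow_le_pow_right₀ hX (by omega)
  have e2 : (c' * A) ^ N' ≤ (c * c' * A) ^ (N + N') := by
    calc (c' * A) ^ N' ≤ (c * c' * A) ^ N' := by
          refine pow_le_pow_left₀ (by positivity) ?_ N'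
          have : c' * A * 1 ≤ c' * A * c := mul_le_mul_of_nonneg_left hc (by positivity)
          linarith
      _ ≤ _ := pow_le_pow_right₀ hX (by omega)
  calc g A + h A ≤ 2 * (c * c' * A) ^ (N + N') := by linarith
    _ ≤ 2 ^ (N + N' + 1) * (c * c' * A) ^ (N + N' + 1) := by
        have f1 : (2 : ℝ) ≤ 2 ^ (N + N' + 1) := by
          calc (2 : ℝ) = 2 ^ 1 := by norm_num
            _ ≤ _ := pow_le_pow_right₀ (by norm_num) (by omega)
        have f2 : (c * c' * A) ^ (N + N') ≤ (c * c' * A) ^ (N + N' + 1) :=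
          pow_le_pow_right₀ hX (by omega)
        exact mul_le_mul f1 f2 (by positivity) (by positivity)
    _ = (2 * c * c' * A) ^ (N + N' + 1) := by ring

/-! ### Elementary facts about heights -/

theorem height_scale {K : Type*} [Field K] [NumberField K] (a b : K) {n : ℤ} (hn : n ≠ 0) {A : ℝ}
    (hA : |(n : ℝ)| ≤ A) :
    mulHeight ![a, b, 1] ≤ (A + 1) ^ Module.finrank ℚ K * mulHeight ![a, n * b, 1] := by
  have hn' : (n : K) ≠ 0 := by exact_mod_cast hn
  have h1 : mulHeight ![a, b, 1] = mulHeight ![(n : K) * a, n * b, n] := by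
    rw [← mulHeight_smul_eq_mulHeight ![a, b, 1] hn']
    congr 1
    ext i
    fin_cases i <;> simp
  have h2 : mulHeight ![(n : K) * a, n * b, n] ≤ mulHeight ![(n : K), 1] * mulHeight ![a, n * b, 1] := by
    have e := mulHeight_fun_mul_eq (x := ![(n : K), 1]) (y := ![a, (n : K) * b, 1])
      (by
        intro h
        have := congrFun h 1
        simp at this)
      (by
        intro h
        have := congrFun h 2
        simp at this)
    rw [← e]
    have : ![(n : K) * a, n * b, n] =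
        (fun ij : Fin 2 × Fin 3 => ![(n : K), 1] ij.1 * ![a, (n : K) * b, 1] ij.2) ∘
          ![((0 : Fin 2), (0 : Fin 3)), (1, 1), (0, 2)] := by
      ext i
      fin_cases i <;> simp
    rw [this]
    exact mulHeight_comp_le _ _
  have h3 : mulHeight ![(n : K), 1] ≤ (A + 1) ^ Module.finrank ℚ K := by
    rw [← mulHeight₁_eq_mulHeight]
    refine root_height (K := K) (ρ := X - C n) (X_sub_C_ne_zero n) (L := A + 1) ?_
      (a := (n : K)) (by simp)
    have hsub : (X - C n : ℤ[X]).support ⊆ Finset.range 2 := by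
      intro i hi
      have := le_natDegree_of_mem_supp i hi
      rw [natDegree_X_sub_C] at this
      exact Finset.mem_range.mpr (by omega)
    refine (Finset.sum_le_sum_of_subset_of_nonneg hsub fun _ _ _ => abs_nonneg _).trans ?_
    rw [Finset.sum_range_succ, Finset.sum_range_one]
    simp only [coeff_sub, coeff_X_zero, coeff_C_zero, coeff_X_one, coeff_C_succ]
    push_cast
    simp only [zero_sub, abs_neg, abs_one]
    linarith
  rw [h1]
  refine h2.trans ?_
  gcongr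

theorem cv_deh {K : Type*} [Field K] {F : MvPolynomial (Fin 3) K} {D : ℕ}
    (hF : F.IsHomogeneous D) (ij : Fin (D + 1) × Fin (D + 1)) (h : cv D (deh K F) ij ≠ 0) :
    ∃ m : F.support, cv D (deh K F) ij = F.coeff m := by
  have h1 : cv D (deh K F) ij = ((deh K F).coeff ij.1).coeff ij.2 := rfl
  rw [h1, deh_coeff hF] at h
  rw [h1, deh_coeff hF]
  split_ifs at h ⊢ with h2
  · exact ⟨⟨_, MvPolynomial.mem_support_iff.mpr h⟩, rfl⟩
  · exact absurd rfl h

theorem mulHeight_le_of_values {K ι ι' : Type*} [Field K] [NumberField K] [Finite ι] [Finite ι']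
    (x : ι → K) (y : ι' → K) (h : ∀ i, x i ≠ 0 → ∃ j, x i = y j) :
    mulHeight x ≤ mulHeight y := by
  rw [mulHeight_eq_mulHeight_restrict_support]
  choose g hg using fun i : x.support => h i.1 i.2
  have : (fun i : x.support => x i.1) = y ∘ g := by
    funext i
    exact hg i
  rw [this]
  exact mulHeight_comp_le _ _

theorem height_cv_le {K : Type*} [Field K] [NumberField K] {F : MvPolynomial (Fin 3) K} {D : ℕ}
    (hF : F.IsHomogeneous D) :
    mulHeight (cv D (deh K F)) ≤ mulHeight (fun m : F.support => F.coeff m) :=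
  mulHeight_le_of_values _ _ (cv_deh hF)

theorem eval_smul_point {K : Type*} [Field K] {F : MvPolynomial (Fin 3) K} {D : ℕ}
    (hF : F.IsHomogeneous D) (c : K) (y : Fin 3 → K) :
    MvPolynomial.eval (c • y) F = c ^ D * MvPolynomial.eval y F := by
  rw [MvPolynomial.eval_eq', MvPolynomial.eval_eq', Finset.mul_sum]
  refine Finset.sum_congr rfl fun m hm => ?_
  have h1 := hF (MvPolynomial.mem_support_iff.mp hm)
  have h2 : ∑ i, m i = D := by
    rw [← h1, ← Finsupp.degree_eq_sum m, Finsupp.degree_eq_weight_one]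
    rfl
  simp only [Pi.smul_apply, smul_eq_mul, mul_pow, Finset.prod_mul_distrib]
  rw [Finset.prod_pow_eq_pow_sum, h2]
  ring

theorem szO_nonneg {K : Type*} [Field K] [NumberField K] (f : (𝓞 K)[X][Y]) : 0 ≤ szO f := by
  unfold szO Polynomial.sum
  exact Finset.sum_nonneg fun _ _ => Finset.sum_nonneg fun _ _ => house_nonneg _

/-! ### Irreducible integral polynomials -/

theorem irr_deg_pos {f : ℤ[X][Y]} (hirr : Irreducible (up ℚ f)) (hTD : TD f 0) : False := by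
  have h := up_TD (K := ℚ) hTD
  have h1 : (up ℚ f).natDegree = 0 := Nat.le_zero.mp (TD_natDegree h)
  have h2 : ((up ℚ f).coeff 0).natDegree = 0 := Nat.le_zero.mp (TD_coeff h 0)
  rw [eq_C_of_natDegree_eq_zero h1, eq_C_of_natDegree_eq_zero h2] at hirr
  by_cases h3 : ((up ℚ f).coeff 0).coeff 0 = 0
  · rw [h3] at hirr
    simp at hirr
  · exact hirr.not_isUnit ((isUnit_iff_ne_zero.mpr h3).map C |>.map C)

/-- If `G_y` vanishes at the point then its height is bounded. -/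
theorem singular_case {D : ℕ} (hD : 1 ≤ D) {G : ℤ[X][Y]} (hG : G.Monic) (hGD : G.natDegree = D)
    (hTD : TD G D) (hirr : Irreducible (up ℚ G)) {A : ℝ} (hA : 1 ≤ A) (hGA : sz G ≤ A)
    {K : Type*} [Field K] [NumberField K] {a b : K} (h1 : evZ a b G = 0)
    (h2 : evZ a b (dY G) = 0) :
    mulHeight ![a, b, 1] ≤
      ((2 * D).factorial * (D * A) ^ (2 * D)) ^ (2 * Module.finrank ℚ K) := by
  have hD' : (1 : ℝ) ≤ D := by exact_mod_cast hD
  have hnd : ¬ up ℚ G ∣ up ℚ (dY G) := by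
    rw [up_dY]
    have hm : (up ℚ G).Monic := hG.map _
    have hdeg : (up ℚ G).natDegree = D := by
      rw [← hGD]
      exact hG.natDegree_map _
    have h0 : dY (up ℚ G) ≠ 0 := by
      unfold dY
      intro h
      have := derivative_eq_zero.mp h
      omega
    refine hm.not_dvd_of_natDegree_lt h0 ?_
    exact natDegree_derivative_lt (by omega)
  have := elim (K := K) hTD (TD_dY hTD) hirr hnd (A := D * A) (by nlinarith) (by nlinarith)
    ((sz_dY_le hTD).trans (by gcongr)) h1 h2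
  have e : D + (D - 1) + 1 = 2 * D := by omega
  rw [e] at this
  exact this

theorem irr_case.{u} (d D : ℕ) : ∃ (c : ℝ) (N p0 : ℕ), 1 ≤ c ∧ ∀ f : ℤ[X][Y],
    Irreducible (up ℚ f) → TD f D → (∃ i j, (f.coeff i).coeff j ≠ 0 ∧ i + j = D) →
    ∀ A : ℝ, 1 ≤ A → sz f ≤ A → ∀ (K : Type u) [Field K] [NumberField K],
      Module.finrank ℚ K = d → ∀ p : ℕ, p0 ≤ p → p ≠ 0 →
      ∀ a b : K, a ≠ 0 → b ≠ 0 → a ^ p + b ^ p + 1 = 0 → evZ a b f = 0 →
      (p : ℝ) ≤ 3 ^ d * mulHeight ![a, b, 1] → mulHeight ![a, b, 1] ≤ (c * A) ^ N := by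
  rcases Nat.eq_zero_or_pos D with rfl | hD
  · exact ⟨1, 0, 0, le_rfl, fun f hf hTD => (irr_deg_pos hf hTD).elim⟩
  obtain ⟨c1, N1, hc1, hV⟩ := vertex.{u} D
  obtain ⟨c2, N2, p0, hc2, hC⟩ := core.{u} d D hD
  have hD' : (1 : ℝ) ≤ D := by exact_mod_cast hD
  -- the total bound
  have hPB : PB (fun A => ((c1 * A) ^ N1) ^ d +
      ((A + 1) ^ d *
        (((2 * D).factorial : ℝ) * (D * (2 * A ^ D)) ^ (2 * D)) ^ (2 * d) +
      (A + 1) ^ d * (((3 : ℝ) ^ d * (A + 1) ^ d) * (c2 * (2 * A ^ D)) ^ N2))) := by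
    have q1 : PB (fun A => A + 1) := PB_add PB_id (PB_const zero_le_one)
    have q2 : PB (fun A => 2 * A ^ D) := PB_mul (PB_const (by norm_num)) (PB_pow PB_id D)
    have q3 : PB (fun _ => (3 : ℝ) ^ d) := PB_const (by positivity)
    have q4 : PB (fun A => (3 : ℝ) ^ d * (A + 1) ^ d) := PB_mul q3 (PB_pow q1 d)
    refine PB_add ?_ (PB_add ?_ ?_)
    · exact PB_pow (PB_pow (PB_mul (PB_const (by linarith)) PB_id) N1) d
    · exact PB_mul (PB_pow q1 d) (PB_pow (PB_mul (PB_const (by positivity))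
        (PB_pow (PB_mul (PB_const (by positivity)) q2) _)) _)
    · exact PB_mul (PB_pow q1 d) (PB_mul q4 (PB_pow (PB_mul (PB_const (by linarith)) q2) _))
  obtain ⟨c, N, hc, hg⟩ := hPB
  refine ⟨c, N, p0, hc, fun f hirr hTD hex A hA hfA K _ _ hd p hpp hp0 a b ha hb hab hP hlow => ?_⟩
  refine le_trans ?_ (hg A hA).2
  have hA0 : 0 ≤ A := by linarith
  have hc10 : 0 ≤ c1 := by linarith
  have hc20 : 0 ≤ c2 := by linarith
  have t3 : 0 ≤ ((c1 * A) ^ N1) ^ d := by positivity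
  have t4 : 0 ≤ (A + 1) ^ d *
        (((2 * D).factorial : ℝ) * (D * (2 * A ^ D)) ^ (2 * D)) ^ (2 * d) := by positivity
  have t5 : 0 ≤ (A + 1) ^ d *
      (((3 : ℝ) ^ d * (A + 1) ^ d) * (c2 * (2 * A ^ D)) ^ N2) := by positivity
  by_cases hv : (f.coeff 0).coeff 0 = 0 ∨ (f.coeff D).coeff 0 = 0 ∨ (f.coeff 0).coeff D = 0
  · have h1 := hV f hirr hTD hex hv A hA hfA K p a b hp0 ha hb hab hP
    rw [hd] at h1
    linarith
  push Not at hv
  obtain ⟨h3, h1, h2⟩ := hv
  obtain ⟨G, n, hn, hnA, hGm, hGD, hGTD, hGirr, hG0, hGc, hGsz, hGev⟩ :=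
    scale.{u} hD hirr hTD h1 h2 h3 hA hfA
  have hn' : (n : K) ≠ 0 := by exact_mod_cast hn
  have hPG : evZ a (n * b) G = 0 := hGev K a b hP
  have hsc := height_scale (K := K) a b hn hnA
  rw [hd] at hsc
  set H' := mulHeight ![a, n * b, 1] with hH'
  have hH'1 : 1 ≤ H' := one_le_mulHeight _
  have hlow' : (p : ℝ) ≤ (3 : ℝ) ^ d * ((A + 1) ^ d * H') := by
    refine hlow.trans ?_
    gcongr
  have hA' : 1 ≤ 2 * A ^ D := by
    have := one_le_pow₀ (n := D) hA
    linarith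
  have hAA' : A ≤ 2 * A ^ D := by
    have : A ^ 1 ≤ A ^ D := pow_le_pow_right₀ hA hD
    rw [pow_one] at this
    linarith
  by_cases hs : evZ a (n * b) (dY G) = 0
  · have h4 := singular_case hD hGm hGD hGTD hGirr hA' hGsz hPG hs
    rw [hd, ← hH'] at h4
    have : (A + 1) ^ d * H' ≤ (A + 1) ^ d *
        (((2 * D).factorial : ℝ) * (D * (2 * A ^ D)) ^ (2 * D)) ^ (2 * d) := by gcongr
    linarith
  · have hφA : ∀ i, |(((![n ^ p, 1, n ^ p] : Fin 3 → ℤ) i : ℤ) : ℝ)| ≤ (2 * A ^ D) ^ p := by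
      have e1 : |((n ^ p : ℤ) : ℝ)| ≤ (2 * A ^ D) ^ p := by
        push_cast
        rw [abs_pow]
        exact pow_le_pow_left₀ (abs_nonneg _) (hnA.trans hAA') p
      have e2 : |((1 : ℤ) : ℝ)| ≤ (2 * A ^ D) ^ p := by
        simpa using one_le_pow₀ hA'
      intro i
      fin_cases i
      · exact e1
      · exact e2
      · exact e1
    have hφ0 : ∀ i, (![n ^ p, 1, n ^ p] : Fin 3 → ℤ) i ≠ 0 := by
      intro i
      fin_cases i
      · exact pow_ne_zero p hn
      · exact one_ne_zero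
      · exact pow_ne_zero p hn
    have hφP : (((![n ^ p, 1, n ^ p] : Fin 3 → ℤ) 0 : ℤ) : K) * a ^ p +
        (((![n ^ p, 1, n ^ p] : Fin 3 → ℤ) 1 : ℤ) : K) * (n * b) ^ p +
        (((![n ^ p, 1, n ^ p] : Fin 3 → ℤ) 2 : ℤ) : K) = 0 := by
      simp only [Matrix.cons_val_zero, Matrix.cons_val_one, Matrix.cons_val]
      push_cast
      linear_combination (n : K) ^ p * hab
    have h5 := hC G hGm hGD hGTD hGirr hG0 hGc (2 * A ^ D) hA' hGsz K hd p a (n * b)
      hpp ha (mul_ne_zero hn' hb) hPG hs ![n ^ p, 1, n ^ p] hφ0 hφA hφP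
    rw [← hH'] at h5
    have hX0 : 0 ≤ (c2 * (2 * A ^ D)) ^ N2 := by positivity
    have h6 : H' ^ 2 ≤ (3 : ℝ) ^ d * ((A + 1) ^ d * H') * (c2 * (2 * A ^ D)) ^ N2 :=
      h5.trans (by gcongr)
    have h7 : H' ≤ ((3 : ℝ) ^ d * (A + 1) ^ d) * (c2 * (2 * A ^ D)) ^ N2 := by
      have h8 : H' * H' ≤ (((3 : ℝ) ^ d * (A + 1) ^ d) * (c2 * (2 * A ^ D)) ^ N2) * H' := by
        nlinarith
      exact le_of_mul_le_mul_right h8 (by linarith)
    have h9 : (A + 1) ^ d * H' ≤ (A + 1) ^ d *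
        (((3 : ℝ) ^ d * (A + 1) ^ d) * (c2 * (2 * A ^ D)) ^ N2) := by
      gcongr
    linarith

/-- Upper bound for the height, from the lower bound `p ≤ 3 ^ d * H` -/
theorem curve_height_of_lower.{u} (d D : ℕ) : ∃ (C : ℝ) (N p0 : ℕ), 1 ≤ C ∧
    ∀ (K : Type u) [Field K] [NumberField K], Module.finrank ℚ K = d →
      ∀ F : MvPolynomial (Fin 3) K, F.IsHomogeneous D → F ≠ 0 →
      ∀ p : ℕ, p0 ≤ p → p ≠ 0 → ∀ x : Fin 3 → K, (∀ i, x i ≠ 0) →
        x 0 ^ p + x 1 ^ p + x 2 ^ p = 0 → MvPolynomial.eval x F = 0 →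
        (p : ℝ) ≤ 3 ^ d * mulHeight x →
        mulHeight x ≤ C * mulHeight (fun m : F.support => F.coeff m) ^ N := by
  obtain ⟨cG, hcG, hGel⟩ := gelfond (d * D)
  choose c N P hc hI using irr_case.{u} d
  set C' : ℝ := ∑ i ∈ Finset.range (d * D + 1), c i with hC'
  set N' : ℕ := ∑ i ∈ Finset.range (d * D + 1), N i with hN'
  set P' : ℕ := ∑ i ∈ Finset.range (d * D + 1), P i with hP'
  have hcC : ∀ i ≤ d * D, c i ≤ C' := fun i hi =>
    Finset.single_le_sum (f := c) (fun j _ => zero_le_one.trans (hc j))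
      (Finset.mem_range.mpr (Nat.lt_succ_of_le hi))
  have hNN : ∀ i ≤ d * D, N i ≤ N' := fun i hi =>
    Finset.single_le_sum (f := N) (fun j _ => Nat.zero_le _)
      (Finset.mem_range.mpr (Nat.lt_succ_of_le hi))
  have hPP : ∀ i ≤ d * D, P i ≤ P' := fun i hi =>
    Finset.single_le_sum (f := P) (fun j _ => Nat.zero_le _)
      (Finset.mem_range.mpr (Nat.lt_succ_of_le hi))
  have hC'1 : 1 ≤ C' := (hc 0).trans (hcC 0 (Nat.zero_le _))
  have hDD : (1 : ℝ) ≤ ((D : ℝ) + 1) ^ 2 := by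
    have : (0 : ℝ) ≤ D := Nat.cast_nonneg D
    nlinarith
  refine ⟨(C' * (cG * (((D : ℝ) + 1) ^ 2) ^ d)) ^ N', ((D + 1) ^ 2 + 1) * d * N', P', ?_, ?_⟩
  · exact one_le_pow₀ (one_le_mul_of_one_le_of_one_le hC'1
      (one_le_mul_of_one_le_of_one_le hcG (one_le_pow₀ hDD)))
  intro K _ _ hd F hF hF0 p hpP hp0 x hx hxp hFx hlow
  set H : ℝ := mulHeight (fun m : F.support => F.coeff m) with hH
  have hH1 : 1 ≤ H := one_le_mulHeight _
  -- the affine point
  have hx2 := hx 2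
  set a := x 0 / x 2 with ha'
  set b := x 1 / x 2 with hb'
  have ha : a ≠ 0 := div_ne_zero (hx 0) hx2
  have hb : b ≠ 0 := div_ne_zero (hx 1) hx2
  have hab : a ^ p + b ^ p + 1 = 0 := by
    rw [ha', hb', div_pow, div_pow]
    field_simp
    rw [mul_zero]
    exact hxp
  have hxa : x = x 2 • ![a, b, 1] := by
    ext i
    fin_cases i
    · simp [ha', mul_div_cancel₀ _ hx2]
    · simp [hb', mul_div_cancel₀ _ hx2]
    · simp
  have hHx : mulHeight x = mulHeight ![a, b, 1] := by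
    conv_lhs => rw [hxa]
    exact mulHeight_smul_eq_mulHeight _ hx2
  have hFab : evA a b (deh K F) = 0 := by
    rw [deh_eval]
    have h1 : MvPolynomial.eval x F = x 2 ^ D * MvPolynomial.eval ![a, b, 1] F := by
      conv_lhs => rw [hxa]
      exact eval_smul_point hF _ _
    rw [hFx] at h1
    exact (mul_eq_zero.mp h1.symm).resolve_left (pow_ne_zero _ hx2)
  have hf0 : deh K F ≠ 0 := by
    intro h
    apply hF0
    refine deh_inj hF (MvPolynomial.isHomogeneous_zero _ _ _) ?_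
    rw [h, map_zero]
  obtain ⟨f', t, ht, hf't, hf'TD, hf'sz⟩ := clear hf0 (deh_TD hF)
  have hf'0 : f' ≠ 0 := by
    rintro rfl
    rw [map_zero] at hf't
    exact smul_ne_zero ht hf0 hf't.symm
  have hf'P : evA a b (toK f') = 0 := by
    rw [hf't, map_smul, hFab, smul_zero]
  obtain ⟨Nm, hNm0, hNmTD, hNmsz, hNmP⟩ := nrm hf'0 hf'TD
  obtain ⟨f, g, hfg, hfirr, hfirr', hfP⟩ := exists_factor hNm0 (hNmP a b hf'P)
  rw [hd] at hNmTD hNmsz
  have hf00 : f ≠ 0 := hfirr.ne_zero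
  have hg00 : g ≠ 0 := by
    rintro rfl
    exact hNm0 (by rw [hfg, mul_zero])
  rw [hfg] at hNmTD hNmsz
  have hfTD : TD f (d * D) := (TD_of_mul hf00 hg00 hNmTD).1
  have hfsz := hGel f g hf00 hg00 hNmTD
  obtain ⟨D1, hD1, hD1e⟩ := exists_TD hf00
  have hD1le : D1 ≤ d * D := by
    obtain ⟨i, j, hij, hsum⟩ := hD1e
    rw [← hsum]
    exact hfTD i j hij
  -- the size
  set A : ℝ := cG * (((D : ℝ) + 1) ^ 2 * H ^ ((D + 1) ^ 2 + 1)) ^ d with hA'
  have hHp : 1 ≤ H ^ ((D + 1) ^ 2 + 1) := one_le_pow₀ hH1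
  have hA : 1 ≤ A := one_le_mul_of_one_le_of_one_le hcG
    (one_le_pow₀ (one_le_mul_of_one_le_of_one_le hDD hHp))
  have hszO0 : szO f' ≤ ((D : ℝ) + 1) ^ 2 * H ^ ((D + 1) ^ 2 + 1) := by
    refine hf'sz.trans ?_
    have := height_cv_le hF
    have h0 : 0 ≤ mulHeight (cv D (deh K F)) := zero_le_one.trans (one_le_mulHeight _)
    gcongr
  have hszO1 : 0 ≤ szO f' := szO_nonneg f'
  have hfA : sz f ≤ A := by
    refine hfsz.trans ?_
    have : sz (f * g) ≤ (((D : ℝ) + 1) ^ 2 * H ^ ((D + 1) ^ 2 + 1)) ^ d :=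
      hNmsz.trans (pow_le_pow_left₀ hszO1 hszO0 d)
    rw [hA']
    gcongr
  rw [hHx] at hlow ⊢
  have hfin := hI D1 f hfirr' hD1 hD1e A hA hfA K hd p ((hPP D1 hD1le).trans hpP) hp0 a b ha hb hab
    hfP hlow
  have hA0 : 0 ≤ A := by linarith
  have h1 : (c D1 * A) ^ N D1 ≤ (C' * A) ^ N' := by
    calc (c D1 * A) ^ N D1 ≤ (C' * A) ^ N D1 := by
          refine pow_le_pow_left₀ (mul_nonneg (by linarith [hc D1]) hA0) ?_ _
          exact mul_le_mul_of_nonneg_right (hcC D1 hD1le) hA0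
      _ ≤ (C' * A) ^ N' :=
          pow_le_pow_right₀ (one_le_mul_of_one_le_of_one_le hC'1 hA) (hNN D1 hD1le)
  refine hfin.trans (h1.trans (le_of_eq ?_))
  rw [hA', mul_pow (((D : ℝ) + 1) ^ 2), ← pow_mul H, pow_mul H _ N', ← mul_pow]
  congr 1
  ring

end H9CV
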