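import Pool.Agent.H9.CV.TDeg

set_option autoImplicit false

/-!
Project CV (MP_ef6a16_nt, helper9), module Deg: multiplication by high powers of the coordinates modulo `G`.

`G` monic in `y` of degree `D`, total degree `≤ D`.
* `deg_x`: let `f' = f %ₘ G`. `C X ^ p * f' - g` is divisible by `G`; `C X ^ p * f'` has `natDegree < D`
  (or is `0`), so `C X ^ p * f' = g %ₘ G` (`Polynomial.div_modByMonic_unique` or `modByMonic_eq_zero_iff_dvd` applied to the
  difference of two remainders), which has `TD _ n` (`TD_modByMonic`). If `f' ≠ 0` it has a monomial `x ^ j y ^ i`, hence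
  `C X ^ p * f'` has the monomial `x ^ (j + p) y ^ i` and `p ≤ n`, contradiction. So `f' = 0`, `G ∣ f`.
* `deg_y`: `G` has the monomial `x ^ D`: `swap G` is, up to the nonzero constant `c = (G.coeff 0).coeff D`, monic in the
  outer variable of degree `D` (its coefficient of outer degree `D` is a polynomial of degree `≤ 0` with constant
  term `c`, by `TD` and `swap_coeff`). Apply `deg_x` to `C (C c⁻¹) * swap G`, `swap f`, `swap g`.
* `coprime_xy`: `G = G(0,0) + x * s + y * t`, so `1 = α x + β y + γ G`; pass to powers: `IsCoprime.pow` in the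
  quotient ring `K[X][Y] ⧸ span {G}`, or `Ideal` arithmetic, or directly by expanding `(α x + β y) ^ (2 p)`.
* `deg_xy`: `g = α x ^ p g + β y ^ p g + γ G g` and `y ^ p g ≡ c⁻¹ x ^ p f`, so `g ≡ x ^ p s`; by
  `deg_x` (`TD g n`, `n < p`) `G ∣ s`, hence `G ∣ g`.
-/

namespace H9CV

open Polynomial
open scoped Polynomial.Bivariate

variable {K : Type*} [Field K]

theorem deg_x {G : K[X][Y]} (hG : G.Monic) (hTD : TD G G.natDegree) {p n : ℕ} (hn : n < p)
    {f g : K[X][Y]} (hg : TD g n) (h : G ∣ (C X) ^ p * f - g) : G ∣ f := by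
  rw [← modByMonic_eq_zero_iff_dvd hG]
  by_contra hf
  obtain ⟨s, hs⟩ := h
  have hXp : (C X : K[X][Y]) ^ p = C (X ^ p) := by rw [C_pow]
  have e : g %ₘ G = (C X) ^ p * (f %ₘ G) := by
    refine (div_modByMonic_unique ((C X) ^ p * (f /ₘ G) - s) ((C X) ^ p * (f %ₘ G)) hG
      ⟨?_, ?_⟩).2
    · have h1 := modByMonic_add_div f G
      have h2 : g = (C X) ^ p * f - G * s := by rw [← hs]; ring
      calc (C X) ^ p * (f %ₘ G) + G * ((C X) ^ p * (f /ₘ G) - s)
          = (C X) ^ p * (f %ₘ G + G * (f /ₘ G)) - G * s := by ring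
        _ = g := by rw [h1, ← h2]
    · rw [hXp, degree_C_mul (pow_ne_zero p X_ne_zero)]
      exact degree_modByMonic_lt f hG
  have h3 := TD_modByMonic hG hTD hg
  rw [e, hXp] at h3
  obtain ⟨i, hi⟩ : ∃ i, (f %ₘ G).coeff i ≠ 0 := by
    by_contra h4
    push Not at h4
    exact hf (Polynomial.ext fun i => by rw [h4 i, coeff_zero])
  obtain ⟨j, hj⟩ : ∃ j, ((f %ₘ G).coeff i).coeff j ≠ 0 := by
    by_contra h4
    push Not at h4
    exact hi (Polynomial.ext fun j => by rw [h4 j, coeff_zero])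
  have h5 := h3 i (j + p) (by rw [coeff_C_mul, coeff_X_pow_mul]; exact hj)
  omega

private theorem Deg_aux {G : K[X][Y]} {d : ℕ} {c : K} (hTD : TD G d)
    (hcd : (G.coeff 0).coeff d = c) (hc : c ≠ 0) :
    (C (C c⁻¹) * Bivariate.swap G : K[X][Y]).Monic ∧
      (C (C c⁻¹) * Bivariate.swap G : K[X][Y]).natDegree = d := by
  have hcoef : (Bivariate.swap G).coeff d = C c := by
    ext i
    rw [swap_coeff, coeff_C]
    split_ifs with h0
    · rw [h0, hcd]
    · by_contra h1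
      have := hTD i d h1
      omega
  have hbig : ∀ k, d < k → (Bivariate.swap G).coeff k = 0 := by
    intro k hk
    ext i
    rw [swap_coeff, coeff_zero]
    by_contra h1
    have := hTD i k h1
    omega
  have hcoef' : (C (C c⁻¹) * Bivariate.swap G : K[X][Y]).coeff d = 1 := by
    rw [coeff_C_mul, hcoef, ← C_mul, inv_mul_cancel₀ hc, C_1]
  have hdeg' : (C (C c⁻¹) * Bivariate.swap G : K[X][Y]).natDegree ≤ d := by
    rw [natDegree_le_iff_coeff_eq_zero]
    intro k hk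
    rw [coeff_C_mul, hbig k hk, mul_zero]
  refine ⟨monic_of_natDegree_le_of_coeff_eq_one d hdeg' hcoef', le_antisymm hdeg' ?_⟩
  apply le_natDegree_of_ne_zero
  rw [hcoef']
  exact one_ne_zero

private theorem Deg_cc {c : K} (hc : c ≠ 0) : C (C c⁻¹) * C (C c) = (1 : K[X][Y]) := by
  rw [← C_mul, ← C_mul, inv_mul_cancel₀ hc, C_1, C_1]

private theorem Deg_y0 {G G' : K[X][Y]} {c : K} (hcc : C (C c⁻¹) * C (C c) = (1 : K[X][Y]))
    (e : G' = C (C c⁻¹) * Bivariate.swap G) (hmon : G'.Monic) (hTD' : TD G' G'.natDegree)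
    {p n : ℕ} (hn : n < p) {f g : K[X][Y]} (hg : TD g n) (h : G ∣ Y ^ p * f - g) : G ∣ f := by
  have hdvd1 : G' ∣ Bivariate.swap G := by
    refine ⟨C (C c), ?_⟩
    rw [e, mul_comm, ← mul_assoc, mul_comm (C (C c)), hcc, one_mul]
  have hdvd2 : Bivariate.swap G ∣ G' := by
    rw [e]
    exact dvd_mul_left _ _
  have h1 : Bivariate.swap G ∣ (C X) ^ p * Bivariate.swap f - Bivariate.swap g := by
    obtain ⟨w, hw⟩ := h
    refine ⟨Bivariate.swap w, ?_⟩
    rw [← map_mul, ← hw, map_sub, map_mul, map_pow, Bivariate.swap_Y]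
  have h2 : G' ∣ Bivariate.swap f := deg_x hmon hTD' hn (TD_swap hg) (hdvd1.trans h1)
  obtain ⟨w, hw⟩ := hdvd2.trans h2
  refine ⟨Bivariate.swap w, ?_⟩
  rw [← Bivariate.swap_swap_apply f, hw, map_mul, Bivariate.swap_swap_apply]

theorem deg_y {G : K[X][Y]} (hTD : TD G G.natDegree) (hc : (G.coeff 0).coeff G.natDegree ≠ 0)
    {p n : ℕ} (hn : n < p) {f g : K[X][Y]} (hg : TD g n) (h : G ∣ Y ^ p * f - g) : G ∣ f := by
  obtain ⟨hmon, hdeg⟩ := Deg_aux hTD rfl hc
  refine Deg_y0 (Deg_cc hc) rfl hmon ?_ hn hg h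
  rw [hdeg]
  have := TD_mul (TD_C_C (((G.coeff 0).coeff G.natDegree)⁻¹)) (TD_swap hTD)
  rw [zero_add] at this
  exact this

private theorem Deg_cop {A : Type*} [CommRing A] (x y G a b c : A) (h : 1 = a * x + b * y + c * G)
    (p : ℕ) : ∃ α β γ : A, 1 = α * x ^ p + β * y ^ p + γ * G := by
  have hco : IsCoprime (Ideal.Quotient.mk (Ideal.span {G}) x)
      (Ideal.Quotient.mk (Ideal.span {G}) y) := by
    refine ⟨Ideal.Quotient.mk _ a, Ideal.Quotient.mk _ b, ?_⟩
    rw [← map_mul, ← map_mul, ← map_add, ← map_one (Ideal.Quotient.mk (Ideal.span {G})),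
      Ideal.Quotient.mk_eq_mk_iff_sub_mem, Ideal.mem_span_singleton]
    exact ⟨-c, by linear_combination (-1 : A) * h⟩
  obtain ⟨u, v, huv⟩ := hco.pow (m := p) (n := p)
  obtain ⟨α, rfl⟩ := Ideal.Quotient.mk_surjective u
  obtain ⟨β, rfl⟩ := Ideal.Quotient.mk_surjective v
  rw [← map_pow, ← map_pow, ← map_mul, ← map_mul, ← map_add,
    ← map_one (Ideal.Quotient.mk (Ideal.span {G})), Ideal.Quotient.mk_eq_mk_iff_sub_mem,
    Ideal.mem_span_singleton] at huv
  obtain ⟨γ, hγ⟩ := huv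
  exact ⟨α, β, -γ, by linear_combination (-1 : A) * hγ⟩

theorem coprime_xy {G : K[X][Y]} (hc : (G.coeff 0).coeff 0 ≠ 0) (p : ℕ) :
    ∃ α β γ : K[X][Y], 1 = α * (C X) ^ p + β * Y ^ p + γ * G := by
  have e1 : divX G * Y + C (G.coeff 0) = G := divX_mul_X_add G
  have e2 : divX (G.coeff 0) * X + C ((G.coeff 0).coeff 0) = G.coeff 0 :=
    divX_mul_X_add (G.coeff 0)
  have hcc := Deg_cc hc
  have e4 : (C (G.coeff 0) : K[X][Y]) =
      C (divX (G.coeff 0)) * C X + C (C ((G.coeff 0).coeff 0)) := by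
    rw [← C_mul, ← C_add, e2]
  apply Deg_cop (C X) Y G (-(C (C ((G.coeff 0).coeff 0)⁻¹) * C (divX (G.coeff 0))))
    (-(C (C ((G.coeff 0).coeff 0)⁻¹) * divX G)) (C (C ((G.coeff 0).coeff 0)⁻¹))
  linear_combination (C (C ((G.coeff 0).coeff 0)⁻¹)) * e1 +
    (-C (C ((G.coeff 0).coeff 0)⁻¹)) * e4 - hcc

theorem deg_xy {G : K[X][Y]} (hG : G.Monic) (hTD : TD G G.natDegree)
    (hc : (G.coeff 0).coeff 0 ≠ 0) {p n : ℕ} (hn : n < p) {f g : K[X][Y]} (hg : TD g n)
    {c : K} (hc0 : c ≠ 0) (h : G ∣ (C X) ^ p * f - c • (Y ^ p * g)) : G ∣ g := by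
  obtain ⟨α, β, γ, h1⟩ := coprime_xy hc p
  obtain ⟨w, hw⟩ := h
  have hcc := Deg_cc hc0
  have hsm : c • (Y ^ p * g) = C (C c) * (Y ^ p * g) := by
    rw [Algebra.smul_def]
    rfl
  rw [hsm] at hw
  have h2 : G ∣ (C X) ^ p * (α * g + C (C c⁻¹) * β * f) - g := by
    refine ⟨C (C c⁻¹) * β * w - γ * g, ?_⟩
    linear_combination (C (C c⁻¹) * β) * hw - g * h1 + (Y ^ p * g * β) * hcc
  have h3 : G ∣ α * g + C (C c⁻¹) * β * f := deg_x hG hTD hn hg h2
  obtain ⟨a, ha⟩ := h2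
  obtain ⟨b, hb⟩ := h3
  refine ⟨(C X) ^ p * b - a, ?_⟩
  linear_combination (C X) ^ p * hb - ha

end H9CV
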