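import Pool.Agent.H9.CV.Ord

set_option autoImplicit false

/-!
Project CV (MP_ef6a16_nt, helper9), module OrdW: Wronskians (abstract). `VO D ev n f` says `ev (D ^ k f) = 0` for all `k < n`.
* `wronsk`: let `n` be the largest number with `VO n g` (exists by `hfin`, as `VO 0` is trivial and
  `VO_mono`), so `ev (D ^ n g) ≠ 0` and `ev (D ^ k g) = 0` for `k < n`. Put
  `c = ev (D ^ n f) / ev (D ^ n g)` and `f' = f - c • g`, so `ev (D ^ n f') = 0`, and
  `f' * D g - g * D f' = f * D g - g * D f ∈ I`. Suppose `f' ∉ I`; let `n'` be its order, `n' ≠ n`.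
  With `N = n + n' - 1` (and `n + n' ≥ 1`), every element of `I` has `ev (D ^ N ·) = 0` (`hID`, `hIe`).
  Leibniz: `ev (D ^ N (f' * D g)) = choose N n' * ev (D ^ n' f') * ev (D ^ n g)` and
  `ev (D ^ N (g * D f')) = choose N n * ev (D ^ n' f') * ev (D ^ n g)`; but `choose N n' ≠ choose N n`
  for `n ≠ n'`: if `n = 0` they are `0` and `1` (`N = n' - 1`), same for `n' = 0`; otherwise
  `choose N n' = choose N (n - 1)` (symmetry) and `choose N n * n = choose N (n - 1) * n'`
  (`Nat.choose_succ_right_eq`), `choose N (n - 1) > 0`. Contradiction.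
-/

namespace H9CV

open Polynomial

variable {F S : Type*} [Field F] [CommRing S] [Algebra F S]

private theorem OrdW_ord (D : Derivation F S S) (ev : S →ₐ[F] F) {f : S}
    (h : ∃ n, ¬ VO D ev n f) :
    ∃ n, (∀ k < n, ev ((⇑D)^[k] f) = 0) ∧ ev ((⇑D)^[n] f) ≠ 0 := by
  classical
  obtain ⟨n0, hn0⟩ := h
  have hex : ∃ k, ev ((⇑D)^[k] f) ≠ 0 := by
    by_contra hcon
    push Not at hcon
    exact hn0 fun k _ => hcon k
  refine ⟨Nat.find hex, fun k hk => ?_, Nat.find_spec hex⟩
  have := Nat.find_min hex hk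
  push Not at this
  exact this

private theorem OrdW_leib (D : Derivation F S S) (ev : S →ₐ[F] F) {a b : S} {m l N : ℕ}
    (ha : ∀ k < m, ev ((⇑D)^[k] a) = 0) (hb : ∀ k < l, ev ((⇑D)^[k] b) = 0)
    (hN : N + 1 = m + l) :
    ev ((⇑D)^[N] (a * D b)) =
      (N.choose m : F) * (ev ((⇑D)^[m] a) * ev ((⇑D)^[l] b)) := by
  have hD : ∀ k : ℕ, (⇑D)^[k] (D b) = (⇑D)^[k + 1] b := fun k => rfl
  rw [iter_mul, map_sum, Finset.sum_eq_single m]
  · rw [map_mul, map_mul, map_natCast, hD]
    by_cases hm : m ≤ N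
    · have e : N - m + 1 = l := by omega
      rw [e]
    · rw [Nat.choose_eq_zero_of_lt (by omega)]
      simp
  · intro j hj hne
    rw [Finset.mem_range] at hj
    rw [map_mul, map_mul, map_natCast, hD]
    rcases lt_or_gt_of_ne hne with h | h
    · rw [ha j h]
      simp
    · rw [hb (N - j + 1) (by omega)]
      simp
  · intro hm
    rw [Finset.mem_range, not_lt] at hm
    rw [Nat.choose_eq_zero_of_lt (by omega)]
    simp

private theorem OrdW_choose {m l N : ℕ} (hne : m ≠ l) (hN : N + 1 = m + l) :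
    N.choose m ≠ N.choose l := by
  intro h
  rcases m with _ | a
  · rw [Nat.choose_zero_right, Nat.choose_eq_zero_of_lt (show N < l by omega)] at h
    exact one_ne_zero h
  · rcases l with _ | b
    · rw [Nat.choose_zero_right, Nat.choose_eq_zero_of_lt (show N < a + 1 by omega)] at h
      exact one_ne_zero h.symm
    · have hb : N.choose (b + 1) = N.choose a := by
        rw [← Nat.choose_symm (show b + 1 ≤ N by omega)]
        congr 1
        omega
      have h1 := Nat.choose_succ_right_eq N a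
      rw [h, hb] at h1
      have hpos : 0 < N.choose a := Nat.choose_pos (by omega)
      have h2 := Nat.eq_of_mul_eq_mul_left hpos h1
      omega

theorem wronsk [CharZero F] (D : Derivation F S S) (ev : S →ₐ[F] F) (I : Ideal S)
    (hID : ∀ f ∈ I, D f ∈ I) (hIe : ∀ f ∈ I, ev f = 0) (hfin : ∀ f ∉ I, ∃ n, ¬ VO D ev n f)
    {f g : S} (hg : g ∉ I) (h : f * D g - g * D f ∈ I) : ∃ c : F, f - c • g ∈ I := by
  obtain ⟨n, hgz, hgn⟩ := OrdW_ord D ev (hfin g hg)
  refine ⟨ev ((⇑D)^[n] f) / ev ((⇑D)^[n] g), ?_⟩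
  by_contra hf'
  set c : F := ev ((⇑D)^[n] f) / ev ((⇑D)^[n] g) with hc
  obtain ⟨n', hfz, hfn⟩ := OrdW_ord D ev (hfin _ hf')
  have h0 : ev ((⇑D)^[n] (f - c • g)) = 0 := by
    rw [iter_sub, iter_smul, map_sub, map_smul, hc, smul_eq_mul, div_mul_cancel₀ _ hgn, sub_self]
  have hne : n' ≠ n := by
    rintro rfl
    exact hfn h0
  obtain ⟨N, hN⟩ : ∃ N, N + 1 = n' + n := ⟨n' + n - 1, by omega⟩
  have hw : (f - c • g) * D g - g * D (f - c • g) ∈ I := by
    have e : (f - c • g) * D g - g * D (f - c • g) = f * D g - g * D f := by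
      rw [map_sub, Derivation.map_smul, sub_mul, mul_sub, smul_mul_assoc, mul_smul_comm]
      ring
    rw [e]
    exact h
  have hz := VO_of_mem D ev I hID hIe hw (N + 1) N (Nat.lt_succ_self N)
  rw [iter_sub, map_sub, OrdW_leib D ev hfz hgz hN,
    OrdW_leib D ev hgz hfz (by omega : N + 1 = n + n')] at hz
  have hz2 : ((N.choose n' : F) - (N.choose n : F)) *
      (ev ((⇑D)^[n'] (f - c • g)) * ev ((⇑D)^[n] g)) = 0 := by
    rw [← hz]
    ring
  rcases mul_eq_zero.mp hz2 with h1 | h1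
  · have h2 : (N.choose n' : F) = (N.choose n : F) := sub_eq_zero.mp h1
    exact OrdW_choose hne hN (by exact_mod_cast h2)
  · rcases mul_eq_zero.mp h1 with h2 | h2
    · exact hfn h2
    · exact hgn h2

end H9CV
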