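import Pool.Agent.H9.CV.Zer
import Pool.Agent.H9.CV.Deg
import Pool.Agent.H9.CV.OrdW

set_option autoImplicit false

/-!
Project CV (MP_ef6a16_nt, helper9), module Degen: the Wronskians cannot all be divisible by `H`.

`y_i = mon i * r i`, `I = span {H}`. `I` is stable under `DD G` (`DD_dvd` in Defs) and killed by `ev`; outside
`I` the order is finite (`VO_fin`). Take `i0` with `¬ H ∣ r i0`. Then `y_i0 ∉ I` (`deg_x`, `deg_y` with `g = 0`; for
`i0 = 2` trivial). By `wronsk` (with `g = y_i0`, `f = y_j`) there are `c_j : K` with `y_j - c_j • y_i0 ∈ I`, for all `j`.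
For `j = i0`: `(1 - c_i0) • y_i0 ∈ I`, so `c_i0 = 1`. Summing: `(∑ c_j) • y_i0 ∈ I` by `hrel`, so `∑ c_j = 0`. Hence there
is `j ≠ i0` with `c_j ≠ 0`: `y_j ≡ c y_i0 (mod H)`, `c ≠ 0`. Six cases:
`(i0, j) = (0, 2)`: `x ^ p r_0 - c⁻¹ r_2 ∈ I`, `deg_x` gives `H ∣ r_0`, contradiction.
`(2, 0)`: `x ^ p r_0 - c r_2 ∈ I`, `H ∣ r_0`, so `c r_2 ∈ I`, `H ∣ r_2`, contradiction. `(1, 2)`, `(2, 1)`: the same with
`deg_y`. `(0, 1)`: `y ^ p r_1 - c x ^ p r_0 ∈ I`, so `x ^ p r_0 - c⁻¹ y ^ p r_1 ∈ I`, `deg_xy` gives `H ∣ r_1`,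
so `x ^ p r_0 ∈ I`, `deg_x` gives `H ∣ r_0`, contradiction. `(1, 0)`: `x ^ p r_0 - c y ^ p r_1 ∈ I`, `deg_xy` gives
`H ∣ r_1`, contradiction.
-/

namespace H9CV

open Polynomial
open scoped Polynomial.Bivariate

variable {K : Type*} [Field K]

private theorem Degen_smul {H f : K[X][Y]} {c : K} (hc : c ≠ 0) (h : H ∣ c • f) : H ∣ f := by
  have h2 : f = c⁻¹ • (c • f) := by rw [smul_smul, inv_mul_cancel₀ hc, one_smul]
  rw [h2]
  exact dvd_smul_of_dvd _ h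

private theorem Degen_two {H f g : K[X][Y]} {c : K} (hc : c ≠ 0) (h : H ∣ f - c • g) :
    H ∣ g - c⁻¹ • f := by
  have h2 : g - c⁻¹ • f = -(c⁻¹ • (f - c • g)) := by
    rw [smul_sub, smul_smul, inv_mul_cancel₀ hc, one_smul]
    ring
  rw [h2]
  exact (dvd_smul_of_dvd _ h).neg_right

theorem degen [CharZero K] {G H : K[X][Y]} (hHG : H ∣ G) (hH : H.Monic) (hirr : Irreducible H)
    (hTD : TD H H.natDegree) (hc0 : (H.coeff 0).coeff 0 ≠ 0)
    (hcD : (H.coeff 0).coeff H.natDegree ≠ 0) {a b : K} (ha : a ≠ 0) (hb : b ≠ 0)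
    (hP : evA a b H = 0) (hs : evA a b (dY G) ≠ 0) {p n0 : ℕ} (hn0 : n0 < p)
    {r : Fin 3 → K[X][Y]} (hr : ∀ i, TD (r i) n0) (hrel : H ∣ ∑ i, mon K p i * r i)
    (hr0 : ∃ i, ¬ H ∣ r i)
    (hW : ∀ i j, H ∣ (mon K p i * r i) * DD G (mon K p j * r j) -
      (mon K p j * r j) * DD G (mon K p i * r i)) : False := by
  classical
  obtain ⟨i0, hi0⟩ := hr0
  set I : Ideal K[X][Y] := Ideal.span {H} with hI
  have mem : ∀ f : K[X][Y], f ∈ I ↔ H ∣ f := fun f => Ideal.mem_span_singleton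
  have hID : ∀ f ∈ I, DDer G f ∈ I := fun f hf => by
    rw [mem] at hf ⊢
    exact DD_dvd hHG hf
  have hIe : ∀ f ∈ I, evA a b f = 0 := fun f hf => by
    rw [mem] at hf
    obtain ⟨s, rfl⟩ := hf
    rw [map_mul, hP, zero_mul]
  have hfin : ∀ f ∉ I, ∃ n, ¬ VO (DDer G) (evA a b) n f := fun f hf => by
    rw [mem] at hf
    exact VO_fin hHG hH hirr hTD hf ha hb hP hs
  -- divisibility of the three products
  have hx : ∀ g : K[X][Y], TD g n0 → H ∣ (C X) ^ p * r 0 - g → H ∣ r 0 :=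
    fun g hg h => deg_x hH hTD hn0 hg h
  have hy : ∀ g : K[X][Y], TD g n0 → H ∣ Y ^ p * r 1 - g → H ∣ r 1 :=
    fun g hg h => deg_y hTD hcD hn0 hg h
  have hxy : ∀ c : K, c ≠ 0 → H ∣ (C X) ^ p * r 0 - c • (Y ^ p * r 1) → H ∣ r 1 :=
    fun c hc h => deg_xy hH hTD hc0 hn0 (hr 1) hc h
  have m0 : mon K p 0 * r 0 = (C X) ^ p * r 0 := rfl
  have m1 : mon K p 1 * r 1 = Y ^ p * r 1 := rfl
  have m2 : mon K p 2 * r 2 = r 2 := by
    have : mon K p 2 = 1 := rfl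
    rw [this, one_mul]
  have hx0 : H ∣ (C X) ^ p * r 0 → H ∣ r 0 := fun h => hx 0 (TD_zero _) (by rwa [sub_zero])
  have hy0 : H ∣ Y ^ p * r 1 → H ∣ r 1 := fun h => hy 0 (TD_zero _) (by rwa [sub_zero])
  have hyi0 : ¬ H ∣ mon K p i0 * r i0 := by
    intro h
    apply hi0
    fin_cases i0
    · exact hx0 h
    · exact hy0 h
    · have h' : H ∣ mon K p 2 * r 2 := h
      rw [m2] at h'
      exact h'
  have key : ∀ j, ∃ c : K, H ∣ mon K p j * r j - c • (mon K p i0 * r i0) := fun j => by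
    obtain ⟨c, hc⟩ := wronsk (DDer G) (evA a b) I hID hIe hfin (f := mon K p j * r j)
      (g := mon K p i0 * r i0) (by rw [mem]; exact hyi0) (by rw [mem]; exact hW j i0)
    exact ⟨c, (mem _).mp hc⟩
  choose c hc using key
  have hone : c i0 = 1 := by
    by_contra hne
    have h1 : H ∣ (1 - c i0) • (mon K p i0 * r i0) := by
      rw [sub_smul, one_smul]
      exact hc i0
    exact hyi0 (Degen_smul (sub_ne_zero.mpr (Ne.symm hne)) h1)
  have hsum : ∑ j, c j = 0 := by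
    by_contra hne
    have h1 : H ∣ ∑ j, (mon K p j * r j - c j • (mon K p i0 * r i0)) :=
      Finset.dvd_sum fun j _ => hc j
    rw [Finset.sum_sub_distrib, ← Finset.sum_smul] at h1
    have h2 : H ∣ (∑ j, c j) • (mon K p i0 * r i0) := (dvd_sub_right hrel).mp h1
    exact hyi0 (Degen_smul hne h2)
  have hex : ∃ j, j ≠ i0 ∧ c j ≠ 0 := by
    by_contra hno
    push Not at hno
    rw [Finset.sum_eq_single i0 (fun j _ hj => hno j hj) (fun h => absurd (Finset.mem_univ _) h),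
      hone] at hsum
    exact one_ne_zero hsum
  obtain ⟨j, hj, hcj⟩ := hex
  have hd := hc j
  have hg : ∀ (k : K) (i : Fin 3), TD (k • r i) n0 := fun k i => TD_smul k (hr i)
  fin_cases i0 <;> fin_cases j
  · exact hj rfl
  · -- i0 = 0, j = 1
    have h1 : H ∣ Y ^ p * r 1 - c 1 • ((C X) ^ p * r 0) := hd
    have h2 := Degen_two hcj h1
    have h3 : H ∣ r 1 := hxy _ (inv_ne_zero hcj) h2
    have h4 : H ∣ (C X) ^ p * r 0 := by
      have h5 : H ∣ (c 1)⁻¹ • (Y ^ p * r 1) := dvd_smul_of_dvd _ (h3.mul_left _)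
      exact (dvd_sub_left h5).mp h2
    exact hi0 (hx0 h4)
  · -- i0 = 0, j = 2
    have h1 : H ∣ mon K p 2 * r 2 - c 2 • ((C X) ^ p * r 0) := hd
    rw [m2] at h1
    exact hi0 (hx _ (hg _ 2) (Degen_two hcj h1))
  · -- i0 = 1, j = 0
    have h1 : H ∣ (C X) ^ p * r 0 - c 0 • (Y ^ p * r 1) := hd
    exact hi0 (hxy _ hcj h1)
  · exact hj rfl
  · -- i0 = 1, j = 2
    have h1 : H ∣ mon K p 2 * r 2 - c 2 • (Y ^ p * r 1) := hd
    rw [m2] at h1
    exact hi0 (hy _ (hg _ 2) (Degen_two hcj h1))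
  · -- i0 = 2, j = 0
    have h1 : H ∣ (C X) ^ p * r 0 - c 0 • (mon K p 2 * r 2) := hd
    rw [m2] at h1
    have h3 : H ∣ r 0 := hx _ (hg _ 2) h1
    have h4 : H ∣ c 0 • r 2 := (dvd_sub_right (h3.mul_left _)).mp h1
    exact hi0 (Degen_smul hcj h4)
  · -- i0 = 2, j = 1
    have h1 : H ∣ Y ^ p * r 1 - c 1 • (mon K p 2 * r 2) := hd
    rw [m2] at h1
    have h3 : H ∣ r 1 := hy _ (hg _ 2) h1
    have h4 : H ∣ c 1 • r 2 := (dvd_sub_right (h3.mul_left _)).mp h1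
    exact hi0 (Degen_smul hcj h4)
  · exact hj rfl

end H9CV
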