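import Pool.Agent.H9.CV.DelSz

set_option autoImplicit false

/-!
Project CV (MP_ef6a16_nt, helper9), module Irr: irreducible factors over `ℤ`, `ℚ` and `K`.

* `irr_up`: `f` irreducible in the factorial ring `ℤ[X][Y]`, hence prime, and not constant (it vanishes at a point of a field of
  characteristic zero, so `f ≠ C (C n)`). `ℚ[X][Y]` is the localisation of `ℤ[X][Y]` at the nonzero integers
  (`Polynomial.isLocalization` twice), the prime ideal `(f)` does not meet them (an integer divisible by `f` has degree `0`, so `f` would be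
  constant), so its extension `(up ℚ f)` is prime (`IsLocalization.isPrime_of_isPrime_disjoint`), `Ideal.span_singleton_prime`. Alternatively
  Gauss's lemma by hand: if `up ℚ f ∣ g h`, clear denominators.
* `exists_factor`: some irreducible factor of a nonzero `N` vanishes at the point: induction on factors
  (`UniqueFactorizationMonoid.induction_on_prime` or `WfDvdMonoid.exists_irreducible_factor`, or the normalized factors); the unit
  factor is `±1`.
* `not_dvd_K`: if `H` divides `up K G` and `up K r` over `K`, `natDegree H ≥ 1`: otherwise (if `up ℚ G ∤ up ℚ r`) `elim_res` in module Elim gives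
  `G u + r w = C ρ` with `ρ ≠ 0` in `ℤ[X]`, so `H ∣ C (ρ)` over `K`, impossible as `natDegree H ≥ 1` and `ρ ≠ 0`. Stated here with this
  relation as hypothesis.
-/

namespace H9CV

open Polynomial
open scoped Polynomial.Bivariate

private theorem Irr_up_CC (K : Type*) [Field K] (n : ℤ) :
    up K (C (C n)) = C (C (n : K)) := by
  unfold up
  simp

private theorem Irr_clear1 (q : ℚ[X]) : ∃ (n : ℤ) (q' : ℤ[X]), n ≠ 0 ∧
    q'.map (Int.castRingHom ℚ) = C (n : ℚ) * q := by
  induction q using Polynomial.induction_on' with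
  | add p q hp hq =>
    obtain ⟨n, p', hn, h1⟩ := hp
    obtain ⟨m, q', hm, h2⟩ := hq
    refine ⟨n * m, C m * p' + C n * q', mul_ne_zero hn hm, ?_⟩
    rw [Polynomial.map_add, Polynomial.map_mul, Polynomial.map_mul, h1, h2, map_C, map_C]
    simp only [eq_intCast, Int.cast_mul, map_mul]
    ring
  | monomial j a =>
    refine ⟨a.den, monomial j a.num, by exact_mod_cast a.den_ne_zero, ?_⟩
    rw [map_monomial, C_mul_monomial]
    congr 1
    simp only [eq_intCast, Int.cast_natCast]
    rw [mul_comm]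
    exact (Rat.mul_den_eq_num a).symm

private theorem Irr_clear (a : ℚ[X][Y]) : ∃ (n : ℤ) (a' : ℤ[X][Y]), n ≠ 0 ∧
    up ℚ a' = C (C (n : ℚ)) * a := by
  induction a using Polynomial.induction_on' with
  | add p q hp hq =>
    obtain ⟨n, p', hn, h1⟩ := hp
    obtain ⟨m, q', hm, h2⟩ := hq
    refine ⟨n * m, C (C m) * p' + C (C n) * q', mul_ne_zero hn hm, ?_⟩
    rw [map_add, map_mul, map_mul, h1, h2, Irr_up_CC, Irr_up_CC]
    simp only [Int.cast_mul, map_mul]
    ring
  | monomial j a =>
    obtain ⟨n, q', hn, h1⟩ := Irr_clear1 a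
    refine ⟨n, monomial j q', hn, ?_⟩
    have h2 : up ℚ (monomial j q') = monomial j (q'.map (Int.castRingHom ℚ)) := by
      unfold up
      simp
    rw [h2, h1, C_mul_monomial]

/-- A divisor of a nonzero integer constant is a nonzero integer constant. -/
private theorem Irr_const {s b : ℤ[X][Y]} {N : ℤ} (hN : N ≠ 0) (h : s * b = C (C N)) :
    ∃ k : ℤ, k ≠ 0 ∧ b = C (C k) := by
  have hne : s * b ≠ 0 := by
    rw [h]
    simpa using hN
  have hs : s ≠ 0 := left_ne_zero_of_mul hne
  have hb : b ≠ 0 := right_ne_zero_of_mul hne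
  have h1 : s.natDegree + b.natDegree = 0 := by
    rw [← natDegree_mul hs hb, h, natDegree_C]
  have hs0 : s = C (s.coeff 0) := eq_C_of_natDegree_eq_zero (by omega)
  have hb0 : b = C (b.coeff 0) := eq_C_of_natDegree_eq_zero (by omega)
  have h2 : s.coeff 0 * b.coeff 0 = C N := by
    have h3 : (C (s.coeff 0 * b.coeff 0) : ℤ[X][Y]) = C (C N) := by
      rw [map_mul, ← hs0, ← hb0, h]
    exact C_injective h3
  have hb1 : b.coeff 0 ≠ 0 := by
    intro h3
    rw [h3, map_zero] at hb0
    exact hb hb0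
  have hs1 : s.coeff 0 ≠ 0 := by
    intro h3
    rw [h3, map_zero] at hs0
    exact hs hs0
  have h4 : (s.coeff 0).natDegree + (b.coeff 0).natDegree = 0 := by
    rw [← natDegree_mul hs1 hb1, h2, natDegree_C]
  have hb2 : b.coeff 0 = C ((b.coeff 0).coeff 0) := eq_C_of_natDegree_eq_zero (by omega)
  refine ⟨(b.coeff 0).coeff 0, ?_, ?_⟩
  · intro h5
    rw [h5, map_zero] at hb2
    exact hb1 hb2
  · rw [← hb2, ← hb0]

private theorem Irr_half {f a' b' : ℤ[X][Y]} {b : ℚ[X][Y]} {n m : ℤ} (hf : f ≠ 0) (hn : n ≠ 0)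
    (hm : m ≠ 0) (hb : up ℚ b' = C (C (m : ℚ)) * b)
    (hab : C (C (n * m)) * f = a' * b') (hfa : f ∣ a') : IsUnit b := by
  obtain ⟨s, rfl⟩ := hfa
  have h1 : s * b' = C (C (n * m)) := by
    apply mul_left_cancel₀ hf
    rw [← mul_assoc, ← hab]
    ring
  obtain ⟨k, hk, hbk⟩ := Irr_const (mul_ne_zero hn hm) h1
  rw [hbk, Irr_up_CC] at hb
  have hk' : (k : ℚ) ≠ 0 := by exact_mod_cast hk
  have h2 : IsUnit (C (C (k : ℚ)) : ℚ[X][Y]) := by
    rw [isUnit_C, isUnit_C]
    exact isUnit_iff_ne_zero.mpr hk'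
  rw [hb] at h2
  exact isUnit_of_mul_isUnit_right h2

theorem irr_up {f : ℤ[X][Y]} (hf : Irreducible f) (hc : ∀ n : ℤ, f ≠ C (C n)) :
    Irreducible (up ℚ f) := by
  have hprime : Prime f := hf.prime
  constructor
  · intro hu
    rw [isUnit_iff] at hu
    obtain ⟨r, hr, hrf⟩ := hu
    rw [isUnit_iff] at hr
    obtain ⟨q, hq, hqr⟩ := hr
    apply hc ((f.coeff 0).coeff 0)
    ext i j : 2
    have h1 : ((up ℚ f).coeff i).coeff j = ((C (C q) : ℚ[X][Y]).coeff i).coeff j := by
      rw [← hrf, ← hqr]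
    rw [up_coeff] at h1
    by_cases hi : i = 0
    · subst hi
      rw [coeff_C_zero] at h1 ⊢
      by_cases hj : j = 0
      · subst hj
        rw [coeff_C_zero]
      · rw [coeff_C_of_ne_zero hj] at h1 ⊢
        exact_mod_cast h1
    · rw [coeff_C_of_ne_zero hi, coeff_zero] at h1
      rw [coeff_C_of_ne_zero hi, coeff_zero]
      exact_mod_cast h1
  · intro a b hab
    obtain ⟨n, a', hn, ha⟩ := Irr_clear a
    obtain ⟨m, b', hm, hb⟩ := Irr_clear b
    have h1 : C (C (n * m)) * f = a' * b' := by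
      apply up_injective (K := ℚ)
      rw [map_mul (up ℚ), map_mul (up ℚ) a' b', ha, hb, Irr_up_CC, hab]
      simp only [Int.cast_mul, map_mul]
      ring
    have h2 : f ∣ a' * b' := by
      rw [← h1]
      exact dvd_mul_left _ _
    rcases hprime.dvd_or_dvd h2 with h3 | h3
    · exact Or.inr (Irr_half hf.ne_zero hn hm hb h1 h3)
    · left
      have h4 : C (C (m * n)) * f = b' * a' := by
        rw [mul_comm m n, h1, mul_comm]
      exact Irr_half hf.ne_zero hm hn ha h4 h3

private theorem Irr_evZ_mul {K : Type*} [Field K] (a b : K) (f g : ℤ[X][Y]) :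
    evZ a b (f * g) = evZ a b f * evZ a b g := by
  unfold evZ
  rw [map_mul, map_mul]

private theorem Irr_evZ_one {K : Type*} [Field K] (a b : K) : evZ a b 1 = 1 := by
  unfold evZ
  rw [map_one, map_one]

private theorem Irr_evZ_CC {K : Type*} [Field K] (a b : K) (n : ℤ) : evZ a b (C (C n)) = n := by
  have h : (C (C n) : ℤ[X][Y]) = (n : ℤ[X][Y]) := by simp
  unfold evZ
  rw [h, map_intCast, map_intCast]

theorem exists_factor {K : Type*} [Field K] [CharZero K] {N : ℤ[X][Y]} (hN : N ≠ 0) {a b : K}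
    (h : evZ a b N = 0) :
    ∃ f g : ℤ[X][Y], N = f * g ∧ Irreducible f ∧ Irreducible (up ℚ f) ∧ evZ a b f = 0 := by
  induction N using WfDvdMonoid.induction_on_irreducible with
  | zero => exact absurd rfl hN
  | unit u hu =>
    exfalso
    obtain ⟨v, hv⟩ := hu.exists_right_inv
    have h1 : evZ a b u * evZ a b v = 1 := by
      rw [← Irr_evZ_mul, hv, Irr_evZ_one]
    rw [h, zero_mul] at h1
    exact zero_ne_one h1
  | mul M i hM hi ih =>
    rw [Irr_evZ_mul] at h
    rcases mul_eq_zero.mp h with h1 | h1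
    · refine ⟨i, M, rfl, hi, irr_up hi ?_, h1⟩
      rintro n rfl
      rw [Irr_evZ_CC] at h1
      have hn : n = 0 := by exact_mod_cast h1
      apply hi.ne_zero
      rw [hn]
      simp
    · obtain ⟨f, g, hfg, h2, h3, h4⟩ := ih hM h1
      refine ⟨f, i * g, ?_, h2, h3, h4⟩
      rw [hfg]
      ring

theorem not_dvd_K {K : Type*} [Field K] [CharZero K] {G r u w : ℤ[X][Y]} {ρ : ℤ[X]} (hρ : ρ ≠ 0)
    (hrel : G * u + r * w = C ρ) {H : K[X][Y]} (hHG : H ∣ up K G) (hH : H.Monic)
    (hH1 : 1 ≤ H.natDegree) : ¬ H ∣ up K r := by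
  intro hHr
  have h1 : H ∣ up K (C ρ) := by
    rw [← hrel, map_add, map_mul, map_mul]
    exact dvd_add (hHG.mul_right _) (hHr.mul_right _)
  have h2 : up K (C ρ) ≠ 0 := by
    intro h
    have h3 : up K (C ρ) = up K 0 := by rw [h, map_zero]
    have h4 := up_injective h3
    exact hρ (C_eq_zero.mp h4)
  have h3 := natDegree_le_of_dvd h1 h2
  have h4 : up K (C ρ) = C (ρ.map (Int.castRingHom K)) := by
    unfold up
    simp
  rw [h4, natDegree_C] at h3
  omega

end H9CV
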