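import Pool.Agent.H9.CV.DelSz

set_option autoImplicit false

/-!
Project CV (MP_ef6a16_nt, helper9), module IrrK: a monic irreducible factor over `K` through a given point.
* `exists_factor_K`: `G` monic in `y` over `ℤ`, `up K G` vanishes at `(a, b)`: an irreducible factor `H` of `up K G` vanishes at `(a, b)`; its
  leading coefficient (in `K[X]`) divides `1`, so it is a unit; make it monic. With `up K G = H * H'` (`H'` monic): `TD H m`, `TD H' m'`
  with exact total degrees `m ≥ natDegree H`, `m' ≥ natDegree H'`, `m + m' ≤ D = natDegree H + natDegree H'` (`exists_TD`, `TD_quot`), so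
  `m = natDegree H`. Corner coefficients: constant: `G(0,0) = H(0,0) H'(0,0)`. Coefficient of `x ^ D` in `G(x, 0)`: product
  of the polynomials `H(x, 0)`, `H'(x, 0)` of degrees `≤ natDegree H`, `≤ natDegree H'`: the coefficient of `x ^ D` is the product of the
  coefficients of `x ^ natDegree H` and `x ^ natDegree H'` (`Polynomial.coeff_mul_degree_add_degree` style, `TD_coeff`).
-/

namespace H9CV

open Polynomial
open scoped Polynomial.Bivariate

theorem exists_factor_K {K : Type*} [Field K] [CharZero K] {G : ℤ[X][Y]} (hG : G.Monic)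
    (hTD : TD G G.natDegree) (hc0 : (G.coeff 0).coeff 0 ≠ 0)
    (hcD : (G.coeff 0).coeff G.natDegree ≠ 0) {a b : K} (h : evZ a b G = 0) :
    ∃ H : K[X][Y], H ∣ up K G ∧ H.Monic ∧ Irreducible H ∧ TD H H.natDegree ∧
      1 ≤ H.natDegree ∧ H.natDegree ≤ G.natDegree ∧ (H.coeff 0).coeff 0 ≠ 0 ∧
      (H.coeff 0).coeff H.natDegree ≠ 0 ∧ evA a b H = 0 := by
  classical
  set P : K[X][Y] := up K G with hP
  have hPmap : P = G.map (mapRingHom (Int.castRingHom K)) := rfl
  have hPm : P.Monic := by
    rw [hPmap]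
    exact hG.map _
  have hPdeg : P.natDegree = G.natDegree := by
    rw [hPmap]
    exact hG.natDegree_map _
  have hP0 : P ≠ 0 := hPm.ne_zero
  have hPTD : TD P G.natDegree := up_TD hTD
  have hPev : evA a b P = 0 := h
  -- an irreducible factor through the point
  obtain ⟨f, hf1, hf2⟩ := UniqueFactorizationMonoid.exists_prime_factors P hP0
  obtain ⟨H0, hH0f, hH0ev⟩ : ∃ H0 ∈ f, evA a b H0 = 0 := by
    have h1 : evA a b f.prod = 0 := by
      obtain ⟨w, hw⟩ := hf2
      have h2 : evA a b f.prod * evA a b (w : K[X][Y]) = 0 := by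
        rw [← map_mul, hw, hPev]
      have h3 : evA a b (w : K[X][Y]) ≠ 0 := (w.isUnit.map (evA a b)).ne_zero
      exact (mul_eq_zero.mp h2).resolve_right h3
    rw [map_multiset_prod, Multiset.prod_eq_zero_iff, Multiset.mem_map] at h1
    exact h1
  have hH0p : Prime H0 := hf1 H0 hH0f
  have hH0d : H0 ∣ P := (Multiset.dvd_prod hH0f).trans hf2.dvd
  obtain ⟨H1, hH1⟩ := hH0d
  have hlc : H0.leadingCoeff * H1.leadingCoeff = 1 := by
    rw [← leadingCoeff_mul, ← hH1]
    exact hPm
  set v := H1.leadingCoeff with hv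
  set w := H0.leadingCoeff with hw
  have hCvw : (C v : K[X][Y]) * C w = 1 := by
    rw [← C_mul, mul_comm v w, hlc, C_1]
  have hCv : IsUnit (C v : K[X][Y]) := IsUnit.of_mul_eq_one _ hCvw
  set H : K[X][Y] := C v * H0 with hH
  set H' : K[X][Y] := C w * H1 with hH'
  have hHm : H.Monic := by
    show H.leadingCoeff = 1
    rw [hH, leadingCoeff_mul, leadingCoeff_C, mul_comm]
    exact hlc
  have hHm' : H'.Monic := by
    show H'.leadingCoeff = 1
    rw [hH', leadingCoeff_mul, leadingCoeff_C]
    exact hlc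
  have hPHH : P = H * H' := by
    rw [hH, hH', hH1]
    calc H0 * H1 = 1 * (H0 * H1) := (one_mul _).symm
      _ = (C v * C w) * (H0 * H1) := by rw [hCvw]
      _ = C v * H0 * (C w * H1) := by ring
  have hHirr : Irreducible H := by
    have h1 : Associated H0 H := by
      rw [hH, mul_comm]
      exact (associated_mul_isUnit_right_iff hCv).mpr (Associated.refl H0)
    exact h1.irreducible hH0p.irreducible
  have hHev : evA a b H = 0 := by
    rw [hH, map_mul, hH0ev, mul_zero]
  have hdeg : H.natDegree + H'.natDegree = G.natDegree := by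
    rw [← hPdeg, hPHH, hHm.natDegree_mul hHm']
  obtain ⟨m, hm1, hm2⟩ := exists_TD hHm.ne_zero
  have hPTD' : TD (H * H') G.natDegree := by
    rw [← hPHH]
    exact hPTD
  obtain ⟨hmD, hTD'⟩ := TD_quot hm2 hm1 hHm'.ne_zero hPTD'
  have h1 := TD_natDegree hm1
  have h2 := TD_natDegree hTD'
  have hmeq : H.natDegree = m := by omega
  have hmeq' : G.natDegree - m = H'.natDegree := by omega
  rw [hmeq'] at hTD'
  rw [← hmeq] at hm1
  have hc : P.coeff 0 = H.coeff 0 * H'.coeff 0 := by
    rw [hPHH, mul_coeff_zero]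
  have hcoef : ∀ j, (P.coeff 0).coeff j = (((G.coeff 0).coeff j : ℤ) : K) := fun j =>
    up_coeff G 0 j
  refine ⟨H, ⟨H', hPHH⟩, hHm, hHirr, hm1, ?_, by omega, ?_, ?_, hHev⟩
  · by_contra hcon
    have h3 : H.natDegree = 0 := by omega
    have h4 : H = 1 := hHm.natDegree_eq_zero.mp h3
    exact hHirr.not_isUnit (by rw [h4]; exact isUnit_one)
  · intro h3
    have h4 : (P.coeff 0).coeff 0 = 0 := by
      rw [hc, mul_coeff_zero, h3, zero_mul]
    rw [hcoef] at h4
    exact hc0 (by exact_mod_cast h4)
  · intro h3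
    have h4 : (P.coeff 0).coeff G.natDegree = 0 := by
      rw [hc, ← hdeg, coeff_mul_add_eq_of_natDegree_le
        (by have := TD_coeff hm1 0; rwa [Nat.sub_zero] at this)
        (by have := TD_coeff hTD' 0; rwa [Nat.sub_zero] at this), h3, zero_mul]
    rw [hcoef] at h4
    exact hcD (by exact_mod_cast h4)

end H9CV
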