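import Mathlib

set_option autoImplicit false

/-!
Project CV (MP_ef6a16_nt, helper9), module Sgl: Siegel's lemma over `ℤ`, wrapper.

From `Int.Matrix.exists_ne_zero_int_vec_norm_le` (Mathlib, file `NumberTheory/SiegelsLemma`; sup norms of matrices and vectors).
If `card α = 0` or the matrix is zero, `ξ = Pi.single l₀ 1` (`β` is nonempty). The norm of the matrix is `≤ B` (`B ≥ 1`; `Matrix.norm_le_iff`). The exponent
`card α / (card β - card α) ≤ E` and the base `card β * B ≥ 1`: `Real.rpow_le_rpow_of_exponent_le`,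
`Real.rpow_natCast`.
-/

namespace H9CV

theorem siegel_gen (α β : Type) [Fintype α] [Fintype β] (M : Matrix α β ℤ) (E : ℕ)
    (h : Fintype.card α < Fintype.card β)
    (hE : Fintype.card α ≤ E * (Fintype.card β - Fintype.card α)) (B : ℝ) (hB : 1 ≤ B)
    (hM : ∀ k l, |((M k l : ℤ) : ℝ)| ≤ B) :
    ∃ ξ : β → ℤ, ξ ≠ 0 ∧ M.mulVec ξ = 0 ∧ ∀ l, |((ξ l : ℤ) : ℝ)| ≤ (Fintype.card β * B) ^ E := by
  classical
  have hβ : 0 < Fintype.card β := (Nat.zero_le _).trans_lt h
  have hβ1 : (1 : ℝ) ≤ Fintype.card β := by exact_mod_cast hβ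
  have hbase : 1 ≤ (Fintype.card β : ℝ) * B := by
    calc (1 : ℝ) = 1 * 1 := (one_mul 1).symm
      _ ≤ (Fintype.card β : ℝ) * B := mul_le_mul hβ1 hB zero_le_one (by linarith)
  rcases Nat.eq_zero_or_pos (Fintype.card α) with h0 | h0
  · have : IsEmpty α := Fintype.card_eq_zero_iff.1 h0
    obtain ⟨l₀⟩ : Nonempty β := Fintype.card_pos_iff.1 hβ
    refine ⟨Pi.single l₀ 1, ?_, ?_, ?_⟩
    · intro h1
      have h2 := congrFun h1 l₀
      rw [Pi.single_eq_same] at h2
      exact one_ne_zero h2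
    · exact Subsingleton.elim _ _
    · intro l
      have h1 : |(((Pi.single l₀ 1 : β → ℤ) l : ℤ) : ℝ)| ≤ 1 := by
        by_cases hl : l = l₀
        · subst hl
          rw [Pi.single_eq_same]
          simp
        · rw [Pi.single_eq_of_ne hl]
          simp
      exact h1.trans (one_le_pow₀ hbase)
  · letI : SeminormedAddCommGroup (Matrix α β ℤ) := Matrix.seminormedAddCommGroup
    obtain ⟨ξ, h1, h2, h3⟩ := Int.Matrix.exists_ne_zero_int_vec_norm_le M h h0
    refine ⟨ξ, h1, h2, fun l => ?_⟩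
    have h4 : |((ξ l : ℤ) : ℝ)| ≤ ‖ξ‖ := by
      have h5 := norm_le_pi_norm ξ l
      rw [Int.norm_eq_abs] at h5
      exact h5
    have h5 : max 1 ‖M‖ ≤ B := by
      refine max_le hB ((Matrix.norm_le_iff (by linarith)).2 fun k l => ?_)
      rw [Int.norm_eq_abs]
      exact hM k l
    have h6 : (Fintype.card β : ℝ) * max 1 ‖M‖ ≤ Fintype.card β * B :=
      mul_le_mul_of_nonneg_left h5 (by linarith)
    have h7 : (0 : ℝ) < (Fintype.card β : ℝ) - Fintype.card α := by
      have : (Fintype.card α : ℝ) < Fintype.card β := by exact_mod_cast h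
      linarith
    have h8 : (Fintype.card α : ℝ) / ((Fintype.card β : ℝ) - Fintype.card α) ≤ (E : ℝ) := by
      rw [div_le_iff₀ h7]
      have h9 : ((Fintype.card α : ℕ) : ℝ) ≤
          ((E * (Fintype.card β - Fintype.card α) : ℕ) : ℝ) := by exact_mod_cast hE
      rw [Nat.cast_mul, Nat.cast_sub h.le] at h9
      exact h9
    have h10 : 0 ≤ (Fintype.card α : ℝ) / ((Fintype.card β : ℝ) - Fintype.card α) := by
      positivity
    have h11 : 0 ≤ (Fintype.card β : ℝ) * max 1 ‖M‖ := by positivity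
    calc |((ξ l : ℤ) : ℝ)| ≤ ‖ξ‖ := h4
      _ ≤ ((Fintype.card β : ℝ) * max 1 ‖M‖) ^
          ((Fintype.card α : ℝ) / ((Fintype.card β : ℝ) - Fintype.card α)) := h3
      _ ≤ ((Fintype.card β : ℝ) * B) ^
          ((Fintype.card α : ℝ) / ((Fintype.card β : ℝ) - Fintype.card α)) :=
          Real.rpow_le_rpow h11 h6 h10
      _ ≤ ((Fintype.card β : ℝ) * B) ^ (E : ℝ) := Real.rpow_le_rpow_of_exponent_le hbase h8
      _ = ((Fintype.card β : ℝ) * B) ^ E := Real.rpow_natCast _ _

end H9CV
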