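import Pool.Agent.H9.CV.Sz
import Pool.Agent.H9.CV.Sgl

set_option autoImplicit false

/-!
Project CV (MP_ef6a16_nt, helper9), module Sieg: small relations `x ^ p r_0 + y ^ p r_1 + r_2 ≡ 0 (mod G)` by Siegel's
lemma.

`G ∈ ℤ[x][y]` monic in `y` of degree `D`, total degree `≤ D`, `sz G ≤ A`, `A ≥ 1`.
* `sz_pow_mod`: `s_n := sz (Y ^ n %ₘ G)`. `Y ^ (n + 1) %ₘ G = Y * (Y ^ n %ₘ G) - C l * G` where `l` is the coefficient
  of `y ^ (D - 1)` of `Y ^ n %ₘ G` (`Polynomial.div_modByMonic_unique` / `modByMonic_add_div`), so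
  `s_{n+1} ≤ s_n + s_n A ≤ 2 A s_n` (`sz (C l) ≤ s_n`), `s_0 ≤ 1` (for `D ≥ 1`).
* `siegel_rel`. Unknowns `v i j ∈ ℤ`, `i < D`, `j < M`, `v = ∑ v_ij x ^ j y ^ i`. The remainder
  `(Y ^ p * v) %ₘ G = ∑ v_ij x ^ j (Y ^ (p + i) %ₘ G)` (linearity: `Polynomial.add_modByMonic`, `smul_modByMonic` for
  coefficients in `ℤ[X]`) has total degree `≤ p + M + D - 2` (`TD_modByMonic`). Require that its coefficients at `x ^ l y ^ k`, `k < D`,
  `M ≤ l < p`, vanish: `D (p - M)` linear equations with integer coefficients `≤ (2 A) ^ (p + D) ≤ (2 A) ^ (2 p)`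
  in `D M` unknowns. `siegel_gen` (matrix indexed by `Fin D × Fin (p - M)` and `Fin D × Fin M`,
  `D (p - M) ≤ E * D (2 M - p)`) gives `v ≠ 0` with `|v_ij| ≤ V = (D M (2 A) ^ (2 p)) ^ E`. Then `(Y ^ p v) %ₘ G = x ^ p u + w` with `w` the
  part `l < M` and `u` from the part `l ≥ p`; `r = ![-u, v, -w]`. `G ∤ v` as `v ≠ 0`, `natDegree v < D`. Total degrees `≤ M + D`. Sizes:
  `sz v, sz u, sz w ≤ D M V (2 A) ^ (2 p)`; with `p ≤ 2 ^ p`, `M ≤ p`, `D ≤ D ^ p` everything is `≤ (4 D A) ^ ((4 E + 4) p)`: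
  `(D M) ^ (E + 1) ≤ (2 D) ^ (p (E + 1))` and `(2 A) ^ (2 p (E + 1))`.
-/

namespace H9CV

open Polynomial
open scoped Polynomial.Bivariate

/-- The size of one coefficient. -/
private theorem Sieg_sz_C_coeff (f : ℤ[X][Y]) (i : ℕ) : sz (C (f.coeff i) : ℤ[X][Y]) ≤ sz f := by
  rw [sz_C]
  by_cases h : i ∈ f.support
  · unfold sz
    rw [Polynomial.sum_def]
    have h1 : ∑ j ∈ (f.coeff i).support, |(((f.coeff i).coeff j : ℤ) : ℝ)| =
        (fun n => (f.coeff n).sum fun _ c => |(c : ℝ)|) i := by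
      simp only [Polynomial.sum_def]
    rw [h1]
    refine Finset.single_le_sum (f := fun n => (f.coeff n).sum fun _ c => |(c : ℝ)|) ?_ h
    intro n _
    simp only [Polynomial.sum_def]
    exact Finset.sum_nonneg fun _ _ => abs_nonneg _
  · rw [notMem_support_iff.mp h]
    simp only [support_zero, Finset.sum_empty]
    exact sz_nonneg f

theorem sz_pow_mod {G : ℤ[X][Y]} (hG : G.Monic) (hD : 1 ≤ G.natDegree) {A : ℝ} (hA : 1 ≤ A)
    (hGA : sz G ≤ A) (n : ℕ) : sz (Y ^ n %ₘ G) ≤ (2 * A) ^ n := by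
  have hG0 : G ≠ 0 := hG.ne_zero
  induction n with
  | zero =>
    have h1 : (Y ^ 0 : ℤ[X][Y]) %ₘ G = 1 := by
      rw [pow_zero, modByMonic_eq_self_iff hG, degree_one, degree_eq_natDegree hG0]
      exact_mod_cast hD
    rw [h1, sz_one, pow_zero]
  | succ n ih =>
    set R := (Y ^ n : ℤ[X][Y]) %ₘ G with hR
    set l := R.coeff (G.natDegree - 1) with hl
    have hRdeg : ∀ i, G.natDegree ≤ i → R.coeff i = 0 := by
      intro i hi
      refine coeff_eq_zero_of_degree_lt ?_
      refine (degree_modByMonic_lt _ hG).trans_le ?_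
      rw [degree_eq_natDegree hG0]
      exact_mod_cast hi
    have h2 : (Y ^ (n + 1) : ℤ[X][Y]) %ₘ G = Y * R - C l * G := by
      refine (div_modByMonic_unique (Y * (Y ^ n /ₘ G) + C l) (Y * R - C l * G) hG ⟨?_, ?_⟩).2
      · have h3 := modByMonic_add_div (Y ^ n : ℤ[X][Y]) G
        rw [pow_succ, mul_comm (Y ^ n : ℤ[X][Y]) Y]
        conv_rhs => rw [← h3]
        rw [← hR]
        ring
      · rw [degree_eq_natDegree hG0, degree_lt_iff_coeff_zero]
        intro i hi
        rw [coeff_sub, coeff_C_mul]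
        obtain ⟨j, rfl⟩ : ∃ j, i = j + 1 := ⟨i - 1, by omega⟩
        rw [coeff_X_mul]
        rcases Nat.lt_or_ge G.natDegree (j + 1) with h4 | h4
        · rw [hRdeg j (by omega), coeff_eq_zero_of_natDegree_lt h4]
          ring
        · have h5 : G.natDegree = j + 1 := le_antisymm hi h4
          have h6 : G.coeff (j + 1) = 1 := by
            rw [← h5]
            exact hG.coeff_natDegree
          have h7 : l = R.coeff j := by
            rw [hl, h5]
            rfl
          rw [h6, h7]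
          ring
    have hs0 := sz_nonneg R
    have h8 : sz (Y * R) ≤ sz R := by
      have := sz_mul_le Y R
      rwa [sz_Y, one_mul] at this
    have h9 : sz (C l * G) ≤ sz R * A := by
      refine (sz_mul_le _ _).trans ?_
      exact mul_le_mul (Sieg_sz_C_coeff R _) hGA (sz_nonneg _) hs0
    rw [h2]
    calc sz (Y * R - C l * G) ≤ sz (Y * R) + sz (C l * G) := sz_sub_le _ _
      _ ≤ sz R + sz R * A := add_le_add h8 h9
      _ ≤ sz R * (2 * A) := by nlinarith
      _ ≤ (2 * A) ^ n * (2 * A) := mul_le_mul_of_nonneg_right ih (by linarith)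
      _ = (2 * A) ^ (n + 1) := by rw [pow_succ]

/-- The polynomial with the coefficients `c i j`, `i < a`, `j < b`. -/
private noncomputable def Sieg_bv (a b : ℕ) (c : ℕ → ℕ → ℤ) : ℤ[X][Y] :=
  ∑ i ∈ Finset.range a, ∑ j ∈ Finset.range b, monomial i (monomial j (c i j))

private theorem Sieg_bv_coeff (a b : ℕ) (c : ℕ → ℕ → ℤ) (i j : ℕ) :
    ((Sieg_bv a b c).coeff i).coeff j = if i < a ∧ j < b then c i j else 0 := by
  unfold Sieg_bv
  rw [finsetSum_coeff, finsetSum_coeff]
  simp only [finsetSum_coeff, coeff_monomial]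
  have h1 : ∀ i' ∈ Finset.range a, (∑ j' ∈ Finset.range b,
      (if i' = i then (monomial j' (c i' j') : ℤ[X]) else 0).coeff j) =
      if i' = i then (if j < b then c i j else 0) else 0 := by
    intro i' _
    by_cases h : i' = i
    · subst h
      simp only [if_true, coeff_monomial]
      rw [Finset.sum_ite_eq']
      simp only [Finset.mem_range]
    · simp only [h, if_false, coeff_zero, Finset.sum_const_zero]
  rw [Finset.sum_congr rfl h1, Finset.sum_ite_eq']
  simp only [Finset.mem_range]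
  by_cases h2 : i < a <;> by_cases h3 : j < b <;> simp [h2, h3]

private theorem Sieg_bv_TD (a b : ℕ) (c : ℕ → ℕ → ℤ) : TD (Sieg_bv a b c) (b + a) := by
  intro i j h
  rw [Sieg_bv_coeff] at h
  by_cases h1 : i < a ∧ j < b
  · omega
  · rw [if_neg h1] at h
    exact absurd rfl h

private theorem Sieg_sz_mono (i j : ℕ) (c : ℤ) :
    sz (monomial i (monomial j c) : ℤ[X][Y]) ≤ |(c : ℝ)| := by
  have h1 : (monomial i (monomial j c) : ℤ[X][Y]) = C (C c) * (C X) ^ j * Y ^ i := by
    rw [← C_mul_X_pow_eq_monomial, ← C_mul_X_pow_eq_monomial, map_mul, map_pow]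
  rw [h1]
  have h2 := sz_mul_le (C (C c) * (C X) ^ j : ℤ[X][Y]) (Y ^ i)
  have h3 := sz_mul_le (C (C c) : ℤ[X][Y]) ((C X) ^ j)
  have h4 : sz ((C X) ^ j : ℤ[X][Y]) ≤ 1 := by
    have := sz_pow_le (C X : ℤ[X][Y]) j
    rwa [sz_CX, one_pow] at this
  have h5 : sz (Y ^ i : ℤ[X][Y]) ≤ 1 := by
    have := sz_pow_le (Y : ℤ[X][Y]) i
    rwa [sz_Y, one_pow] at this
  have h6 : (0 : ℝ) ≤ |(c : ℝ)| := abs_nonneg _
  rw [sz_C_C] at h3
  have h7 : sz (C (C c) * (C X) ^ j : ℤ[X][Y]) ≤ |(c : ℝ)| := by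
    refine h3.trans ?_
    nlinarith [sz_nonneg ((C X) ^ j : ℤ[X][Y])]
  have h8 := sz_nonneg (C (C c) * (C X) ^ j : ℤ[X][Y])
  have h9 := sz_nonneg (Y ^ i : ℤ[X][Y])
  nlinarith

private theorem Sieg_bv_sz (a b : ℕ) (c : ℕ → ℕ → ℤ) {V : ℝ}
    (hc : ∀ i j, |((c i j : ℤ) : ℝ)| ≤ V) : sz (Sieg_bv a b c) ≤ a * b * V := by
  unfold Sieg_bv
  refine (sz_sum_le _ _).trans ?_
  have h1 : ∀ i ∈ Finset.range a,
      sz (∑ j ∈ Finset.range b, monomial i (monomial j (c i j)) : ℤ[X][Y]) ≤ b * V := by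
    intro i _
    refine (sz_sum_le _ _).trans ?_
    have h2 : ∀ j ∈ Finset.range b, sz (monomial i (monomial j (c i j)) : ℤ[X][Y]) ≤ V :=
      fun j _ => (Sieg_sz_mono i j _).trans (hc i j)
    have h3 := Finset.sum_le_card_nsmul _ _ _ h2
    rwa [Finset.card_range, nsmul_eq_mul] at h3
  have h4 := Finset.sum_le_card_nsmul _ _ _ h1
  rw [Finset.card_range, nsmul_eq_mul] at h4
  linarith

/-- The final numerical estimate. -/
private theorem Sieg_num {D E p M : ℕ} {A : ℝ} (hD : 1 ≤ D) (hA : 1 ≤ A) (hDp : D ≤ p)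
    (hMp : M < p) :
    (D : ℝ) * (M + D) * ((D : ℝ) * M * ((((D * M : ℕ) : ℝ) * (2 * A) ^ (2 * p)) ^ E *
      (2 * A) ^ (2 * p))) ≤ (4 * D * A) ^ ((4 * E + 4) * p) := by
  have hD1 : (1 : ℝ) ≤ D := by exact_mod_cast hD
  have hp1 : 1 ≤ p := hD.trans hDp
  have hp2 : ∀ n : ℕ, 1 ≤ n → 2 * n ≤ 2 ^ n := by
    intro n hn
    induction n, hn using Nat.le_induction with
    | base => norm_num
    | succ n hn ih =>
      rw [pow_succ]
      omega
  have h2p : (2 : ℝ) * p ≤ 2 ^ p := by exact_mod_cast hp2 p hp1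
  have hMp' : (M : ℝ) ≤ p := by exact_mod_cast hMp.le
  have hDp' : (D : ℝ) ≤ p := by exact_mod_cast hDp
  have hM0 : (0 : ℝ) ≤ M := Nat.cast_nonneg M
  have hp0 : (0 : ℝ) ≤ p := Nat.cast_nonneg p
  have hDD : (D : ℝ) ≤ (D : ℝ) ^ p := by
    calc (D : ℝ) = (D : ℝ) ^ 1 := (pow_one _).symm
      _ ≤ (D : ℝ) ^ p := pow_le_pow_right₀ hD1 hp1
  have hb1 : (1 : ℝ) ≤ 4 * D * A := by nlinarith
  have hA0 : (0 : ℝ) < A := by linarith
  -- the base
  have k1 : (D : ℝ) * M * (2 * A) ^ (2 * p) ≤ (4 * D * A) ^ (2 * p) := by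
    have e1 : (4 * (D : ℝ) * A) ^ (2 * p) = (D : ℝ) ^ (2 * p) * (2 ^ (2 * p) * (2 * A) ^ (2 * p)) := by
      rw [← mul_pow, ← mul_pow]
      ring_nf
    rw [e1]
    have e2 : (D : ℝ) * M ≤ (D : ℝ) ^ (2 * p) * 2 ^ (2 * p) := by
      have e3 : (D : ℝ) ≤ (D : ℝ) ^ (2 * p) :=
        hDD.trans (pow_le_pow_right₀ hD1 (by omega))
      have e4 : (M : ℝ) ≤ 2 ^ (2 * p) := by
        have : (2 : ℝ) ^ p ≤ 2 ^ (2 * p) := pow_le_pow_right₀ (by norm_num) (by omega)
        linarith
      exact mul_le_mul e3 e4 hM0 (by positivity)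
    have e5 : (0 : ℝ) ≤ (2 * A) ^ (2 * p) := by positivity
    calc (D : ℝ) * M * (2 * A) ^ (2 * p) ≤ (D : ℝ) ^ (2 * p) * 2 ^ (2 * p) * (2 * A) ^ (2 * p) :=
          mul_le_mul_of_nonneg_right e2 e5
      _ = _ := by ring
  have k2 : (D : ℝ) * (M + D) ≤ (4 * D * A) ^ (2 * p * (E + 1)) := by
    have e1 : (M : ℝ) + D ≤ 2 ^ p := by linarith
    have e2 : (D : ℝ) * (M + D) ≤ (D : ℝ) ^ p * 2 ^ p :=
      mul_le_mul hDD e1 (by linarith) (by positivity)
    refine e2.trans ?_
    rw [← mul_pow]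
    calc ((D : ℝ) * 2) ^ p ≤ (4 * D * A) ^ p := by
          apply pow_le_pow_left₀ (by positivity)
          nlinarith
      _ ≤ (4 * D * A) ^ (2 * p * (E + 1)) := by
          apply pow_le_pow_right₀ hb1
          nlinarith [Nat.zero_le (p * E)]
  have k3 : (D : ℝ) * M * ((((D * M : ℕ) : ℝ) * (2 * A) ^ (2 * p)) ^ E * (2 * A) ^ (2 * p)) ≤
      (4 * D * A) ^ (2 * p * (E + 1)) := by
    have e1 : (D : ℝ) * M * ((((D * M : ℕ) : ℝ) * (2 * A) ^ (2 * p)) ^ E * (2 * A) ^ (2 * p)) =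
        ((D : ℝ) * M * (2 * A) ^ (2 * p)) ^ (E + 1) := by
      push_cast
      ring
    rw [e1, pow_mul (4 * (D : ℝ) * A) (2 * p) (E + 1)]
    exact pow_le_pow_left₀ (by positivity) k1 _
  calc _ ≤ (4 * D * A) ^ (2 * p * (E + 1)) * (4 * D * A) ^ (2 * p * (E + 1)) :=
        mul_le_mul k2 k3 (by positivity) (by positivity)
    _ = (4 * D * A) ^ ((4 * E + 4) * p) := by
        rw [← pow_add]
        congr 1
        ring

theorem siegel_rel {D E : ℕ} (hD : 1 ≤ D) {G : ℤ[X][Y]} (hG : G.Monic) (hGD : G.natDegree = D)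
    (hTD : TD G D) {A : ℝ} (hA : 1 ≤ A) (hGA : sz G ≤ A) {p M : ℕ} (hDp : D ≤ p) (hMp : M < p)
    (hpM : p < 2 * M) (hE : p - M ≤ E * (2 * M - p)) :
    ∃ r : Fin 3 → ℤ[X][Y], G ∣ ∑ i, mon ℤ p i * r i ∧ (∀ i, TD (r i) (M + D)) ∧
      ¬ G ∣ r 1 ∧ ∀ i, sz (r i) ≤ (4 * D * A) ^ ((4 * E + 4) * p) := by
  have hG0 : G ≠ 0 := hG.ne_zero
  have hGD1 : 1 ≤ G.natDegree := by rw [hGD]; exact hD
  have hTD' : TD G G.natDegree := by rw [hGD]; exact hTD
  set R : ℕ → ℤ[X][Y] := fun n => Y ^ n %ₘ G with hR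
  set B : ℝ := (2 * A) ^ (2 * p) with hB
  have h2A : (1 : ℝ) ≤ 2 * A := by linarith
  have hB1 : 1 ≤ B := one_le_pow₀ h2A
  have hRB : ∀ i, i < D → sz (R (p + i)) ≤ B := by
    intro i hi
    refine (sz_pow_mod hG hGD1 hA hGA (p + i)).trans ?_
    exact pow_le_pow_right₀ h2A (by omega)
  have hRdeg : ∀ n i, D ≤ i → (R n).coeff i = 0 := by
    intro n i hi
    refine coeff_eq_zero_of_degree_lt ?_
    refine (degree_modByMonic_lt _ hG).trans_le ?_
    rw [degree_eq_natDegree hG0, hGD]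
    exact_mod_cast hi
  have hRTD : ∀ n, TD (R n) n := by
    intro n
    refine TD_modByMonic hG hTD' ?_
    have := TD_pow (TD_Y (R := ℤ)) n
    rwa [mul_one] at this
  -- the linear system
  have hcard : Fintype.card (Fin D × Fin (p - M)) < Fintype.card (Fin D × Fin M) := by
    simp only [Fintype.card_prod, Fintype.card_fin]
    exact Nat.mul_lt_mul_of_pos_left (by omega) (by omega)
  have hcardE : Fintype.card (Fin D × Fin (p - M)) ≤
      E * (Fintype.card (Fin D × Fin M) - Fintype.card (Fin D × Fin (p - M))) := by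
    simp only [Fintype.card_prod, Fintype.card_fin]
    rw [← Nat.mul_sub]
    have h1 : M - (p - M) = 2 * M - p := by omega
    rw [h1]
    calc D * (p - M) ≤ D * (E * (2 * M - p)) := Nat.mul_le_mul_left _ hE
      _ = E * (D * (2 * M - p)) := by ring
  obtain ⟨ξ, hξ0, hξ1, hξ2⟩ := siegel_gen (Fin D × Fin (p - M)) (Fin D × Fin M)
    (fun kl ij => ((R (p + ij.1)).coeff kl.1).coeff (M + kl.2 - ij.2)) E hcard hcardE B hB1
    (fun kl ij => (abs_coeff_le _ _ _).trans (hRB _ ij.1.2))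
  set V : ℝ := (Fintype.card (Fin D × Fin M) * B) ^ E with hV
  have hV' : V = (((D * M : ℕ) : ℝ) * (2 * A) ^ (2 * p)) ^ E := by
    rw [hV, hB]
    simp only [Fintype.card_prod, Fintype.card_fin]
  have hV0 : 0 ≤ V := by
    rw [hV']
    positivity
  set c : ℕ → ℕ → ℤ := fun i j => if h : i < D ∧ j < M then ξ (⟨i, h.1⟩, ⟨j, h.2⟩) else 0 with hc
  have hcV : ∀ i j, |((c i j : ℤ) : ℝ)| ≤ V := by
    intro i j
    simp only [hc]
    split_ifs with h
    · exact hξ2 _
    · simpa using hV0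
  set v : ℤ[X][Y] := Sieg_bv D M c with hv
  set W : ℤ[X][Y] := ∑ i ∈ Finset.range D, ∑ j ∈ Finset.range M,
    C (monomial j (c i j)) * R (p + i) with hW
  -- the coefficients of `W`
  have hWTD : TD W (p + M + D - 2) := by
    refine TD_sum _ fun i hi => TD_sum _ fun j hj => ?_
    rw [Finset.mem_range] at hi hj
    have h1 : TD (C (monomial j (c i j)) : ℤ[X][Y]) j := by
      intro a b hab
      rw [coeff_C] at hab
      by_cases ha : a = 0
      · rw [if_pos ha, coeff_monomial] at hab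
        by_cases hb : j = b
        · omega
        · rw [if_neg hb] at hab
          exact absurd rfl hab
      · rw [if_neg ha, coeff_zero] at hab
        exact absurd rfl hab
    exact TD_mono (TD_mul h1 (hRTD (p + i))) (by omega)
  have hWdeg : ∀ k, D ≤ k → W.coeff k = 0 := by
    intro k hk
    rw [hW, finsetSum_coeff]
    refine Finset.sum_eq_zero fun i _ => ?_
    rw [finsetSum_coeff]
    refine Finset.sum_eq_zero fun j _ => ?_
    rw [coeff_C_mul, hRdeg _ _ hk, mul_zero]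
  have hWmid : ∀ k l, M ≤ l → l < p → (W.coeff k).coeff l = 0 := by
    intro k l hl1 hl2
    rcases Nat.lt_or_ge k D with hk | hk
    swap
    · rw [hWdeg k hk, coeff_zero]
    have h1 := congrFun hξ1 (⟨k, hk⟩, ⟨l - M, by omega⟩)
    simp only [Matrix.mulVec, dotProduct, Pi.zero_apply] at h1
    rw [Fintype.sum_prod_type] at h1
    have h2 : (W.coeff k).coeff l = ∑ i ∈ Finset.range D, ∑ j ∈ Finset.range M,
        c i j * ((R (p + i)).coeff k).coeff (l - j) := by
      rw [hW, finsetSum_coeff, finsetSum_coeff]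
      refine Finset.sum_congr rfl fun i _ => ?_
      rw [finsetSum_coeff, finsetSum_coeff]
      refine Finset.sum_congr rfl fun j hj => ?_
      rw [Finset.mem_range] at hj
      rw [coeff_C_mul]
      obtain ⟨t, rfl⟩ : ∃ t, l = t + j := ⟨l - j, by omega⟩
      rw [coeff_monomial_mul]
      congr 2
      omega
    rw [h2, ← h1, Finset.sum_range]
    refine Finset.sum_congr rfl fun i _ => ?_
    rw [Finset.sum_range]
    refine Finset.sum_congr rfl fun j _ => ?_
    have h3 : c i j = ξ (i, j) := by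
      simp only [hc]
      rw [dif_pos ⟨i.2, j.2⟩]
    have h4 : M + (l - M) - (j : ℕ) = l - j := by omega
    rw [h3, h4, mul_comm]
  -- the decomposition
  set w : ℤ[X][Y] := Sieg_bv D M (fun k l => (W.coeff k).coeff l) with hw
  set u : ℤ[X][Y] := Sieg_bv D (M + D) (fun k l => (W.coeff k).coeff (l + p)) with hu
  have hdec : W = (C X) ^ p * u + w := by
    ext k l
    rw [coeff_add, coeff_add, hw, Sieg_bv_coeff, ← map_pow, coeff_C_mul]
    rcases Nat.lt_or_ge k D with hk | hk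
    swap
    · rw [hWdeg k hk, coeff_zero, if_neg (by omega), add_zero]
      rcases Nat.lt_or_ge l p with hl | hl
      · rw [coeff_X_pow_mul', if_neg (by omega)]
      · rw [coeff_X_pow_mul', if_pos hl, hu, Sieg_bv_coeff, if_neg (by omega)]
    rcases Nat.lt_or_ge l p with hl | hl
    · rw [coeff_X_pow_mul', if_neg (by omega), zero_add]
      rcases Nat.lt_or_ge l M with hl' | hl'
      · rw [if_pos ⟨hk, hl'⟩]
      · rw [if_neg (by omega), hWmid k l hl' hl]
    · rw [coeff_X_pow_mul', if_pos hl, hu, Sieg_bv_coeff, if_neg (show ¬ (k < D ∧ l < M) by omega),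
        add_zero]
      rcases Nat.lt_or_ge (l - p) (M + D) with hl' | hl'
      · rw [if_pos ⟨hk, hl'⟩, Nat.sub_add_cancel hl]
      · rw [if_neg (by omega)]
        by_contra hne
        have := hWTD k l hne
        omega
  have hszW : sz W ≤ D * M * (V * B) := by
    rw [hW]
    refine (sz_sum_le _ _).trans ?_
    have h1 : ∀ i ∈ Finset.range D,
        sz (∑ j ∈ Finset.range M, C (monomial j (c i j)) * R (p + i)) ≤ M * (V * B) := by
      intro i hi
      rw [Finset.mem_range] at hi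
      refine (sz_sum_le _ _).trans ?_
      have h2 : ∀ j ∈ Finset.range M, sz (C (monomial j (c i j)) * R (p + i)) ≤ V * B := by
        intro j _
        refine (sz_mul_le _ _).trans ?_
        have h3 : sz (C (monomial j (c i j)) : ℤ[X][Y]) ≤ V := by
          have h4 : (C (monomial j (c i j)) : ℤ[X][Y]) = monomial 0 (monomial j (c i j)) := rfl
          rw [h4]
          exact (Sieg_sz_mono 0 j _).trans (hcV i j)
        exact mul_le_mul h3 (hRB i hi) (sz_nonneg _) hV0
      have h5 := Finset.sum_le_card_nsmul _ _ _ h2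
      rwa [Finset.card_range, nsmul_eq_mul] at h5
    have h6 := Finset.sum_le_card_nsmul _ _ _ h1
    rw [Finset.card_range, nsmul_eq_mul] at h6
    linarith
  have hS0 : (0 : ℝ) ≤ D * M * (V * B) := by positivity
  have hD0 : (1 : ℝ) ≤ D := by exact_mod_cast hD
  have hM0 : (0 : ℝ) ≤ M := Nat.cast_nonneg M
  have hM1 : (1 : ℝ) ≤ M := by
    have : 1 ≤ M := by omega
    exact_mod_cast this
  have hszu : sz u ≤ D * (M + D) * (D * M * (V * B)) := by
    have h1 := Sieg_bv_sz D (M + D) (fun k l => (W.coeff k).coeff (l + p))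
      (V := D * M * (V * B)) (fun k l => (abs_coeff_le W k (l + p)).trans hszW)
    push_cast at h1
    exact h1
  have hszw : sz w ≤ D * (M + D) * (D * M * (V * B)) := by
    have h1 := Sieg_bv_sz D M (fun k l => (W.coeff k).coeff l)
      (V := D * M * (V * B)) (fun k l => (abs_coeff_le W k l).trans hszW)
    refine h1.trans ?_
    refine mul_le_mul_of_nonneg_right ?_ hS0
    nlinarith
  have hszv : sz v ≤ D * (M + D) * (D * M * (V * B)) := by
    have h1 := Sieg_bv_sz D M c hcV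
    refine h1.trans ?_
    have h2 : (D : ℝ) * M * V ≤ D * M * (V * B) := by
      have : V ≤ V * B := le_mul_of_one_le_right hV0 hB1
      exact mul_le_mul_of_nonneg_left this (by positivity)
    have h3 : (1 : ℝ) ≤ D * (M + D) := by nlinarith
    calc (D : ℝ) * M * V ≤ D * M * (V * B) := h2
      _ ≤ D * (M + D) * (D * M * (V * B)) := le_mul_of_one_le_left hS0 h3
  have hfin : D * (M + D) * (D * M * (V * B)) ≤ (4 * D * A) ^ ((4 * E + 4) * p) := by
    rw [hV', hB]
    exact Sieg_num hD hA hDp hMp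
  refine ⟨![-u, v, -w], ?_, ?_, ?_, ?_⟩
  · have h1 : ∑ i, mon ℤ p i * (![-u, v, -w] : Fin 3 → ℤ[X][Y]) i =
        Y ^ p * v - W := by
      rw [Fin.sum_univ_three, hdec]
      simp only [mon, Matrix.cons_val_zero, Matrix.cons_val_one, Matrix.cons_val]
      ring
    rw [h1]
    have h2 : Y ^ p * v - W = ∑ i ∈ Finset.range D, ∑ j ∈ Finset.range M,
        C (monomial j (c i j)) * (Y ^ (p + i) - R (p + i)) := by
      rw [hv, hW]
      unfold Sieg_bv
      rw [Finset.mul_sum, ← Finset.sum_sub_distrib]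
      refine Finset.sum_congr rfl fun i _ => ?_
      rw [Finset.mul_sum, ← Finset.sum_sub_distrib]
      refine Finset.sum_congr rfl fun j _ => ?_
      rw [← C_mul_X_pow_eq_monomial, pow_add]
      ring
    rw [h2]
    refine Finset.dvd_sum fun i _ => Finset.dvd_sum fun j _ => Dvd.dvd.mul_left ?_ _
    refine ⟨Y ^ (p + i) /ₘ G, ?_⟩
    have h3 := modByMonic_add_div (Y ^ (p + i) : ℤ[X][Y]) G
    simp only [hR]
    linear_combination -h3
  · intro i
    fin_cases i
    · refine TD_neg ?_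
      intro k l hkl
      rw [hu, Sieg_bv_coeff] at hkl
      by_cases h1 : k < D ∧ l < M + D
      · rw [if_pos h1] at hkl
        have := hWTD k (l + p) hkl
        omega
      · rw [if_neg h1] at hkl
        exact absurd rfl hkl
    · exact Sieg_bv_TD D M c
    · exact TD_neg (Sieg_bv_TD D M _)
  · change ¬ G ∣ v
    have hv0 : v ≠ 0 := by
      intro h0
      apply hξ0
      funext ij
      obtain ⟨i, j⟩ := ij
      have h1 : (v.coeff i).coeff j = 0 := by rw [h0]; simp
      rw [hv, Sieg_bv_coeff, if_pos ⟨i.2, j.2⟩] at h1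
      simp only [hc] at h1
      rw [dif_pos ⟨i.2, j.2⟩] at h1
      exact h1
    refine hG.not_dvd_of_degree_lt hv0 ?_
    rw [degree_eq_natDegree hG0, hGD, degree_lt_iff_coeff_zero]
    intro k hk
    ext l
    rw [hv, Sieg_bv_coeff, if_neg (by omega), coeff_zero]
  · intro i
    fin_cases i
    · change sz (-u) ≤ _
      rw [sz_neg]
      exact hszu.trans hfin
    · exact hszv.trans hfin
    · change sz (-w) ≤ _
      rw [sz_neg]
      exact hszw.trans hfin

end H9CV
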