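import Pool.Agent.H9.CV.Wro
import Pool.Agent.H9.CV.Degen
import Pool.Agent.H9.CV.Sieg
import Pool.Agent.H9.CV.Irr
import Pool.Agent.H9.CV.IrrK
import Pool.Agent.H9.CV.Elim

set_option autoImplicit false

/-!
Project CV (MP_ef6a16_nt, helper9), module Core (done by helper9): the height of a point `(a, b)` on a curve `G = 0` in good
position which satisfies a relation `φ_0 a ^ p + φ_1 b ^ p + φ_2 = 0`.

`q ≡ p mod 2`, `q ≈ p / (32 d D ^ 2)`, `M = (p + q) / 2`, `E = 32 d D ^ 2`, `e = q + 3 D`; `siegel_rel`, `exists_factor_K`,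
`elim_res` and `not_dvd_K`; if all `cross` vanish for `k < N` with `N = D (e + D) + 2`, `all_wronsk_dvd` and `degen` give a
contradiction; otherwise `height_step` with `n = M + D + k D`, `p - n ≥ p / 4`, `8 d k ≤ p`.
-/

namespace H9CV

open Polynomial NumberField Height
open scoped Polynomial.Bivariate

/-- choice of the parameters -/
theorem core_arith {d D p : ℕ} (hd : 1 ≤ d) (hD : 1 ≤ D) (hp : 64 * (d + 1) * D ^ 3 ≤ p) :
    ∃ q M : ℕ, 2 * M = p + q ∧ 1 ≤ q ∧ q + 2 * D < p ∧ D ≤ p ∧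
      p - M ≤ (32 * d * D ^ 2) * (2 * M - p) ∧
      ∀ h k : ℕ, h ≤ D → k < h * (q + 3 * D + h) + 2 →
        4 * (M + D + k * D) ≤ 3 * p ∧ 8 * d * k ≤ p := by
  obtain ⟨q0, hq0⟩ : ∃ q0, q0 = p / (32 * d * D ^ 2) := ⟨_, rfl⟩
  have hD2 : 1 ≤ D ^ 2 := Nat.one_le_pow _ _ hD
  have hD3 : 1 ≤ D ^ 3 := Nat.one_le_pow _ _ hD
  have hDD2 : D ≤ D ^ 2 := by nlinarith
  have hD23 : D ^ 2 ≤ D ^ 3 := by
    rw [pow_succ D 2]
    nlinarith
  have hpos : 0 < 32 * d * D ^ 2 := by positivity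
  have hle : 32 * d * D ^ 2 * q0 ≤ p := by
    rw [hq0]
    exact Nat.mul_div_le _ _
  have hlt : p < 32 * d * D ^ 2 * (q0 + 1) := by
    rw [hq0]
    exact Nat.lt_mul_div_succ _ hpos
  have hdD : d * D ^ 2 ≤ d * D ^ 3 := Nat.mul_le_mul_left _ hD23
  have hp' : 64 * (d * D ^ 3) + 64 * D ^ 3 ≤ p := by
    calc 64 * (d * D ^ 3) + 64 * D ^ 3 = 64 * (d + 1) * D ^ 3 := by ring
      _ ≤ p := hp
  have hq1 : 1 ≤ q0 := by
    rw [hq0, Nat.one_le_div_iff hpos]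
    nlinarith
  -- q ∈ {q0, q0 + 1} with the parity of p
  obtain ⟨q, M, hM, hqa, hqb⟩ : ∃ q M : ℕ, 2 * M = p + q ∧ q0 ≤ q ∧ q ≤ q0 + 1 := by
    rcases Nat.even_or_odd (p + q0) with h | h
    · obtain ⟨m, hm⟩ := h
      exact ⟨q0, m, by omega, le_rfl, by omega⟩
    · obtain ⟨m, hm⟩ := h
      exact ⟨q0 + 1, m + 1, by omega, by omega, le_rfl⟩
  have hx : 32 * (d * (D ^ 2 * q)) ≤ p + 32 * (d * D ^ 2) := by
    calc 32 * (d * (D ^ 2 * q)) ≤ 32 * (d * (D ^ 2 * (q0 + 1))) := by gcongr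
      _ = 32 * d * D ^ 2 * q0 + 32 * (d * D ^ 2) := by ring
      _ ≤ _ := by omega
  have hy : D ^ 2 * q ≤ d * (D ^ 2 * q) := Nat.le_mul_of_pos_left _ hd
  have hz : q ≤ D ^ 2 * q := Nat.le_mul_of_pos_left _ hD2
  have hdp : D ^ 3 ≤ d * D ^ 3 := Nat.le_mul_of_pos_left _ hd
  refine ⟨q, M, hM, by omega, by omega, by omega, ?_, ?_⟩
  · have h1 : 2 * M - p = q := by omega
    rw [h1]
    have h2 : p ≤ 2 * (32 * d * D ^ 2 * q) := by
      calc p ≤ 32 * d * D ^ 2 * (q0 + 1) := hlt.le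
        _ ≤ 32 * d * D ^ 2 * (2 * q) := by
          gcongr
          omega
        _ = _ := by ring
    omega
  · intro h k hh hk
    have h1 : h * (q + 3 * D + h) ≤ D * (q + 4 * D) := by
      calc h * (q + 3 * D + h) ≤ D * (q + 3 * D + D) := by gcongr
        _ = _ := by ring
    have hk1 : k ≤ D * (q + 4 * D) + 1 := by omega
    have hk2 : k * D ≤ D ^ 2 * q + 4 * D ^ 3 + D := by
      calc k * D ≤ (D * (q + 4 * D) + 1) * D := by gcongr
        _ = _ := by ring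
    constructor
    · omega
    · have h3 : 8 * d * k ≤ 8 * (d * (D * q)) + 32 * (d * D ^ 2) + 8 * d := by
        calc 8 * d * k ≤ 8 * d * (D * (q + 4 * D) + 1) := by gcongr
          _ = _ := by ring
      have h4 : d * (D * q) ≤ d * (D ^ 2 * q) := by gcongr
      have h5 : d ≤ d * D ^ 2 := Nat.le_mul_of_pos_right _ hD2
      omega

theorem core_num1 {Hh A B L : ℝ} {d p m k E : ℕ} (hA : 1 ≤ A) (hAB : A ≤ B) (hB : 2 ≤ B)
    (hL : 1 ≤ L) (hLB : L ≤ p * B) (hH : 1 ≤ Hh) (hp : 1 ≤ p) (h1 : p ≤ 4 * m)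
    (h8 : 8 * d * k ≤ p)
    (h : Hh ^ m ≤ (2 * (L ^ k * B ^ ((4 * E + 4) * p)) * A ^ p) ^ d) :
    Hh ^ 2 ≤ p * B ^ (1 + 8 * d * (4 * E + 6)) := by
  have hB0 : 0 ≤ B := by linarith
  have hA0 : 0 ≤ A := by linarith
  have hL0 : 0 ≤ L := by linarith
  have hH0 : 0 ≤ Hh := by linarith
  have s1 : (Hh ^ 2) ^ p ≤ (Hh ^ m) ^ 8 := by
    rw [← pow_mul, ← pow_mul]
    exact pow_le_pow_right₀ hH (by omega)
  have s2 : (Hh ^ m) ^ 8 ≤ ((2 * (L ^ k * B ^ ((4 * E + 4) * p)) * A ^ p) ^ d) ^ 8 :=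
    pow_le_pow_left₀ (by positivity) h 8
  have s3 : ((2 * (L ^ k * B ^ ((4 * E + 4) * p)) * A ^ p) ^ d) ^ 8 =
      2 ^ (8 * d) * L ^ (8 * d * k) * (B ^ (4 * E + 4) * A) ^ (8 * d * p) := by
    ring
  have s4 : 2 ^ (8 * d) * L ^ (8 * d * k) * (B ^ (4 * E + 4) * A) ^ (8 * d * p) ≤
      2 ^ (8 * d * p) * L ^ p * (B ^ (4 * E + 4) * A) ^ (8 * d * p) := by
    have t1 : (2 : ℝ) ^ (8 * d) ≤ 2 ^ (8 * d * p) :=
      pow_le_pow_right₀ (by norm_num) (Nat.le_mul_of_pos_right _ hp)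
    have t2 : L ^ (8 * d * k) ≤ L ^ p := pow_le_pow_right₀ hL h8
    gcongr
  have s5 : 2 ^ (8 * d * p) * L ^ p * (B ^ (4 * E + 4) * A) ^ (8 * d * p) =
      (L * (2 * A * B ^ (4 * E + 4)) ^ (8 * d)) ^ p := by
    ring
  have s6 : L * (2 * A * B ^ (4 * E + 4)) ^ (8 * d) ≤ p * B ^ (1 + 8 * d * (4 * E + 6)) := by
    calc L * (2 * A * B ^ (4 * E + 4)) ^ (8 * d)
        ≤ (p * B) * (B * B * B ^ (4 * E + 4)) ^ (8 * d) := by gcongr
      _ = p * B ^ (1 + 8 * d * (4 * E + 6)) := by ring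
  have s7 : (L * (2 * A * B ^ (4 * E + 4)) ^ (8 * d)) ^ p ≤
      (p * B ^ (1 + 8 * d * (4 * E + 6))) ^ p :=
    pow_le_pow_left₀ (by positivity) s6 p
  have key : (Hh ^ 2) ^ p ≤ (p * B ^ (1 + 8 * d * (4 * E + 6))) ^ p := by
    rw [s3] at s2
    rw [s5] at s4
    exact s1.trans (s2.trans (s4.trans s7))
  have hpos : 0 ≤ (p : ℝ) * B ^ (1 + 8 * d * (4 * E + 6)) := by positivity
  exact (pow_le_pow_iff_left₀ (by positivity) hpos (by omega)).mp key

theorem core_num {Hh A s : ℝ} {D d p n k E : ℕ} (hD : 1 ≤ D) (hA : 1 ≤ A) (hs0 : 0 ≤ s)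
    (hs : s ≤ A) (hH : 1 ≤ Hh) (hp : 1 ≤ p) (h1 : p ≤ 4 * (p - n)) (h2 : n ≤ p)
    (h8 : 8 * d * k ≤ p)
    (h : Hh ^ (p - n) ≤ (2 * ((s * (D * (2 * n + p))) ^ k * (4 * D * A) ^ ((4 * E + 4) * p)) *
      A ^ p) ^ d) :
    Hh ^ 2 ≤ p * (4 * D * A) ^ (1 + 8 * d * (4 * E + 6)) := by
  have hD' : (1 : ℝ) ≤ D := by exact_mod_cast hD
  have hp' : (1 : ℝ) ≤ p := by exact_mod_cast hp
  have hnp : (n : ℝ) ≤ p := by exact_mod_cast h2
  have hn0 : (0 : ℝ) ≤ n := Nat.cast_nonneg n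
  have hDA : 1 ≤ (D : ℝ) * A := one_le_mul_of_one_le_of_one_le hD' hA
  have hA0 : (0 : ℝ) ≤ A := by linarith
  have hsL : s * (D * (2 * n + p)) ≤ 3 * (D * A) * p := by
    calc s * (D * (2 * n + p)) ≤ A * (D * (2 * p + p)) := by gcongr
      _ = 3 * (D * A) * p := by ring
  have hs' : 0 ≤ s * (D * (2 * n + p)) := by positivity
  refine core_num1 (L := 3 * (D * A) * p) (k := k) hA (by nlinarith) (by nlinarith) (by nlinarith)
    (by nlinarith) hH hp h1 h8 (h.trans ?_)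
  gcongr

theorem core_evZ_mon {K : Type*} [Field K] (a b : K) (p : ℕ) (i : Fin 3) :
    evZ a b (mon ℤ p i) = ![a ^ p, b ^ p, 1] i := by
  unfold evZ evA
  rw [up_mon]
  fin_cases i
  · simp [mon]
  · simp [mon]
  · simp [mon]

theorem core.{u} (d D : ℕ) (hD : 1 ≤ D) : ∃ (c : ℝ) (N p0 : ℕ), 1 ≤ c ∧
    ∀ G : ℤ[X][Y], G.Monic → G.natDegree = D → TD G D → Irreducible (up ℚ G) →
      (G.coeff 0).coeff 0 ≠ 0 → (G.coeff 0).coeff D ≠ 0 → ∀ A : ℝ, 1 ≤ A → sz G ≤ A →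
      ∀ (K : Type u) [Field K] [NumberField K], Module.finrank ℚ K = d → ∀ (p : ℕ) (a b : K), p0 ≤ p →
        a ≠ 0 → b ≠ 0 → evZ a b G = 0 → evZ a b (dY G) ≠ 0 → ∀ φ : Fin 3 → ℤ, (∀ i, φ i ≠ 0) →
        (∀ i, |((φ i : ℤ) : ℝ)| ≤ A ^ p) →
        (φ 0 : K) * a ^ p + (φ 1 : K) * b ^ p + (φ 2 : K) = 0 →
        mulHeight ![a, b, 1] ^ 2 ≤ p * (c * A) ^ N := by
  obtain ⟨E, hE⟩ : ∃ E, E = 32 * d * D ^ 2 := ⟨_, rfl⟩
  refine ⟨4 * D, 1 + 8 * d * (4 * E + 6), 64 * (d + 1) * D ^ 3, ?_, ?_⟩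
  · have : (1 : ℝ) ≤ D := by exact_mod_cast hD
    linarith
  intro G hGm hGD hTD hirr hc0 hcD A hA hGA K _ _ hd p a b hp ha hb hPG hs φ hφ0 hφA hφP
  have hd1 : 1 ≤ d := by
    rw [← hd]
    exact Module.finrank_pos
  have hp1 : 1 ≤ p := by
    have : 1 ≤ 64 * (d + 1) * D ^ 3 := Nat.one_le_iff_ne_zero.mpr (by positivity)
    omega
  obtain ⟨q, M, hM, hq1, hqp, hDp, hEq, hk⟩ := core_arith hd1 hD hp
  obtain ⟨r, hrel, hrTD, hr1, hrsz⟩ := siegel_rel (E := E) hD hGm hGD hTD hA hGA (p := p) (M := M)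
    hDp (by omega) (by omega) (by rw [hE]; exact hEq)
  obtain ⟨H, hHG, hHm, hHirr, hHTD, hH1, hHD, hHc0, hHcD, hHP⟩ := exists_factor_K (K := K) hGm
    (by rw [hGD]; exact hTD) hc0 (by rw [hGD]; exact hcD) hPG
  rw [hGD] at hHD
  -- `H` does not divide `r 1`
  have hndvd : ¬ H ∣ up K (r 1) := by
    have h1 : ¬ up ℚ G ∣ up ℚ (r 1) := by
      intro hdv
      apply hr1
      have hinj : Function.Injective (mapRingHom (Int.castRingHom ℚ)) :=
        Polynomial.map_injective _ (RingHom.injective_int _)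
      exact (Polynomial.map_dvd_map _ hinj hGm).mp hdv
    obtain ⟨ρ, u, w, hρ, hrel', _⟩ := elim_res (A := max 1 (max (sz G) (sz (r 1)))) hTD (hrTD 1)
      hirr (by omega) h1 (le_max_left _ _) (le_max_of_le_right (le_max_left _ _))
      (le_max_of_le_right (le_max_right _ _))
    exact not_dvd_K hρ hrel' hHG hHm hH1
  have hrelK : H ∣ ∑ i, mon K p i * up K (r i) := by
    refine hHG.trans ?_
    have := map_dvd (up K) hrel
    rw [map_sum] at this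
    simpa only [map_mul, up_mon] using this
  have hsK : evA a b (dY (up K G)) ≠ 0 := by
    rw [← up_dY]
    exact hs
  -- some derived relation is independent of `φ`
  obtain ⟨k, hkN, hcr⟩ : ∃ k < H.natDegree * (q + 3 * D + H.natDegree) + 2,
      Pool.Agent.H93.cross (fun i => evA a b ((Del (up K G) p)^[k] (fun j => up K (r j)) i))
        (fun i => (φ i : K)) ≠ 0 := by
    by_contra hcon
    push Not at hcon
    have hW := all_wronsk_dvd (DG := D) hHG hHm hHirr hHTD hD (up_TD hTD) ha hb hHP hsK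
      (p := p) (n0 := M + D) (e := q + 3 * D) (fun i => up_TD (hrTD i)) hrelK (by omega)
      (φ := fun i => (φ i : K)) (fun i => by exact_mod_cast hφ0 i) hφP
      (N := H.natDegree * (q + 3 * D + H.natDegree) + 2) (by omega) hcon
    exact degen hHG hHm hHirr hHTD hHc0 hHcD ha hb hHP hsK (n0 := M + D) (by omega)
      (fun i => up_TD (hrTD i)) hrelK ⟨1, hndvd⟩ hW
  obtain ⟨hk1, hk2⟩ := hk _ k hHD hkN
  have hcr' : Pool.Agent.H93.cross (fun i => evZ a b ((Del G p)^[k] r i))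
      (fun i => (φ i : K)) ≠ 0 := by
    have : (fun i => evZ a b ((Del G p)^[k] r i)) =
        fun i => evA a b ((Del (up K G) p)^[k] (fun j => up K (r j)) i) := by
      funext i
      rw [← up_Del_iter]
      rfl
    rw [this]
    exact hcr
  have hrel2 : evZ a b ((Del G p)^[k] r 0) * a ^ p + evZ a b ((Del G p)^[k] r 1) * b ^ p +
      evZ a b ((Del G p)^[k] r 2) = 0 := by
    obtain ⟨t, ht⟩ := Del_dvd (dvd_refl G) hrel k
    have h1 : evZ a b (∑ i, mon ℤ p i * (Del G p)^[k] r i) = 0 := by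
      rw [ht]
      have : evZ a b (G * t) = evZ a b G * evZ a b t := by
        unfold evZ
        rw [map_mul, map_mul]
      rw [this, hPG, zero_mul]
    have h2 : evZ a b (∑ i, mon ℤ p i * (Del G p)^[k] r i) =
        ∑ i, evZ a b (mon ℤ p i) * evZ a b ((Del G p)^[k] r i) := by
      unfold evZ
      rw [map_sum, map_sum]
      simp only [map_mul]
    rw [h2, Fin.sum_univ_three, core_evZ_mon, core_evZ_mon, core_evZ_mon] at h1
    simp only [Matrix.cons_val_zero, Matrix.cons_val_one, Matrix.cons_val] at h1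
    linear_combination h1
  have hsz : ∀ i, sz ((Del G p)^[k] r i) ≤
      (sz G * (D * (2 * ((M + D : ℕ) + k * D) + p))) ^ k * (4 * D * A) ^ ((4 * E + 4) * p) :=
    fun i => sz_Del_iter_le hD hTD hrTD hrsz k i
  have hstep := height_step (K := K) ha (p := p) (n := M + D + k * D) (by omega) (φ := φ)
    (r := (Del G p)^[k] r) (fun i => TD_Del_iter hD hTD p hrTD k i) hsz hφA hφP hrel2 hcr'
  rw [hd] at hstep
  refine core_num (n := M + D + k * D) hD hA (sz_nonneg G) hGA (one_le_mulHeight _) hp1 (by omega)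
    (by omega) hk2 (by
      push_cast at hstep ⊢
      exact hstep)

end H9CV
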