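import Mathlib

set_option autoImplicit false

/-!
Project CV (MP_ef6a16_nt, helper9): Fermat points on plane curves. Definitions (complete).

Bivariate polynomials are `R[X][Y]`: the INNER variable `x = C X` is the first coordinate, the OUTER
variable `y = Y` (`= Polynomial.X`) the second one; `evalEval a b f = f(a, b)`.
`(f.coeff i).coeff j` is the coefficient of `x ^ j y ^ i`.
-/

namespace H9CV

open Polynomial NumberField
open scoped Polynomial.Bivariate

section Ring

variable {R : Type*} [CommRing R]

/-- `f` has total degree at most `n`: every monomial `x ^ j y ^ i` of `f` has `i + j ≤ n` -/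
def TD (f : R[X][Y]) (n : ℕ) : Prop := ∀ i j : ℕ, (f.coeff i).coeff j ≠ 0 → i + j ≤ n

/-- partial derivative with respect to the inner variable `x` -/
noncomputable def dX (f : R[X][Y]) : R[X][Y] := f.sum fun i a => monomial i (derivative a)

/-- partial derivative with respect to the outer variable `y` -/
noncomputable def dY (f : R[X][Y]) : R[X][Y] := derivative f

/-- the derivation `f ↦ x y (G_y f_x - G_x f_y)`; it kills `G` -/
noncomputable def DD (G f : R[X][Y]) : R[X][Y] := C X * Y * (dY G * dX f - dX G * dY f)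

/-- the vector of monomials `(x ^ p, y ^ p, 1)` -/
noncomputable def mon (R : Type*) [CommRing R] (p : ℕ) : Fin 3 → R[X][Y] := ![(C X) ^ p, Y ^ p, 1]

/-- the operator on triples with `DD G (mon p i * r i) = mon p i * Del G p r i` -/
noncomputable def Del (G : R[X][Y]) (p : ℕ) (r : Fin 3 → R[X][Y]) : Fin 3 → R[X][Y] :=
  ![DD G (r 0) + (p : R[X][Y]) * (Y * dY G * r 0),
    DD G (r 1) - (p : R[X][Y]) * (C X * dX G * r 1),
    DD G (r 2)]

theorem dX_coeff (f : R[X][Y]) (i : ℕ) : (dX f).coeff i = derivative (f.coeff i) := by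
  unfold dX Polynomial.sum
  rw [finsetSum_coeff]
  simp only [coeff_monomial]
  rw [Finset.sum_ite_eq']
  split_ifs with h
  · rfl
  · rw [notMem_support_iff.mp h]
    simp

theorem dX_add (f g : R[X][Y]) : dX (f + g) = dX f + dX g := by
  ext1 i
  simp [dX_coeff]

theorem dX_mul (f g : R[X][Y]) : dX (f * g) = f * dX g + g * dX f := by
  ext1 i
  rw [dX_coeff, coeff_mul, coeff_add, coeff_mul, mul_comm g, coeff_mul, derivative_sum,
    ← Finset.sum_add_distrib]
  refine Finset.sum_congr rfl fun x _ => ?_
  rw [dX_coeff, dX_coeff, derivative_mul]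
  ring

theorem dX_C (a : R[X]) : dX (C a : R[X][Y]) = C (derivative a) := by
  ext1 i
  rw [dX_coeff, coeff_C, coeff_C]
  split_ifs <;> simp

theorem dX_Y : dX (Y : R[X][Y]) = 0 := by
  ext1 i
  rw [dX_coeff, coeff_X]
  split_ifs <;> simp

theorem dX_smul (c : R) (f : R[X][Y]) : dX (c • f) = c • dX f := by
  ext1 i
  rw [dX_coeff, coeff_smul, coeff_smul, dX_coeff, derivative_smul]

theorem DD_add (G f g : R[X][Y]) : DD G (f + g) = DD G f + DD G g := by
  unfold DD dY
  rw [dX_add, derivative_add]
  ring

theorem DD_mul (G f g : R[X][Y]) : DD G (f * g) = f * DD G g + g * DD G f := by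
  unfold DD dY
  rw [dX_mul, derivative_mul]
  ring

theorem DD_self (G : R[X][Y]) : DD G G = 0 := by
  unfold DD
  ring

theorem DD_smul (G : R[X][Y]) (c : R) (f : R[X][Y]) : DD G (c • f) = c • DD G f := by
  unfold DD dY
  rw [dX_smul]
  have : derivative (c • f) = c • derivative f := derivative_smul c f
  rw [this]
  simp only [mul_smul_comm, ← smul_sub]

/-- if `H ∣ G` then the derivation `DD G` maps multiples of `H` to multiples of `H` -/
theorem DD_dvd {H G f : R[X][Y]} (hHG : H ∣ G) (h : H ∣ f) : H ∣ DD G f := by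
  obtain ⟨s, rfl⟩ := hHG
  obtain ⟨t, rfl⟩ := h
  refine ⟨DD (H * s) t + t * (C X * Y * (dY s * dX H - dX s * dY H)), ?_⟩
  rw [DD_mul]
  have h1 : DD (H * s) H = H * (C X * Y * (dY s * dX H - dX s * dY H)) := by
    unfold DD dY
    rw [dX_mul, derivative_mul]
    ring
  rw [h1]
  ring

end Ring

section Field

variable {K : Type*} [Field K]

/-- `DD G` as a `K`-derivation -/
noncomputable def DDer (G : K[X][Y]) : Derivation K K[X][Y] K[X][Y] where
  toFun := DD G
  map_add' := DD_add G
  map_smul' := fun c f => by
    simpa using DD_smul G c f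
  map_one_eq_zero' := by
    have h := DD_mul G 1 1
    simp only [one_mul] at h
    show DD G 1 = 0
    have h2 : DD G 1 + DD G 1 = DD G 1 := h.symm
    exact add_eq_left.mp h2
  leibniz' := fun f g => by
    show DD G (f * g) = f • DD G g + g • DD G f
    rw [DD_mul]
    rfl

theorem DDer_apply (G f : K[X][Y]) : DDer G f = DD G f := rfl

/-- evaluation at the point `(a, b)` as a `K`-algebra homomorphism -/
noncomputable def evA (a b : K) : K[X][Y] →ₐ[K] K := aevalAeval a b

/-- integral polynomials as polynomials over the field `K` -/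
noncomputable def up (K : Type*) [Field K] : ℤ[X][Y] →+* K[X][Y] :=
  mapRingHom (mapRingHom (Int.castRingHom K))

/-- the value of an integral polynomial at a point of `K ^ 2` -/
noncomputable def evZ (a b : K) (f : ℤ[X][Y]) : K := evA a b (up K f)

/-- coefficient vector of a bivariate polynomial, exponents at most `n` -/
noncomputable def cv (n : ℕ) (f : K[X][Y]) : Fin (n + 1) × Fin (n + 1) → K :=
  fun ij => (f.coeff ij.1).coeff ij.2

end Field

section Order

variable {F S : Type*} [Field F] [CommRing S] [Algebra F S]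

/-- `f` vanishes to order `n`: `ev (D ^ k f) = 0` for all `k < n` -/
def VO (D : Derivation F S S) (ev : S →ₐ[F] F) (n : ℕ) (f : S) : Prop :=
  ∀ k < n, ev ((⇑D)^[k] f) = 0

end Order

/-- the `ℓ¹` norm of the coefficients of an integral polynomial -/
noncomputable def sz (f : ℤ[X][Y]) : ℝ := f.sum fun _ a => a.sum fun _ c => |(c : ℝ)|

section NF

variable {K : Type*} [Field K] [NumberField K]

/-- the `ℓ¹` norm of the houses of the coefficients -/
noncomputable def szO (f : (𝓞 K)[X][Y]) : ℝ :=
  f.sum fun _ a => a.sum fun _ c => house (c : K)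

/-- the same polynomial over `K` -/
noncomputable def toK : (𝓞 K)[X][Y] →+* K[X][Y] :=
  mapRingHom (mapRingHom (algebraMap (𝓞 K) K))

end NF

end H9CV
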