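import Pool.Agent.H9.CV.Sz

set_option autoImplicit false

/-!
Project CV (MP_ef6a16_nt, helper9), module DelSz: growth of the sizes under the operator `Del`, and the relation with
the derivation.

* `DD_mon`: `DD G (x ^ p r) = x ^ p DD G r + r DD G (x ^ p)` and `DD G (x ^ p) = p x ^ p y G_y`,
  `DD G (y ^ p) = - p y ^ p x G_x`, `DD G 1 = 0` (`DD G x = x y G_y`, `DD G y = - x y G_x`; induction on `p` with
  `DD_mul`). `DD_mon_iter` by induction on `k` (`Function.iterate_succ_apply'`).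
* `Del_dvd`: if `H ∣ ∑ mon i * r i` then `H ∣ ∑ mon i * Del r i`, because the second sum is `DD G` of the first
  (`DD_add`, `DD_dvd` of Defs).
* `up_DD`, `up_Del_iter`: all operations commute with the ring homomorphism `up K` (`dX` by coefficients).
* `sz_Del_le`: `Del G p r 0 = DD G r₀ + p y G_y r₀`: `sz ≤ 2 D n A s + p D A s`; same for the others.
* `sz_Del_iter_le`: induction on `k`, with `TD_Del_iter`.
-/

namespace H9CV

open Polynomial
open scoped Polynomial.Bivariate

private theorem DelSz_one {R : Type*} [CommRing R] (G : R[X][Y]) : DD G 1 = 0 := by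
  have h := DD_mul G 1 1
  simp only [one_mul] at h
  have h2 : DD G 1 + DD G 1 = DD G 1 := h.symm
  exact add_eq_left.mp h2

private theorem DelSz_x {R : Type*} [CommRing R] (G : R[X][Y]) :
    DD G (C X) = C X * (Y * dY G) := by
  unfold DD
  have h1 : dX (C X : R[X][Y]) = 1 := by rw [dX_C, derivative_X, C_1]
  have h2 : dY (C X : R[X][Y]) = 0 := by
    unfold dY
    exact derivative_C
  rw [h1, h2]
  ring

private theorem DelSz_y {R : Type*} [CommRing R] (G : R[X][Y]) :
    DD G Y = -(Y * (C X * dX G)) := by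
  unfold DD
  have h2 : dY (Y : R[X][Y]) = 1 := by
    unfold dY
    exact derivative_X
  rw [dX_Y, h2]
  ring

private theorem DelSz_pow {R : Type*} [CommRing R] (G f g : R[X][Y]) (h : DD G f = f * g) (p : ℕ) :
    DD G (f ^ p) = (p : R[X][Y]) * (f ^ p * g) := by
  induction p with
  | zero => rw [pow_zero, DelSz_one]; simp
  | succ p ih =>
    rw [pow_succ, DD_mul, h, ih]
    push_cast
    ring

theorem DD_mon {R : Type*} [CommRing R] (G : R[X][Y]) (p : ℕ) (r : Fin 3 → R[X][Y]) (i : Fin 3) :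
    DD G (mon R p i * r i) = mon R p i * Del G p r i := by
  fin_cases i
  · change DD G ((C X) ^ p * r 0) =
      (C X) ^ p * (DD G (r 0) + (p : R[X][Y]) * (Y * dY G * r 0))
    rw [DD_mul, DelSz_pow G (C X) (Y * dY G) (DelSz_x G) p]
    ring
  · change DD G (Y ^ p * r 1) =
      Y ^ p * (DD G (r 1) - (p : R[X][Y]) * (C X * dX G * r 1))
    have h : DD G Y = Y * -(C X * dX G) := by rw [DelSz_y]; ring
    rw [DD_mul, DelSz_pow G Y (-(C X * dX G)) h p]
    ring
  · change DD G (1 * r 2) = 1 * DD G (r 2)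
    rw [one_mul, one_mul]

theorem DD_mon_iter {R : Type*} [CommRing R] (G : R[X][Y]) (p : ℕ) (r : Fin 3 → R[X][Y])
    (k : ℕ) (i : Fin 3) :
    (DD G)^[k] (mon R p i * r i) = mon R p i * (Del G p)^[k] r i := by
  induction k with
  | zero => rfl
  | succ k ih =>
    rw [Function.iterate_succ_apply', ih, Function.iterate_succ_apply', DD_mon]

private theorem DelSz_sum {R : Type*} [CommRing R] (G : R[X][Y]) (f : Fin 3 → R[X][Y]) :
    DD G (∑ i, f i) = ∑ i, DD G (f i) := by
  rw [Fin.sum_univ_three, Fin.sum_univ_three, DD_add, DD_add]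

theorem Del_dvd {R : Type*} [CommRing R] {G H : R[X][Y]} (hHG : H ∣ G) {p : ℕ}
    {r : Fin 3 → R[X][Y]} (h : H ∣ ∑ i, mon R p i * r i) (k : ℕ) :
    H ∣ ∑ i, mon R p i * (Del G p)^[k] r i := by
  induction k with
  | zero => exact h
  | succ k ih =>
    have h1 : ∑ i, mon R p i * (Del G p)^[k + 1] r i =
        DD G (∑ i, mon R p i * (Del G p)^[k] r i) := by
      rw [DelSz_sum]
      refine Finset.sum_congr rfl fun i _ => ?_
      rw [DD_mon, Function.iterate_succ_apply']
    rw [h1]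
    exact DD_dvd hHG ih

private theorem DelSz_up {K : Type*} [Field K] (f : ℤ[X][Y]) :
    up K f = f.map (mapRingHom (Int.castRingHom K)) := rfl

private theorem DelSz_up_coeff {K : Type*} [Field K] (f : ℤ[X][Y]) (i : ℕ) :
    (up K f).coeff i = (f.coeff i).map (Int.castRingHom K) := by
  rw [DelSz_up, coeff_map]
  rfl

theorem up_coeff {K : Type*} [Field K] (f : ℤ[X][Y]) (i j : ℕ) :
    ((up K f).coeff i).coeff j = (((f.coeff i).coeff j : ℤ) : K) := by
  rw [DelSz_up_coeff, coeff_map]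
  rfl

theorem up_injective {K : Type*} [Field K] [CharZero K] : Function.Injective (up K) := by
  intro f g h
  ext i j
  have h1 := up_coeff (K := K) f i j
  rw [h, up_coeff] at h1
  exact_mod_cast h1.symm

theorem up_TD {K : Type*} [Field K] {f : ℤ[X][Y]} {n : ℕ} (h : TD f n) : TD (up K f) n := by
  intro i j hij
  refine h i j fun h0 => hij ?_
  rw [up_coeff, h0, Int.cast_zero]

theorem up_dX {K : Type*} [Field K] (f : ℤ[X][Y]) : up K (dX f) = dX (up K f) := by
  refine Polynomial.ext fun i => ?_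
  rw [DelSz_up_coeff, dX_coeff, dX_coeff, DelSz_up_coeff, derivative_map]

theorem up_dY {K : Type*} [Field K] (f : ℤ[X][Y]) : up K (dY f) = dY (up K f) := by
  unfold dY
  rw [DelSz_up, DelSz_up, derivative_map]

private theorem DelSz_up_x {K : Type*} [Field K] : up K (C X) = C X := by
  rw [DelSz_up, map_C]
  congr 1
  change (X : ℤ[X]).map (Int.castRingHom K) = X
  exact map_X _

private theorem DelSz_up_y {K : Type*} [Field K] : up K Y = Y := by
  rw [DelSz_up]
  exact map_X _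

theorem up_DD {K : Type*} [Field K] (G f : ℤ[X][Y]) : up K (DD G f) = DD (up K G) (up K f) := by
  unfold DD
  rw [map_mul, map_mul, map_sub, map_mul, map_mul, up_dX, up_dX, up_dY, up_dY, DelSz_up_x,
    DelSz_up_y]

theorem up_mon {K : Type*} [Field K] (p : ℕ) (i : Fin 3) : up K (mon ℤ p i) = mon K p i := by
  fin_cases i
  · change up K ((C X) ^ p) = (C X) ^ p
    rw [map_pow, DelSz_up_x]
  · change up K (Y ^ p) = Y ^ p
    rw [map_pow, DelSz_up_y]
  · change up K 1 = 1
    exact map_one _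

private theorem DelSz_up_Del {K : Type*} [Field K] (G : ℤ[X][Y]) (p : ℕ) (r : Fin 3 → ℤ[X][Y])
    (i : Fin 3) : up K (Del G p r i) = Del (up K G) p (fun j => up K (r j)) i := by
  fin_cases i
  · change up K (DD G (r 0) + (p : ℤ[X][Y]) * (Y * dY G * r 0)) =
      DD (up K G) (up K (r 0)) + (p : K[X][Y]) * (Y * dY (up K G) * up K (r 0))
    rw [map_add, up_DD, map_mul, map_mul, map_mul, map_natCast, DelSz_up_y, up_dY]
  · change up K (DD G (r 1) - (p : ℤ[X][Y]) * (C X * dX G * r 1)) =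
      DD (up K G) (up K (r 1)) - (p : K[X][Y]) * (C X * dX (up K G) * up K (r 1))
    rw [map_sub, up_DD, map_mul, map_mul, map_mul, map_natCast, DelSz_up_x, up_dX]
  · change up K (DD G (r 2)) = DD (up K G) (up K (r 2))
    exact up_DD G (r 2)

theorem up_Del_iter {K : Type*} [Field K] (G : ℤ[X][Y]) (p : ℕ) (r : Fin 3 → ℤ[X][Y]) (k : ℕ)
    (i : Fin 3) :
    up K ((Del G p)^[k] r i) = (Del (up K G) p)^[k] (fun j => up K (r j)) i := by
  induction k generalizing i with
  | zero => rfl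
  | succ k ih =>
    rw [Function.iterate_succ_apply', Function.iterate_succ_apply', DelSz_up_Del]
    congr 1
    funext j
    exact ih j

theorem up_swap {K : Type*} [Field K] (f : ℤ[X][Y]) :
    up K (Bivariate.swap f) = Bivariate.swap (up K f) := by
  refine Polynomial.ext fun i => Polynomial.ext fun j => ?_
  rw [up_coeff, swap_coeff, swap_coeff, up_coeff]

private theorem DelSz_aux {a b c : ℤ[X][Y]} {p : ℕ} {x y z : ℝ} (ha : sz a ≤ x) (hb : sz b ≤ y)
    (hc : sz c ≤ z) : sz ((p : ℤ[X][Y]) * (a * b * c)) ≤ p * (x * y * z) := by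
  have hx : 0 ≤ x := (sz_nonneg a).trans ha
  have hy : 0 ≤ y := (sz_nonneg b).trans hb
  calc sz ((p : ℤ[X][Y]) * (a * b * c)) ≤ sz (p : ℤ[X][Y]) * sz (a * b * c) := sz_mul_le _ _
    _ = p * sz (a * b * c) := by rw [sz_natCast]
    _ ≤ p * (sz (a * b) * sz c) :=
        mul_le_mul_of_nonneg_left (sz_mul_le _ _) (Nat.cast_nonneg _)
    _ ≤ p * (sz a * sz b * sz c) :=
        mul_le_mul_of_nonneg_left (mul_le_mul_of_nonneg_right (sz_mul_le _ _) (sz_nonneg _))
          (Nat.cast_nonneg _)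
    _ ≤ p * (x * y * z) :=
        mul_le_mul_of_nonneg_left
          (mul_le_mul (mul_le_mul ha hb (sz_nonneg _) hx) hc (sz_nonneg _) (mul_nonneg hx hy))
          (Nat.cast_nonneg _)

theorem sz_Del_le {G : ℤ[X][Y]} {D n p : ℕ} (hG : TD G D) {r : Fin 3 → ℤ[X][Y]}
    (hr : ∀ i, TD (r i) n) {s : ℝ} (hs : ∀ i, sz (r i) ≤ s) (i : Fin 3) :
    sz (Del G p r i) ≤ sz G * (D * (2 * n + p)) * s := by
  have hG0 : 0 ≤ sz G := sz_nonneg G
  have hD : ∀ j, sz (DD G (r j)) ≤ 2 * D * n * (sz G * s) := fun j =>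
    (sz_DD_le hG (hr j)).trans
      (mul_le_mul_of_nonneg_left (mul_le_mul_of_nonneg_left (hs j) hG0) (by positivity))
  have hs0 : 0 ≤ s := (sz_nonneg _).trans (hs 0)
  fin_cases i
  · change sz (DD G (r 0) + (p : ℤ[X][Y]) * (Y * dY G * r 0)) ≤ _
    have h1 : sz ((p : ℤ[X][Y]) * (Y * dY G * r 0)) ≤ p * (1 * (D * sz G) * s) :=
      DelSz_aux sz_Y.le (sz_dY_le hG) (hs 0)
    calc sz (DD G (r 0) + (p : ℤ[X][Y]) * (Y * dY G * r 0))
        ≤ 2 * D * n * (sz G * s) + p * (1 * (D * sz G) * s) :=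
          (sz_add_le _ _).trans (add_le_add (hD 0) h1)
      _ = sz G * (D * (2 * n + p)) * s := by ring
  · change sz (DD G (r 1) - (p : ℤ[X][Y]) * (C X * dX G * r 1)) ≤ _
    have h1 : sz ((p : ℤ[X][Y]) * (C X * dX G * r 1)) ≤ p * (1 * (D * sz G) * s) :=
      DelSz_aux sz_CX.le (sz_dX_le hG) (hs 1)
    calc sz (DD G (r 1) - (p : ℤ[X][Y]) * (C X * dX G * r 1))
        ≤ 2 * D * n * (sz G * s) + p * (1 * (D * sz G) * s) :=
          (sz_sub_le _ _).trans (add_le_add (hD 1) h1)
      _ = sz G * (D * (2 * n + p)) * s := by ring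
  · change sz (DD G (r 2)) ≤ _
    have h1 : 0 ≤ (p : ℝ) * (1 * (D * sz G) * s) := by positivity
    calc sz (DD G (r 2)) ≤ 2 * D * n * (sz G * s) := hD 2
      _ ≤ 2 * D * n * (sz G * s) + p * (1 * (D * sz G) * s) := le_add_of_nonneg_right h1
      _ = sz G * (D * (2 * n + p)) * s := by ring

theorem sz_Del_iter_le {G : ℤ[X][Y]} {D n p : ℕ} (hD : 1 ≤ D) (hG : TD G D)
    {r : Fin 3 → ℤ[X][Y]} (hr : ∀ i, TD (r i) n) {s : ℝ} (hs : ∀ i, sz (r i) ≤ s)
    (k : ℕ) (i : Fin 3) :
    sz ((Del G p)^[k] r i) ≤ (sz G * (D * (2 * (n + k * D) + p))) ^ k * s := by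
  have hG0 : 0 ≤ sz G := sz_nonneg G
  have hs0 : 0 ≤ s := (sz_nonneg _).trans (hs 0)
  induction k generalizing i with
  | zero =>
    rw [pow_zero, one_mul]
    exact hs i
  | succ k ih =>
    rw [Function.iterate_succ_apply']
    have h1 := sz_Del_le (p := p) hG (r := (Del G p)^[k] r)
      (fun j => TD_Del_iter hD hG p hr k j) (fun j => ih j) i
    push_cast at h1 ⊢
    refine h1.trans ?_
    have h2 : sz G * ((D : ℝ) * (2 * (n + k * D) + p)) ≤
        sz G * ((D : ℝ) * (2 * (n + (k + 1) * D) + p)) := by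
      refine mul_le_mul_of_nonneg_left (mul_le_mul_of_nonneg_left ?_ (Nat.cast_nonneg _)) hG0
      have h3 : (0 : ℝ) ≤ D := Nat.cast_nonneg _
      nlinarith
    have h4 : 0 ≤ sz G * ((D : ℝ) * (2 * (n + k * D) + p)) := by positivity
    calc sz G * ((D : ℝ) * (2 * (n + k * D) + p)) *
          ((sz G * ((D : ℝ) * (2 * (n + k * D) + p))) ^ k * s)
        ≤ sz G * ((D : ℝ) * (2 * (n + (k + 1) * D) + p)) *
          ((sz G * ((D : ℝ) * (2 * (n + (k + 1) * D) + p))) ^ k * s) :=
          mul_le_mul h2 (mul_le_mul_of_nonneg_right (pow_le_pow_left₀ h4 h2 k) hs0)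
            (mul_nonneg (pow_nonneg h4 k) hs0) (h4.trans h2)
      _ = (sz G * ((D : ℝ) * (2 * (n + (k + 1) * D) + p))) ^ (k + 1) * s := by ring

end H9CV
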