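import Pool.Agent.H9.CV.DelSz

set_option autoImplicit false

/-!
Project CV (MP_ef6a16_nt, helper9), module ElimR: the resultant of two coprime integral polynomials.
* `elim_res`: `ρ = resultant f g ∈ ℤ[X]` for `natDegree f ≠ 0`. `exists_mul_add_mul_eq_C_resultant`: `f p + g q = C ρ`.
  `ρ ≠ 0`: over the fraction field of `ℚ[X]` (`resultant_map_map`, `natDegree` unchanged by the injective maps) the
  polynomial `up ℚ f` stays irreducible (Gauss: it is primitive, being irreducible of positive degree: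
  `Irreducible.isPrimitive`, `Polynomial.IsPrimitive.irreducible_iff_irreducible_map_fraction_map`) and does not divide
  `up ℚ g` (`Polynomial.IsPrimitive.dvd_iff_fraction_map_dvd_fraction_map` for primitive polynomials; in general: if `up ℚ f ∣ up ℚ g` over the
  fraction field, clear denominators: `C s * up ℚ g = up ℚ f * h` with `s ≠ 0` in `ℚ[X]`, `up ℚ f` is prime in `ℚ[X][Y]` and does not divide
  `C s` by degree, so it divides `up ℚ g`). So they are coprime there and `resultant_eq_zero_iff` applies.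
  Size: the Sylvester matrix has `D' + e' ≤ D + e` columns, each entry `q ∈ ℤ[X]` has `ℓ¹` norm `sz (C q) ≤ A`:
  `sz (C ρ) ≤ (D + e)! A ^ (D + e)` (`Matrix.det_apply`, `sz_mul_le`, `sz_sum_le`; `C` is a ring homomorphism).
-/

namespace H9CV

open Polynomial
open scoped Polynomial.Bivariate

private theorem ElimR_sz_coeff (f : ℤ[X][Y]) (k : ℕ) : sz (C (f.coeff k) : ℤ[X][Y]) ≤ sz f := by
  by_cases hk : k ∈ f.support
  · rw [sz_C]
    unfold sz Polynomial.sum
    exact Finset.single_le_sum (f := fun k => ∑ n ∈ (f.coeff k).support,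
      |(((f.coeff k).coeff n : ℤ) : ℝ)|)
      (fun i _ => Finset.sum_nonneg fun j _ => abs_nonneg _) hk
  · rw [notMem_support_iff.mp hk, map_zero, sz_zero]
    exact sz_nonneg f

private theorem ElimR_sz_prod {ι : Type*} (s : Finset ι) (F : ι → ℤ[X][Y]) {A : ℝ} (hA : 0 ≤ A)
    (h : ∀ i ∈ s, sz (F i) ≤ A) : sz (∏ i ∈ s, F i) ≤ A ^ s.card := by
  classical
  induction s using Finset.induction_on with
  | empty => simp [sz_one]
  | insert a s ha ih =>
    rw [Finset.prod_insert ha, Finset.card_insert_of_notMem ha, pow_succ, mul_comm (A ^ s.card) A]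
    refine (sz_mul_le _ _).trans ?_
    exact mul_le_mul (h a (Finset.mem_insert_self a s))
      (ih fun i hi => h i (Finset.mem_insert_of_mem hi)) (sz_nonneg _) hA

private theorem ElimR_entry (f g : ℤ[X][Y]) (m n : ℕ) {A : ℝ} (hA : 1 ≤ A) (hfA : sz f ≤ A)
    (hgA : sz g ≤ A) (i j : Fin (m + n)) :
    sz (C (sylvester f g m n i j) : ℤ[X][Y]) ≤ A := by
  unfold sylvester
  rw [Matrix.of_apply]
  induction j using Fin.addCases with
  | left j =>
    rw [Fin.addCases_left]
    split_ifs
    · exact (ElimR_sz_coeff g _).trans hgA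
    · rw [map_zero, sz_zero]
      linarith
  | right j =>
    rw [Fin.addCases_right]
    split_ifs
    · exact (ElimR_sz_coeff f _).trans hfA
    · rw [map_zero, sz_zero]
      linarith

private theorem ElimR_size (f g : ℤ[X][Y]) (m n : ℕ) {A : ℝ} (hA : 1 ≤ A) (hfA : sz f ≤ A)
    (hgA : sz g ≤ A) :
    sz (C (resultant f g m n) : ℤ[X][Y]) ≤ (m + n).factorial * A ^ (m + n) := by
  classical
  unfold resultant
  rw [Matrix.det_apply', map_sum]
  refine (sz_sum_le _ _).trans ?_
  have h1 : ∀ σ ∈ (Finset.univ : Finset (Equiv.Perm (Fin (m + n)))),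
      sz (C (((Equiv.Perm.sign σ : ℤ) : ℤ[X]) * ∏ i, sylvester f g m n (σ i) i) : ℤ[X][Y]) ≤
        A ^ (m + n) := by
    intro σ _
    rw [map_mul, map_prod]
    have h2 : sz (C ((Equiv.Perm.sign σ : ℤ) : ℤ[X]) : ℤ[X][Y]) = 1 := by
      have h3 : (((Equiv.Perm.sign σ : ℤ) : ℤ[X])) = C (Equiv.Perm.sign σ : ℤ) := by simp
      rw [h3, sz_C_C]
      rcases Int.units_eq_one_or (Equiv.Perm.sign σ) with h | h
      · rw [h]
        simp
      · rw [h]
        simp
    refine (sz_mul_le _ _).trans ?_
    rw [h2, one_mul]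
    refine (ElimR_sz_prod _ _ (by linarith) fun i _ =>
      ElimR_entry f g m n hA hfA hgA (σ i) i).trans ?_
    rw [Finset.card_univ, Fintype.card_fin]
  refine (Finset.sum_le_card_nsmul _ _ _ h1).trans ?_
  rw [Finset.card_univ, Fintype.card_perm, Fintype.card_fin, nsmul_eq_mul]

theorem elim_res {D e : ℕ} {f g : ℤ[X][Y]} (hf : TD f D) (hg : TD g e)
    (hirr : Irreducible (up ℚ f)) (hdeg : f.natDegree ≠ 0) (hfg : ¬ up ℚ f ∣ up ℚ g) {A : ℝ}
    (hA : 1 ≤ A) (hfA : sz f ≤ A) (hgA : sz g ≤ A) :
    ∃ (ρ : ℤ[X]) (u w : ℤ[X][Y]), ρ ≠ 0 ∧ f * u + g * w = C ρ ∧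
      sz (C ρ : ℤ[X][Y]) ≤ (D + e).factorial * A ^ (D + e) := by
  classical
  have hinj : Function.Injective (mapRingHom (Int.castRingHom ℚ)) :=
    map_injective _ (Int.castRingHom ℚ).injective_int
  have hdF : (up ℚ f).natDegree = f.natDegree := natDegree_map_eq_of_injective hinj f
  have hdG : (up ℚ g).natDegree = g.natDegree := natDegree_map_eq_of_injective hinj g
  obtain ⟨u, w, -, -, huw⟩ := exists_mul_add_mul_eq_C_resultant (m := f.natDegree)
    (n := g.natDegree) f g le_rfl le_rfl (Or.inl hdeg)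
  refine ⟨resultant f g, u, w, ?_, huw, ?_⟩
  · intro h0
    have h1 : resultant (up ℚ f) (up ℚ g) = 0 := by
      have h2 := resultant_map_map f g f.natDegree g.natDegree (mapRingHom (Int.castRingHom ℚ))
      rw [h0, map_zero] at h2
      rw [hdF, hdG]
      exact h2
    have hprim : (up ℚ f).IsPrimitive := hirr.isPrimitive (by rw [hdF]; exact hdeg)
    let K := FractionRing ℚ[X]
    have hinj2 : Function.Injective (algebraMap ℚ[X] K) := IsFractionRing.injective _ _
    have hirr2 : Irreducible ((up ℚ f).map (algebraMap ℚ[X] K)) :=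
      (hprim.irreducible_iff_irreducible_map_fraction_map (K := K)).1 hirr
    have h3 : resultant ((up ℚ f).map (algebraMap ℚ[X] K))
        ((up ℚ g).map (algebraMap ℚ[X] K)) = 0 := by
      have h2 := resultant_map_map (up ℚ f) (up ℚ g) (up ℚ f).natDegree (up ℚ g).natDegree
        (algebraMap ℚ[X] K)
      rw [h1, map_zero] at h2
      rw [natDegree_map_eq_of_injective hinj2, natDegree_map_eq_of_injective hinj2]
      exact h2
    rw [resultant_eq_zero_iff] at h3
    have h4 : (up ℚ f).map (algebraMap ℚ[X] K) ∣ (up ℚ g).map (algebraMap ℚ[X] K) := by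
      by_contra h5
      exact h3.2 ((hirr2.coprime_iff_not_dvd).2 h5)
    exact hfg (hprim.dvd_of_fraction_map_dvd_fraction_map h4)
  · refine (ElimR_size f g _ _ hA hfA hgA).trans ?_
    have h1 : f.natDegree + g.natDegree ≤ D + e :=
      Nat.add_le_add (TD_natDegree hf) (TD_natDegree hg)
    have h2 : ((f.natDegree + g.natDegree).factorial : ℝ) ≤ ((D + e).factorial : ℝ) := by
      exact_mod_cast Nat.factorial_le h1
    exact mul_le_mul h2 (pow_le_pow_right₀ hA h1) (by positivity) (by positivity)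

end H9CV
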