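import Pool.Agent.H9.CV.Asm
import Pool.Agent.H93.RankOne

set_option autoImplicit false

/-!
Project CV (MP_ef6a16_nt, helper9), module Fin: Fermat points on plane curves, final statements.
-/

namespace H9CV

open NumberField Height

/-- the height of the coefficient vector -/
theorem curve_main.{u} (d D : ℕ) : ∃ (C : ℝ) (N : ℕ), 1 ≤ C ∧
    ∀ (K : Type u) [Field K] [NumberField K], Module.finrank ℚ K = d →
      ∀ F : MvPolynomial (Fin 3) K, F.IsHomogeneous D → F ≠ 0 →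
      ∀ p : ℕ, p.Prime → ∀ x : Fin 3 → K, (∀ i, x i ≠ 0) →
        x 0 ^ p + x 1 ^ p + x 2 ^ p = 0 → MvPolynomial.eval x F = 0 →
        (N ≤ p → mulHeight x ≤ C * mulHeight (fun m : F.support => F.coeff m) ^ N) ∧
        ((¬ ∃ ω : K, IsPrimitiveRoot ω 3) →
          (p : ℝ) ≤ C * mulHeight (fun m : F.support => F.coeff m) ^ N) := by
  obtain ⟨C, N, p0, hC, h⟩ := curve_height_of_lower.{u} d D
  obtain ⟨B, hB⟩ := lower_bound.{u} d
  have h3 : (1 : ℝ) ≤ 3 ^ d := one_le_pow₀ (by norm_num)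
  have h7 : (1 : ℝ) ≤ 7000 ^ (3 * d) := one_le_pow₀ (by norm_num)
  have hB0 : (0 : ℝ) ≤ B := Nat.cast_nonneg B
  have hp00 : (0 : ℝ) ≤ p0 := Nat.cast_nonneg p0
  have hd3 : (0 : ℝ) ≤ 3 ^ d * C := by positivity
  have h7' : (0 : ℝ) ≤ 7000 ^ (3 * d) := by positivity
  refine ⟨3 ^ d * C + 7000 ^ (3 * d) + B + p0, N + p0 + 8, ?_, ?_⟩
  · have : 1 ≤ (3 : ℝ) ^ d * C := one_le_mul_of_one_le_of_one_le h3 hC
    linarith
  intro K _ _ hd F hF hF0 p hp x hx hxp hFx
  set H : ℝ := mulHeight (fun m : F.support => F.coeff m) with hH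
  have hH1 : 1 ≤ H := one_le_mulHeight _
  have hHN : 1 ≤ H ^ (N + p0 + 8) := one_le_pow₀ hH1
  have hHN' : H ^ N ≤ H ^ (N + p0 + 8) := pow_le_pow_right₀ hH1 (by omega)
  have hC3 : C ≤ 3 ^ d * C := le_mul_of_one_le_left (by linarith) h3
  have hxe : ![x 0, x 1, x 2] = x := by
    ext i
    fin_cases i <;> rfl
  -- the bound when the lower bound is available
  have key : p0 ≤ p → (p : ℝ) ≤ 3 ^ d * mulHeight x → mulHeight x ≤ C * H ^ (N + p0 + 8) := by
    intro h1 h2
    refine (h K hd F hF hF0 p h1 hp.ne_zero x hx hxp hFx h2).trans ?_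
    gcongr
  constructor
  · intro hNp
    by_cases hsum : x 0 + x 1 + x 2 = 0
    · have h1 := Pool.Agent.H93.gap (K := K) hx (p := 1) (q := p) one_pos (by omega)
        (by simpa using hsum) hxp
      rw [pow_one, hd] at h1
      calc mulHeight x ≤ 7000 ^ (3 * d) := h1
        _ ≤ (3 ^ d * C + 7000 ^ (3 * d) + B + p0) * 1 := by linarith
        _ ≤ _ := by
          refine mul_le_mul_of_nonneg_left hHN ?_
          linarith
    · have h1 := LowB_aux hp (hx 0) hxp hsum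
      rw [hd, hxe] at h1
      refine (key (by omega) h1).trans ?_
      refine mul_le_mul_of_nonneg_right ?_ (by positivity)
      linarith
  · intro hω
    by_cases hp1 : p ≤ B
    · have : (p : ℝ) ≤ B := by exact_mod_cast hp1
      calc (p : ℝ) ≤ (3 ^ d * C + 7000 ^ (3 * d) + B + p0) * 1 := by linarith
        _ ≤ _ := by
          refine mul_le_mul_of_nonneg_left hHN ?_
          linarith
    by_cases hp2 : p ≤ p0
    · have : (p : ℝ) ≤ p0 := by exact_mod_cast hp2
      calc (p : ℝ) ≤ (3 ^ d * C + 7000 ^ (3 * d) + B + p0) * 1 := by linarith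
        _ ≤ _ := by
          refine mul_le_mul_of_nonneg_left hHN ?_
          linarith
    have h1 := hB K hd hω p hp (by omega) (x 0) (x 1) (x 2) (hx 0) (hx 1) (hx 2) hxp
    rw [hxe] at h1
    have h2 := key (by omega) h1
    calc (p : ℝ) ≤ 3 ^ d * mulHeight x := h1
      _ ≤ 3 ^ d * (C * H ^ (N + p0 + 8)) := by gcongr
      _ = (3 ^ d * C) * H ^ (N + p0 + 8) := by ring
      _ ≤ _ := by
        refine mul_le_mul_of_nonneg_right ?_ (by positivity)
        linarith

/-- fields with at most two infinite places -/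
theorem curve_two_places {K : Type*} [Field K] [NumberField K]
    (hω : ¬ ∃ ω : K, IsPrimitiveRoot ω 3) (h2 : Fintype.card (InfinitePlace K) ≤ 2) (D : ℕ) :
    ∃ (C : ℝ) (N : ℕ), ∀ F : MvPolynomial (Fin 3) K, F.IsHomogeneous D → F ≠ 0 →
      ∀ p : ℕ, p.Prime → ∀ x : Fin 3 → K, (∀ i, x i ≠ 0) →
        x 0 ^ p + x 1 ^ p + x 2 ^ p = 0 → MvPolynomial.eval x F = 0 →
        (2 : ℝ) ^ p ≤ C * mulHeight (fun m : F.support => F.coeff m) ^ N := by
  obtain ⟨C, N, hC, h⟩ := curve_main (Module.finrank ℚ K) D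
  obtain ⟨B, hB⟩ := Pool.Agent.H93.rank_le_one_bound hω h2
  set d := Module.finrank ℚ K with hd
  have h2d : (1 : ℝ) ≤ 2 ^ d := one_le_pow₀ (by norm_num)
  refine ⟨2 ^ d * C + 2 ^ (B + N), N, ?_⟩
  intro F hF hF0 p hp x hx hxp hFx
  set H : ℝ := mulHeight (fun m : F.support => F.coeff m) with hH
  have hH1 : 1 ≤ H := one_le_mulHeight _
  have hHN : 1 ≤ H ^ N := one_le_pow₀ hH1
  have hxe : ![x 0, x 1, x 2] = x := by
    ext i
    fin_cases i <;> rfl
  by_cases hp1 : p ≤ B + N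
  · calc (2 : ℝ) ^ p ≤ 2 ^ (B + N) := pow_le_pow_right₀ (by norm_num) hp1
      _ ≤ 2 ^ (B + N) * H ^ N := le_mul_of_one_le_right (by positivity) hHN
      _ ≤ (2 ^ d * C + 2 ^ (B + N)) * H ^ N := by
        refine mul_le_mul_of_nonneg_right ?_ (by positivity)
        have : 0 ≤ (2 : ℝ) ^ d * C := by positivity
        linarith
  · have h3 := hB p hp (by omega) (x 0) (x 1) (x 2) (hx 0) (hx 1) (hx 2) hxp
    rw [hxe] at h3
    have h4 := (h K rfl F hF hF0 p hp x hx hxp hFx).1 (by omega)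
    calc (2 : ℝ) ^ p ≤ 2 ^ d * mulHeight x := h3
      _ ≤ 2 ^ d * (C * H ^ N) := by gcongr
      _ = 2 ^ d * C * H ^ N := by ring
      _ ≤ (2 ^ d * C + 2 ^ (B + N)) * H ^ N := by
        refine mul_le_mul_of_nonneg_right ?_ (by positivity)
        have : 0 ≤ (2 : ℝ) ^ (B + N) := by positivity
        linarith

end H9CV
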