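import Pool.Agent.H93.SumZero

set_option autoImplicit false

/-!
Project CV (MP_ef6a16_nt, helper9), module NorthU: asymptotic Fermat on the line `a + b + c = 0`, uniformly for all number fields of
given degree.

A solution with `a + b + c = 0` has `mulHeight₁ (a / c) ≤ 7000 ^ d` (as in `Pool.Agent.H93.sum_zero_line`); by
`NumberField.exists_nat_le_mulHeight₁` there is `n ≠ 0`, `n ≤ 7000 ^ d`, with `n * (a / c)` integral; the image `z` of `a / c` in `ℂ` under any
embedding therefore lies in a finite set depending only on `d`, and the set of exponents depends only on `z`.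
-/

namespace H9CV

open NumberField Height Polynomial

/-- The value at an infinite place is at most the height. -/
theorem infinitePlace_le_mulHeight₁ {K : Type*} [Field K] [NumberField K] (v : InfinitePlace K)
    (x : K) : v x ≤ mulHeight₁ x := by
  classical
  rw [NumberField.mulHeight₁_eq]
  have h1 : (1 : ℝ) ≤ ∏ᶠ v : FinitePlace K, max (v x) 1 := one_le_finprod fun _ ↦ le_max_right ..
  have h2 : max (v x) 1 ^ v.mult ≤ ∏ w : InfinitePlace K, max (w x) 1 ^ w.mult := by
    rw [← Finset.mul_prod_erase _ _ (Finset.mem_univ v)]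
    refine le_mul_of_one_le_right (by positivity) ?_
    exact Finset.one_le_prod fun w _ ↦ one_le_pow₀ (le_max_right _ _)
  have h3 : v x ≤ max (v x) 1 ^ v.mult := by
    refine (le_max_left _ _).trans (le_self_pow₀ (le_max_right _ _) ?_)
    exact v.mult_ne_zero
  calc v x ≤ ∏ w : InfinitePlace K, max (w x) 1 ^ w.mult := h3.trans h2
    _ ≤ _ := le_mul_of_one_le_right (le_trans (by positivity) h2) h1

theorem sum_zero_uniform.{u} (d : ℕ) : ∃ B : ℕ, ∀ (K : Type u) [Field K] [NumberField K],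
    Module.finrank ℚ K = d → (¬ ∃ ω : K, IsPrimitiveRoot ω 3) → ∀ p : ℕ, p.Prime → B < p →
    ∀ a b c : K, a ≠ 0 → b ≠ 0 → c ≠ 0 → a + b + c = 0 → a ^ p + b ^ p + c ^ p ≠ 0 := by
  classical
  set A : ℝ := (7000 : ℝ) ^ d * (7000 : ℝ) ^ d with hA
  set C : ℕ := Nat.ceil (max A 1 ^ d * (d.choose (d / 2)) : ℝ) with hC
  set R : Set ℂ := ⋃ (f : ℤ[X]) (_ : f.natDegree ≤ d ∧ ∀ i, f.coeff i ∈ Set.Icc (-C : ℤ) C),
    ((f.map (algebraMap ℤ ℂ)).roots.toFinset : Set ℂ) with hR
  have hRfin : R.Finite := bUnion_roots_finite (algebraMap ℤ ℂ) d (Set.finite_Icc (-C : ℤ) C)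
  set G : Set ℂ := ⋃ n ∈ Finset.range (7000 ^ d + 1), (fun z : ℂ ↦ z / (n : ℂ)) '' R with hG
  have hGfin : G.Finite :=
    Set.Finite.biUnion (Finset.finite_toSet (Finset.range (7000 ^ d + 1))) fun n _ ↦ hRfin.image _
  set E : ℂ → Set ℕ := fun z ↦ {p : ℕ | z ^ p + (-(1 + z)) ^ p + 1 ^ p = 0} with hE
  refine ⟨max (hGfin.toFinset.sup fun z ↦ sSup (E z)) 2, ?_⟩
  intro K _ _ hd hω p hp hBp a b c ha hb hc hsum heq
  have hp3 : 3 ≤ p := by
    have : 2 < p := (le_max_right _ 2).trans_lt hBp
    lia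
  have hodd : Odd p := hp.odd_of_ne_two (by lia)
  obtain ⟨N, hN⟩ := hodd
  have hN1 : 1 ≤ N := by lia
  have h1 := Pool.Agent.H93.pade_height (K := K) (N := N) hN1 (x := ![a, b, c])
    (by
      intro i
      fin_cases i
      · exact ha
      · exact hb
      · exact hc)
    hsum (ξ := 1) one_ne_zero (by
      simp only [Pi.one_apply, one_mul]
      rw [← hN]
      exact heq)
  rw [mulHeight_one, mul_one, ← pow_mul, mul_comm N, pow_mul, hd] at h1
  have h2 : mulHeight ![a, b, c] ≤ (7000 : ℝ) ^ d :=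
    le_of_pow_le_pow_left₀ (by lia) (by positivity) h1
  have h3 : mulHeight₁ (a / c) ≤ (7000 : ℝ) ^ d := by
    rw [mulHeight₁_div_eq_mulHeight]
    refine le_trans ?_ h2
    have := mulHeight_comp_le (K := K) (![0, 2] : Fin 2 → Fin 3) ![a, b, c]
    refine le_trans (le_of_eq ?_) this
    congr 1
    ext i
    fin_cases i <;> rfl
  have h4 : -(1 + a / c) = b / c := by
    field_simp
    linear_combination -hsum
  have ht0 : a / c ≠ 0 := div_ne_zero ha hc
  have ht1 : 1 + a / c ≠ 0 := by
    intro h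
    have : b / c = 0 := by rw [← h4, h]; ring
    exact div_ne_zero hb hc this
  have h5 : (a / c) ^ p + (-(1 + a / c)) ^ p + 1 ^ p = 0 := by
    rw [h4, one_pow, div_pow, div_pow]
    have hcp : c ^ p ≠ 0 := pow_ne_zero p hc
    field_simp
    linear_combination heq
  have hfin := Pool.Agent.H93.finite_exponents hω ht0 ht1
  obtain ⟨n, hn0, hnle, hint⟩ := NumberField.exists_nat_le_mulHeight₁ (a / c)
  set t : K := a / c with ht
  obtain ⟨φ⟩ : Nonempty (K →+* ℂ) := inferInstance
  have hbound : ∀ ψ : K →+* ℂ, ‖ψ ((n : K) * t)‖ ≤ A := by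
    intro ψ
    rw [map_mul, map_natCast, norm_mul, Complex.norm_natCast, hA]
    have h6 : ‖ψ t‖ ≤ mulHeight₁ t := infinitePlace_le_mulHeight₁ (InfinitePlace.mk ψ) t
    exact mul_le_mul (hnle.trans h3) (h6.trans h3) (norm_nonneg _) (by positivity)
  have hmem : φ ((n : K) * t) ∈ R := by
    rw [hR]
    refine Set.mem_iUnion₂.mpr ⟨minpoly ℤ ((n : K) * t), ⟨?_, fun i ↦ ?_⟩, ?_⟩
    · rw [← (minpoly.monic hint).natDegree_map (algebraMap ℤ ℚ),
        ← minpoly.isIntegrallyClosed_eq_field_fractions' ℚ hint, ← hd]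
      exact minpoly.natDegree_le _
    · rw [Set.mem_Icc, ← abs_le, ← @Int.cast_le ℝ]
      have h7 := Embeddings.coeff_bdd_of_norm_le hbound i
      rw [hd, minpoly.isIntegrallyClosed_eq_field_fractions' ℚ hint, coeff_map, eq_intCast,
        Int.norm_cast_rat, Int.norm_eq_abs] at h7
      rw [Int.cast_abs]
      refine h7.trans ?_
      rw [hC]
      exact_mod_cast Nat.le_ceil _
    · rw [Finset.mem_coe, Multiset.mem_toFinset, mem_roots', IsRoot.def, eval_map,
        ← aeval_def]
      refine ⟨?_, ?_⟩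
      · exact ((minpoly.monic hint).map _).ne_zero
      · have h8 : aeval ((n : K) * t) (minpoly ℤ ((n : K) * t)) = 0 := minpoly.aeval _ _
        have h9 := congrArg φ h8
        rw [map_zero] at h9
        rw [← h9, aeval_def, aeval_def, hom_eval₂]
        congr 1
        exact RingHom.ext_int _ _
  have hzG : φ t ∈ G := by
    rw [hG]
    refine Set.mem_iUnion₂.mpr ⟨n, ?_, φ ((n : K) * t), hmem, ?_⟩
    · rw [Finset.mem_range, Nat.lt_succ_iff]
      exact_mod_cast hnle.trans h3
    · show φ ((n : K) * t) / (n : ℂ) = φ t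
      rw [map_mul, map_natCast]
      have : (n : ℂ) ≠ 0 := by exact_mod_cast hn0
      field_simp
  have hEq : E (φ t) = {p : ℕ | t ^ p + (-(1 + t)) ^ p + 1 ^ p = 0} := by
    ext q
    rw [hE]
    simp only [Set.mem_ofPred_eq]
    constructor
    · intro h
      apply φ.injective
      simpa only [map_add, map_pow, map_neg, map_one, map_zero] using h
    · intro h
      have := congrArg φ h
      simpa only [map_add, map_pow, map_neg, map_one, map_zero] using this
  have hpE : p ∈ E (φ t) := by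
    rw [hEq]
    exact h5
  have hle : p ≤ sSup (E (φ t)) := le_csSup (by rw [hEq]; exact hfin.bddAbove) hpE
  have hle2 : sSup (E (φ t)) ≤ hGfin.toFinset.sup fun z ↦ sSup (E z) :=
    Finset.le_sup (f := fun z ↦ sSup (E z)) (hGfin.mem_toFinset.mpr hzG)
  exact absurd hBp (not_lt.mpr ((hle.trans hle2).trans (le_max_left _ _)))

end H9CV
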