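import Pool.Agent.H9.CV.Defs

set_option autoImplicit false

/-!
Project CV (MP_ef6a16_nt, helper9), module Ord: order of vanishing along a derivation (abstract).

`S` is a commutative `F`-algebra, `D` a derivation, `ev : S → F` an algebra homomorphism,
`VO D ev n f` says `ev (D ^ k f) = 0` for all `k < n`.
* `iter_mul`: Leibniz, induction on `k` (Pascal; `Finset.sum_range_succ'`, or copy the Mathlib proof of
  `Polynomial.iterate_derivative_mul`).
* `VO_mul`: Leibniz. `VO_D`: `Function.iterate_succ_apply`.
* `VO_cancel`: strong induction: assume `ev (D ^ j f) = 0` for `j < k`, `k < n`; in Leibniz for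
  `D ^ k (g * f)` only the term `g * D ^ k f` survives, so `ev g * ev (D ^ k f) = 0`.
* `VO_aeval_le`: induction on `n` with `ρ` generalised. `n = 0` trivial. If `n + 1`: `k = 0` gives that
  `ev x` is a root of `ρ`, `ρ = (X - C (ev x)) * ρ'`, `aeval x ρ = t * aeval x ρ'` with `t = x - ev x • 1`,
  `ev t = 0`, `D t = D x`. Claim `VO n (aeval x ρ')`: strong induction on `k < n`: Leibniz for
  `D ^ (k + 1) (t * g)`: the term `j = 0` vanishes as `ev t = 0`, the term `j = 1` is
  `(k + 1) * ev (D x) * ev (D ^ k g)`, the others contain `ev (D ^ i g)` with `i < k`. Characteristic 0.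
  Then `n ≤ natDegree ρ' = natDegree ρ - 1`.
-/

namespace H9CV

open Polynomial

variable {F S : Type*} [Field F] [CommRing S] [Algebra F S]

private theorem Ord_comb (a b : ℕ → S) (k : ℕ) :
    ∑ j ∈ Finset.range (k + 1), (k.choose j : S) * (a (j + 1) * b (k - j) + a j * b (k - j + 1)) =
      ∑ j ∈ Finset.range (k + 1 + 1), ((k + 1).choose j : S) * (a j * b (k + 1 - j)) := by
  have e1 : ∑ j ∈ Finset.range (k + 1 + 1), ((k + 1).choose j : S) * (a j * b (k + 1 - j)) =
      ∑ j ∈ Finset.range (k + 1), ((k.choose j : S) + (k.choose (j + 1) : S)) * (a (j + 1) * b (k - j)) +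
        a 0 * b (k + 1) := by
    rw [Finset.sum_range_succ']
    congr 1
    · refine Finset.sum_congr rfl fun j _ => ?_
      rw [Nat.choose_succ_succ, Nat.add_sub_add_right]
      push_cast
      rfl
    · simp
  have e2 : ∑ j ∈ Finset.range (k + 1), (k.choose j : S) * (a j * b (k - j + 1)) =
      ∑ j ∈ Finset.range k, (k.choose (j + 1) : S) * (a (j + 1) * b (k - j)) + a 0 * b (k + 1) := by
    rw [Finset.sum_range_succ']
    congr 1
    · refine Finset.sum_congr rfl fun j hj => ?_
      rw [Finset.mem_range] at hj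
      have h1 : k - (j + 1) + 1 = k - j := by omega
      rw [h1]
    · simp
  have e3 : ∑ j ∈ Finset.range (k + 1), (k.choose (j + 1) : S) * (a (j + 1) * b (k - j)) =
      ∑ j ∈ Finset.range k, (k.choose (j + 1) : S) * (a (j + 1) * b (k - j)) := by
    rw [Finset.sum_range_succ, Nat.choose_succ_self]
    simp
  rw [e1]
  simp_rw [mul_add, add_mul, Finset.sum_add_distrib]
  rw [e2, e3]
  ring

theorem iter_mul (D : Derivation F S S) (k : ℕ) (f g : S) :
    (⇑D)^[k] (f * g) =
      ∑ j ∈ Finset.range (k + 1), (k.choose j : S) * ((⇑D)^[j] f * (⇑D)^[k - j] g) := by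
  induction k with
  | zero => simp
  | succ k ih =>
    rw [Function.iterate_succ_apply', ih, map_sum]
    have h := Ord_comb (fun j => (⇑D)^[j] f) (fun j => (⇑D)^[j] g) k
    rw [← h]
    refine Finset.sum_congr rfl fun j _ => ?_
    rw [Derivation.leibniz, Derivation.map_natCast, Derivation.leibniz, Function.iterate_succ_apply',
      Function.iterate_succ_apply']
    simp only [smul_eq_mul]
    ring

theorem iter_sub (D : Derivation F S S) (k : ℕ) (f g : S) :
    (⇑D)^[k] (f - g) = (⇑D)^[k] f - (⇑D)^[k] g := by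
  induction k with
  | zero => rfl
  | succ k ih => rw [Function.iterate_succ_apply', Function.iterate_succ_apply',
      Function.iterate_succ_apply', ih, map_sub]

private theorem Ord_iter_add (D : Derivation F S S) (k : ℕ) (f g : S) :
    (⇑D)^[k] (f + g) = (⇑D)^[k] f + (⇑D)^[k] g := by
  induction k with
  | zero => rfl
  | succ k ih => rw [Function.iterate_succ_apply', Function.iterate_succ_apply',
      Function.iterate_succ_apply', ih, map_add]

theorem iter_smul (D : Derivation F S S) (k : ℕ) (c : F) (f : S) :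
    (⇑D)^[k] (c • f) = c • (⇑D)^[k] f := by
  induction k with
  | zero => rfl
  | succ k ih => rw [Function.iterate_succ_apply', Function.iterate_succ_apply', ih, Derivation.map_smul]

theorem VO_mono (D : Derivation F S S) (ev : S →ₐ[F] F) {m n : ℕ} (h : m ≤ n) {f : S}
    (hf : VO D ev n f) : VO D ev m f := fun k hk => hf k (hk.trans_le h)

theorem VO_add (D : Derivation F S S) (ev : S →ₐ[F] F) {n : ℕ} {f g : S}
    (hf : VO D ev n f) (hg : VO D ev n g) : VO D ev n (f + g) := fun k hk => by
  rw [Ord_iter_add, map_add, hf k hk, hg k hk, add_zero]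

theorem VO_sub (D : Derivation F S S) (ev : S →ₐ[F] F) {n : ℕ} {f g : S}
    (hf : VO D ev n f) (hg : VO D ev n g) : VO D ev n (f - g) := fun k hk => by
  rw [iter_sub, map_sub, hf k hk, hg k hk, sub_zero]

theorem VO_smul (D : Derivation F S S) (ev : S →ₐ[F] F) {n : ℕ} (c : F) {f : S}
    (hf : VO D ev n f) : VO D ev n (c • f) := fun k hk => by
  rw [iter_smul, map_smul, hf k hk, smul_zero]

theorem VO_mul (D : Derivation F S S) (ev : S →ₐ[F] F) {n : ℕ} (g : S) {f : S}
    (hf : VO D ev n f) : VO D ev n (g * f) := fun k hk => by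
  rw [iter_mul, map_sum]
  refine Finset.sum_eq_zero fun j hj => ?_
  rw [map_mul, map_mul, hf (k - j) (by omega), mul_zero, mul_zero]

theorem VO_D (D : Derivation F S S) (ev : S →ₐ[F] F) {n : ℕ} {f : S}
    (hf : VO D ev (n + 1) f) : VO D ev n (D f) := fun k hk => by
  rw [← Function.iterate_succ_apply]
  exact hf (k + 1) (by omega)

theorem VO_cancel (D : Derivation F S S) (ev : S →ₐ[F] F) {n : ℕ} {g f : S} (hg : ev g ≠ 0)
    (h : VO D ev n (g * f)) : VO D ev n f := by
  intro k
  induction k using Nat.strong_induction_on with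
  | _ k ih =>
    intro hk
    have h1 := h k hk
    rw [iter_mul, map_sum, Finset.sum_range_succ'] at h1
    have h2 : ∑ j ∈ Finset.range k, ev ((k.choose (j + 1) : S) *
        ((⇑D)^[j + 1] g * (⇑D)^[k - (j + 1)] f)) = 0 := by
      refine Finset.sum_eq_zero fun j hj => ?_
      rw [Finset.mem_range] at hj
      rw [map_mul, map_mul, ih (k - (j + 1)) (by omega) (by omega), mul_zero, mul_zero]
    rw [h2, zero_add, Nat.choose_zero_right, Nat.cast_one, one_mul, map_mul, Nat.sub_zero] at h1
    exact (mul_eq_zero.1 h1).resolve_left hg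

theorem VO_of_mem (D : Derivation F S S) (ev : S →ₐ[F] F) (I : Ideal S)
    (hID : ∀ f ∈ I, D f ∈ I) (hIe : ∀ f ∈ I, ev f = 0) {f : S} (hf : f ∈ I) (n : ℕ) :
    VO D ev n f := by
  have h1 : ∀ k, (⇑D)^[k] f ∈ I := by
    intro k
    induction k with
    | zero => exact hf
    | succ k ih =>
      rw [Function.iterate_succ_apply']
      exact hID _ ih
  exact fun k _ => hIe _ (h1 k)

theorem VO_aeval_le [CharZero F] (D : Derivation F S S) (ev : S →ₐ[F] F) {x : S}
    (hx : ev (D x) ≠ 0) {ρ : F[X]} (hρ : ρ ≠ 0) {n : ℕ} (h : VO D ev n (aeval x ρ)) :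
    n ≤ ρ.natDegree := by
  induction n generalizing ρ with
  | zero => exact Nat.zero_le _
  | succ n ih =>
    have h0 : ev (aeval x ρ) = 0 := h 0 (Nat.succ_pos n)
    have hroot : ρ.IsRoot (ev x) := by
      have h1 : ev (aeval x ρ) = aeval (ev x) ρ := (Polynomial.aeval_algHom_apply ev x ρ).symm
      rw [h1, Polynomial.coe_aeval_eq_eval] at h0
      exact h0
    obtain ⟨ρ', hρ'⟩ := Polynomial.dvd_iff_isRoot.2 hroot
    have hρ'0 : ρ' ≠ 0 := by
      rintro rfl
      rw [mul_zero] at hρ'
      exact hρ hρ'
    have hdeg : ρ.natDegree = 1 + ρ'.natDegree := by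
      rw [hρ', Polynomial.natDegree_mul (Polynomial.X_sub_C_ne_zero _) hρ'0, Polynomial.natDegree_X_sub_C]
    have hae : aeval x ρ = (x - algebraMap F S (ev x)) * aeval x ρ' := by
      rw [hρ', map_mul, map_sub, Polynomial.aeval_X, Polynomial.aeval_C]
    have ht0 : ev (x - algebraMap F S (ev x)) = 0 := by
      rw [map_sub, AlgHom.commutes]
      exact sub_self _
    have ht1 : D (x - algebraMap F S (ev x)) = D x := by
      rw [map_sub, Derivation.map_algebraMap, sub_zero]
    have key : VO D ev n (aeval x ρ') := by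
      intro k
      induction k using Nat.strong_induction_on with
      | _ k ihk =>
        intro hk
        have h1 := h (k + 1) (by omega)
        rw [hae, iter_mul, map_sum, Finset.sum_range_succ', Finset.sum_range_succ'] at h1
        have h2 : ∑ j ∈ Finset.range k, ev (((k + 1).choose (j + 1 + 1) : S) *
            ((⇑D)^[j + 1 + 1] (x - algebraMap F S (ev x)) * (⇑D)^[k + 1 - (j + 1 + 1)] (aeval x ρ'))) = 0 := by
          refine Finset.sum_eq_zero fun j hj => ?_
          rw [Finset.mem_range] at hj
          have h3 : k + 1 - (j + 1 + 1) = k - (j + 1) := by omega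
          rw [map_mul, map_mul, h3, ihk (k - (j + 1)) (by omega) (by omega), mul_zero, mul_zero]
        rw [h2, zero_add, zero_add, Nat.choose_one_right, Nat.choose_zero_right, Nat.add_sub_cancel,
          Function.iterate_zero_apply, Function.iterate_one, ht1, map_mul, map_mul, map_natCast,
          map_mul, map_mul, ht0, zero_mul, mul_zero, add_zero] at h1
        have h3 : ((k + 1 : ℕ) : F) ≠ 0 := by exact_mod_cast Nat.succ_ne_zero k
        exact ((mul_eq_zero.1 ((mul_eq_zero.1 h1).resolve_left h3)).resolve_left hx)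
    have h4 := ih hρ'0 key
    omega

end H9CV
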