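import Pool.Agent.H9.CV.TDeg

set_option autoImplicit false

/-!
Project CV (MP_ef6a16_nt, helper9), module Sz: the `ℓ¹` norm `sz` of the coefficients of an integral bivariate polynomial.

`sz f = ∑_i ∑_j |(f.coeff i).coeff j|`. It is convenient to write `sz f` as a sum over a large box
`range (n + 1) × range (n + 1)` (`sz_eq_box`). `sz_mul_le`: `Polynomial.coeff_mul` twice, or prove it for `f` a monomial first
(then `sz (monomial * g) = |c| * sz g`) and sum up. `sz_dX_le`, `sz_dY_le`: the coefficients get multiplied by `j + 1 ≤ n`,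
`i + 1 ≤ n`. `sz_DD_le`: `DD G f = x y (G_y f_x - G_x f_y)`.
-/

namespace H9CV

open Polynomial
open scoped Polynomial.Bivariate

section Gen

variable {R : Type*} [CommRing R]

/-- the sum of the sizes of the coefficients -/
private noncomputable def Sz_N (N : R → ℝ) (f : R[X]) : ℝ := f.sum fun _ a => N a

private theorem Sz_N_eq {N : R → ℝ} (h0 : N 0 = 0) {f : R[X]} {S : Finset ℕ} (h : f.support ⊆ S) :
    Sz_N N f = ∑ i ∈ S, N (f.coeff i) := by
  unfold Sz_N Polynomial.sum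
  refine Finset.sum_subset h fun i _ hi => ?_
  simp only [notMem_support_iff.mp hi, h0]

private theorem Sz_N_nonneg {N : R → ℝ} (hn : ∀ a, 0 ≤ N a) (f : R[X]) : 0 ≤ Sz_N N f := by
  unfold Sz_N Polynomial.sum
  exact Finset.sum_nonneg fun i _ => hn _

private theorem Sz_N_zero (N : R → ℝ) : Sz_N N (0 : R[X]) = 0 := by
  unfold Sz_N
  exact sum_zero_index _

private theorem Sz_N_add {N : R → ℝ} (h0 : N 0 = 0) (ha : ∀ a b, N (a + b) ≤ N a + N b) (f g : R[X]) :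
    Sz_N N (f + g) ≤ Sz_N N f + Sz_N N g := by
  classical
  rw [Sz_N_eq h0 (S := f.support ∪ g.support) support_add,
    Sz_N_eq h0 (S := f.support ∪ g.support) (f := f) Finset.subset_union_left,
    Sz_N_eq h0 (S := f.support ∪ g.support) (f := g) Finset.subset_union_right,
    ← Finset.sum_add_distrib]
  refine Finset.sum_le_sum fun i _ => ?_
  rw [coeff_add]
  exact ha _ _

private theorem Sz_N_sum {N : R → ℝ} (h0 : N 0 = 0) (ha : ∀ a b, N (a + b) ≤ N a + N b)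
    {ι : Type*} (s : Finset ι) (f : ι → R[X]) :
    Sz_N N (∑ i ∈ s, f i) ≤ ∑ i ∈ s, Sz_N N (f i) := by
  classical
  induction s using Finset.induction_on with
  | empty => rw [Finset.sum_empty, Finset.sum_empty, Sz_N_zero]
  | insert a s has ih =>
    rw [Finset.sum_insert has, Finset.sum_insert has]
    exact (Sz_N_add h0 ha _ _).trans (add_le_add le_rfl ih)

private theorem Sz_N_monomial {N : R → ℝ} (h0 : N 0 = 0) (n : ℕ) (a : R) :
    Sz_N N (monomial n a) = N a := by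
  unfold Sz_N
  exact sum_monomial_index a _ h0

private theorem Sz_N_mul {N : R → ℝ} (h0 : N 0 = 0) (ha : ∀ a b, N (a + b) ≤ N a + N b)
    (hm : ∀ a b, N (a * b) ≤ N a * N b) (f g : R[X]) :
    Sz_N N (f * g) ≤ Sz_N N f * Sz_N N g := by
  rw [mul_eq_sum_sum]
  refine (Sz_N_sum h0 ha _ _).trans ?_
  have h1 : Sz_N N f * Sz_N N g = ∑ i ∈ f.support, N (f.coeff i) * Sz_N N g := by
    rw [← Finset.sum_mul]
    rfl
  rw [h1]
  refine Finset.sum_le_sum fun i _ => ?_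
  unfold Polynomial.sum
  refine (Sz_N_sum h0 ha _ _).trans ?_
  have h2 : N (f.coeff i) * Sz_N N g = ∑ j ∈ g.support, N (f.coeff i) * N (g.coeff j) := by
    rw [← Finset.mul_sum]
    rfl
  rw [h2]
  refine Finset.sum_le_sum fun j _ => ?_
  rw [Sz_N_monomial h0]
  exact hm _ _

private theorem Sz_N_derivative {N : R → ℝ} (h0 : N 0 = 0) (ha : ∀ a b, N (a + b) ≤ N a + N b)
    (hn : ∀ a, 0 ≤ N a) (hc : ∀ (a : R) (k : ℕ), N (a * (k : R)) ≤ k * N a) {f : R[X]} {n : ℕ}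
    (hf : f.natDegree ≤ n) : Sz_N N (derivative f) ≤ n * Sz_N N f := by
  rw [derivative_apply]
  unfold Polynomial.sum
  refine (Sz_N_sum h0 ha _ _).trans ?_
  have h1 : (n : ℝ) * Sz_N N f = ∑ i ∈ f.support, (n : ℝ) * N (f.coeff i) := by
    rw [← Finset.mul_sum]
    rfl
  rw [h1]
  refine Finset.sum_le_sum fun i hi => ?_
  simp only [C_mul_X_pow_eq_monomial]
  rw [Sz_N_monomial h0]
  refine (hc _ _).trans (mul_le_mul_of_nonneg_right ?_ (hn _))
  exact_mod_cast (le_natDegree_of_mem_supp i hi).trans hf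

end Gen

/-- the absolute value -/
private noncomputable def Sz_a (c : ℤ) : ℝ := |(c : ℝ)|

private theorem Sz_a_zero : Sz_a 0 = 0 := by
  unfold Sz_a
  simp

private theorem Sz_a_nonneg (a : ℤ) : 0 ≤ Sz_a a := abs_nonneg _

private theorem Sz_a_add (a b : ℤ) : Sz_a (a + b) ≤ Sz_a a + Sz_a b := by
  unfold Sz_a
  push_cast
  exact abs_add_le _ _

private theorem Sz_a_mul (a b : ℤ) : Sz_a (a * b) ≤ Sz_a a * Sz_a b := by
  unfold Sz_a
  push_cast
  rw [abs_mul]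

private theorem Sz_a_cast (a : ℤ) (k : ℕ) : Sz_a (a * (k : ℤ)) ≤ k * Sz_a a := by
  unfold Sz_a
  push_cast
  rw [abs_mul, Nat.abs_cast, mul_comm]

private theorem Sz_eq (f : ℤ[X][Y]) : sz f = Sz_N (Sz_N Sz_a) f := rfl

private theorem Sz_1_zero : Sz_N Sz_a (0 : ℤ[X]) = 0 := Sz_N_zero _

private theorem Sz_1_nonneg (a : ℤ[X]) : 0 ≤ Sz_N Sz_a a := Sz_N_nonneg Sz_a_nonneg a

private theorem Sz_1_add (a b : ℤ[X]) : Sz_N Sz_a (a + b) ≤ Sz_N Sz_a a + Sz_N Sz_a b :=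
  Sz_N_add Sz_a_zero Sz_a_add a b

private theorem Sz_1_mul (a b : ℤ[X]) : Sz_N Sz_a (a * b) ≤ Sz_N Sz_a a * Sz_N Sz_a b :=
  Sz_N_mul Sz_a_zero Sz_a_add Sz_a_mul a b

private theorem Sz_1_C (c : ℤ) : Sz_N Sz_a (C c) = |(c : ℝ)| := by
  rw [← monomial_zero_left]
  exact Sz_N_monomial Sz_a_zero 0 c

private theorem Sz_1_cast (a : ℤ[X]) (k : ℕ) : Sz_N Sz_a (a * (k : ℤ[X])) ≤ k * Sz_N Sz_a a := by
  refine (Sz_1_mul _ _).trans ?_
  have h : Sz_N Sz_a ((k : ℕ) : ℤ[X]) = k := by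
    have h1 : ((k : ℕ) : ℤ[X]) = C ((k : ℤ)) := by simp
    rw [h1, Sz_1_C]
    simp
  rw [h, mul_comm]

private theorem Sz_abs_coeff (f : ℤ[X][Y]) (i j : ℕ) : |(((f.coeff i).coeff j : ℤ) : ℝ)| ≤ sz f := by
  rw [Sz_eq]
  by_cases hi : i ∈ f.support
  · have h1 : Sz_N Sz_a (f.coeff i) ≤ Sz_N (Sz_N Sz_a) f := by
      unfold Sz_N
      exact Finset.single_le_sum (f := fun i => Sz_N Sz_a (f.coeff i)) (fun i _ => Sz_1_nonneg _) hi
    refine le_trans ?_ h1
    by_cases hj : j ∈ (f.coeff i).support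
    · exact Finset.single_le_sum (f := fun j => Sz_a ((f.coeff i).coeff j))
        (fun j _ => Sz_a_nonneg _) hj
    · rw [notMem_support_iff.mp hj, Int.cast_zero, abs_zero]
      exact Sz_1_nonneg _
  · rw [notMem_support_iff.mp hi, coeff_zero, Int.cast_zero, abs_zero]
    exact Sz_N_nonneg Sz_1_nonneg f

theorem sz_eq_box {f : ℤ[X][Y]} {n : ℕ} (h : TD f n) :
    sz f = ∑ i ∈ Finset.range (n + 1), ∑ j ∈ Finset.range (n + 1),
      |(((f.coeff i).coeff j : ℤ) : ℝ)| := by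
  have h1 : f.support ⊆ Finset.range (n + 1) := by
    intro i hi
    rw [Finset.mem_range]
    have := (le_natDegree_of_mem_supp i hi).trans (TD_natDegree h)
    omega
  rw [Sz_eq, Sz_N_eq Sz_1_zero h1]
  refine Finset.sum_congr rfl fun i _ => ?_
  have h2 : (f.coeff i).support ⊆ Finset.range (n + 1) := by
    intro j hj
    rw [Finset.mem_range]
    have := (le_natDegree_of_mem_supp j hj).trans (TD_coeff h i)
    omega
  rw [Sz_N_eq Sz_a_zero h2]
  rfl


theorem sz_nonneg (f : ℤ[X][Y]) : 0 ≤ sz f := by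
  rw [Sz_eq]
  exact Sz_N_nonneg Sz_1_nonneg f


theorem sz_zero : sz (0 : ℤ[X][Y]) = 0 := by
  rw [Sz_eq]
  exact Sz_N_zero _


theorem one_le_sz {f : ℤ[X][Y]} (hf : f ≠ 0) : 1 ≤ sz f := by
  have h1 : ∃ i, f.coeff i ≠ 0 := by
    by_contra hcon
    push Not at hcon
    exact hf (Polynomial.ext fun i => by rw [hcon i, coeff_zero])
  obtain ⟨i, hi⟩ := h1
  have h2 : ∃ j, (f.coeff i).coeff j ≠ 0 := by
    by_contra hcon
    push Not at hcon
    exact hi (Polynomial.ext fun j => by rw [hcon j, coeff_zero])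
  obtain ⟨j, hj⟩ := h2
  refine le_trans ?_ (Sz_abs_coeff f i j)
  have h3 : 1 ≤ |(f.coeff i).coeff j| := Int.one_le_abs hj
  exact_mod_cast h3


theorem abs_coeff_le (f : ℤ[X][Y]) (i j : ℕ) : |(((f.coeff i).coeff j : ℤ) : ℝ)| ≤ sz f := by
  exact Sz_abs_coeff f i j


theorem sz_add_le (f g : ℤ[X][Y]) : sz (f + g) ≤ sz f + sz g := by
  rw [Sz_eq, Sz_eq, Sz_eq]
  exact Sz_N_add Sz_1_zero Sz_1_add f g


theorem sz_neg (f : ℤ[X][Y]) : sz (-f) = sz f := by
  rw [Sz_eq, Sz_eq, Sz_N_eq Sz_1_zero (S := f.support) (f := -f) (by rw [support_neg]),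
    Sz_N_eq Sz_1_zero (S := f.support) (f := f) le_rfl]
  refine Finset.sum_congr rfl fun i _ => ?_
  rw [coeff_neg, Sz_N_eq Sz_a_zero (S := (f.coeff i).support) (f := -f.coeff i) (by rw [support_neg]),
    Sz_N_eq Sz_a_zero (S := (f.coeff i).support) (f := f.coeff i) le_rfl]
  refine Finset.sum_congr rfl fun j _ => ?_
  rw [coeff_neg]
  unfold Sz_a
  push_cast
  exact abs_neg _


theorem sz_sub_le (f g : ℤ[X][Y]) : sz (f - g) ≤ sz f + sz g := by
  rw [sub_eq_add_neg, ← sz_neg g]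
  exact sz_add_le f (-g)


theorem sz_sum_le {ι : Type*} (s : Finset ι) (f : ι → ℤ[X][Y]) :
    sz (∑ i ∈ s, f i) ≤ ∑ i ∈ s, sz (f i) := by
  simp only [Sz_eq]
  exact Sz_N_sum Sz_1_zero Sz_1_add s f


theorem sz_mul_le (f g : ℤ[X][Y]) : sz (f * g) ≤ sz f * sz g := by
  rw [Sz_eq, Sz_eq, Sz_eq]
  exact Sz_N_mul Sz_1_zero Sz_1_add Sz_1_mul f g


theorem sz_C_C (a : ℤ) : sz (C (C a) : ℤ[X][Y]) = |(a : ℝ)| := by
  rw [Sz_eq, ← monomial_zero_left, Sz_N_monomial Sz_1_zero, Sz_1_C]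


/-- the size of a polynomial in the inner variable only -/
theorem sz_C (q : ℤ[X]) : sz (C q : ℤ[X][Y]) = ∑ j ∈ q.support, |((q.coeff j : ℤ) : ℝ)| := by
  rw [Sz_eq, ← monomial_zero_left, Sz_N_monomial Sz_1_zero]
  rfl


theorem sz_one : sz (1 : ℤ[X][Y]) = 1 := by
  have h := sz_C_C 1
  rw [map_one, map_one] at h
  rw [h]
  simp


theorem sz_Y : sz (Y : ℤ[X][Y]) = 1 := by
  rw [Sz_eq]
  have h : (Y : ℤ[X][Y]) = monomial 1 (1 : ℤ[X]) := (monomial_one_one_eq_X).symm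
  rw [h, Sz_N_monomial Sz_1_zero]
  have h1 := Sz_1_C 1
  rw [map_one] at h1
  rw [h1]
  simp


theorem sz_CX : sz (C X : ℤ[X][Y]) = 1 := by
  rw [Sz_eq, ← monomial_zero_left, Sz_N_monomial Sz_1_zero, ← monomial_one_one_eq_X,
    Sz_N_monomial Sz_a_zero]
  unfold Sz_a
  simp


theorem sz_natCast (n : ℕ) : sz (n : ℤ[X][Y]) = n := by
  have h1 : ((n : ℕ) : ℤ[X][Y]) = C (C ((n : ℤ))) := by simp
  rw [h1, sz_C_C]
  simp


theorem sz_pow_le (f : ℤ[X][Y]) (n : ℕ) : sz (f ^ n) ≤ sz f ^ n := by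
  induction n with
  | zero => rw [pow_zero, pow_zero, sz_one]
  | succ n ih =>
    rw [pow_succ, pow_succ]
    exact (sz_mul_le _ _).trans (mul_le_mul_of_nonneg_right ih (sz_nonneg f))


theorem sz_dX_le {f : ℤ[X][Y]} {n : ℕ} (h : TD f n) : sz (dX f) ≤ n * sz f := by
  have h1 : (dX f).support ⊆ f.support := by
    intro i hi
    rw [mem_support_iff, dX_coeff] at hi
    rw [mem_support_iff]
    intro h0
    rw [h0, derivative_zero] at hi
    exact hi rfl
  rw [Sz_eq, Sz_eq, Sz_N_eq Sz_1_zero h1, Sz_N_eq Sz_1_zero (S := f.support) (f := f) le_rfl,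
    Finset.mul_sum]
  refine Finset.sum_le_sum fun i _ => ?_
  rw [dX_coeff]
  exact Sz_N_derivative Sz_a_zero Sz_a_add Sz_a_nonneg Sz_a_cast
    ((TD_coeff h i).trans (Nat.sub_le n i))


theorem sz_dY_le {f : ℤ[X][Y]} {n : ℕ} (h : TD f n) : sz (dY f) ≤ n * sz f := by
  rw [Sz_eq, Sz_eq]
  exact Sz_N_derivative Sz_1_zero Sz_1_add Sz_1_nonneg Sz_1_cast (TD_natDegree h)


theorem sz_DD_le {G f : ℤ[X][Y]} {D n : ℕ} (hG : TD G D) (hf : TD f n) :
    sz (DD G f) ≤ 2 * D * n * (sz G * sz f) := by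
  unfold DD
  have hG0 := sz_nonneg G
  have hf0 := sz_nonneg f
  have e1 : sz (dY G * dX f) ≤ (D * sz G) * (n * sz f) :=
    (sz_mul_le _ _).trans (mul_le_mul (sz_dY_le hG) (sz_dX_le hf) (sz_nonneg _) (by positivity))
  have e2 : sz (dX G * dY f) ≤ (D * sz G) * (n * sz f) :=
    (sz_mul_le _ _).trans (mul_le_mul (sz_dX_le hG) (sz_dY_le hf) (sz_nonneg _) (by positivity))
  have e3 : sz (dY G * dX f - dX G * dY f) ≤ 2 * ((D * sz G) * (n * sz f)) :=
    (sz_sub_le _ _).trans (by linarith)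
  have e4 : sz (C X * Y : ℤ[X][Y]) ≤ 1 := by
    refine (sz_mul_le _ _).trans ?_
    rw [sz_CX, sz_Y, one_mul]
  calc sz (C X * Y * (dY G * dX f - dX G * dY f))
      ≤ sz (C X * Y : ℤ[X][Y]) * sz (dY G * dX f - dX G * dY f) := sz_mul_le _ _
    _ ≤ 1 * (2 * ((D * sz G) * (n * sz f))) :=
        mul_le_mul e4 e3 (sz_nonneg _) zero_le_one
    _ = _ := by ring


theorem sz_swap (f : ℤ[X][Y]) : sz (Bivariate.swap f) = sz f := by
  by_cases hf : f = 0
  · rw [hf, map_zero]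
  · obtain ⟨D, hD, _⟩ := exists_TD hf
    rw [sz_eq_box hD, sz_eq_box (TD_swap hD), Finset.sum_comm]
    refine Finset.sum_congr rfl fun i _ => Finset.sum_congr rfl fun j _ => ?_
    rw [swap_coeff]


end H9CV
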