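import Pool.Agent.H9.CV.Defs

set_option autoImplicit false

/-!
Project CV (MP_ef6a16_nt, helper9), module TDeg: total degree of bivariate polynomials.

`TD f n`: every monomial `x ^ j y ^ i` with nonzero coefficient has `i + j ≤ n`. All statements are
elementary (`Polynomial.coeff_mul` twice for products). `TD_modByMonic`: strong induction on
`natDegree f` as in the definition of `modByMonic` (`f - C lc * X ^ (natDegree f - natDegree G) * G`), or
use `Polynomial.div_wf_lemma`/`modByMonic` unfolding; alternatively prove: for every `f` with `TD f n`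
there is `q` with `TD (f - q * G) n` and `natDegree (f - q * G) < natDegree G` or `f - q * G = 0`, and
conclude with the uniqueness `Polynomial.div_modByMonic_unique`. `TD_quot`: in a domain: if `s ≠ 0` choose among the
monomials of `f` (of `s`) of maximal total degree `D` (`m`) the one with largest `i`; the corresponding
coefficient of `f * s` is the product of the two coefficients, so `D + m ≤ n`. `TD_of_mul` is the same
argument. `TD_swap`: `(swap f).coeff j .coeff i = (f.coeff i).coeff j` (induction on `f`,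
`Bivariate.swap_monomial_monomial`).
-/

namespace H9CV

open Polynomial NumberField
open scoped Polynomial.Bivariate

variable {R : Type*} [CommRing R]

private theorem TDeg_iff (f : R[X][Y]) (n : ℕ) :
    TD f n ↔ ∀ i j : ℕ, n < i + j → (f.coeff i).coeff j = 0 := by
  constructor
  · intro h i j hij
    by_contra h0
    have := h i j h0
    omega
  · intro h i j h0
    by_contra h1
    exact h0 (h i j (by omega))

private theorem TDeg_coeff_mul (f g : R[X][Y]) (i j : ℕ) :
    ((f * g).coeff i).coeff j = ∑ x ∈ Finset.HasAntidiagonal.antidiagonal i, ∑ y ∈ Finset.HasAntidiagonal.antidiagonal j,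
      (f.coeff x.1).coeff y.1 * (g.coeff x.2).coeff y.2 := by
  rw [coeff_mul, finsetSum_coeff]
  refine Finset.sum_congr rfl fun x _ => ?_
  rw [coeff_mul]

private theorem TDeg_C {a : R[X]} {m : ℕ} (ha : a.natDegree ≤ m) : TD (C a : R[X][Y]) m := by
  intro i j h
  rw [coeff_C] at h
  split_ifs at h with h0
  · subst h0
    have := le_natDegree_of_ne_zero h
    omega
  · simp at h

/-- the top monomial of a nonzero polynomial -/
private theorem TDeg_top {f : R[X][Y]} (hf : f ≠ 0) :
    ∃ i j, (f.coeff i).coeff j ≠ 0 ∧ TD f (i + j) ∧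
      ∀ i' j', (f.coeff i').coeff j' ≠ 0 → i' + j' = i + j → i' ≤ i := by
  classical
  let s : Finset (ℕ × ℕ) := f.support.biUnion fun i => (f.coeff i).support.image fun j => (i, j)
  have hs : ∀ i j, (i, j) ∈ s ↔ (f.coeff i).coeff j ≠ 0 := by
    intro i j
    simp only [s, Finset.mem_biUnion, Finset.mem_image, mem_support_iff, Prod.mk.injEq]
    constructor
    · rintro ⟨a, _, b, hb, rfl, rfl⟩
      exact hb
    · intro h
      refine ⟨i, ?_, j, h, rfl, rfl⟩
      intro h0
      rw [h0] at h
      simp at h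
  have hne : s.Nonempty := by
    have h1 : f.coeff f.natDegree ≠ 0 := by
      rw [coeff_natDegree]; exact leadingCoeff_ne_zero.2 hf
    have h2 : (f.coeff f.natDegree).coeff (f.coeff f.natDegree).natDegree ≠ 0 := by
      rw [coeff_natDegree]; exact leadingCoeff_ne_zero.2 h1
    exact ⟨_, (hs _ _).2 h2⟩
  obtain ⟨⟨i, j⟩, hij, hmax⟩ := Finset.exists_max_image s
    (fun q : ℕ × ℕ => toLex (q.1 + q.2, q.1)) hne
  refine ⟨i, j, (hs i j).1 hij, ?_, ?_⟩
  · intro a b hab
    have h1 := hmax (a, b) ((hs a b).2 hab)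
    rw [Prod.Lex.toLex_le_toLex] at h1
    rcases h1 with h1 | h1
    · exact h1.le
    · exact h1.1.le
  · intro a b hab he
    have h1 := hmax (a, b) ((hs a b).2 hab)
    rw [Prod.Lex.toLex_le_toLex] at h1
    rcases h1 with h1 | h1
    · simp only at h1
      omega
    · exact h1.2

private theorem TDeg_mul_top {f g : R[X][Y]} {i j k l : ℕ} (hf : TD f (i + j))
    (hf' : ∀ i' j', (f.coeff i').coeff j' ≠ 0 → i' + j' = i + j → i' ≤ i) (hg : TD g (k + l))
    (hg' : ∀ i' j', (g.coeff i').coeff j' ≠ 0 → i' + j' = k + l → i' ≤ k) :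
    ((f * g).coeff (i + k)).coeff (j + l) = (f.coeff i).coeff j * (g.coeff k).coeff l := by
  rw [TDeg_coeff_mul]
  have key : ∀ x ∈ Finset.HasAntidiagonal.antidiagonal (i + k), ∀ y ∈ Finset.HasAntidiagonal.antidiagonal (j + l),
      (f.coeff x.1).coeff y.1 * (g.coeff x.2).coeff y.2 ≠ 0 → x = (i, k) ∧ y = (j, l) := by
    intro x hx y hy h
    have h1 := left_ne_zero_of_mul h
    have h2 := right_ne_zero_of_mul h
    rw [Finset.HasAntidiagonal.mem_antidiagonal] at hx hy
    have h3 := hf _ _ h1
    have h4 := hg _ _ h2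
    have h5 := hf' _ _ h1 (by omega)
    have h6 := hg' _ _ h2 (by omega)
    constructor
    · ext <;> simp only <;> omega
    · ext <;> simp only <;> omega
  rw [Finset.sum_eq_single (i, k), Finset.sum_eq_single (j, l)]
  · intro y hy hne
    by_contra h
    exact hne (key (i, k) (by simp) y hy h).2
  · intro h
    exact absurd (by simp) h
  · intro x hx hne
    refine Finset.sum_eq_zero fun y hy => ?_
    by_contra h
    exact hne (key x hx y hy h).1
  · intro h
    exact absurd (by simp) h

theorem TD_zero (n : ℕ) : TD (0 : R[X][Y]) n := by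
  intro i j h
  simp at h

theorem TD_mono {f : R[X][Y]} {m n : ℕ} (h : TD f m) (hmn : m ≤ n) : TD f n := by
  intro i j h0
  exact (h i j h0).trans hmn

theorem TD_add {f g : R[X][Y]} {n : ℕ} (hf : TD f n) (hg : TD g n) : TD (f + g) n := by
  rw [TDeg_iff] at *
  intro i j hij
  simp [hf i j hij, hg i j hij]

theorem TD_neg {f : R[X][Y]} {n : ℕ} (hf : TD f n) : TD (-f) n := by
  rw [TDeg_iff] at *
  intro i j hij
  simp [hf i j hij]

theorem TD_sub {f g : R[X][Y]} {n : ℕ} (hf : TD f n) (hg : TD g n) : TD (f - g) n := by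
  rw [TDeg_iff] at *
  intro i j hij
  simp [hf i j hij, hg i j hij]

theorem TD_mul {f g : R[X][Y]} {m n : ℕ} (hf : TD f m) (hg : TD g n) : TD (f * g) (m + n) := by
  rw [TDeg_iff]
  intro i j hij
  rw [TDeg_coeff_mul]
  refine Finset.sum_eq_zero fun x hx => Finset.sum_eq_zero fun y hy => ?_
  by_contra h
  have h3 := hf _ _ (left_ne_zero_of_mul h)
  have h4 := hg _ _ (right_ne_zero_of_mul h)
  rw [Finset.HasAntidiagonal.mem_antidiagonal] at hx hy
  omega

theorem TD_sum {ι : Type*} (s : Finset ι) {f : ι → R[X][Y]} {n : ℕ} (hf : ∀ i ∈ s, TD (f i) n) :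
    TD (∑ i ∈ s, f i) n := by
  classical
  induction s using Finset.induction_on with
  | empty => simpa using TD_zero n
  | insert a s ha ih =>
    rw [Finset.sum_insert ha]
    exact TD_add (hf a (Finset.mem_insert_self a s))
      (ih fun i hi => hf i (Finset.mem_insert_of_mem hi))

theorem TD_smul {f : R[X][Y]} {n : ℕ} (c : R) (hf : TD f n) : TD (c • f) n := by
  rw [TDeg_iff] at *
  intro i j hij
  simp [hf i j hij]

theorem TD_C_C (a : R) : TD (C (C a) : R[X][Y]) 0 := by
  exact TDeg_C (by simp)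

theorem TD_natCast (a : ℕ) : TD (a : R[X][Y]) 0 := by
  have h : (a : R[X][Y]) = C (C (a : R)) := by simp
  rw [h]
  exact TD_C_C _

theorem TD_one : TD (1 : R[X][Y]) 0 := by
  have h : (1 : R[X][Y]) = C (C (1 : R)) := by simp
  rw [h]
  exact TD_C_C _

theorem TD_Y : TD (Y : R[X][Y]) 1 := by
  intro i j h
  rw [coeff_X] at h
  split_ifs at h with h0
  · subst h0
    rw [coeff_one] at h
    split_ifs at h with h1
    · subst h1; omega
    · simp at h
  · simp at h

theorem TD_CX : TD (C X : R[X][Y]) 1 := by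
  exact TDeg_C natDegree_X_le

theorem TD_pow {f : R[X][Y]} {n : ℕ} (hf : TD f n) (k : ℕ) : TD (f ^ k) (k * n) := by
  induction k with
  | zero => simpa using TD_one
  | succ k ih =>
    rw [pow_succ, Nat.succ_mul]
    exact TD_mul ih hf

theorem TD_dX {f : R[X][Y]} {n : ℕ} (hf : TD f n) : TD (dX f) (n - 1) := by
  rw [TDeg_iff] at *
  intro i j hij
  rw [dX_coeff, coeff_derivative, hf i (j + 1) (by omega), zero_mul]

theorem TD_dY {f : R[X][Y]} {n : ℕ} (hf : TD f n) : TD (dY f) (n - 1) := by
  rw [TDeg_iff] at *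
  intro i j hij
  unfold dY
  rw [coeff_derivative]
  have h1 : ((i : R[X]) + 1) = C ((i : R) + 1) := by simp
  rw [h1, coeff_mul_C, hf (i + 1) j (by omega), zero_mul]

/-- `D ≥ 1`: note that `dX f = 0 = dY f` if `n = 0` -/
theorem TD_DD {G f : R[X][Y]} {D n : ℕ} (hD : 1 ≤ D) (hG : TD G D) (hf : TD f n) :
    TD (DD G f) (n + D) := by
  rcases Nat.eq_zero_or_pos n with h0 | h0
  · subst h0
    have h1 : dX f = 0 := by
      ext i j
      rw [TDeg_iff] at hf
      rw [dX_coeff, coeff_derivative, hf i (j + 1) (by omega)]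
      simp
    have h2 : dY f = 0 := by
      ext i j
      rw [TDeg_iff] at hf
      unfold dY
      rw [coeff_derivative]
      have h1 : ((i : R[X]) + 1) = C ((i : R) + 1) := by simp
      rw [h1, coeff_mul_C, hf (i + 1) j (by omega)]
      simp
    unfold DD
    rw [h1, h2, mul_zero, mul_zero, sub_zero, mul_zero]
    exact TD_zero _
  · have h1 : TD (C X * Y * (dY G * dX f - dX G * dY f)) (1 + 1 + ((D - 1) + (n - 1))) :=
      TD_mul (TD_mul TD_CX TD_Y) (TD_sub (TD_mul (TD_dY hG) (TD_dX hf))
        (TD_mul (TD_dX hG) (TD_dY hf)))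
    exact TD_mono h1 (by omega)

theorem TD_Del {G : R[X][Y]} {D n : ℕ} (hD : 1 ≤ D) (hG : TD G D) (p : ℕ)
    {r : Fin 3 → R[X][Y]} (hr : ∀ i, TD (r i) n) (i : Fin 3) : TD (Del G p r i) (n + D) := by
  have h1 : TD ((p : R[X][Y]) * (Y * dY G * r 0)) (n + D) :=
    TD_mono (TD_mul (TD_natCast p) (TD_mul (TD_mul TD_Y (TD_dY hG)) (hr 0))) (by omega)
  have h2 : TD ((p : R[X][Y]) * (C X * dX G * r 1)) (n + D) :=
    TD_mono (TD_mul (TD_natCast p) (TD_mul (TD_mul TD_CX (TD_dX hG)) (hr 1))) (by omega)
  fin_cases i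
  · exact TD_add (TD_DD hD hG (hr 0)) h1
  · exact TD_sub (TD_DD hD hG (hr 1)) h2
  · exact TD_DD hD hG (hr 2)

theorem TD_Del_iter {G : R[X][Y]} {D n : ℕ} (hD : 1 ≤ D) (hG : TD G D) (p : ℕ)
    {r : Fin 3 → R[X][Y]} (hr : ∀ i, TD (r i) n) (k : ℕ) (i : Fin 3) :
    TD ((Del G p)^[k] r i) (n + k * D) := by
  induction k generalizing i with
  | zero => simpa using hr i
  | succ k ih =>
    rw [Function.iterate_succ_apply']
    exact TD_mono (TD_Del hD hG p ih i) (by rw [Nat.succ_mul]; omega)

theorem TD_natDegree {f : R[X][Y]} {n : ℕ} (hf : TD f n) : f.natDegree ≤ n := by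
  rw [TDeg_iff] at hf
  rw [natDegree_le_iff_coeff_eq_zero]
  intro N hN
  ext j
  rw [hf N j (by omega)]
  simp

theorem TD_coeff {f : R[X][Y]} {n : ℕ} (hf : TD f n) (i : ℕ) :
    (f.coeff i).natDegree ≤ n - i := by
  rw [TDeg_iff] at hf
  rw [natDegree_le_iff_coeff_eq_zero]
  intro N hN
  exact hf i N (by omega)

theorem TD_map {S : Type*} [CommRing S] (φ : R →+* S) {f : R[X][Y]} {n : ℕ} (hf : TD f n) :
    TD (f.map (mapRingHom φ)) n := by
  rw [TDeg_iff] at *
  intro i j hij
  rw [coeff_map, coe_mapRingHom, coeff_map, hf i j hij, map_zero]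

theorem TD_modByMonic {G : R[X][Y]} (hG : G.Monic) (hGD : TD G G.natDegree) {f : R[X][Y]}
    {n : ℕ} (hf : TD f n) : TD (f %ₘ G) n := by
  rcases subsingleton_or_nontrivial R with hR | hR
  · intro i j h
    exact absurd (Subsingleton.elim _ _) h
  have key : ∀ m : ℕ, ∀ f : R[X][Y], f.natDegree < m → TD f n →
      ∃ q : R[X][Y], TD (f - G * q) n ∧ (f - G * q).degree < G.degree := by
    intro m
    induction m with
    | zero =>
      intro f hm hf
      omega
    | succ m ih =>
      intro f hm hf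
      by_cases hlt : f.degree < G.degree
      · exact ⟨0, by simpa using hf, by simpa using hlt⟩
      · rw [not_lt] at hlt
        have hf0 : f ≠ 0 := by
          rintro rfl
          rw [degree_zero, le_bot_iff, degree_eq_bot] at hlt
          exact hG.ne_zero hlt
        have hdeg := div_wf_lemma ⟨hlt, hf0⟩ hG
        have hle : G.natDegree ≤ f.natDegree := natDegree_le_natDegree hlt
        have hn : f.natDegree ≤ n := TD_natDegree hf
        have h1 : TD (G * (C f.leadingCoeff * X ^ (f.natDegree - G.natDegree))) n := by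
          have h2 : TD (C f.leadingCoeff : R[X][Y]) (n - f.natDegree) :=
            TDeg_C (TD_coeff hf f.natDegree)
          have h3 := TD_mul hGD (TD_mul h2 (TD_pow TD_Y (f.natDegree - G.natDegree)))
          exact TD_mono h3 (by omega)
        by_cases hz : f - G * (C f.leadingCoeff * X ^ (f.natDegree - G.natDegree)) = 0
        · refine ⟨C f.leadingCoeff * X ^ (f.natDegree - G.natDegree), ?_, ?_⟩
          · rw [hz]; exact TD_zero n
          · rw [hz, degree_zero]
            exact bot_lt_iff_ne_bot.2 (degree_ne_bot.2 hG.ne_zero)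
        · have hnd := natDegree_lt_natDegree hz hdeg
          obtain ⟨q, hq1, hq2⟩ := ih _ (by omega) (TD_sub hf h1)
          refine ⟨C f.leadingCoeff * X ^ (f.natDegree - G.natDegree) + q, ?_, ?_⟩
          · rw [mul_add, ← sub_sub]; exact hq1
          · rw [mul_add, ← sub_sub]; exact hq2
  obtain ⟨q, hq1, hq2⟩ := key _ f (Nat.lt_succ_self _) hf
  have h := (div_modByMonic_unique q (f - G * q) hG ⟨by ring, hq2⟩).2
  rw [h]
  exact hq1

theorem swap_coeff (f : R[X][Y]) (i j : ℕ) :
    ((Bivariate.swap f).coeff i).coeff j = (f.coeff j).coeff i := by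
  induction f using Polynomial.induction_on' with
  | add p q hp hq => simp [hp, hq]
  | monomial n a =>
    induction a using Polynomial.induction_on' with
    | add p q hp hq =>
      rw [map_add, map_add]
      simp only [coeff_add, hp, hq]
    | monomial m r =>
      rw [Bivariate.swap_monomial_monomial]
      simp only [coeff_monomial]
      split_ifs <;> simp_all [coeff_monomial]

theorem TD_swap {f : R[X][Y]} {n : ℕ} (hf : TD f n) : TD (Bivariate.swap f) n := by
  intro i j h
  rw [swap_coeff] at h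
  have := hf _ _ h
  omega

theorem TD_quot [IsDomain R] {f s : R[X][Y]} {D n : ℕ} (hf : ∃ i j, (f.coeff i).coeff j ≠ 0 ∧ i + j = D)
    (hfD : TD f D) (hs : s ≠ 0) (h : TD (f * s) n) : D ≤ n ∧ TD s (n - D) := by
  obtain ⟨a, b, hab, habD⟩ := hf
  have hf0 : f ≠ 0 := by
    rintro rfl
    simp at hab
  obtain ⟨i, j, h1, h2, h3⟩ := TDeg_top hf0
  obtain ⟨k, l, h4, h5, h6⟩ := TDeg_top hs
  have h7 := TDeg_mul_top h2 h3 h5 h6
  have h8 := h (i + k) (j + l) (by rw [h7]; exact mul_ne_zero h1 h4)
  have h9 := h2 a b hab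
  have h10 := hfD i j h1
  refine ⟨by omega, TD_mono h5 (by omega)⟩

theorem TD_of_mul [IsDomain R] {f s : R[X][Y]} {n : ℕ} (hf : f ≠ 0) (hs : s ≠ 0)
    (h : TD (f * s) n) : TD f n ∧ TD s n := by
  obtain ⟨i, j, h1, h2, h3⟩ := TDeg_top hf
  obtain ⟨k, l, h4, h5, h6⟩ := TDeg_top hs
  have h7 := TDeg_mul_top h2 h3 h5 h6
  have h8 := h (i + k) (j + l) (by rw [h7]; exact mul_ne_zero h1 h4)
  exact ⟨TD_mono h2 (by omega), TD_mono h5 (by omega)⟩

/-- every nonzero polynomial has an exact total degree -/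
theorem exists_TD {f : R[X][Y]} (hf : f ≠ 0) :
    ∃ D, TD f D ∧ ∃ i j, (f.coeff i).coeff j ≠ 0 ∧ i + j = D := by
  obtain ⟨i, j, h1, h2, _⟩ := TDeg_top hf
  exact ⟨i + j, h2, i, j, h1, rfl⟩

end H9CV
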