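import Mathlib

set_option autoImplicit false

/-!
Project CV (MP_ef6a16_nt, helper9), module VertC: a count of lattice points.

`N = D ^ 2`. Pairs `(i, j)` with `i, j < N` and `i + j = s ≥ N - 1`: there are `2 N - 1 - s` of them (`s ≤ 2 N - 2`).
Left side: `s = N, ..., 2 N - 2`: `∑ = N (N - 1) / 2`. Right side: `s = N - 1, ..., 2 N - 1 - D`: `∑ = N (N + 1) / 2 - D (D - 1) / 2`.
Difference `N - D (D - 1) / 2 = D (D + 1) / 2 > 0`. (One can remove the common pairs `N ≤ s ≤ 2 N - 1 - D` first: left there remain the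
pairs with `2 N - D ≤ s`, these satisfy `N - D < i, j`, hence at most `(D - 1) ^ 2 < N` of them; right at least the `N` pairs
`(i, N - 1 - i)`, `s = N - 1`. So `card left ≤ card common + (D - 1) ^ 2 < card common + N ≤ card right`.)
-/

namespace H9CV

private theorem VertC_aux {D N : ℕ} (hD : 1 ≤ D) (hN : N = D ^ 2) :
    ((Finset.univ : Finset (Fin N × Fin N)).filter
      (fun x => N ≤ (x.1 : ℕ) + (x.2 : ℕ))).card <
    ((Finset.univ : Finset (Fin N × Fin N)).filter
      (fun x => N ≤ (x.1 : ℕ) + (x.2 : ℕ) + 1 ∧ (x.1 : ℕ) + (x.2 : ℕ) + D + 1 ≤ 2 * N)).card := by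
  have hDN : D ≤ N := by
    rw [hN]
    nlinarith
  set A := (Finset.univ : Finset (Fin N × Fin N)).filter (fun x => N ≤ (x.1 : ℕ) + (x.2 : ℕ))
    with hA
  set B := (Finset.univ : Finset (Fin N × Fin N)).filter
      (fun x => N ≤ (x.1 : ℕ) + (x.2 : ℕ) + 1 ∧ (x.1 : ℕ) + (x.2 : ℕ) + D + 1 ≤ 2 * N) with hB
  have h1 : (A \ B).card ≤ (D - 1) * (D - 1) := by
    have h2 : (A \ B).card ≤ (Finset.range (D - 1) ×ˢ Finset.range (D - 1)).card := by
      apply Finset.card_le_card_of_injOn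
        (fun x : Fin N × Fin N => ((x.1 : ℕ) - (N - D + 1), (x.2 : ℕ) - (N - D + 1)))
      · intro x hx
        rw [Finset.mem_coe, Finset.mem_sdiff, hA, hB, Finset.mem_filter, Finset.mem_filter] at hx
        obtain ⟨⟨_, hx1⟩, hx2⟩ := hx
        have hx3 : ¬ ((x.1 : ℕ) + (x.2 : ℕ) + D + 1 ≤ 2 * N) :=
          fun h => hx2 ⟨Finset.mem_univ _, by omega, h⟩
        have l1 := x.1.isLt
        have l2 := x.2.isLt
        rw [Finset.mem_coe, Finset.mem_product, Finset.mem_range, Finset.mem_range]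
        constructor
        · change (x.1 : ℕ) - (N - D + 1) < D - 1
          omega
        · change (x.2 : ℕ) - (N - D + 1) < D - 1
          omega
      · intro x hx y hy hxy
        rw [Finset.mem_coe, Finset.mem_sdiff, hA, hB, Finset.mem_filter, Finset.mem_filter]
          at hx hy
        obtain ⟨⟨_, hx1⟩, hx2⟩ := hx
        obtain ⟨⟨_, hy1⟩, hy2⟩ := hy
        have hx3 : ¬ ((x.1 : ℕ) + (x.2 : ℕ) + D + 1 ≤ 2 * N) :=
          fun h => hx2 ⟨Finset.mem_univ _, by omega, h⟩
        have hy3 : ¬ ((y.1 : ℕ) + (y.2 : ℕ) + D + 1 ≤ 2 * N) :=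
          fun h => hy2 ⟨Finset.mem_univ _, by omega, h⟩
        have l1 := x.1.isLt
        have l2 := x.2.isLt
        have l3 := y.1.isLt
        have l4 := y.2.isLt
        have e1 : (x.1 : ℕ) - (N - D + 1) = (y.1 : ℕ) - (N - D + 1) := congrArg Prod.fst hxy
        have e2 : (x.2 : ℕ) - (N - D + 1) = (y.2 : ℕ) - (N - D + 1) := congrArg Prod.snd hxy
        apply Prod.ext
        · apply Fin.ext
          omega
        · apply Fin.ext
          omega
    rwa [Finset.card_product, Finset.card_range] at h2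
  have h3 : N ≤ (B \ A).card := by
    have h4 : (Finset.univ : Finset (Fin N)).card ≤ (B \ A).card := by
      apply Finset.card_le_card_of_injOn (fun i : Fin N => (i, Fin.rev i))
      · intro i _
        have l1 := i.isLt
        have l2 : ((Fin.rev i : Fin N) : ℕ) = N - (i + 1) := Fin.val_rev i
        rw [Finset.mem_coe, Finset.mem_sdiff, hA, hB, Finset.mem_filter, Finset.mem_filter]
        refine ⟨⟨Finset.mem_univ _, ?_, ?_⟩, ?_⟩
        · change N ≤ (i : ℕ) + ((Fin.rev i : Fin N) : ℕ) + 1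
          omega
        · change (i : ℕ) + ((Fin.rev i : Fin N) : ℕ) + D + 1 ≤ 2 * N
          omega
        · rintro ⟨_, h⟩
          have h' : N ≤ (i : ℕ) + ((Fin.rev i : Fin N) : ℕ) := h
          omega
      · intro i _ j _ hij
        exact congrArg Prod.fst hij
    rwa [Finset.card_univ, Fintype.card_fin] at h4
  have h5 : (D - 1) * (D - 1) < N := by
    obtain ⟨k, rfl⟩ := Nat.exists_eq_add_of_le hD
    rw [hN, Nat.add_sub_cancel_left]
    nlinarith
  have h6 := Finset.card_sdiff_add_card_inter A B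
  have h7 := Finset.card_sdiff_add_card_inter B A
  rw [Finset.inter_comm] at h7
  omega

theorem vert_card {D : ℕ} (hD : 1 ≤ D) :
    ((Finset.univ : Finset (Fin (D ^ 2) × Fin (D ^ 2))).filter
      (fun x => D ^ 2 ≤ (x.1 : ℕ) + (x.2 : ℕ))).card <
    ((Finset.univ : Finset (Fin (D ^ 2) × Fin (D ^ 2))).filter
      (fun x => D ^ 2 ≤ (x.1 : ℕ) + (x.2 : ℕ) + 1 ∧ (x.1 : ℕ) + (x.2 : ℕ) + D + 1 ≤ 2 * D ^ 2)).card :=
  VertC_aux hD rfl

end H9CV
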