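import Pool.Agent.H9.CV.Sgl
import Pool.Agent.H9.CV.VertC

set_option autoImplicit false

/-!
Project CV (MP_ef6a16_nt, helper9), module VertS: forms `U, V` with `y ^ N U - x ^ N V = F Q` for a form `F` without the monomial
`z ^ D`.

`F ∈ ℤ[x, y, z]` homogeneous of degree `D ≥ 1`, coefficient of `z ^ D` zero, coefficients at most `A` in absolute value. `N = D ^ 2`.
Unknowns: the coefficients of `Q = ∑ q_ij x ^ i y ^ j z ^ (2 N - 1 - D - i - j)`, `i, j < N`, `N - 1 ≤ i + j ≤ 2 N - 1 - D`.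
Equations: the coefficients of `F Q` at `x ^ i y ^ j z ^ (2 N - 1 - i - j)`, `i, j < N`, `N ≤ i + j` (automatically `≤ 2 N - 2`), vanish.
The number of equations is smaller than the number of unknowns: `vert_card` (module VertC). (If `D = 1`: `N = 1`, one unknown `q_00`, no
equation, `Q = 1`.) Take for `α`, `β` the coercions to types of the two finsets in `vert_card` (`Fintype.card_coe`).
`siegel_gen` with `E = N ^ 2` (`card α ≤ N ^ 2`, difference `≥ 1`), entries = coefficients of `F`, `B = A`: a nonzero solution with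
`|q_ij| ≤ (N ^ 2 A) ^ (N ^ 2)`.
Then `F Q` is homogeneous of degree `2 N - 1` and has no monomial with both exponents `i, j < N` (for `i + j ≥ N` by the equations; for
`i + j < N`: a monomial of `F Q` is a product of a monomial of `F`, which has `(x, y)`-degree `≥ 1` since `z ^ D` does not occur, and
one of `Q`, of `(x, y)`-degree `≥ N - 1`, so `i + j ≥ N`). Split `F Q` = (monomials with `y`-exponent `≥ N`) + (the others, with
`x`-exponent `≥ N`) `= y ^ N U - x ^ N V`; `U, V` are homogeneous of degree `N - 1` (`MvPolynomial.monomial` sums). The coefficients of `U, V` are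
coefficients of `F Q` up to sign, at most `N ^ 2 * A * (N ^ 2 A) ^ (N ^ 2) ≤ (N ^ 2 A) ^ (N ^ 2 + 1)`.
-/

namespace H9CV

open MvPolynomial

private theorem VertS_deg {P : MvPolynomial (Fin 3) ℤ} {n : ℕ} (h : P.IsHomogeneous n)
    {m : Fin 3 →₀ ℕ} (hm : P.coeff m ≠ 0) : m 0 + m 1 + m 2 = n := by
  have h1 : m.degree = n := by
    by_contra hc
    exact hm (h.coeff_eq_zero hc)
  rw [Finsupp.degree_eq_sum, Fin.sum_univ_three] at h1
  exact h1

private theorem VertS_hom {P : MvPolynomial (Fin 3) ℤ} {n : ℕ}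
    (h : ∀ m, P.coeff m ≠ 0 → m 0 + m 1 + m 2 = n) : P.IsHomogeneous n := by
  intro m hm
  have h1 := h m hm
  rw [← Fin.sum_univ_three, ← Finsupp.degree_eq_sum, Finsupp.degree_eq_weight_one] at h1
  exact h1

private noncomputable def VertS_mo (a b c : ℕ) : Fin 3 →₀ ℕ :=
  Finsupp.single 0 a + Finsupp.single 1 b + Finsupp.single 2 c

private theorem VertS_mo0 (a b c : ℕ) : VertS_mo a b c 0 = a := by
  simp [VertS_mo]

private theorem VertS_mo1 (a b c : ℕ) : VertS_mo a b c 1 = b := by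
  simp [VertS_mo]

private theorem VertS_mo2 (a b c : ℕ) : VertS_mo a b c 2 = c := by
  simp [VertS_mo]

private theorem VertS_ext {m n : Fin 3 →₀ ℕ} (h0 : m 0 = n 0) (h1 : m 1 = n 1) (h2 : m 2 = n 2) :
    m = n := by
  ext i
  fin_cases i
  · exact h0
  · exact h1
  · exact h2

private theorem VertS_main {D N : ℕ} (hN : 1 ≤ N) {F : MvPolynomial (Fin 3) ℤ}
    (hF : F.IsHomogeneous D) (h0 : F.coeff (Finsupp.single 2 D) = 0) {A : ℝ} (hA : 1 ≤ A)
    (hFA : ∀ m, |((F.coeff m : ℤ) : ℝ)| ≤ A) (S T : Finset (Fin N × Fin N))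
    (hS : ∀ x, N ≤ (x.1 : ℕ) + (x.2 : ℕ) → x ∈ S)
    (hT : ∀ x ∈ T, N ≤ (x.1 : ℕ) + (x.2 : ℕ) + 1 ∧ (x.1 : ℕ) + (x.2 : ℕ) + D + 1 ≤ 2 * N)
    (hST : S.card < T.card) :
    ∃ Q U V : MvPolynomial (Fin 3) ℤ, Q ≠ 0 ∧ (∀ m ∈ Q.support, m 0 < N ∧ m 1 < N) ∧
      U.IsHomogeneous (N - 1) ∧ V.IsHomogeneous (N - 1) ∧
      X 1 ^ N * U - X 0 ^ N * V = F * Q ∧
      (∀ m, |((U.coeff m : ℤ) : ℝ)| ≤ ((N : ℝ) ^ 2 * A) ^ (N ^ 2 + 1)) ∧
      (∀ m, |((V.coeff m : ℤ) : ℝ)| ≤ ((N : ℝ) ^ 2 * A) ^ (N ^ 2 + 1)) := by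
  classical
  obtain ⟨e, he⟩ : ∃ e : Fin N × Fin N → (Fin 3 →₀ ℕ), ∀ l, e l = VertS_mo l.1 l.2
    (2 * N - 1 - D - l.1 - l.2) := ⟨_, fun _ => rfl⟩
  obtain ⟨f, hf⟩ : ∃ f : Fin N × Fin N → (Fin 3 →₀ ℕ), ∀ k, f k = VertS_mo k.1 k.2
    (2 * N - 1 - k.1 - k.2) := ⟨_, fun _ => rfl⟩
  have he0 : ∀ l, e l 0 = l.1 := fun l => by rw [he, VertS_mo0]
  have he1 : ∀ l, e l 1 = l.2 := fun l => by rw [he, VertS_mo1]
  have he2 : ∀ l, e l 2 = 2 * N - 1 - D - l.1 - l.2 := fun l => by rw [he, VertS_mo2]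
  have heinj : ∀ l l', e l = e l' → l = l' := by
    intro l l' h
    have h1 : ((l.1 : ℕ)) = l'.1 := by rw [← he0, ← he0, h]
    have h2 : ((l.2 : ℕ)) = l'.2 := by rw [← he1, ← he1, h]
    exact Prod.ext (Fin.ext h1) (Fin.ext h2)
  have hTN : T.card ≤ N ^ 2 := by
    have := Finset.card_le_univ T
    simpa [sq] using this
  have hent : ∀ m l, |((coeff m (F * monomial (e l) 1) : ℤ) : ℝ)| ≤ A := by
    intro m l
    rw [coeff_mul_monomial']
    split_ifs
    · rw [mul_one]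
      exact hFA _
    · simp only [Int.cast_zero, abs_zero]
      linarith
  have hE : Fintype.card S ≤ N ^ 2 * (Fintype.card T - Fintype.card S) := by
    rw [Fintype.card_coe, Fintype.card_coe]
    have h1 : 1 ≤ T.card - S.card := by omega
    calc S.card ≤ T.card := hST.le
      _ ≤ N ^ 2 * 1 := by rw [mul_one]; exact hTN
      _ ≤ N ^ 2 * (T.card - S.card) := Nat.mul_le_mul_left _ h1
  obtain ⟨ξ, hξ0, hξM, hξB⟩ := siegel_gen S T
    (Matrix.of fun (k : S) (l : T) => coeff (f k) (F * monomial (e l) 1)) (N ^ 2)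
    (by rw [Fintype.card_coe, Fintype.card_coe]; exact hST) hE A hA
    (fun k l => by rw [Matrix.of_apply]; exact hent _ _)
  obtain ⟨Q, hQ⟩ : ∃ Q : MvPolynomial (Fin 3) ℤ, Q = ∑ l : T, monomial (e l) (ξ l) := ⟨_, rfl⟩
  have hcQ : ∀ m, coeff m Q = ∑ l : T, if e l = m then ξ l else 0 := by
    intro m
    rw [hQ, coeff_sum]
    exact Finset.sum_congr rfl fun l _ => coeff_monomial _ _ _
  have hFQ : ∀ m, coeff m (F * Q) = ∑ l : T, coeff m (F * monomial (e l) 1) * ξ l := by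
    intro m
    rw [hQ, Finset.mul_sum, coeff_sum]
    refine Finset.sum_congr rfl fun l _ => ?_
    rw [coeff_mul_monomial', coeff_mul_monomial']
    split_ifs
    · ring
    · ring
  -- a nonzero coefficient of `F Q`
  have hex : ∀ m, coeff m (F * Q) ≠ 0 → ∃ l ∈ T, e l ≤ m ∧ coeff (m - e l) F ≠ 0 := by
    intro m hm
    rw [hFQ] at hm
    obtain ⟨l, _, hl⟩ := Finset.exists_ne_zero_of_sum_ne_zero hm
    have h1 := left_ne_zero_of_mul hl
    rw [coeff_mul_monomial'] at h1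
    split_ifs at h1 with h2
    · rw [mul_one] at h1
      exact ⟨l, l.2, h2, h1⟩
    · exact absurd rfl h1
  have hdeg : ∀ m, coeff m (F * Q) ≠ 0 → m 0 + m 1 + m 2 = 2 * N - 1 := by
    intro m hm
    obtain ⟨l, hl, h1, h2⟩ := hex m hm
    have h3 := VertS_deg hF h2
    have g0 := h1 0
    have g1 := h1 1
    have g2 := h1 2
    rw [he0] at g0
    rw [he1] at g1
    rw [he2] at g2
    rw [Finsupp.tsub_apply, Finsupp.tsub_apply, Finsupp.tsub_apply, he0, he1, he2] at h3
    have h4 := hT l hl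
    omega
  have hkey : ∀ m, coeff m (F * Q) ≠ 0 → N ≤ m 0 ∨ N ≤ m 1 := by
    intro m hm
    by_contra hc
    rw [not_or, not_le, not_le] at hc
    have hd := hdeg m hm
    by_cases hs : N ≤ m 0 + m 1
    · have hk : ((⟨m 0, hc.1⟩, ⟨m 1, hc.2⟩) : Fin N × Fin N) ∈ S := hS _ hs
      have h1 := congrFun hξM ⟨_, hk⟩
      rw [Matrix.mulVec, dotProduct] at h1
      simp only [Matrix.of_apply, Pi.zero_apply] at h1
      rw [← hFQ] at h1
      have h2 : f (⟨m 0, hc.1⟩, ⟨m 1, hc.2⟩) = m := by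
        rw [hf]
        refine VertS_ext ?_ ?_ ?_
        · rw [VertS_mo0]
        · rw [VertS_mo1]
        · rw [VertS_mo2]
          simp only
          omega
      rw [h2] at h1
      exact hm h1
    · obtain ⟨l, hl, h1, h2⟩ := hex m hm
      have h3 := VertS_deg hF h2
      have g0 := h1 0
      have g1 := h1 1
      rw [he0] at g0
      rw [he1] at g1
      have h4 := hT l hl
      have h5 : m - e l = Finsupp.single 2 D := by
        have k0 : (m - e l) 0 = 0 := by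
          rw [Finsupp.tsub_apply, he0]
          omega
        have k1 : (m - e l) 1 = 0 := by
          rw [Finsupp.tsub_apply, he1]
          omega
        refine VertS_ext ?_ ?_ ?_
        · rw [k0]
          simp
        · rw [k1]
          simp
        · rw [k0, k1] at h3
          rw [Finsupp.single_eq_same]
          omega
      rw [h5] at h2
      exact h2 h0
  -- the size
  have hT0 : (0 : ℝ) ≤ T.card := Nat.cast_nonneg _
  have hTN' : (T.card : ℝ) ≤ (N : ℝ) ^ 2 := by exact_mod_cast hTN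
  have hsz : ∀ m, |((coeff m (F * Q) : ℤ) : ℝ)| ≤ ((N : ℝ) ^ 2 * A) ^ (N ^ 2 + 1) := by
    intro m
    rw [hFQ]
    push_cast
    calc |∑ l : T, ((coeff m (F * monomial (e l) 1) : ℤ) : ℝ) * ((ξ l : ℤ) : ℝ)|
        ≤ ∑ l : T, |((coeff m (F * monomial (e l) 1) : ℤ) : ℝ) * ((ξ l : ℤ) : ℝ)| :=
          Finset.abs_sum_le_sum_abs _ _
      _ ≤ ∑ l : T, A * (T.card * A) ^ (N ^ 2) := by
          refine Finset.sum_le_sum fun l _ => ?_
          rw [abs_mul]
          have h1 := hξB l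
          rw [Fintype.card_coe] at h1
          exact mul_le_mul (hent m l) h1 (abs_nonneg _) (by linarith)
      _ = (T.card * A) ^ (N ^ 2 + 1) := by
          rw [Finset.sum_const, Finset.card_univ, Fintype.card_coe, nsmul_eq_mul, pow_succ]
          ring
      _ ≤ ((N : ℝ) ^ 2 * A) ^ (N ^ 2 + 1) := by
          apply pow_le_pow_left₀ (mul_nonneg hT0 (by linarith))
          exact mul_le_mul_of_nonneg_right hTN' (by linarith)
  have hpos : (0 : ℝ) ≤ ((N : ℝ) ^ 2 * A) ^ (N ^ 2 + 1) := by positivity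
  obtain ⟨R, hR⟩ : ∃ R : MvPolynomial (Fin 3) ℤ, R = (F * Q).modMonomial (Finsupp.single 1 N) := ⟨_, rfl⟩
  have hRc : ∀ m, coeff m R = if Finsupp.single 1 N ≤ m then 0 else coeff m (F * Q) := by
    intro m
    rw [hR]
    split_ifs with h
    · exact coeff_modMonomial_of_le _ h
    · exact coeff_modMonomial_of_not_le _ h
  have hR0 : R.modMonomial (Finsupp.single 0 N) = 0 := by
    ext m
    rw [coeff_zero]
    by_cases h1 : Finsupp.single 0 N ≤ m
    · exact coeff_modMonomial_of_le _ h1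
    · rw [coeff_modMonomial_of_not_le _ h1, hRc]
      split_ifs with h2
      · rfl
      · by_contra hc
        rcases hkey m hc with h3 | h3
        · exact h1 (Finsupp.single_le_iff.2 h3)
        · exact h2 (Finsupp.single_le_iff.2 h3)
  refine ⟨Q, (F * Q).divMonomial (Finsupp.single 1 N), -(R.divMonomial (Finsupp.single 0 N)), ?_, ?_,
    ?_, ?_, ?_, ?_, ?_⟩
  · intro hQ0
    apply hξ0
    funext l
    have h1 := hcQ (e l)
    rw [hQ0, coeff_zero, Finset.sum_eq_single l] at h1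
    · rw [if_pos rfl] at h1
      exact h1.symm
    · intro l' _ hne
      rw [if_neg]
      intro h2
      exact hne (Subtype.ext (heinj _ _ h2))
    · intro h2
      exact absurd (Finset.mem_univ l) h2
  · intro m hm
    rw [mem_support_iff, hcQ] at hm
    obtain ⟨l, _, hl⟩ := Finset.exists_ne_zero_of_sum_ne_zero hm
    split_ifs at hl with h1
    · rw [← h1, he0, he1]
      exact ⟨l.1.1.isLt, l.1.2.isLt⟩
    · exact absurd rfl hl
  · apply VertS_hom
    intro m hm
    rw [coeff_divMonomial] at hm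
    have h1 := hdeg _ hm
    simp only [Finsupp.add_apply, Finsupp.single_apply] at h1
    simp at h1
    omega
  · apply VertS_hom
    intro m hm
    rw [coeff_neg, neg_ne_zero, coeff_divMonomial, hRc] at hm
    split_ifs at hm with h2
    · exact absurd rfl hm
    · have h1 := hdeg _ hm
      simp only [Finsupp.add_apply, Finsupp.single_apply] at h1
      simp at h1
      omega
  · have h1 := divMonomial_add_modMonomial (F * Q) (Finsupp.single 1 N)
    have h2 := divMonomial_add_modMonomial R (Finsupp.single 0 N)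
    rw [hR0, add_zero] at h2
    rw [← hR] at h1
    rw [X_pow_eq_monomial, X_pow_eq_monomial, mul_neg, sub_neg_eq_add, h2, h1]
  · intro m
    rw [coeff_divMonomial]
    exact hsz _
  · intro m
    rw [coeff_neg, coeff_divMonomial, hRc, Int.cast_neg, abs_neg]
    split_ifs with h2
    · rw [Int.cast_zero, abs_zero]
      exact hpos
    · exact hsz _

theorem vert_siegel {D : ℕ} (hD : 1 ≤ D) {F : MvPolynomial (Fin 3) ℤ} (hF : F.IsHomogeneous D)
    (h0 : F.coeff (Finsupp.single 2 D) = 0) {A : ℝ} (hA : 1 ≤ A)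
    (hFA : ∀ m, |((F.coeff m : ℤ) : ℝ)| ≤ A) :
    ∃ Q U V : MvPolynomial (Fin 3) ℤ, Q ≠ 0 ∧ (∀ m ∈ Q.support, m 0 < D ^ 2 ∧ m 1 < D ^ 2) ∧
      U.IsHomogeneous (D ^ 2 - 1) ∧ V.IsHomogeneous (D ^ 2 - 1) ∧
      X 1 ^ (D ^ 2) * U - X 0 ^ (D ^ 2) * V = F * Q ∧
      (∀ m, |((U.coeff m : ℤ) : ℝ)| ≤ ((D : ℝ) ^ 4 * A) ^ (D ^ 4 + 1)) ∧
      (∀ m, |((V.coeff m : ℤ) : ℝ)| ≤ ((D : ℝ) ^ 4 * A) ^ (D ^ 4 + 1)) := by
  have h1 := VertS_main (D := D) (N := D ^ 2) (Nat.one_le_pow _ _ hD) hF h0 hA hFA _ _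
    (fun x hx => Finset.mem_filter.2 ⟨Finset.mem_univ x, hx⟩)
    (fun x hx => (Finset.mem_filter.1 hx).2) (vert_card hD)
  have e1 : ((D ^ 2 : ℕ) : ℝ) ^ 2 = (D : ℝ) ^ 4 := by
    push_cast
    ring
  have e2 : (D ^ 2) ^ 2 = D ^ 4 := by ring
  rw [e1, e2] at h1
  exact h1

end H9CV
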