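import Pool.Agent.H9.CV.Zer
import Pool.Agent.H9.CV.Deg
import Pool.Agent.H9.CV.DelSz
import Pool.Agent.H93.PadeHeight

set_option autoImplicit false

/-!
Project CV (MP_ef6a16_nt, helper9), module Wro: if all the derived relations at `P` are proportional to the Fermat relation,
then the Wronskians of `y_i = mon i * r i` are divisible by `H`.

Notation: `D = natDegree H`, `m = mon K p`, `y_i = m_i * r_i`, `W i j = y_i * DD G y_j - y_j * DD G y_i`,
`ρ^k = ev ((Del G p)^[k] r)`, `A_i = ev (m_i)` (`A = (a ^ p, b ^ p, 1)`, all nonzero), `φ·A = 0`.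
1. `ev (DD^k y_i) = A_i ρ^k_i` (`DD_mon_iter`). `cross ρ^k φ = 0` and all `φ_i ≠ 0` give `ρ^k_i φ_j = ρ^k_j φ_i`.
   So with `B_i = A_i φ_i ≠ 0`: `B_j ev (DD^k y_i) = B_i ev (DD^k y_j)` for `k < N`, i.e. `VO N (B_j • y_i - B_i • y_j)`
   (`iter_sub`, `iter_smul`; `⇑(DDer G) = DD G` definitionally).
2. `VO (N - 1) (W i j)`: with `z = B_j • y_i - B_i • y_j`: `B_i • W i j = y_i DD (B_j y_i - z) - (B_j y_i - z) DD y_i =
   z DD y_i - y_i DD z`; `VO_mul`, `VO_D`, `VO_sub`, `VO_mono`, `VO_smul`.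
3. `W i j = m_i m_j E i j`, `E i j = r_i (Del r)_j - r_j (Del r)_i` (`DD_mon`), `ev (m_i m_j) ≠ 0`, so `VO (N - 1) (E i j)`
   (`VO_cancel`).
4. Let `q = ∑ m_i r_i`, `q' = ∑ m_i (Del r)_i`, both divisible by `H` (`Del_dvd` with `k = 1`). With
   `e = (E 1 2, E 2 0, E 0 1) = r × Del r` the vector `e × m = (Del r)(r·m) - r (Del r·m)` is divisible by `H`; so
   `H ∣ E 1 2 - x ^ p E 0 1` and `H ∣ E 2 0 - y ^ p E 0 1` (`m_2 = 1`), each is `±((Del r)_i q - r_i q')` for `i = 1, 0` (ring).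
5. Let `λ = E 0 1 %ₘ H`. If `λ ≠ 0`: `C X ^ p * λ` has `natDegree < D`, is congruent to `E 1 2` mod `H`, hence equal to
   `E 1 2 %ₘ H`, of total degree `≤ 2 n0 + DG ≤ p + e` (`TD_mul`, `TD_Del`, `TD_modByMonic`). So `TD λ e` (a monomial
   `x ^ j y ^ i` of `λ` gives `x ^ (j + p) y ^ i`). `λ` vanishes to order `N - 1` (it is `E 0 1` minus a multiple of `H`,
   `VO_self`), so `N - 1 ≤ D (e + D)` by `VO_le`, contradicting `hN`. So `λ = 0`: `H ∣ E 0 1`, then `H ∣ E 1 2`,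
   `H ∣ E 2 0` by 4, and `H ∣ W i j` for all `i, j`.
-/

namespace H9CV

open Polynomial
open scoped Polynomial.Bivariate

variable {K : Type*} [Field K]

private theorem Wro_ev_mon {a b : K} (ha : a ≠ 0) (hb : b ≠ 0) (p : ℕ) (i : Fin 3) :
    evA a b (mon K p i) ≠ 0 := by
  fin_cases i
  · show evA a b ((C X) ^ p) ≠ 0
    rw [map_pow]
    have h : evA a b (C X) = a := by simp [evA]
    rw [h]
    exact pow_ne_zero _ ha
  · show evA a b (Y ^ p) ≠ 0
    rw [map_pow]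
    have h : evA a b (Y : K[X][Y]) = b := by simp [evA]
    rw [h]
    exact pow_ne_zero _ hb
  · show evA a b 1 ≠ 0
    rw [map_one]
    exact one_ne_zero

private theorem Wro_cross {ρ φ : Fin 3 → K} (h : Pool.Agent.H93.cross ρ φ = 0) (i j : Fin 3) :
    ρ i * φ j = ρ j * φ i := by
  have h0 : ρ 1 * φ 2 - ρ 2 * φ 1 = 0 := congrFun h 0
  have h1 : ρ 2 * φ 0 - ρ 0 * φ 2 = 0 := congrFun h 1
  have h2 : ρ 0 * φ 1 - ρ 1 * φ 0 = 0 := congrFun h 2
  fin_cases i <;> fin_cases j <;>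
    simp only [Fin.zero_eta, Fin.mk_one, Fin.reduceFinMk] <;>
    first | rfl | linear_combination h0 | linear_combination h1 | linear_combination h2 |
      linear_combination -h0 | linear_combination -h1 | linear_combination -h2

private theorem Wro_VOz {G : K[X][Y]} {a b : K} {p : ℕ} {r : Fin 3 → K[X][Y]} {φ : Fin 3 → K}
    {N : ℕ}
    (hcr : ∀ k < N, Pool.Agent.H93.cross (fun i => evA a b ((Del G p)^[k] r i)) φ = 0)
    (i j : Fin 3) :
    VO (DDer G) (evA a b) N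
      ((evA a b (mon K p j) * φ j) • (mon K p i * r i) -
        (evA a b (mon K p i) * φ i) • (mon K p j * r j)) := by
  intro k hk
  rw [iter_sub, iter_smul, iter_smul]
  have e : ∀ l, (⇑(DDer G))^[k] (mon K p l * r l) = mon K p l * (Del G p)^[k] r l := fun l =>
    DD_mon_iter G p r k l
  rw [e i, e j, map_sub, map_smul, map_smul, map_mul, map_mul, smul_eq_mul, smul_eq_mul]
  have h := Wro_cross (hcr k hk) i j
  linear_combination (evA a b (mon K p i) * evA a b (mon K p j)) * h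

theorem all_wronsk_dvd [CharZero K] {G H : K[X][Y]} (hHG : H ∣ G) (hH : H.Monic)
    (hirr : Irreducible H) (hTD : TD H H.natDegree) {DG : ℕ} (hDG : 1 ≤ DG) (hTG : TD G DG)
    {a b : K} (ha : a ≠ 0) (hb : b ≠ 0) (hP : evA a b H = 0) (hs : evA a b (dY G) ≠ 0)
    {p n0 e : ℕ} {r : Fin 3 → K[X][Y]} (hr : ∀ i, TD (r i) n0)
    (hrel : H ∣ ∑ i, mon K p i * r i) (he : 2 * n0 + DG ≤ p + e)
    {φ : Fin 3 → K} (hφ : ∀ i, φ i ≠ 0) (hφP : φ 0 * a ^ p + φ 1 * b ^ p + φ 2 = 0)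
    {N : ℕ} (hN : H.natDegree * (e + H.natDegree) + 1 < N)
    (hcr : ∀ k < N, Pool.Agent.H93.cross (fun i => evA a b ((Del G p)^[k] r i)) φ = 0)
    (i j : Fin 3) :
    H ∣ (mon K p i * r i) * DD G (mon K p j * r j) - (mon K p j * r j) * DD G (mon K p i * r i) := by
  classical
  set m : Fin 3 → K[X][Y] := mon K p with hm
  set Δ : Fin 3 → K[X][Y] := Del G p r with hΔ
  have hNpos : N - 1 + 1 = N := by omega
  have hA : ∀ l, evA a b (m l) ≠ 0 := fun l => Wro_ev_mon ha hb p l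
  -- order of vanishing of the Wronskians
  have hWV : ∀ k l : Fin 3, VO (DDer G) (evA a b) (N - 1)
      ((m k * r k) * DD G (m l * r l) - (m l * r l) * DD G (m k * r k)) := by
    intro k l
    set Bk := evA a b (m k) * φ k with hBk
    set Bl := evA a b (m l) * φ l with hBl
    have hBk0 : Bk ≠ 0 := mul_ne_zero (hA k) (hφ k)
    have hz : VO (DDer G) (evA a b) N (Bl • (m k * r k) - Bk • (m l * r l)) := Wro_VOz hcr k l
    set z := Bl • (m k * r k) - Bk • (m l * r l) with hzd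
    have h1 : VO (DDer G) (evA a b) (N - 1) (DD G (m k * r k) * z) :=
      VO_mul _ _ _ (VO_mono _ _ (Nat.sub_le N 1) hz)
    have h2 : VO (DDer G) (evA a b) (N - 1) ((m k * r k) * DD G z) :=
      VO_mul _ _ _ (VO_D _ _ (by rw [hNpos]; exact hz))
    have h3 : (m k * r k) * DD G (m l * r l) - (m l * r l) * DD G (m k * r k) =
        Bk⁻¹ • (DD G (m k * r k) * z - (m k * r k) * DD G z) := by
      have e1 : m l * r l = Bk⁻¹ • (Bl • (m k * r k) - z) := by
        rw [hzd, sub_sub_cancel, smul_smul, inv_mul_cancel₀ hBk0, one_smul]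
      have e2 : DD G (m l * r l) = Bk⁻¹ • (Bl • DD G (m k * r k) - DD G z) := by
        have h5 : DD G (Bl • (m k * r k) - z) = Bl • DD G (m k * r k) - DD G z := by
          have h6 := (DDer G).map_sub (Bl • (m k * r k)) z
          rw [(DDer G).map_smul] at h6
          exact h6
        rw [← h5, ← DD_smul, ← e1]
      have sm : ∀ (c : K) (f : K[X][Y]), c • f = C (C c) * f := fun c f => Algebra.smul_def c f
      rw [e2, e1]
      simp only [sm]
      ring
    rw [h3]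
    exact VO_smul _ _ _ (VO_sub _ _ h1 h2)
  have hE : ∀ k l : Fin 3, (m k * r k) * DD G (m l * r l) - (m l * r l) * DD G (m k * r k) =
      (m k * m l) * (r k * Δ l - r l * Δ k) := by
    intro k l
    rw [hm, DD_mon, DD_mon]
    ring
  have hEV : ∀ k l : Fin 3, VO (DDer G) (evA a b) (N - 1) (r k * Δ l - r l * Δ k) := by
    intro k l
    have h := hWV k l
    rw [hE k l] at h
    refine VO_cancel _ _ ?_ h
    rw [map_mul]
    exact mul_ne_zero (hA k) (hA l)
  have m2 : m 2 = 1 := rfl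
  have m0 : m 0 = (C X) ^ p := rfl
  have hq : H ∣ m 0 * r 0 + m 1 * r 1 + r 2 := by
    have h := hrel
    rw [Fin.sum_univ_three] at h
    have h2 : mon K p 2 * r 2 = r 2 := by
      have : mon K p 2 = 1 := rfl
      rw [this, one_mul]
    rwa [h2] at h
  have hq' : H ∣ m 0 * Δ 0 + m 1 * Δ 1 + Δ 2 := by
    have h := Del_dvd hHG hrel 1
    rw [Fin.sum_univ_three] at h
    have h2 : mon K p 2 * (Del G p)^[1] r 2 = Δ 2 := by
      have : mon K p 2 = 1 := rfl
      rw [this, one_mul]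
      rfl
    rwa [h2] at h
  have h12 : H ∣ (r 1 * Δ 2 - r 2 * Δ 1) - m 0 * (r 0 * Δ 1 - r 1 * Δ 0) := by
    have e : (r 1 * Δ 2 - r 2 * Δ 1) - m 0 * (r 0 * Δ 1 - r 1 * Δ 0) =
        r 1 * (m 0 * Δ 0 + m 1 * Δ 1 + Δ 2) - Δ 1 * (m 0 * r 0 + m 1 * r 1 + r 2) := by ring
    rw [e]
    exact dvd_sub (hq'.mul_left _) (hq.mul_left _)
  have h20 : H ∣ (r 2 * Δ 0 - r 0 * Δ 2) - m 1 * (r 0 * Δ 1 - r 1 * Δ 0) := by
    have e : (r 2 * Δ 0 - r 0 * Δ 2) - m 1 * (r 0 * Δ 1 - r 1 * Δ 0) =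
        Δ 0 * (m 0 * r 0 + m 1 * r 1 + r 2) - r 0 * (m 0 * Δ 0 + m 1 * Δ 1 + Δ 2) := by ring
    rw [e]
    exact dvd_sub (hq.mul_left _) (hq'.mul_left _)
  -- the third coordinate is divisible by H
  have h01 : H ∣ r 0 * Δ 1 - r 1 * Δ 0 := by
    rw [← modByMonic_eq_zero_iff_dvd hH]
    by_contra hne
    set lam := (r 0 * Δ 1 - r 1 * Δ 0) %ₘ H with hlam
    have hH1 : H ≠ 1 := fun h => hirr.not_isUnit (h ▸ isUnit_one)
    have hdl : lam.natDegree < H.natDegree := natDegree_modByMonic_lt _ hH hH1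
    have hsub : r 0 * Δ 1 - r 1 * Δ 0 - lam = H * ((r 0 * Δ 1 - r 1 * Δ 0) /ₘ H) := by
      rw [hlam, modByMonic_eq_sub_mul_div]
      ring
    have hd12 : H ∣ (r 1 * Δ 2 - r 2 * Δ 1) - (C (X ^ p) : K[X][Y]) * lam := by
      have e : (r 1 * Δ 2 - r 2 * Δ 1) - (C (X ^ p) : K[X][Y]) * lam =
          ((r 1 * Δ 2 - r 2 * Δ 1) - m 0 * (r 0 * Δ 1 - r 1 * Δ 0)) +
            m 0 * (r 0 * Δ 1 - r 1 * Δ 0 - lam) := by
        rw [m0, C_pow]
        ring
      rw [e, hsub]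
      exact dvd_add h12 ((dvd_mul_right _ _).mul_left _)
    have hmod : (r 1 * Δ 2 - r 2 * Δ 1) %ₘ H = (C (X ^ p) : K[X][Y]) * lam := by
      rw [modByMonic_eq_of_dvd_sub hH hd12, (modByMonic_eq_self_iff hH).2]
      have hle : ((C (X ^ p) : K[X][Y]) * lam).degree ≤ lam.degree := by
        calc ((C (X ^ p) : K[X][Y]) * lam).degree
            ≤ (C (X ^ p) : K[X][Y]).degree + lam.degree := degree_mul_le _ _
          _ ≤ 0 + lam.degree := by gcongr; exact degree_C_le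
          _ = lam.degree := zero_add _
      exact lt_of_le_of_lt hle (degree_modByMonic_lt _ hH)
    have hT12 : TD (r 1 * Δ 2 - r 2 * Δ 1) (p + e) := by
      have t : ∀ k l : Fin 3, TD (r k * Δ l) (p + e) := fun k l =>
        TD_mono (TD_mul (hr k) (TD_Del hDG hTG p hr l)) (by omega)
      exact TD_sub (t 1 2) (t 2 1)
    have hTx : TD ((C (X ^ p) : K[X][Y]) * lam) (p + e) := by
      rw [← hmod]
      exact TD_modByMonic hH hTD hT12
    have hTl : TD lam e := by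
      intro k l hkl
      have h1 := hTx k (l + p) (by rw [coeff_C_mul, coeff_X_pow_mul]; exact hkl)
      omega
    have hVl : VO (DDer G) (evA a b) (N - 1) lam := by
      have e : lam = (r 0 * Δ 1 - r 1 * Δ 0) - H * ((r 0 * Δ 1 - r 1 * Δ 0) /ₘ H) := by
        rw [← hsub]
        ring
      rw [e]
      exact VO_sub _ _ (hEV 0 1) (VO_self hHG hP (dvd_mul_right _ _) _)
    have hle := VO_le hHG hH hirr hTD hne hdl hTl ha hb hP hs hVl
    omega
  have h12' : H ∣ r 1 * Δ 2 - r 2 * Δ 1 := (dvd_sub_left (h01.mul_left _)).mp h12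
  have h20' : H ∣ r 2 * Δ 0 - r 0 * Δ 2 := (dvd_sub_left (h01.mul_left _)).mp h20
  have hself : ∀ k : Fin 3, H ∣ r k * Δ k - r k * Δ k := fun k => by
    rw [sub_self]
    exact dvd_zero _
  have h10 : H ∣ r 1 * Δ 0 - r 0 * Δ 1 := (dvd_sub_comm).mp h01
  have h21 : H ∣ r 2 * Δ 1 - r 1 * Δ 2 := (dvd_sub_comm).mp h12'
  have h02 : H ∣ r 0 * Δ 2 - r 2 * Δ 0 := (dvd_sub_comm).mp h20'
  have hall : ∀ k l : Fin 3, H ∣ r k * Δ l - r l * Δ k := by
    intro k l
    have hk : k = 0 ∨ k = 1 ∨ k = 2 := by fin_cases k <;> simp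
    have hl : l = 0 ∨ l = 1 ∨ l = 2 := by fin_cases l <;> simp
    clear_value Δ
    rcases hk with rfl | rfl | rfl
    · rcases hl with rfl | rfl | rfl
      · exact hself 0
      · exact h01
      · exact h02
    · rcases hl with rfl | rfl | rfl
      · exact h10
      · exact hself 1
      · exact h12'
    · rcases hl with rfl | rfl | rfl
      · exact h20'
      · exact h21
      · exact hself 2
  rw [hE i j]
  exact (hall i j).mul_left _

end H9CV
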