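import Pool.Agent.H9.CV.ZerR
import Pool.Agent.H9.CV.Ord

set_option autoImplicit false

/-!
Project CV (MP_ef6a16_nt, helper9), module Zer: a polynomial of total degree `≤ e` which is not divisible by `H` vanishes
at a smooth point of `H = 0` at most to order `D (e + D)`, `D = natDegree H`. (`H` is an irreducible factor over `K` of the polynomial `G`
which defines the derivation `DD G`.)

* `VO_self`: the ideal `span {H}` is stable under `DD G` (`DD_dvd` in Defs) and killed by `ev`: `VO_of_mem`.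
* `VO_le`: with `D' = DDer G`, `ev = evA a b`: `H` vanishes to all orders, `f` to order `n`, so
  `C ρ = aeval (C X) ρ` vanishes to order `n` (`VO_add`, `VO_mul`); `DD G (C X) = x y G_y` has value `a b G_y(a, b) ≠ 0`;
  `VO_aeval_le`.
* `VO_fin`: replace `f` by `f %ₘ H ≠ 0` (`modByMonic_eq_sub_mul_div`, `VO_sub`, `VO_mul`), take `e` with `TD (f %ₘ H) e`
  (`exists_TD`).
-/

namespace H9CV

open Polynomial
open scoped Polynomial.Bivariate

variable {K : Type*} [Field K]

theorem evA_DD_CX (G : K[X][Y]) (a b : K) :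
    evA a b (DD G (C X)) = a * b * evA a b (dY G) := by
  have h : DD G (C X) = C X * Y * dY G := by
    unfold DD
    rw [dX_C, derivative_X, C_1, mul_one]
    have : dY (C X : K[X][Y]) = 0 := derivative_C
    rw [this, mul_zero, sub_zero]
  have h1 : evA a b (C X : K[X][Y]) = a := aevalAeval_X a b
  have h2 : evA a b (Y : K[X][Y]) = b := aevalAeval_Y a b
  rw [h, map_mul, map_mul, h1, h2]

theorem VO_self {G H : K[X][Y]} (hHG : H ∣ G) {a b : K} (hP : evA a b H = 0) {f : K[X][Y]}
    (hf : H ∣ f) (n : ℕ) : VO (DDer G) (evA a b) n f := by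
  refine VO_of_mem (DDer G) (evA a b) (Ideal.span {H}) ?_ ?_ (Ideal.mem_span_singleton.mpr hf) n
  · intro g hg
    rw [Ideal.mem_span_singleton] at hg ⊢
    rw [DDer_apply]
    exact DD_dvd hHG hg
  · intro g hg
    rw [Ideal.mem_span_singleton] at hg
    obtain ⟨c, rfl⟩ := hg
    rw [map_mul, hP, zero_mul]

theorem VO_le [CharZero K] {G H f : K[X][Y]} (hHG : H ∣ G) (hH : H.Monic) (hirr : Irreducible H)
    (hTD : TD H H.natDegree) (hf0 : f ≠ 0) (hdeg : f.natDegree < H.natDegree) {e : ℕ}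
    (he : TD f e) {a b : K} (ha : a ≠ 0) (hb : b ≠ 0) (hP : evA a b H = 0)
    (hs : evA a b (dY G) ≠ 0) {n : ℕ} (h : VO (DDer G) (evA a b) n f) :
    n ≤ H.natDegree * (e + H.natDegree) := by
  obtain ⟨ρ, u, w, hρ, hdρ, hid⟩ := res_bound hH hirr hTD hf0 hdeg he
  have h1 : VO (DDer G) (evA a b) n (H * u) := VO_self hHG hP (dvd_mul_right H u) n
  have h2 : VO (DDer G) (evA a b) n (f * w) := by
    rw [mul_comm]
    exact VO_mul _ _ w h
  have h3 : aeval (C X : K[X][Y]) ρ = C ρ := by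
    have := aeval_algHom_apply (CAlgHom (R := K) (A := K[X])) X ρ
    rw [aeval_X_left_apply] at this
    exact this
  have h4 : VO (DDer G) (evA a b) n (aeval (C X : K[X][Y]) ρ) := by
    rw [h3, ← hid]
    exact VO_add _ _ h1 h2
  refine (VO_aeval_le (DDer G) (evA a b) ?_ hρ h4).trans hdρ
  rw [DDer_apply, evA_DD_CX]
  exact mul_ne_zero (mul_ne_zero ha hb) hs

theorem VO_fin [CharZero K] {G H f : K[X][Y]} (hHG : H ∣ G) (hH : H.Monic) (hirr : Irreducible H)
    (hTD : TD H H.natDegree) (hf : ¬ H ∣ f) {a b : K} (ha : a ≠ 0) (hb : b ≠ 0)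
    (hP : evA a b H = 0) (hs : evA a b (dY G) ≠ 0) :
    ∃ n, ¬ VO (DDer G) (evA a b) n f := by
  by_contra hcon
  push Not at hcon
  have h1 : f %ₘ H ≠ 0 := fun h => hf ((modByMonic_eq_zero_iff_dvd hH).mp h)
  have hne : H ≠ 1 := fun h => hirr.not_isUnit (by rw [h]; exact isUnit_one)
  have h2 := natDegree_modByMonic_lt f hH hne
  obtain ⟨e, he, _⟩ := exists_TD h1
  have h3 : ∀ n, VO (DDer G) (evA a b) n (f %ₘ H) := by
    intro n
    rw [modByMonic_eq_sub_mul_div]
    exact VO_sub _ _ (hcon n) (VO_self hHG hP (dvd_mul_right _ _) n)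
  have h4 := VO_le hHG hH hirr hTD h1 h2 he ha hb hP hs (h3 (H.natDegree * (e + H.natDegree) + 1))
  omega

end H9CV
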