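import Pool.Agent.H9.CV.TDeg

set_option autoImplicit false

/-!
Project CV (MP_ef6a16_nt, helper9), module ZerR: the resultant with a monic irreducible polynomial over `K[x]`.
* `res_bound`: `ρ = Polynomial.resultant H f` (over `K[X]`, degrees `D = natDegree H` and `natDegree f`).
  `exists_mul_add_mul_eq_C_resultant` gives `H * u + f * w = C ρ`. `ρ ≠ 0`: map to `FractionRing K[X]` (or `RatFunc K`):
  `resultant_map_map`; `H` is irreducible there (`Polynomial.Monic.irreducible_iff_irreducible_map_fraction_map`),
  `f ≠ 0` has smaller degree so the two are coprime (`Irreducible.coprime_or_dvd`, degree), use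
  `resultant_eq_zero_iff`. Degree: the Sylvester matrix has `D` columns with entries coefficients of `f` (degree
  `≤ e`) and `natDegree f < D` columns with coefficients of `H` (degree `≤ D`): `natDegree det ≤ D e + D D`
  (`Matrix.det_apply`, `natDegree_sum_le_of_forall_le`, `natDegree_prod_le`, each permutation picks one entry
  of every column).
-/

namespace H9CV

open Polynomial
open scoped Polynomial.Bivariate

variable {K : Type*} [Field K]

private theorem ZerR_coeff {f : K[X][Y]} {e : ℕ} (he : TD f e) (i : ℕ) :
    (f.coeff i).natDegree ≤ e :=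
  (TD_coeff he i).trans (Nat.sub_le _ _)

private theorem ZerR_col {H f : K[X][Y]} {D n h e : ℕ} (hH : TD H h) (hf : TD f e)
    (i j : Fin (D + n)) : (sylvester H f D n i j).natDegree ≤
      j.addCases (motive := fun _ => ℕ) (fun _ => e) (fun _ => h) := by
  induction j using Fin.addCases with
  | left j1 =>
    rw [sylvester, Matrix.of_apply, Fin.addCases_left, Fin.addCases_left]
    split_ifs
    · exact ZerR_coeff hf _
    · simp
  | right j1 =>
    rw [sylvester, Matrix.of_apply, Fin.addCases_right, Fin.addCases_right]
    split_ifs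
    · exact ZerR_coeff hH _
    · simp

private theorem ZerR_deg {H f : K[X][Y]} {D n h e : ℕ} (hH : TD H h) (hf : TD f e) :
    (resultant H f D n).natDegree ≤ D * e + n * h := by
  unfold resultant
  rw [Matrix.det_apply]
  refine natDegree_sum_le_of_forall_le _ _ fun σ _ => ?_
  refine (natDegree_smul_le _ _).trans ?_
  refine (natDegree_prod_le _ _).trans ?_
  refine (Finset.sum_le_sum fun j _ => ZerR_col hH hf (σ j) j).trans (le_of_eq ?_)
  rw [Fin.sum_univ_add]
  simp only [Fin.addCases_left, Fin.addCases_right, Finset.sum_const, Finset.card_univ,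
    Fintype.card_fin, smul_eq_mul]

private theorem ZerR_ne {H f : K[X][Y]} (hH : H.Monic) (hirr : Irreducible H)
    (hf0 : f ≠ 0) (hdeg : f.natDegree < H.natDegree) :
    resultant H f H.natDegree f.natDegree ≠ 0 := by
  intro h
  have hinj : Function.Injective (algebraMap K[X] (FractionRing K[X])) :=
    IsFractionRing.injective K[X] (FractionRing K[X])
  have h1 : Irreducible (H.map (algebraMap K[X] (FractionRing K[X]))) :=
    (Polynomial.Monic.irreducible_iff_irreducible_map_fraction_map hH).1 hirr
  have h2 := resultant_map_map H f H.natDegree f.natDegree (algebraMap K[X] (FractionRing K[X]))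
  rw [h, map_zero] at h2
  have e1 : (H.map (algebraMap K[X] (FractionRing K[X]))).natDegree = H.natDegree :=
    natDegree_map_eq_of_injective hinj H
  have e2 : (f.map (algebraMap K[X] (FractionRing K[X]))).natDegree = f.natDegree :=
    natDegree_map_eq_of_injective hinj f
  have h3 : resultant (H.map (algebraMap K[X] (FractionRing K[X])))
      (f.map (algebraMap K[X] (FractionRing K[X]))) = 0 := by
    rw [e1, e2]
    exact h2
  rw [resultant_eq_zero_iff] at h3
  have hf1 : f.map (algebraMap K[X] (FractionRing K[X])) ≠ 0 := by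
    intro h4
    exact hf0 ((Polynomial.map_eq_zero_iff hinj).1 h4)
  rcases h1.isCoprime_or_dvd (f.map (algebraMap K[X] (FractionRing K[X]))) with h4 | h4
  · exact h3.2 h4
  · have h5 := natDegree_le_of_dvd h4 hf1
    rw [e1, e2] at h5
    omega

theorem res_bound {H f : K[X][Y]} (hH : H.Monic) (hirr : Irreducible H) (hTD : TD H H.natDegree)
    (hf0 : f ≠ 0) (hdeg : f.natDegree < H.natDegree) {e : ℕ} (he : TD f e) :
    ∃ (ρ : K[X]) (u w : K[X][Y]), ρ ≠ 0 ∧
      ρ.natDegree ≤ H.natDegree * (e + H.natDegree) ∧ H * u + f * w = C ρ := by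
  obtain ⟨u, w, -, -, h⟩ := exists_mul_add_mul_eq_C_resultant H f (m := H.natDegree)
    (n := f.natDegree) le_rfl le_rfl (Or.inl (by omega))
  refine ⟨_, u, w, ZerR_ne hH hirr hf0 hdeg, (ZerR_deg hTD he).trans ?_, h⟩
  rw [mul_add]
  exact Nat.add_le_add_left (Nat.mul_le_mul_right _ hdeg.le) _

end H9CV
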